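import Mathlib

/-!
Explicit exponents, part A: Cramer's rule for spanning families of integral equations, and the
trivial bound of a determinant.
-/

namespace Pool.Agent.Work.Eff

open Finset

theorem det_le_row {S : Type*} [Fintype S] [DecidableEq S] (M : Matrix S S ℤ) (N : S → ℕ)
    (h : ∀ s t, |M s t| ≤ N s) : |M.det| ≤ ((Fintype.card S).factorial : ℤ) * ∏ s, (N s : ℤ) := by
  rw [Matrix.det_apply]
  refine (Finset.abs_sum_le_sum_abs _ _).trans ?_
  have h1 : ∀ σ : Equiv.Perm S, |Equiv.Perm.sign σ • ∏ i, M (σ i) i| ≤ ∏ s, (N s : ℤ) := by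
    intro σ
    have h2 : |Equiv.Perm.sign σ • ∏ i, M (σ i) i| = ∏ i, |M (σ i) i| := by
      rcases Int.units_eq_one_or (Equiv.Perm.sign σ) with h | h
      · rw [h, one_smul, Finset.abs_prod]
      · rw [h, Units.smul_def, Units.val_neg, Units.val_one, neg_smul, one_smul, abs_neg,
          Finset.abs_prod]
    rw [h2, ← Equiv.prod_comp σ fun s => (N s : ℤ)]
    exact Finset.prod_le_prod (fun i _ => abs_nonneg _) fun i _ => h _ _
  refine (Finset.sum_le_sum fun σ _ => h1 σ).trans ?_
  rw [Finset.sum_const, Finset.card_univ, Fintype.card_perm, nsmul_eq_mul]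

theorem det_le_col {S : Type*} [Fintype S] [DecidableEq S] (M : Matrix S S ℤ) (N : S → ℕ)
    (h : ∀ s t, |M s t| ≤ N t) : |M.det| ≤ ((Fintype.card S).factorial : ℤ) * ∏ s, (N s : ℤ) := by
  rw [← Matrix.det_transpose]
  exact det_le_row _ N fun s t => h t s

/-- a solution of a spanning integral system has the determinant of a subsystem as denominator -/
theorem cramer {F : Type*} [Field F] [CharZero F] {S : Type*} [Fintype S] [DecidableEq S]
    {I : Type*} (R : I → S → ℤ) (c : S → F) (h : I → ℤ)
    (hspan : Submodule.span F (Set.range fun i => fun s => (R i s : F)) = ⊤)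
    (heq : ∀ i, ∑ s, (R i s : F) * c s = h i) :
    ∃ ρ : S → I, Function.Injective ρ ∧ (Matrix.of fun s t => R (ρ s) t).det ≠ 0 ∧
      ∀ t, ∃ z : ℤ, (z : F) = (((Matrix.of fun s t => R (ρ s) t).det : ℤ) : F) * c t := by
  classical
  let B := Module.Basis.ofSpan (K := F) (le_of_eq hspan.symm)
  let e := (Pi.basisFun F S).indexEquiv B
  have hex : ∀ s : S, ∃ i, (fun t => (R i t : F)) = B (e s) := by
    intro s
    exact Module.Basis.ofSpan_subset (K := F) (le_of_eq hspan.symm) (Set.mem_range_self (e s))
  choose ρ hρ using hex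
  have hinj : Function.Injective ρ := by
    intro s t hst
    have h1 : B (e s) = B (e t) := by rw [← hρ, ← hρ, hst]
    exact e.injective (B.injective h1)
  refine ⟨ρ, hinj, ?_, ?_⟩
  · have hli : LinearIndependent F fun s => (Matrix.of fun s t => (R (ρ s) t : F)) s := by
      have h1 : (fun s => (Matrix.of fun s t => (R (ρ s) t : F)) s) = fun s => B (e s) := by
        funext s
        rw [← hρ s]
        rfl
      rw [h1]
      exact B.linearIndependent.comp e e.injective
    have hu := (Matrix.linearIndependent_rows_iff_isUnit.1 hli)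
    rw [Matrix.isUnit_iff_isUnit_det] at hu
    intro h0
    have h2 : (Matrix.of fun s t => (R (ρ s) t : F)).det =
        (((Matrix.of fun s t => R (ρ s) t).det : ℤ) : F) := by
      have := (Int.castRingHom F).map_det (Matrix.of fun s t => R (ρ s) t)
      rw [eq_intCast] at this
      rw [this]
      rfl
    rw [h2, h0, Int.cast_zero] at hu
    exact not_isUnit_zero hu
  · intro t
    set M : Matrix S S ℤ := Matrix.of fun s t => R (ρ s) t with hM
    refine ⟨∑ s, M.adjugate t s * h (ρ s), ?_⟩
    have h1 : ∀ s, (h (ρ s) : F) = ∑ u, (M s u : F) * c u := fun s => (heq (ρ s)).symm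
    have hR : ((∑ s, M.adjugate t s * h (ρ s) : ℤ) : F) =
        ∑ s, (M.adjugate t s : F) * (h (ρ s) : F) := by
      push_cast
      rfl
    rw [hR]
    simp only [h1, Finset.mul_sum]
    rw [Finset.sum_comm]
    have h2 : ∀ u, ∑ s, (M.adjugate t s : F) * ((M s u : F) * c u) =
        (((M.adjugate * M) t u : ℤ) : F) * c u := by
      intro u
      rw [Matrix.mul_apply]
      push_cast
      rw [Finset.sum_mul]
      exact Finset.sum_congr rfl fun s _ => by ring
    simp only [h2, Matrix.adjugate_mul]
    rw [Finset.sum_eq_single t]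
    · rw [Matrix.smul_apply, Matrix.one_apply_eq, smul_eq_mul, mul_one]
    · intro u _ hu
      rw [Matrix.smul_apply, Matrix.one_apply_ne hu.symm, smul_zero, Int.cast_zero, zero_mul]
    · intro h
      exact absurd (Finset.mem_univ t) h

end Pool.Agent.Work.Eff
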