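import Mathlib
import Pool.Agent.Work.MP_4329d7_ag_w.EffD
import Pool.Agent.Work.MP_4329d7_ag_ci.UnifV

/-!
Explicit exponents, part E: lattice polytopes in `ℤ ^ d` (Minkowski sums of Newton polytopes) with a
nonempty Fine interior: the Fine interior has a point with denominator at most
`(d + 1) ^ ((d + 1) * 2 ^ d)`.
-/

namespace Pool.Agent.Work.Eff

open Finset Pool.Agent.Work.Uni Pool.Agent.Work.CI

theorem factorial_le_pow (v : ℕ) : (v + 1).factorial ≤ (v + 1) ^ v := by
  induction v with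
  | zero => simp
  | succ v ih =>
    rw [Nat.factorial_succ, pow_succ, mul_comm]
    refine Nat.mul_le_mul_right _ (ih.trans ?_)
    exact Nat.pow_le_pow_left (Nat.le_succ _) v

theorem nn_bound (v : ℕ) (k : ℕ) (hk : k ≤ v) :
    (v + 1).factorial * ∏ i : Fin (k + 1), nn (v + 1) i ≤ (v + 1) ^ ((v + 1) * 2 ^ k) := by
  induction k with
  | zero =>
    rw [Fin.prod_univ_one, nn_eq]
    simp only [Fin.val_zero, Nat.factorial_zero, one_mul, Finset.univ_eq_empty, Finset.prod_empty,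
      mul_one, pow_zero]
    rw [pow_succ]
    exact Nat.mul_le_mul_right _ (factorial_le_pow v)
  | succ k ih =>
    have h1 := ih (by omega)
    rw [Fin.prod_univ_castSucc]
    simp only [Fin.val_castSucc, Fin.val_last]
    rw [nn_eq (v + 1) (k + 1)]
    set P := ∏ i : Fin (k + 1), nn (v + 1) i with hP
    have h2 : (k + 1).factorial * (v + 1) ≤ (v + 1).factorial := by
      rw [Nat.factorial_succ v, mul_comm]
      exact Nat.mul_le_mul_left _ (Nat.factorial_le hk)
    calc (v + 1).factorial * (P * ((k + 1).factorial * (v + 1) * P))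
        ≤ (v + 1).factorial * (P * ((v + 1).factorial * P)) :=
          Nat.mul_le_mul_left _ (Nat.mul_le_mul_left _ (Nat.mul_le_mul_right _ h2))
      _ = ((v + 1).factorial * P) * ((v + 1).factorial * P) := by ring
      _ ≤ (v + 1) ^ ((v + 1) * 2 ^ k) * (v + 1) ^ ((v + 1) * 2 ^ k) := Nat.mul_le_mul h1 h1
      _ = (v + 1) ^ ((v + 1) * 2 ^ (k + 1)) := by
          rw [← pow_add]
          congr 1
          ring

theorem den_bound (v : ℕ) :
    (v + 1).factorial * ∏ i : Fin (v + 1), nn (v + 1) i ≤ (v + 1) ^ ((v + 1) * 2 ^ v) :=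
  nn_bound v v le_rfl

theorem exists_den_bound {v : ℕ} (V : Type*) [Fintype V] (hV : Fintype.card V ≤ v + 1) (A : V → ℚ)
    (hA : ∀ i, 0 < A i) (hA1 : ∑ i, A i = 1) :
    ∃ (D : ℕ) (A' : V → ℕ), 0 < D ∧ D ≤ (v + 1) ^ ((v + 1) * 2 ^ v) ∧
      ∑ i, A' i ≤ D ∧ ∀ b : V → ℕ, 1 ≤ ∑ i, A i * (b i : ℚ) → D ≤ ∑ i, A' i * b i := by
  classical
  let e := Fintype.equivFin V
  obtain ⟨D, A', hD, hDle, hsum, h⟩ := exists_den (fun i => A (e.symm i)) (fun i => hA _) (by
    rw [← hA1]
    exact Equiv.sum_comp e.symm A)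
  refine ⟨D, fun i => A' (e i), hD, hDle.trans ?_, ?_, fun b hb => ?_⟩
  · obtain ⟨k, hk⟩ : ∃ k, Fintype.card V = k + 1 := by
      refine Nat.exists_eq_succ_of_ne_zero fun h0 => ?_
      have := Fintype.card_eq_zero_iff.1 h0
      rw [Finset.univ_eq_empty, Finset.sum_empty] at hA1
      exact zero_ne_one hA1
    have hkv : k ≤ v := by omega
    have hgen : ∀ m, m = k + 1 → m.factorial * ∏ i : Fin m, nn m i ≤
        (v + 1) ^ ((v + 1) * 2 ^ v) := by
      rintro m rfl
      refine (den_bound k).trans ?_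
      calc (k + 1) ^ ((k + 1) * 2 ^ k) ≤ (v + 1) ^ ((k + 1) * 2 ^ k) :=
            Nat.pow_le_pow_left (by omega) _
        _ ≤ (v + 1) ^ ((v + 1) * 2 ^ v) := by
            refine Nat.pow_le_pow_right (by omega) (Nat.mul_le_mul (by omega) ?_)
            exact Nat.pow_le_pow_right (by norm_num) hkv
    exact hgen _ hk
  · rw [Equiv.sum_comp e A']
    exact hsum
  · have h1 := h (fun i => b (e.symm i)) (by
      rw [← Equiv.sum_comp e.symm fun i => A i * (b i : ℚ)] at hb
      exact hb)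
    rw [← Equiv.sum_comp e fun i => A' i * b (e.symm i)] at h1
    simpa using h1

theorem unif_point_eff (d : ℕ) (Q : Type) [Fintype Q] (f : Q → Lau d)
    (hf : ∀ q, f q ≠ 0) (w : Fin d → ℤ) (M₀ : ℕ) (hM₀ : 0 < M₀)
    (hw : ∀ b, b ≠ 0 → (M₀ : ℤ) ≤ pair w b - M₀ * ∑ q, mn (f q) b) :
    ∃ M : ℕ, 0 < M ∧ M ≤ (d + 1) ^ ((d + 1) * 2 ^ d) ∧ ∃ w' : Fin d → ℤ,
      ∀ b, b ≠ 0 → (M : ℤ) ≤ pair w' b - M * ∑ q, mn (f q) b := by
  classical
  obtain ⟨c, hc0, hc1, hcw⟩ := mem_hull f hf w M₀ hM₀ hw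
  have hM₀' : (0 : ℚ) < M₀ := by exact_mod_cast hM₀
  -- the point is in the convex hull
  let emb : (Fin d → ℤ) → (Fin d → ℚ) := fun v j => (v j : ℚ)
  let x : Fin d → ℚ := fun j => (w j : ℚ) / M₀
  have hx : x ∈ convexHull ℚ (emb '' (vsum f : Set (Fin d → ℤ))) := by
    have h1 : x = ∑ v : vsum f, (c v / M₀) • emb v.1 := by
      funext j
      rw [Finset.sum_apply]
      simp only [Pi.smul_apply, smul_eq_mul, x, emb]
      rw [← hcw j, Finset.sum_div]
      exact Finset.sum_congr rfl fun v _ => by ring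
    rw [h1]
    refine (convex_convexHull ℚ _).sum_mem (fun v _ => div_nonneg (hc0 v) hM₀'.le) ?_
      (fun v _ => subset_convexHull ℚ _ ⟨v.1, v.2, rfl⟩)
    rw [← Finset.sum_div, hc1, div_self hM₀'.ne']
  obtain ⟨ι, _, z, A, hz, hai, hA, hA1, hAx⟩ := eq_pos_convex_span_of_mem_convexHull hx
  have hcard : Fintype.card ι ≤ d + 1 := by
    refine hai.card_le_finrank_succ.trans ?_
    have := Submodule.finrank_le (vectorSpan ℚ (Set.range z))
    rw [Module.finrank_fin_fun] at this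
    omega
  have hzv : ∀ i, ∃ v ∈ vsum f, emb v = z i := fun i => hz ⟨i, rfl⟩
  choose v hv hvz using hzv
  -- the naturals `β_b`
  have hβ : ∀ (b : Fin d → ℤ) (i : ι), ∃ β : ℕ, (β : ℤ) = pair (v i) b - ∑ q, mn (f q) b := by
    intro b i
    have := vsum_le f (hv i) b
    exact ⟨(pair (v i) b - ∑ q, mn (f q) b).toNat, Int.toNat_of_nonneg (by linarith)⟩
  choose β hβ using hβ
  have hpair : ∀ (χ b : Fin d → ℤ), ((pair χ b : ℤ) : ℚ) = ∑ j, (χ j : ℚ) * (b j : ℚ) := by
    intro χ b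
    unfold pair
    push_cast
    rfl
  have hAβ : ∀ b, b ≠ 0 → 1 ≤ ∑ i, A i * (β b i : ℚ) := by
    intro b hb
    have h1 : ∑ i, A i * (β b i : ℚ) =
        ((pair w b : ℤ) : ℚ) / M₀ - ((∑ q, mn (f q) b : ℤ) : ℚ) := by
      have h2 : ∀ i, (β b i : ℚ) = ((pair (v i) b : ℤ) : ℚ) - ((∑ q, mn (f q) b : ℤ) : ℚ) := by
        intro i
        have := hβ b i
        exact_mod_cast this
      simp only [h2, mul_sub, Finset.sum_sub_distrib]
      rw [← Finset.sum_mul, hA1, one_mul]
      congr 1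
      rw [hpair, Finset.sum_div]
      have h3 : ∀ j, (w j : ℚ) / M₀ = ∑ i, A i * (v i j : ℚ) := by
        intro j
        have := congrFun hAx j
        rw [Finset.sum_apply] at this
        change _ = x j at this
        change x j = _
        rw [← this]
        refine Finset.sum_congr rfl fun i _ => ?_
        rw [Pi.smul_apply, smul_eq_mul, ← hvz i]
      calc ∑ i, A i * ((pair (v i) b : ℤ) : ℚ) = ∑ i, ∑ j, A i * (v i j : ℚ) * (b j : ℚ) := by
            refine Finset.sum_congr rfl fun i _ => ?_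
            rw [hpair, Finset.mul_sum]
            exact Finset.sum_congr rfl fun j _ => by ring
        _ = ∑ j, (w j : ℚ) * (b j : ℚ) / M₀ := by
            rw [Finset.sum_comm]
            refine Finset.sum_congr rfl fun j _ => ?_
            rw [← Finset.sum_mul, ← h3 j]
            ring
    have h4 : (M₀ : ℚ) ≤ ((pair w b : ℤ) : ℚ) - M₀ * ((∑ q, mn (f q) b : ℤ) : ℚ) := by
      exact_mod_cast hw b hb
    rw [h1, le_sub_iff_add_le, le_div_iff₀ hM₀']
    linarith
  obtain ⟨M, A', hM0, hMle, hsum, hA'1⟩ := exists_den_bound ι hcard A hA hA1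
  have hne : Nonempty ι := by
    by_contra h
    rw [not_nonempty_iff] at h
    rw [Finset.univ_eq_empty, Finset.sum_empty] at hA1
    exact zero_ne_one hA1
  obtain ⟨i0⟩ := hne
  let A'' : ι → ℕ := fun i => A' i + if i = i0 then M - ∑ i, A' i else 0
  have hsum'' : ∑ i, A'' i = M := by
    simp only [A'', Finset.sum_add_distrib, Finset.sum_ite_eq', Finset.mem_univ, if_true]
    omega
  refine ⟨M, hM0, by simpa using hMle, ∑ i, (A'' i : ℤ) • v i, fun b hb => ?_⟩
  have h1 : pair (∑ i, (A'' i : ℤ) • v i) b - M * ∑ q, mn (f q) b =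
      ((∑ i, A'' i * β b i : ℕ) : ℤ) := by
    rw [sum_pair]
    push_cast
    have h2 : ∀ i, pair ((A'' i : ℤ) • v i) b = (A'' i : ℤ) * pair (v i) b := by
      intro i
      unfold pair
      rw [Finset.mul_sum]
      exact Finset.sum_congr rfl fun j _ => by simp [mul_assoc]
    simp only [h2, hβ, mul_sub, Finset.sum_sub_distrib]
    rw [← Finset.sum_mul]
    have h3 : (∑ i, (A'' i : ℤ)) = M := by exact_mod_cast hsum''
    rw [h3]
  rw [h1]
  have h2 : M ≤ ∑ i, A' i * β b i := hA'1 (β b) (hAβ b hb)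
  have h3 : ∑ i, A' i * β b i ≤ ∑ i, A'' i * β b i :=
    Finset.sum_le_sum fun i _ => Nat.mul_le_mul_right _ (Nat.le_add_right _ _)
  exact_mod_cast h2.trans h3

end Pool.Agent.Work.Eff
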