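import Mathlib
import Pool.Agent.Work.MP_4329d7_ag_ci.Defs

/-!
THEOREM W, part IRR: definitions.

* `dg f b q`: the degree of the relation `q` for the roots with vectors `b i`;
* `IsCont f y b t`: the curve `y ∏ (s - t i) ^ (b i)` has its whole contact with all equations at
  `s = 0` (contact curve);
* `KB x b`: the field of the functions on the quotient torus;
* `Plc F κ`: places of `F` with values in `κ` (as the graph of the specialisation).
-/

namespace Pool.Agent.Work.CW

open Pool.Agent.Work.Uni Pool.Agent.Work.CI Polynomial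

/-- the degree of the relation `q` -/
noncomputable def dg {Q ι : Type} {d : ℕ} [Fintype ι] (f : Q → Lau d) (b : ι → Fin d → ℤ)
    (q : Q) : ℕ :=
  (- ∑ i, mn (f q) (b i)).toNat

/-- contact curves -/
def IsCont {Q ι F : Type} {d : ℕ} [Fintype Q] [Fintype ι] [Field F] [Algebra ℂ F]
    (f : Q → Lau d) (y : Fin d → F) (b : ι → Fin d → ℤ) (t : ι → F) : Prop :=
  ∀ q, ∑ p, C (coef f y q p) * rootPoly (fun i => blk f (b i)) t p =
    C (ev (f q) y) * X ^ dg f b q

/-- the functions on the quotient torus -/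
noncomputable def KB {K : Type} [Field K] [Algebra ℂ K] {ι : Type} {d : ℕ} (x : Fin d → K)
    (b : ι → Fin d → ℤ) : IntermediateField ℂ K :=
  IntermediateField.adjoin ℂ {z : K | ∃ χ : Fin d → ℤ, (∀ i, pair χ (b i) = 0) ∧ z = mon x χ}

/-- a place of `F` with values in `κ`: `S x y` = the value of `x` is `y` -/
structure Plc (F κ : Type) [Field F] [Field κ] where
  /-- the value of `x` is `y` -/
  S : F → κ → Prop
  one : S 1 1
  add : ∀ {x x' y y'}, S x y → S x' y' → S (x + x') (y + y')
  mul : ∀ {x x' y y'}, S x y → S x' y' → S (x * x') (y * y')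
  neg : ∀ {x y}, S x y → S (-x) (-y)
  uniq : ∀ {x y y'}, S x y → S x y' → y = y'
  tot : ∀ x, (∃ y, S x y) ∨ S x⁻¹ 0

section sum

variable {Q ι : Type} {d : ℕ} [Fintype ι] {f : Q → Lau d}

theorem sum_blk (b : ι → Fin d → ℤ) (hb : ∑ i, b i = 0) (p : Pts f) :
    ∑ i, blk f (b i) p = dg f b p.1 := by
  have h1 : ((∑ i, blk f (b i) p : ℕ) : ℤ) = - ∑ i, mn (f p.1) (b i) := by
    push_cast
    have h2 : pair p.2.1 (∑ i, b i) = 0 := by rw [hb, pair_zero]
    rw [pair_sum] at h2
    simp only [blk_cast, Finset.sum_sub_distrib, h2, zero_sub]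
  unfold dg
  rw [← h1, Int.toNat_natCast]

end sum

namespace Plc

variable {F κ : Type} [Field F] [Field κ] (P : Plc F κ)

theorem zero : P.S 0 0 := by
  have := P.add P.one (P.neg P.one)
  simpa using this

theorem sub {x x' y y'} (h : P.S x y) (h' : P.S x' y') : P.S (x - x') (y - y') := by
  rw [sub_eq_add_neg, sub_eq_add_neg]
  exact P.add h (P.neg h')

theorem pow {x y} (h : P.S x y) (n : ℕ) : P.S (x ^ n) (y ^ n) := by
  induction n with
  | zero => rw [pow_zero, pow_zero]; exact P.one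
  | succ n ih => rw [pow_succ, pow_succ]; exact P.mul ih h

theorem ne_zero {x y} (h : P.S x y) (hy : y ≠ 0) : x ≠ 0 := by
  rintro rfl
  exact hy (P.uniq h P.zero)

theorem inv {x y} (h : P.S x y) (hy : y ≠ 0) : P.S x⁻¹ y⁻¹ := by
  have hx := P.ne_zero h hy
  rcases P.tot x⁻¹ with ⟨z, hz⟩ | hz
  · have h1 := P.mul h hz
    rw [mul_inv_cancel₀ hx] at h1
    have h2 := P.uniq h1 P.one
    rwa [eq_inv_of_mul_eq_one_right h2] at hz
  · rw [inv_inv] at hz
    exact absurd (P.uniq h hz) hy

theorem zpow {x y} (h : P.S x y) (hy : y ≠ 0) (n : ℤ) : P.S (x ^ n) (y ^ n) := by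
  rcases n with n | n
  · rw [Int.ofNat_eq_natCast, zpow_natCast, zpow_natCast]
    exact P.pow h n
  · rw [zpow_negSucc, zpow_negSucc]
    exact P.inv (P.pow h _) (pow_ne_zero _ hy)

theorem sum {ι : Type} (s : Finset ι) {x : ι → F} {y : ι → κ} (h : ∀ i ∈ s, P.S (x i) (y i)) :
    P.S (∑ i ∈ s, x i) (∑ i ∈ s, y i) := by
  classical
  induction s using Finset.induction_on with
  | empty => rw [Finset.sum_empty, Finset.sum_empty]; exact P.zero
  | insert i s hi ih =>
    rw [Finset.sum_insert hi, Finset.sum_insert hi]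
    exact P.add (h i (Finset.mem_insert_self i s))
      (ih fun j hj => h j (Finset.mem_insert_of_mem hj))

theorem prod {ι : Type} (s : Finset ι) {x : ι → F} {y : ι → κ} (h : ∀ i ∈ s, P.S (x i) (y i)) :
    P.S (∏ i ∈ s, x i) (∏ i ∈ s, y i) := by
  classical
  induction s using Finset.induction_on with
  | empty => rw [Finset.prod_empty, Finset.prod_empty]; exact P.one
  | insert i s hi ih =>
    rw [Finset.prod_insert hi, Finset.prod_insert hi]
    exact P.mul (h i (Finset.mem_insert_self i s))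
      (ih fun j hj => h j (Finset.mem_insert_of_mem hj))

theorem div {x x' y y'} (h : P.S x y) (h' : P.S x' y') (hy : y' ≠ 0) :
    P.S (x / x') (y / y') := by
  rw [div_eq_mul_inv, div_eq_mul_inv]
  exact P.mul h (P.inv h' hy)

theorem mon {d : ℕ} {x : Fin d → F} {y : Fin d → κ} (h : ∀ j, P.S (x j) (y j))
    (hy : ∀ j, y j ≠ 0) (χ : Fin d → ℤ) : P.S (mon x χ) (CI.mon y χ) :=
  P.prod _ fun j _ => P.zpow (h j) (hy j) _

/-- in a nonempty finite family some quotient by a member is finite for all members -/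
theorem exists_max {ι : Type} [Fintype ι] (t : ι → F) (ht : t ≠ 0) :
    ∃ i0, t i0 ≠ 0 ∧ ∀ i, ∃ z, P.S (t i / t i0) z := by
  classical
  have key : ∀ s : Finset ι, (∃ i ∈ s, t i ≠ 0) →
      ∃ i0 ∈ s, t i0 ≠ 0 ∧ ∀ i ∈ s, ∃ z, P.S (t i / t i0) z := by
    intro s
    induction s using Finset.induction_on with
    | empty => rintro ⟨i, hi, _⟩; exact absurd hi (Finset.notMem_empty i)
    | insert i s hi ih =>
      intro _
      by_cases hs : ∃ i ∈ s, t i ≠ 0
      · obtain ⟨i0, h0, h1, h2⟩ := ih hs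
        rcases P.tot (t i / t i0) with ⟨z, hz⟩ | hz
        · refine ⟨i0, Finset.mem_insert_of_mem h0, h1, fun j hj => ?_⟩
          rcases Finset.mem_insert.1 hj with rfl | hj
          · exact ⟨z, hz⟩
          · exact h2 j hj
        · by_cases hi0 : t i = 0
          · refine ⟨i0, Finset.mem_insert_of_mem h0, h1, fun j hj => ?_⟩
            rcases Finset.mem_insert.1 hj with rfl | hj
            · exact ⟨0, by rw [hi0, zero_div]; exact P.zero⟩
            · exact h2 j hj
          refine ⟨i, Finset.mem_insert_self i s, hi0, fun j hj => ?_⟩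
          rcases Finset.mem_insert.1 hj with rfl | hj
          · exact ⟨1, by rw [div_self hi0]; exact P.one⟩
          · obtain ⟨z, hz'⟩ := h2 j hj
            refine ⟨z * 0, ?_⟩
            have h3 := P.mul hz' hz
            have h4 : t j / t i0 * (t i / t i0)⁻¹ = t j / t i := by
              rw [inv_div]
              field_simp
            rwa [h4] at h3
      · obtain ⟨j, hj, hne⟩ := ‹∃ j ∈ insert i s, t j ≠ 0›
        have hji : j = i := by
          rcases Finset.mem_insert.1 hj with h | h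
          · exact h
          · exact absurd ⟨j, h, hne⟩ hs
        rw [hji] at hne
        refine ⟨i, Finset.mem_insert_self i s, hne, fun l hl => ?_⟩
        rcases Finset.mem_insert.1 hl with rfl | hl
        · exact ⟨1, by rw [div_self hne]; exact P.one⟩
        · have h0 : t l = 0 := by
            by_contra h
            exact hs ⟨l, hl, h⟩
          exact ⟨0, by rw [h0, zero_div]; exact P.zero⟩
  obtain ⟨i, hi⟩ : ∃ i, t i ≠ 0 := by
    by_contra h
    push Not at h
    exact ht (funext h)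
  obtain ⟨i0, _, h1, h2⟩ := key Finset.univ ⟨i, Finset.mem_univ i, hi⟩
  exact ⟨i0, h1, fun i => h2 i (Finset.mem_univ i)⟩

end Plc

/-- a maximal ideal gives a place -/
theorem exists_plc {R k F : Type} [CommRing R] [Field k] [Field F] (φ : R →+* F)
    (hφ : Function.Injective φ) (χ : R →+* k) (hχ : Function.Surjective χ) :
    ∃ (κ : Type) (_ : Field κ) (_ : IsAlgClosed κ) (g : k →+* κ) (P : Plc F κ),
      ∀ r, P.S (φ r) (g (χ r)) := by
  classical
  let A : Subring F := φ.range
  let I : Ideal A := (RingHom.ker χ).map φ.rangeRestrict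
  have hbij : Function.Bijective φ.rangeRestrict :=
    ⟨fun r s h => hφ (congrArg Subtype.val h), φ.rangeRestrict_surjective⟩
  have hI : I ≠ ⊤ := by
    intro h
    have h1 : Ideal.comap φ.rangeRestrict I = RingHom.ker χ :=
      Ideal.comap_map_of_bijective _ hbij
    rw [h, Ideal.comap_top] at h1
    have h2 : (1 : R) ∈ RingHom.ker χ := by rw [← h1]; trivial
    rw [RingHom.mem_ker, map_one] at h2
    exact one_ne_zero h2
  obtain ⟨B, hA, hB⟩ := Ideal.image_subset_nonunits_valuationSubring I hI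
  have hmem : ∀ r, φ r ∈ B := fun r => hA ⟨r, rfl⟩
  have hnon : ∀ z : B, (z : F) ∈ B.nonunits → IsLocalRing.residue B z = 0 := by
    intro z hz
    rw [IsLocalRing.residue_eq_zero_iff]
    exact (B.valuation_lt_one_iff z).2 (B.mem_nonunits_iff.1 hz)
  let κ := AlgebraicClosure (IsLocalRing.ResidueField B)
  let ρ : B →+* κ := (algebraMap (IsLocalRing.ResidueField B) κ).comp (IsLocalRing.residue B)
  let h : R →+* κ := ρ.comp (φ.codRestrict B.toSubring hmem)
  have hh : RingHom.ker χ ≤ RingHom.ker h := by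
    intro r hr
    rw [RingHom.mem_ker]
    change algebraMap _ κ (IsLocalRing.residue B ⟨φ r, hmem r⟩) = 0
    rw [hnon _ (hB ⟨φ.rangeRestrict r, Ideal.mem_map_of_mem _ hr, rfl⟩), map_zero]
  let g : k →+* κ := RingHom.liftOfSurjective χ hχ ⟨h, hh⟩
  have hg : ∀ r, g (χ r) = h r := fun r => RingHom.liftOfRightInverse_comp_apply _ _ _ _ _
  refine ⟨κ, inferInstance, inferInstance, g,
    { S := fun x y => ∃ hx : x ∈ B, ρ ⟨x, hx⟩ = y
      one := ⟨B.one_mem, map_one ρ⟩
      add := ?_
      mul := ?_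
      neg := ?_
      uniq := ?_
      tot := ?_ }, fun r => ⟨hmem r, ?_⟩⟩
  · rintro x x' y y' ⟨h1, h2⟩ ⟨h1', h2'⟩
    exact ⟨B.add_mem _ _ h1 h1', by rw [← h2, ← h2', ← map_add]; rfl⟩
  · rintro x x' y y' ⟨h1, h2⟩ ⟨h1', h2'⟩
    exact ⟨B.mul_mem _ _ h1 h1', by rw [← h2, ← h2', ← map_mul]; rfl⟩
  · rintro x y ⟨h1, h2⟩
    exact ⟨B.neg_mem _ h1, by rw [← h2, ← map_neg]; rfl⟩
  · rintro x y y' ⟨h1, h2⟩ ⟨h1', h2'⟩
    exact h2.symm.trans h2'
  · intro x
    by_cases hx : x ∈ B
    · exact Or.inl ⟨_, hx, rfl⟩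
    · right
      have hx' : x⁻¹ ∈ B := (B.mem_or_inv_mem x).resolve_left hx
      refine ⟨hx', ?_⟩
      change algebraMap _ κ (IsLocalRing.residue B ⟨x⁻¹, hx'⟩) = 0
      rw [hnon _ ((B.inv_mem_nonunits_iff).2 (Or.inr hx)), map_zero]
  · rw [hg]
    rfl

end Pool.Agent.Work.CW
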