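import Mathlib
import Pool.Agent.Work.MP_4329d7_ag_ci.CurveStar
import Pool.Agent.Work.MP_4329d7_ag_rc.Basic
import Pool.Agent.Work.MP_4329d7_ag_w.IrrDefs

/-!
THEOREM W: Q1 in tensor form, one exponent, for all nondegenerate complete intersections in tori.
Definitions (see notes 3110, 3167 and the headers of the modules).

* a type is a tuple `b : ι → Fin d → ℤ` with `∑ i, b i = 0` (usually `b i ≠ 0`);
  `dg f b q` is the degree of the relation `q` on it, `δ = card ι - ∑ q, dg f b q`;
* `Sol f y b t`: the roots `t` solve all relations at the point `y` of the torus, i.e. the curve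
  `crv y b t = y * ∏ i, (1 - t i T) ^ b i` (`T = 1/s`) lies on all `f q = 0`;
* `jac`: minus the derivative of the relations with respect to a root; `FreeAt`: the root
  equations are independent at `t`;
* `wt b t = ∑ i, t i * b i`: the direction of the curve at `T = 0`.
-/

namespace Pool.Agent.Work.CW

open Polynomial Pool.Agent.Work.Uni Pool.Agent.Work.CI

section defs

variable {Q : Type} {d : ℕ} {ι : Type} [Fintype ι]

/-- the roots `t` of type `b` solve all relations at the point `y` -/
def Sol [Fintype Q] {F : Type} [Field F] [Algebra ℂ F] (f : Q → Lau d) (y : Fin d → F) (b : ι → Fin d → ℤ)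
    (t : ι → F) : Prop :=
  IsSol (coef f y) (fun i => blk f (b i)) t

/-- minus the derivative of the relation `q` with respect to the root `t i` -/
noncomputable def jac {ι Pt Q F : Type*} [Fintype ι] [Fintype Pt] [CommRing F] (a : Q → Pt → F)
    (β : ι → Pt → ℕ) (t : ι → F) (q : Q) (i : ι) : F[X] :=
  ∑ p, C (a q p) * Pool.Agent.Work.RC.uD β t p i

/-- the root equations are independent at `t` -/
def FreeAt {Pt F : Type} [Fintype Pt] [Field F] (a : Q → Pt → F)
    (β : ι → Pt → ℕ) (mq : Q → ℕ) (t : ι → F) : Prop :=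
  ∀ P : Q → F[X], (∀ q, (P q).degree < (mq q : WithBot ℕ)) →
    ∃ δ : ι → F, ∀ q, ∑ i, C (δ i) * jac a β t q i = P q

/-- the curve of the roots `t` through the point `y` (at `T = 0`) -/
noncomputable def crv {F : Type} [Field F] (y : Fin d → F) (b : ι → Fin d → ℤ) (t : ι → F) :
    Fin d → RatFunc F :=
  fun j => RatFunc.C (y j) * ∏ i, csG (t i) ^ b i j

/-- the direction of the curve -/
def wt {F : Type} [Field F] (b : ι → Fin d → ℤ) (t : ι → F) : Fin d → F :=
  fun j => ∑ i, t i * (b i j : F)

/-- the value of the linearised relation `q` at the point `y` in the direction `v` -/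
noncomputable def Alin {F : Type} [Field F] [Algebra ℂ F] (f : Q → Lau d) (y : Fin d → F) (q : Q)
    (v : Fin d → F) : F :=
  ∑ j, v j * ldv (f q) j y

/-- the measure of a type -/
noncomputable def nu [Fintype Q] (f : Q → Lau d) (b : ι → Fin d → ℤ) : ℕ :=
  ∑ i, ∑ j, (b i j).natAbs + ∑ q, dg f b q

end defs

/-- the type `b` is good: all its solutions over all fields are constant, two-valued or have
pairwise distinct roots -/
structure Good {K : Type} [Field K] [Algebra ℂ K] {d : ℕ} {Q : Type} [Fintype Q]
    (x : Fin d → K) (f : Q → Lau d) {ι : Type} [Fintype ι] (b : ι → Fin d → ℤ) : Prop where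
  ne : ∀ i, b i ≠ 0
  sum : ∑ i, b i = 0
  card : Fintype.card ι = ∑ q, dg f b q + 2
  sol : ∀ (F : Type) [Field F] [Algebra ℂ F] [IsAlgClosed F] (emb : K →ₐ[ℂ] F) (t : ι → F),
    Sol f (fun j => emb (x j)) b t →
      (∀ i j, t i = t j) ∨ (∃ i j, t i ≠ t j ∧ ∀ l, t l = t i ∨ t l = t j) ∨
        Function.Injective t

end Pool.Agent.Work.CW
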