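import Mathlib
import Pool.Agent.Work.MP_4329d7_ag_w.Defs

/-!
Module W-Deg: degrees.  `h_q(b) = - mn (f q) b` is subadditive, `h_q(0) = 0` (for `f q ≠ 0`), and
`dg f b q = ∑ i, h_q(b i)` if `∑ i, b i = 0` (take `χ ∈ supp f_q`: `∑ i, ⟨χ, b i⟩ = 0` and
`mn ≤ ⟨χ, b i⟩`).
-/

namespace Pool.Agent.Work.CW

open Polynomial Pool.Agent.Work.Uni Pool.Agent.Work.CI

variable {Q : Type} {d : ℕ} {ι : Type} [Fintype ι]

theorem mn_zero {f : Lau d} (hf : f ≠ 0) : mn f 0 = 0 := by
  obtain ⟨χ, _, h⟩ := exists_mn hf 0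
  rw [← h, pair_zero]

theorem mn_add_le {f : Lau d} (hf : f ≠ 0) (b b' : Fin d → ℤ) :
    mn f b + mn f b' ≤ mn f (b + b') := by
  obtain ⟨χ, hχ, h⟩ := exists_mn hf (b + b')
  rw [← h, pair_add]
  exact add_le_add (mn_le hχ b) (mn_le hχ b')

theorem mn_sum_le {f : Lau d} (hf : f ≠ 0) {κ : Type} (s : Finset κ) (b : κ → Fin d → ℤ) :
    ∑ i ∈ s, mn f (b i) ≤ mn f (∑ i ∈ s, b i) := by
  classical
  induction s using Finset.induction_on with
  | empty => rw [Finset.sum_empty, Finset.sum_empty, mn_zero hf]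
  | insert i s hi ih =>
    rw [Finset.sum_insert hi, Finset.sum_insert hi]
    exact le_trans (add_le_add_right ih _) (mn_add_le hf _ _)

theorem dg_cast {f : Q → Lau d} (hf : ∀ q, f q ≠ 0) {b : ι → Fin d → ℤ} (hb : ∑ i, b i = 0)
    (q : Q) : (dg f b q : ℤ) = -∑ i, mn (f q) (b i) := by
  have h1 := mn_sum_le (hf q) Finset.univ b
  rw [hb, mn_zero (hf q)] at h1
  unfold dg
  rw [Int.toNat_of_nonneg]
  linarith

/-- the form needed by the abstract modules -/
theorem coef_deg {F : Type} [Field F] [Algebra ℂ F] {f : Q → Lau d} (hf : ∀ q, f q ≠ 0)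
    {b : ι → Fin d → ℤ} (hb : ∑ i, b i = 0) (y : Fin d → F) (q : Q) (p : Pts f)
    (h : coef f y q p ≠ 0) : ∑ i, blk f (b i) p = dg f b q := by
  have h1 : p.1 = q := by
    by_contra hne
    apply h
    unfold coef
    exact if_neg hne
  rw [sum_blk b hb p, h1]

/-- the degree is zero iff the relation does not move -/
theorem dg_eq_zero {f : Q → Lau d} (hf : ∀ q, f q ≠ 0) {b : ι → Fin d → ℤ} (hb : ∑ i, b i = 0)
    (q : Q) : dg f b q = 0 ↔
      ∀ i, ∀ χ ∈ (f q).support, ∀ χ' ∈ (f q).support, pair (χ - χ') (b i) = 0 := by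
  constructor
  · intro h
    have key : ∀ i, ∀ χ ∈ (f q).support, pair χ (b i) = mn (f q) (b i) := by
      intro i χ hχ
      have h1 := sum_blk b hb (⟨q, ⟨χ, hχ⟩⟩ : Pts f)
      simp only at h1
      rw [h] at h1
      have h2 := (Finset.sum_eq_zero_iff.1 h1) i (Finset.mem_univ i)
      have h3 := blk_cast f (b i) (⟨q, ⟨χ, hχ⟩⟩ : Pts f)
      rw [h2] at h3
      simp only [Nat.cast_zero] at h3
      linarith
    intro i χ hχ χ' hχ'
    rw [sub_pair, key i χ hχ, key i χ' hχ', sub_self]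
  · intro h
    have h1 := dg_cast hf hb q
    obtain ⟨χ, hχ⟩ := Finsupp.support_nonempty_iff.2 (hf q)
    have h2 : ∀ i, mn (f q) (b i) = pair χ (b i) := by
      intro i
      obtain ⟨χ', hχ', h3⟩ := exists_mn (hf q) (b i)
      have h4 := h i χ hχ χ' hχ'
      rw [sub_pair] at h4
      rw [← h3]
      linarith
    rw [Finset.sum_congr rfl fun i _ => h2 i, ← pair_sum, hb, pair_zero, neg_zero] at h1
    exact_mod_cast h1

/-- `A_q(b)` in terms of the blocks -/
theorem sum_coef_blk [Fintype Q] {F : Type} [Field F] [Algebra ℂ F] {f : Q → Lau d}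
    (hf : ∀ q, f q ≠ 0) {y : Fin d → F} (hy : ∀ q, ev (f q) y = 0) (b : Fin d → ℤ) (q : Q) :
    ∑ p, coef f y q p * (blk f b p : F) = Alin f y q (fun j => (b j : F)) := by
  classical
  have hblk : ∀ p : Pts f, ((blk f b p : ℕ) : F) = (pair p.2.1 b : F) - (mn (f p.1) b : F) := by
    intro p
    have h1 := congrArg (fun z : ℤ => (z : F)) (blk_cast f b p)
    simpa using h1
  have h1 : ∑ p, coef f y q p * (blk f b p : F) =
      ∑ χ ∈ (f q).support, algebraMap ℂ F (f q χ) * mon y χ *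
        ((pair χ b : F) - (mn (f q) b : F)) := by
    rw [Fintype.sum_sigma, Finset.sum_eq_single q]
    · rw [← Finset.sum_coe_sort (f q).support (fun χ => algebraMap ℂ F (f q χ) * mon y χ *
        ((pair χ b : F) - (mn (f q) b : F)))]
      refine Finset.sum_congr rfl fun χ _ => ?_
      rw [hblk]
      simp only [coef, if_true]
    · intro q' _ hq'
      refine Finset.sum_eq_zero fun χ _ => ?_
      simp only [coef]
      rw [if_neg hq', zero_mul]
    · intro hq
      exact absurd (Finset.mem_univ _) hq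
  rw [h1]
  have h2 : ∀ χ : Fin d → ℤ, (pair χ b : F) = ∑ j, (χ j : F) * (b j : F) := by
    intro χ
    unfold pair
    push_cast
    rfl
  have h3 := hy q
  unfold ev at h3
  unfold Alin ldv
  simp only [mul_sub, Finset.sum_sub_distrib]
  rw [← Finset.sum_mul, h3, zero_mul, sub_zero]
  simp only [h2, Finset.mul_sum]
  rw [Finset.sum_comm]
  refine Finset.sum_congr rfl fun j _ => Finset.sum_congr rfl fun χ _ => ?_
  ring

end Pool.Agent.Work.CW
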