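import Mathlib
import Pool.Agent.Work.MP_4329d7_ag_ci.CurveStar
import Pool.Agent.Work.MP_4329d7_ag_w.IrrDefs

/-!
THEOREM W: a root solution gives a homomorphism `K → F(T)` with value `emb` at `T = 0`
(`T = 1 / s`, curve `x ∏ (1 - t i T) ^ (b i)`).
-/

namespace Pool.Agent.Work.CW

open Pool.Agent.Work.Uni Pool.Agent.Work.CI Pool.Agent.Work.MP_4329d7_ag_sq Polynomial

variable {K : Type} [Field K] [Algebra ℂ K] {n d : ℕ} {Q : Type} [Fintype Q]
  {x : Fin d → K} {f : Q → Lau d}

/-- the curve of a root solution -/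
theorem root_hom (D : Data K n d Q x f) {F : Type} [Field F] [Algebra ℂ F] (emb : K →ₐ[ℂ] F)
    {ι : Type} [Fintype ι] (b : ι → Fin d → ℤ) (hb : ∑ i, b i = 0) (t : ι → F)
    (hsol : IsSol (coef f fun j => emb (x j)) (fun i => blk f (b i)) t) :
    ∃ φ : K →ₐ[ℂ] RatFunc F,
      (∀ j, φ (x j) = RatFunc.C (emb (x j)) * ∏ i, csG (t i) ^ b i j) ∧
      (∀ χ, φ (mon x χ) = RatFunc.C (emb (mon x χ)) * ∏ i, csG (t i) ^ pair χ (b i)) ∧
      ∀ z, Pl (φ z) (emb z) := by
  classical
  set c : Fin d → F := fun j => emb (x j) with hc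
  have hc0 : ∀ j, c j ≠ 0 := fun j => by
    rw [hc]
    simpa using D.ne j
  set β : ι → Pts f → ℕ := fun i => blk f (b i) with hβ
  set X : Fin d → RatFunc F := fun j => RatFunc.C (c j) * ∏ i, csG (t i) ^ b i j with hX
  have hmon : ∀ χ, mon X χ = RatFunc.C (mon c χ) * ∏ i, csG (t i) ^ pair χ (b i) := fun χ =>
    cs_mon c (fun i => csG (t i)) (fun i => csG_ne_zero _) b χ
  have hpack : ∀ p : Pts f, ∑ i, β i p = dg f b p.1 := sum_blk b hb
  have hpair : ∀ (p : Pts f) i, pair p.2.1 (b i) = β i p + mn (f p.1) (b i) := by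
    intro p i
    rw [hβ]
    simp only
    rw [blk_cast]
    ring
  have hprod : ∀ p : Pts f, ∏ i, csG (t i) ^ pair p.2.1 (b i) =
      (∏ i, csG (t i) ^ mn (f p.1) (b i)) * algebraMap F[X] (RatFunc F) (revPoly β t p) := by
    intro p
    rw [revPoly, map_prod, ← Finset.prod_mul_distrib]
    refine Finset.prod_congr rfl fun i _ => ?_
    rw [hpair, zpow_add₀ (csG_ne_zero _), zpow_natCast, mul_comm, map_pow]
    rfl
  have hrev : ∀ q, ∑ p, C (coef f c q p) * revPoly β t p = 0 := by
    intro q
    have h1 := congrArg (reflect (dg f b q)) (hsol q)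
    rw [reflect_zero, reflect_sum'] at h1
    rw [← h1]
    refine Finset.sum_congr rfl fun p _ => ?_
    by_cases hp : p.1 = q
    · rw [reflect_C_mul, ← reflect_rootPoly, hpack p, hp]
    · have : coef f c q p = 0 := by
        unfold coef
        exact if_neg hp
      rw [this]
      simp
  obtain ⟨φ, hφ⟩ := exists_hom D emb X (fun j => by
    have h1 := (pl_C (c j)).mul (cs_pl_prod (Finset.univ : Finset ι)
      (y := fun i => csG (t i) ^ b i j) (v := fun i => 1 ^ b i j)
      fun i _ => cs_pl_zpow (cs_pl_G (t i)) one_ne_zero (b i j))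
    simp only [one_zpow, Finset.prod_const_one, mul_one] at h1
    exact h1) (fun q => by
    have h1 : ev (f q) X = (∏ i, csG (t i) ^ mn (f q) (b i)) *
        algebraMap F[X] (RatFunc F) (∑ p, C (coef f c q p) * revPoly β t p) := by
      rw [map_sum, Finset.mul_sum, Fintype.sum_sigma, Finset.sum_eq_single q]
      · unfold ev
        rw [← Finset.sum_coe_sort]
        refine Finset.sum_congr rfl fun χ _ => ?_
        have h2 := hprod ⟨q, χ⟩
        simp only at h2
        rw [hmon, h2, map_mul, RatFunc.algebraMap_C, algebraMap_ratFunc]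
        simp only [coef, if_true, map_mul]
        ring
      · intro q' _ hq'
        refine Finset.sum_eq_zero fun χ _ => ?_
        unfold coef
        rw [if_neg hq']
        simp
      · intro hq
        exact absurd (Finset.mem_univ _) hq
    rw [h1, hrev q, map_zero, mul_zero])
  have hPx : ∀ j, Pl (φ (x j)) (emb (x j)) := by
    intro j
    rw [hφ]
    have h1 := (pl_C (c j)).mul (cs_pl_prod (Finset.univ : Finset ι)
      (y := fun i => csG (t i) ^ b i j) (v := fun i => 1 ^ b i j)
      fun i _ => cs_pl_zpow (cs_pl_G (t i)) one_ne_zero (b i j))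
    simp only [one_zpow, Finset.prod_const_one, mul_one] at h1
    exact h1
  refine ⟨φ, hφ, fun χ => ?_, fun z => ?_⟩
  · have h2 : φ (mon x χ) = mon X χ := by
      have h3 := cs_mon_hom (φ : K →+* RatFunc F) χ x
      change _ = φ (mon x χ) at h3
      rw [← h3]
      congr 1
      funext j
      exact hφ j
    rw [h2, hmon]
    have h4 : mon c χ = emb (mon x χ) := cs_mon_hom (emb : K →+* F) χ x
    rw [h4]
  · have hz : z ∈ IntermediateField.adjoin ℂ (Set.range x) := by
      rw [D.gen]
      exact IntermediateField.mem_top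
    induction hz using IntermediateField.adjoin_induction with
    | mem z hz =>
      obtain ⟨j, rfl⟩ := hz
      exact hPx j
    | algebraMap c =>
      rw [AlgHom.commutes, AlgHom.commutes, algebraMap_ratFunc]
      exact pl_C _
    | add z w _ _ hz hw => rw [map_add, map_add]; exact hz.add hw
    | inv z _ hz =>
      rw [map_inv₀, map_inv₀]
      by_cases h0 : z = 0
      · rw [h0, map_zero, map_zero, inv_zero, inv_zero]
        simpa using pl_C (0 : F)
      · exact cs_pl_inv hz (by simpa using h0)
    | mul z w _ _ hz hw => rw [map_mul, map_mul]; exact hz.mul hw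

end Pool.Agent.Work.CW
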