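import Mathlib
import Pool.Agent.Work.MP_4329d7_ag_ci.CurveStar
import Pool.Agent.Work.MP_4329d7_ag_rc.Free

/-!
W, R1: the local condition `Data.loc` holds for all valuations of all fields over `K`.
-/

namespace Pool.Agent.Work.CW

open Pool.Agent.Work.CI Pool.Agent.Work.Uni

variable {K : Type} [Field K] [Algebra ℂ K] {n d : ℕ} {Q : Type} [Fintype Q]
  {x : Fin d → K} {f : Q → Lau d}

theorem map_mon {F L : Type} [Field F] [Field L] (φ : F →+* L) {d : ℕ} (y : Fin d → F)
    (u : Fin d → ℤ) : φ (mon y u) = mon (fun i => φ (y i)) u := by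
  unfold mon
  rw [map_prod]
  exact Finset.prod_congr rfl fun i _ => map_zpow₀ _ _ _

theorem map_ev {F L : Type} [Field F] [Field L] [Algebra ℂ F] [Algebra ℂ L] (φ : F →ₐ[ℂ] L) {d : ℕ}
    (g : Lau d) (y : Fin d → F) : φ (ev g y) = ev g (fun i => φ (y i)) := by
  unfold ev
  rw [map_sum]
  refine Finset.sum_congr rfl fun u _ => ?_
  rw [map_mul, AlgHom.commutes]
  congr 1
  exact map_mon (φ : F →+* L) y u

theorem map_ldv {F L : Type} [Field F] [Field L] [Algebra ℂ F] [Algebra ℂ L] (φ : F →ₐ[ℂ] L) {d : ℕ}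
    (g : Lau d) (j : Fin d) (y : Fin d → F) : φ (ldv g j y) = ldv g j (fun i => φ (y i)) := by
  unfold ldv
  rw [map_sum]
  refine Finset.sum_congr rfl fun u _ => ?_
  rw [map_mul, map_mul, AlgHom.commutes, map_intCast]
  congr 1
  exact map_mon (φ : F →+* L) y u

/-- the columns of the logarithmic Jacobian generate over the valuation ring of `K` -/
theorem loc_gen (D : Data K n d Q x f) (v : Valuation K (WithZero (Multiplicative ℤ)))
    (hv : ∀ c : ℂ, v (algebraMap ℂ K c) ≤ 1) (χ0 : Q → Fin d → ℤ)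
    (hχ0 : ∀ q, χ0 q ∈ (f q).support)
    (hmax : ∀ q, ∀ χ ∈ (f q).support, v (mon x χ) ≤ v (mon x (χ0 q))) (q0 : Q) :
    ∃ c : Fin d → K, (∀ j, v (c j) ≤ 1) ∧
      (∑ j, c j * ldv (f q0) j x = mon x (χ0 q0)) ∧
      ∀ q, q ≠ q0 → ∑ j, c j * ldv (f q) j x = 0 := by
  classical
  have hm0 : ∀ q, mon x (χ0 q) ≠ 0 := fun q => mon_ne_zero D.ne _
  have hint : ∀ k : ℤ, v (k : K) ≤ 1 := fun k => by
    have h1 := hv (k : ℂ)
    rwa [map_intCast] at h1
  have hldv : ∀ q j, v (ldv (f q) j x * (mon x (χ0 q))⁻¹) ≤ 1 := by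
    intro q j
    have h1 : v (ldv (f q) j x) ≤ v (mon x (χ0 q)) := by
      unfold ldv
      refine Valuation.map_sum_le v fun χ hχ => ?_
      rw [map_mul, map_mul]
      calc v (algebraMap ℂ K (f q χ)) * v (χ j : K) * v (mon x χ) ≤ 1 * 1 * v (mon x (χ0 q)) :=
            mul_le_mul' (mul_le_mul' (hv _) (hint _)) (hmax q χ hχ)
        _ = v (mon x (χ0 q)) := by rw [one_mul, one_mul]
    rw [map_mul, map_inv₀]
    have h2 : v (mon x (χ0 q)) ≠ 0 := (Valuation.ne_zero_iff v).2 (hm0 q)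
    rw [← div_eq_mul_inv]
    exact (div_le_one₀ (zero_lt_iff.2 h2)).2 h1
  let R := v.integer
  let J : Q → Fin d → R := fun q j => ⟨ldv (f q) j x * (mon x (χ0 q))⁻¹, hldv q j⟩
  let N : Submodule R (Q → R) := Submodule.span R (Set.range fun j q => J q j)
  have htop : N = ⊤ := by
    refine Pool.Agent.Work.RC.eq_top_of_mod_maximal N fun P hP φ hφ => ?_
    choose Φ hΦ using fun q => Ideal.Quotient.mk_surjective (φ q)
    have hr : ∀ j, ∑ q, J q j * Φ q ∈ P := by
      intro j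
      have h1 := hφ (fun q => J q j) (Submodule.subset_span ⟨j, rfl⟩)
      rw [← Ideal.Quotient.eq_zero_iff_mem, map_sum, ← h1]
      exact Finset.sum_congr rfl fun q _ => by rw [map_mul, hΦ]
    funext q
    rw [Pi.zero_apply, ← hΦ q, Ideal.Quotient.eq_zero_iff_mem]
    obtain ⟨j, hj⟩ := D.loc v hv (fun q => (Φ q : K) * (mon x (χ0 q))⁻¹) q (χ0 q) (hχ0 q)
    have e1 : v ((Φ q : K) * (mon x (χ0 q))⁻¹) * v (mon x (χ0 q)) = v (Φ q : K) := by
      rw [← map_mul, inv_mul_cancel_right₀ (hm0 q)]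
    have e2 : ∑ q', (Φ q' : K) * (mon x (χ0 q'))⁻¹ * ldv (f q') j x =
        ((∑ q', J q' j * Φ q' : R) : K) := by
      push_cast
      refine Finset.sum_congr rfl fun q' _ => ?_
      change _ = ldv (f q') j x * (mon x (χ0 q'))⁻¹ * (Φ q' : K)
      ring
    rw [e1, e2] at hj
    set r : R := ∑ q', J q' j * Φ q' with hrdef
    by_cases h0 : (r : K) = 0
    · rw [h0, map_zero, le_zero_iff, Valuation.zero_iff] at hj
      have : Φ q = 0 := Subtype.ext hj
      rw [this]
      exact P.zero_mem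
    · have h2 : v ((Φ q : K) / r) ≤ 1 := by
        rw [map_div₀]
        exact (div_le_one₀ (zero_lt_iff.2 ((Valuation.ne_zero_iff v).2 h0))).2 hj
      have h3 : Φ q = (⟨(Φ q : K) / r, h2⟩ : R) * r := by
        apply Subtype.ext
        change (Φ q : K) = (Φ q : K) / r * r
        field_simp
      rw [h3]
      exact P.mul_mem_left _ (hr j)
  have hmem : (Pi.single q0 1 : Q → R) ∈ N := by rw [htop]; trivial
  obtain ⟨c, hc⟩ := (Submodule.mem_span_range_iff_exists_fun R).1 hmem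
  have hc' : ∀ q, ∑ j, (c j : K) * (ldv (f q) j x * (mon x (χ0 q))⁻¹) =
      if q = q0 then 1 else 0 := by
    intro q
    have h1 := congrArg (fun r : R => (r : K)) (congrFun hc q)
    simp only [Finset.sum_apply, Pi.smul_apply, smul_eq_mul] at h1
    push_cast at h1
    rw [← show ((Pi.single q0 1 : Q → R) q : K) = if q = q0 then 1 else 0 by
      by_cases h : q = q0
      · subst h; simp
      · simp [h], ← h1]
  have hc2 : ∀ q, ∑ j, (c j : K) * ldv (f q) j x = (if q = q0 then 1 else 0) * mon x (χ0 q) := by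
    intro q
    rw [← hc' q, Finset.sum_mul]
    refine Finset.sum_congr rfl fun j _ => ?_
    rw [mul_assoc, mul_assoc, inv_mul_cancel₀ (hm0 q), mul_one]
  refine ⟨fun j => (c j : K), fun j => (c j).2, ?_, fun q hq => ?_⟩
  · rw [hc2, if_pos rfl, one_mul]
  · rw [hc2, if_neg hq, zero_mul]

theorem loc_ext (D : Data K n d Q x f) {L : Type} [Field L] [Algebra ℂ L] (φ : K →ₐ[ℂ] L)
    (w : Valuation L (WithZero (Multiplicative ℤ))) (hw : ∀ c : ℂ, w (algebraMap ℂ L c) ≤ 1)
    (a : Q → L) (q : Q) (χ : Fin d → ℤ) (hχ : χ ∈ (f q).support) :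
    ∃ j, w (a q) * w (mon (fun j => φ (x j)) χ) ≤
      w (∑ q', a q' * ldv (f q') j (fun j => φ (x j))) := by
  classical
  set v : Valuation K (WithZero (Multiplicative ℤ)) := w.comap (φ : K →+* L) with hvdef
  have hvw : ∀ y, v y = w (φ y) := fun y => rfl
  have hv : ∀ c : ℂ, v (algebraMap ℂ K c) ≤ 1 := fun c => by
    rw [hvw, AlgHom.commutes]
    exact hw c
  have hex : ∀ q, ∃ χ0 ∈ (f q).support, ∀ χ ∈ (f q).support, v (mon x χ) ≤ v (mon x χ0) :=
    fun q => Finset.exists_max_image _ _ (Finsupp.support_nonempty_iff.2 (D.nz q))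
  choose χ0 hχ0 hmax using hex
  obtain ⟨c, hc1, hc2, hc3⟩ := loc_gen D v hv χ0 hχ0 hmax q
  have hd : 0 < d := by
    have h1 : 0 < Fintype.card Q := Fintype.card_pos_iff.2 ⟨q⟩
    have h2 := D.dim
    omega
  obtain ⟨j, -, hj⟩ := Finset.exists_max_image (Finset.univ : Finset (Fin d))
    (fun j => w (∑ q', a q' * ldv (f q') j (fun j => φ (x j)))) ⟨⟨0, hd⟩, Finset.mem_univ _⟩
  refine ⟨j, ?_⟩
  have key : a q * φ (mon x (χ0 q)) =
      ∑ j, φ (c j) * ∑ q', a q' * ldv (f q') j (fun j => φ (x j)) := by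
    have h1 : ∀ q', a q' * φ (∑ j, c j * ldv (f q') j x) =
        if q' = q then a q * φ (mon x (χ0 q)) else 0 := by
      intro q'
      by_cases h : q' = q
      · subst h
        rw [hc2, if_pos rfl]
      · rw [hc3 q' h, map_zero, mul_zero, if_neg h]
    have h2 : a q * φ (mon x (χ0 q)) = ∑ q', a q' * φ (∑ j, c j * ldv (f q') j x) := by
      rw [Finset.sum_congr rfl fun q' _ => h1 q', Finset.sum_ite_eq' Finset.univ q,
        if_pos (Finset.mem_univ q)]
    rw [h2]
    simp only [map_sum, map_mul, Finset.mul_sum]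
    rw [Finset.sum_comm]
    refine Finset.sum_congr rfl fun j _ => Finset.sum_congr rfl fun q' _ => ?_
    rw [map_ldv]
    ring
  have h3 : w (mon (fun j => φ (x j)) χ) ≤ w (φ (mon x (χ0 q))) := by
    have h4 := hmax q χ hχ
    rw [hvw, hvw] at h4
    have h5 : φ (mon x χ) = mon (fun j => φ (x j)) χ := map_mon (φ : K →+* L) x χ
    rw [← h5]
    exact h4
  calc w (a q) * w (mon (fun j => φ (x j)) χ) ≤ w (a q) * w (φ (mon x (χ0 q))) :=
        mul_le_mul_right h3 _
    _ = w (a q * φ (mon x (χ0 q))) := (map_mul _ _ _).symm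
    _ ≤ w (∑ q', a q' * ldv (f q') j (fun j => φ (x j))) := by
        rw [key]
        refine Valuation.map_sum_le w fun i _ => ?_
        rw [map_mul]
        calc w (φ (c i)) * w (∑ q', a q' * ldv (f q') i (fun j => φ (x j)))
            ≤ 1 * w (∑ q', a q' * ldv (f q') i (fun j => φ (x j))) :=
              mul_le_mul_left (hc1 i) _
          _ = w (∑ q', a q' * ldv (f q') i (fun j => φ (x j))) := one_mul _
          _ ≤ _ := hj i (Finset.mem_univ _)

end Pool.Agent.Work.CW
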