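import Mathlib
import Pool.Agent.Work.MP_4329d7_ag_w.LocExt
import Pool.Agent.Work.MP_4329d7_ag_w.Defs

/-!
W, R1: logarithmic tangent vectors at the generic point are directions of derivations, and the
derivatives of the relations of a solution.
-/

namespace Pool.Agent.Work.CW

open Polynomial
open Pool.Agent.Work.CI Pool.Agent.Work.Uni

/-- the derivative of the relations -/
theorem der_jac {ι Pt Q F : Type*} [Fintype ι] [Fintype Pt] [Field F] [Algebra ℂ F]
    (E : Derivation ℂ F F) (a : Q → Pt → F) (β : ι → Pt → ℕ) (t : ι → F) (hsol : IsSol a β t)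
    (q : Q) :
    ∑ p, C (E (a q p)) * rootPoly β t p = ∑ i, C (E (t i)) * jac a β t q i := by
  classical
  have h1 : Pool.Agent.Work.RC.coeffD E (∑ p, C (a q p) * rootPoly β t p) = 0 := by
    rw [hsol q, map_zero]
  rw [map_sum] at h1
  have h2 : ∀ p, Pool.Agent.Work.RC.coeffD E (C (a q p) * rootPoly β t p) =
      C (E (a q p)) * rootPoly β t p -
        ∑ i, C (E (t i)) * (C (a q p) * Pool.Agent.Work.RC.uD β t p i) := by
    intro p
    rw [Derivation.leibniz, Pool.Agent.Work.RC.coeffD_C, Pool.Agent.Work.RC.coeffD_rootPoly,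
      smul_eq_mul, smul_eq_mul, mul_neg, Finset.mul_sum]
    have h3 : ∀ i, C (a q p) * (C (E (t i)) * Pool.Agent.Work.RC.uD β t p i) =
        C (E (t i)) * (C (a q p) * Pool.Agent.Work.RC.uD β t p i) := fun i => mul_left_comm _ _ _
    rw [Finset.sum_congr rfl fun i _ => h3 i, mul_comm (rootPoly β t p)]
    exact neg_add_eq_sub _ _
  rw [Finset.sum_congr rfl fun p _ => h2 p, Finset.sum_sub_distrib, sub_eq_zero] at h1
  rw [h1, Finset.sum_comm]
  refine Finset.sum_congr rfl fun i _ => ?_
  rw [jac, Finset.mul_sum]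

variable {K : Type} [Field K] [Algebra ℂ K] {n d : ℕ} {Q : Type} [Fintype Q]
  {x : Fin d → K} {f : Q → Lau d}

/-- the rows of the logarithmic Jacobian are independent over every field over `K` -/
theorem ldv_li (D : Data K n d Q x f) {F : Type} [Field F] [Algebra ℂ F] (emb : K →ₐ[ℂ] F) :
    LinearIndependent F (fun q j => ldv (f q) j (fun j => emb (x j))) := by
  classical
  rw [Fintype.linearIndependent_iff]
  intro a ha q
  let v : Valuation F (WithZero (Multiplicative ℤ)) := 1
  obtain ⟨χ, hχ⟩ := Finsupp.support_nonempty_iff.2 (D.nz q)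
  obtain ⟨j, hj⟩ := loc_ext D emb v (fun c => Valuation.one_apply_le_one _) a q χ hχ
  have h1 := congrFun ha j
  rw [Finset.sum_apply] at h1
  have h2 : ∑ q', a q' * ldv (f q') j (fun j => emb (x j)) = 0 := h1
  rw [h2, map_zero, le_zero_iff, mul_eq_zero, Valuation.zero_iff, Valuation.zero_iff] at hj
  refine hj.resolve_right (mon_ne_zero (fun j => ?_) χ)
  exact (map_ne_zero_iff _ emb.injective).2 (D.ne j)

theorem exists_der (D : Data K n d Q x f) {F : Type} [Field F] [Algebra ℂ F] (emb : K →ₐ[ℂ] F)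
    (v : Fin d → F) (hv : ∀ q, ∑ j, ldv (f q) j (fun j => emb (x j)) * v j = 0) :
    ∃ E : Derivation ℂ F F, ∀ j, E (emb (x j)) = v j * emb (x j) := by
  classical
  obtain ⟨I, _, Dr, hI, hli⟩ := curve_frame x D.gen D.trdeg
  letI := (emb : K →+* F).toAlgebra
  have halg : ∀ y : K, algebraMap K F y = emb y := fun y => rfl
  haveI : IsScalarTower ℂ K F := IsScalarTower.of_algebraMap_eq fun c => by
    rw [halg, AlgHom.commutes]
  have hx0 : ∀ j, emb (x j) ≠ 0 := fun j => (map_ne_zero_iff _ emb.injective).2 (D.ne j)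
  -- the logarithmic directions
  let M : I → Fin d → F := fun i j => emb (Dr i (x j)) * (emb (x j))⁻¹
  have hM : LinearIndependent F M := by
    have h1 : LinearIndependent F (fun i => algebraMap K F ∘ fun j => Dr i (x j)) :=
      linearIndependent_algebraMap_comp_iff.2 hli
    rw [Fintype.linearIndependent_iff] at h1 ⊢
    intro g hg i
    refine h1 g ?_ i
    funext j
    have h2 := congrFun hg j
    rw [Finset.sum_apply] at h2 ⊢
    rw [Pi.zero_apply] at h2 ⊢
    have h3 : (∑ i, g i * emb (Dr i (x j))) * (emb (x j))⁻¹ = 0 := by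
      rw [← h2, Finset.sum_mul]
      exact Finset.sum_congr rfl fun i _ => by
        simp only [Pi.smul_apply, smul_eq_mul, M]
        ring
    exact (mul_eq_zero.1 h3).resolve_right (inv_ne_zero (hx0 j))
  have hev : ∀ (g : Lau d) (E : Derivation ℂ K K),
      E (ev g x) = ∑ j, ldv g j x * (E (x j) * (x j)⁻¹) := by
    intro g E
    have hmon : ∀ χ : Fin d → ℤ, E (mon x χ) = ∑ j, (χ j : K) * mon x χ * (E (x j) * (x j)⁻¹) := by
      intro χ
      unfold mon
      rw [Pool.Agent.Work.RC.derivation_prod]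
      refine Finset.sum_congr rfl fun j _ => ?_
      have hz : E (x j ^ χ j) = (χ j : K) * x j ^ χ j * (E (x j) * (x j)⁻¹) := by
        rw [Derivation.leibniz_zpow]
        rw [zsmul_eq_mul, smul_eq_mul, zpow_sub_one₀ (D.ne j)]
        ring
      rw [hz, ← Finset.mul_prod_erase Finset.univ (fun j => x j ^ χ j) (Finset.mem_univ j)]
      ring
    unfold ev ldv
    rw [map_sum]
    simp only [Finset.sum_mul]
    rw [Finset.sum_comm]
    refine Finset.sum_congr rfl fun χ _ => ?_
    rw [Derivation.leibniz, Derivation.map_algebraMap, smul_zero, add_zero, hmon, smul_eq_mul,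
      Finset.mul_sum]
    exact Finset.sum_congr rfl fun j _ => by ring
  have horth : ∀ i q, ∑ j, M i j * ldv (f q) j (fun j => emb (x j)) = 0 := by
    intro i q
    have h1 := hev (f q) (Dr i)
    rw [D.eq, map_zero] at h1
    have h2 := congrArg emb h1
    rw [map_zero, map_sum] at h2
    rw [h2]
    refine Finset.sum_congr rfl fun j _ => ?_
    rw [map_mul, map_mul, map_inv₀, map_ldv]
    ring
  obtain ⟨c, hc⟩ := curve_span M (fun q j => ldv (f q) j (fun j => emb (x j))) hM (ldv_li D emb)
    (by rw [hI, add_comm]; exact D.dim) horth v (fun q => by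
      rw [← hv q]
      exact Finset.sum_congr rfl fun j _ => mul_comm _ _)
  -- a derivation from `K` to `F`
  obtain ⟨s, hs⟩ := exists_isTranscendenceBasis ℂ K
  have hai : AlgebraicIndependent ℂ (fun i : s => emb (i : K)) :=
    hs.1.map' emb.injective
  obtain ⟨E, hE⟩ := Pool.Agent.Work.MP_4329d7_ag_sq.exists_der_of_algInd hai
    (fun i : s => ∑ k, c k * emb (Dr k (i : K)))
  refine ⟨E, ?_⟩
  let E1 : Derivation ℂ K F := E.compAlgebraMap K
  let E2 : Derivation ℂ K F := ∑ k, c k • ((Algebra.linearMap K F).compDer (Dr k))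
  have hE1 : ∀ y, E1 y = E (emb y) := fun y => rfl
  have hE2 : ∀ y, E2 y = ∑ k, c k * emb (Dr k y) := by
    intro y
    have h1 : ∀ S : Finset I, (∑ k ∈ S, c k • ((Algebra.linearMap K F).compDer (Dr k)) :
        Derivation ℂ K F) y = ∑ k ∈ S, c k * emb (Dr k y) := by
      intro S
      induction S using Finset.induction_on with
      | empty => simp
      | insert i S hi ih =>
        rw [Finset.sum_insert hi, Finset.sum_insert hi, Derivation.add_apply, ih]
        rfl
    exact h1 _
  have heq : E1 = E2 := by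
    refine Pool.Agent.Work.MP_4329d7_ag.R.derivation_ext hs fun i => ?_
    rw [hE1, hE2, hE i]
  intro j
  have h1 : E (emb (x j)) = ∑ k, c k * emb (Dr k (x j)) := by
    rw [← hE1, heq, hE2]
  rw [h1, hc j, Finset.sum_mul]
  refine Finset.sum_congr rfl fun k _ => ?_
  simp only [M]
  rw [mul_assoc, mul_assoc, inv_mul_cancel₀ (hx0 j), mul_one]

theorem der_mon {F : Type} [Field F] [Algebra ℂ F] {y : Fin d → F} (hy : ∀ j, y j ≠ 0)
    (E : Derivation ℂ F F) (v : Fin d → F) (hE : ∀ j, E (y j) = v j * y j) (χ : Fin d → ℤ) :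
    E (mon y χ) = mon y χ * ∑ j, (χ j : F) * v j := by
  classical
  unfold mon
  rw [Pool.Agent.Work.RC.derivation_prod, Finset.mul_sum]
  refine Finset.sum_congr rfl fun j _ => ?_
  have hz : E (y j ^ χ j) = (χ j : F) * y j ^ χ j * v j := by
    rw [Derivation.leibniz_zpow]
    rw [zsmul_eq_mul, smul_eq_mul, zpow_sub_one₀ (hy j), hE]
    have := hy j
    field_simp
  rw [hz, ← Finset.mul_prod_erase Finset.univ (fun j => y j ^ χ j) (Finset.mem_univ j)]
  ring

/-- R1 -/
theorem lift (D : Data K n d Q x f) {F : Type} [Field F] [Algebra ℂ F] (emb : K →ₐ[ℂ] F)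
    {ι : Type} [Fintype ι] (b : ι → Fin d → ℤ) (t : ι → F)
    (hsol : IsSol (coef f fun j => emb (x j)) (fun i => blk f (b i)) t)
    (v : Fin d → F) (hv : ∀ q, ∑ j, ldv (f q) j (fun j => emb (x j)) * v j = 0) :
    ∃ δ : ι → F, ∀ q, ∑ p, C (coef f (fun j => emb (x j)) q p * ∑ j, (p.2.1 j : F) * v j) *
      rootPoly (fun i => blk f (b i)) t p =
        ∑ i, C (δ i) * jac (coef f fun j => emb (x j)) (fun i => blk f (b i)) t q i := by
  classical
  obtain ⟨E, hE⟩ := exists_der D emb v hv
  refine ⟨fun i => E (t i), fun q => ?_⟩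
  rw [← der_jac E _ _ _ hsol q]
  refine Finset.sum_congr rfl fun p _ => ?_
  congr 2
  unfold coef
  split_ifs with h
  · have hm := der_mon (y := fun j => emb (x j))
      (fun j => (map_ne_zero_iff _ emb.injective).2 (D.ne j)) E v hE p.2.1
    rw [Derivation.leibniz, Derivation.map_algebraMap, smul_zero, add_zero, smul_eq_mul, hm]
    ring
  · rw [map_zero, zero_mul]

end Pool.Agent.Work.CW
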