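import Mathlib
import Pool.Agent.Work.MP_4329d7_ag_w.Lift
import Pool.Agent.Work.MP_4329d7_ag_w.IrrCurve

/-!
W: the curve of a solution as a homomorphism `K → F(T)` (value `emb` at `T = 0`) and `K → F(X)`,
`X = 1/T`.
-/

namespace Pool.Agent.Work.CW.R2

open Polynomial
open Pool.Agent.Work.CI Pool.Agent.Work.Uni Pool.Agent.Work.MP_4329d7_ag_sq

section inv

variable {F : Type} [Field F]

theorem transcendental_X_inv : Transcendental F (RatFunc.X⁻¹ : RatFunc F) := by
  intro h
  apply RatFunc.transcendental_X (K := F)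
  have := h.inv
  rwa [inv_inv] at this

/-- `T ↦ 1/X` -/
noncomputable def invHom (F : Type) [Field F] : RatFunc F →ₐ[F] RatFunc F :=
  IsFractionRing.liftAlgHom (A := F[X]) (K := RatFunc F)
    (g := (Polynomial.aeval (RatFunc.X⁻¹ : RatFunc F) : F[X] →ₐ[F] RatFunc F))
    (transcendental_iff_injective.1 transcendental_X_inv)

theorem invHom_algebraMap (p : F[X]) :
    invHom F (algebraMap F[X] (RatFunc F) p) = Polynomial.aeval (RatFunc.X⁻¹ : RatFunc F) p := by
  unfold invHom
  rw [IsFractionRing.liftAlgHom_apply]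
  exact IsFractionRing.lift_algebraMap _ _

theorem invHom_C (c : F) : invHom F (RatFunc.C c) = RatFunc.C c := by
  rw [← RatFunc.algebraMap_C, invHom_algebraMap, Polynomial.aeval_C]
  rfl

theorem invHom_csG (t : F) :
    invHom F (csG t) = (RatFunc.X - RatFunc.C t) * (RatFunc.X)⁻¹ := by
  unfold csG
  rw [invHom_algebraMap]
  simp only [map_sub, map_one, map_mul, Polynomial.aeval_C, Polynomial.aeval_X]
  have hX : (RatFunc.X : RatFunc F) ≠ 0 := RatFunc.X_ne_zero
  rw [sub_mul, mul_inv_cancel₀ hX]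
  rfl

end inv

variable {K : Type} [Field K] [Algebra ℂ K] {n d : ℕ} {Q : Type} [Fintype Q]
  {x : Fin d → K} {f : Q → Lau d}

/-- the curve, `X` version -/
theorem exists_phi (D : Data K n d Q x f) {F : Type} [Field F] [Algebra ℂ F] (emb : K →ₐ[ℂ] F)
    {ι : Type} [Fintype ι] (b : ι → Fin d → ℤ) (hb : ∑ i, b i = 0) (t : ι → F)
    (hsol : IsSol (coef f fun j => emb (x j)) (fun i => blk f (b i)) t) :
    ∃ φ : K →ₐ[ℂ] RatFunc F, ∀ j, φ (x j) =
      RatFunc.C (emb (x j)) * ∏ i, (RatFunc.X - RatFunc.C (t i)) ^ b i j := by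
  classical
  obtain ⟨φ, hφ, -⟩ := root_hom D emb b hb t hsol
  refine ⟨((invHom F).restrictScalars ℂ).comp φ, fun j => ?_⟩
  change invHom F (φ (x j)) = _
  rw [hφ, map_mul, invHom_C, map_prod]
  congr 1
  simp only [map_zpow₀, invHom_csG, mul_zpow, Finset.prod_mul_distrib]
  rw [cs_zpow_sum Finset.univ (inv_ne_zero RatFunc.X_ne_zero) (fun i => b i j)]
  have h1 : ∑ i, b i j = 0 := by
    have := congrFun hb j
    rwa [Finset.sum_apply] at this
  rw [h1, zpow_zero, mul_one]

end Pool.Agent.Work.CW.R2
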