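import Mathlib
import Pool.Agent.Work.MP_4329d7_ag_w.Phi

/-!
W, R2: at a solution with distinct roots the Jacobian of the root system is onto.
-/

namespace Pool.Agent.Work.CW

open Polynomial
open Pool.Agent.Work.CI Pool.Agent.Work.Uni Pool.Agent.Work.MP_4329d7_ag_sq

variable {K : Type} [Field K] [Algebra ℂ K] {n d : ℕ} {Q : Type} [Fintype Q]
  {x : Fin d → K} {f : Q → Lau d}

namespace R2

/-- the logarithmic Jacobian along the curve -/
noncomputable def lj {ι : Type} [Fintype ι] {F : Type} [Field F] [Algebra ℂ F] (f : Q → Lau d)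
    (c : Fin d → F) (β : ι → Pts f → ℕ) (t : ι → F) (q : Q) (j : Fin d) : F[X] :=
  ∑ p, C (coef f c q p * (p.2.1 j : F)) * rootPoly β t p

theorem deg_C_mul_le {F : Type*} [Field F] (a : F) (p : F[X]) : (C a * p).degree ≤ p.degree := by
  rw [C_mul']
  exact degree_smul_le a p

theorem rootPoly_monic {ι Pt F : Type*} [Fintype ι] [Field F] (β : ι → Pt → ℕ) (t : ι → F)
    (p : Pt) : (rootPoly β t p).Monic :=
  monic_prod_of_monic _ _ fun _ _ => (monic_X_sub_C _).pow _

theorem rootPoly_natDegree {ι Pt F : Type*} [Fintype ι] [Field F] (β : ι → Pt → ℕ) (t : ι → F)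
    (p : Pt) : (rootPoly β t p).natDegree = ∑ i, β i p := by
  unfold rootPoly
  rw [natDegree_prod_of_monic _ _ fun _ _ => (monic_X_sub_C _).pow _]
  refine Finset.sum_congr rfl fun i _ => ?_
  rw [natDegree_pow, natDegree_X_sub_C, mul_one]

/-- the values of the logarithmic derivatives on the curve -/
theorem ldv_curve {F : Type} [Field F] [Algebra ℂ F] (c : Fin d → F)
    {ι : Type} [Fintype ι] (b : ι → Fin d → ℤ) (t : ι → F) (q : Q) (j : Fin d) :
    ldv (f q) j (fun j => RatFunc.C (c j) * ∏ i, (RatFunc.X - RatFunc.C (t i)) ^ b i j) =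
      (∏ i, (RatFunc.X - RatFunc.C (t i)) ^ mn (f q) (b i)) *
        algebraMap F[X] (RatFunc F) (lj f c (fun i => blk f (b i)) t q j) := by
  classical
  have hG : ∀ i, (RatFunc.X - RatFunc.C (t i) : RatFunc F) ≠ 0 := by
    intro i h
    have h1 : (X - C (t i) : F[X]) = 0 := by
      refine IsFractionRing.injective F[X] (RatFunc F) ?_
      rw [map_zero, ← h, map_sub, RatFunc.algebraMap_X, RatFunc.algebraMap_C]
    exact X_sub_C_ne_zero _ h1
  have hmon : ∀ χ, mon (fun j => RatFunc.C (c j) * ∏ i, (RatFunc.X - RatFunc.C (t i)) ^ b i j) χ =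
      RatFunc.C (mon c χ) * ∏ i, (RatFunc.X - RatFunc.C (t i)) ^ pair χ (b i) := fun χ =>
    cs_mon c (fun i => (RatFunc.X - RatFunc.C (t i))) hG b χ
  have hprod : ∀ p : Pts f, ∏ i, (RatFunc.X - RatFunc.C (t i)) ^ pair p.2.1 (b i) =
      (∏ i, (RatFunc.X - RatFunc.C (t i)) ^ mn (f p.1) (b i)) *
        algebraMap F[X] (RatFunc F) (rootPoly (fun i => blk f (b i)) t p) := by
    intro p
    rw [rootPoly, map_prod, ← Finset.prod_mul_distrib]
    refine Finset.prod_congr rfl fun i _ => ?_
    have h1 := blk_cast f (b i) p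
    have h2 : pair p.2.1 (b i) = blk f (b i) p + mn (f p.1) (b i) := by omega
    rw [h2, zpow_add₀ (hG i), zpow_natCast, mul_comm, map_pow, map_sub, RatFunc.algebraMap_X,
      RatFunc.algebraMap_C]
  rw [lj, map_sum, Finset.mul_sum, Fintype.sum_sigma, Finset.sum_eq_single q]
  · unfold ldv
    rw [← Finset.sum_coe_sort]
    refine Finset.sum_congr rfl fun χ _ => ?_
    have h2 := hprod ⟨q, χ⟩
    simp only at h2
    rw [hmon, h2, map_mul, RatFunc.algebraMap_C, algebraMap_ratFunc]
    simp only [coef, if_true, map_mul, map_intCast]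
    ring
  · intro q' _ hq'
    refine Finset.sum_eq_zero fun χ _ => ?_
    unfold coef
    rw [if_neg hq']
    simp
  · intro hq
    exact absurd (Finset.mem_univ _) hq

/-- the columns generate -/
theorem lj_onto (D : Data K n d Q x f) {F : Type} [Field F] [Algebra ℂ F] (emb : K →ₐ[ℂ] F)
    {ι : Type} [Fintype ι] (b : ι → Fin d → ℤ) (hb : ∑ i, b i = 0) (t : ι → F)
    (ht : Function.Injective t)
    (hsol : IsSol (coef f fun j => emb (x j)) (fun i => blk f (b i)) t) (P : Q → F[X]) :
    ∃ V : Fin d → F[X], ∀ q, ∑ j, lj f (fun j => emb (x j)) (fun i => blk f (b i)) t q j * V j =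
      P q := by
  classical
  set β : ι → Pts f → ℕ := fun i => blk f (b i) with hβ
  set c : Fin d → F := fun j => emb (x j) with hc
  have hc0 : ∀ j, c j ≠ 0 := fun j => (map_ne_zero_iff _ emb.injective).2 (D.ne j)
  obtain ⟨φ, hφ⟩ := exists_phi D emb b hb t hsol
  have hφx : (fun j => φ (x j)) =
      fun j => RatFunc.C (c j) * ∏ i, (RatFunc.X - RatFunc.C (t i)) ^ b i j := funext hφ
  have hG : ∀ i, (RatFunc.X - RatFunc.C (t i) : RatFunc F) ≠ 0 := by
    intro i h
    have h1 : (X - C (t i) : F[X]) = 0 := by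
      refine IsFractionRing.injective F[X] (RatFunc F) ?_
      rw [map_zero, ← h, map_sub, RatFunc.algebraMap_X, RatFunc.algebraMap_C]
    exact X_sub_C_ne_zero _ h1
  let N : Submodule F[X] (Q → F[X]) := Submodule.span F[X] (Set.range fun j q => lj f c β t q j)
  have htop : N = ⊤ := by
    refine Pool.Agent.Work.RC.eq_top_of_mod_maximal N fun M hM ψ hψ => ?_
    choose Φ hΦ using fun q => Ideal.Quotient.mk_surjective (ψ q)
    have hr : ∀ j, ∑ q, lj f c β t q j * Φ q ∈ M := by
      intro j
      have h1 := hψ (fun q => lj f c β t q j) (Submodule.subset_span ⟨j, rfl⟩)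
      rw [← Ideal.Quotient.eq_zero_iff_mem, map_sum, ← h1]
      exact Finset.sum_congr rfl fun q _ => by rw [map_mul, hΦ]
    have hM0 : M ≠ ⊥ := Ring.ne_bot_of_isMaximal_of_not_isField hM (Polynomial.not_isField F)
    let P0 : IsDedekindDomain.HeightOneSpectrum F[X] := ⟨M, hM.isPrime, hM0⟩
    let w : Valuation (RatFunc F) (WithZero (Multiplicative ℤ)) := P0.valuation (RatFunc F)
    have hw : ∀ a : ℂ, w (algebraMap ℂ (RatFunc F) a) ≤ 1 := by
      intro a
      rw [algebraMap_ratFunc, ← RatFunc.algebraMap_C]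
      exact P0.valuation_le_one _
    have hwlt : ∀ r : F[X], w (algebraMap F[X] (RatFunc F) r) < 1 ↔ r ∈ M := fun r =>
      P0.valuation_lt_one_iff_mem r
    have hwle : ∀ r : F[X], w (algebraMap F[X] (RatFunc F) r) ≤ 1 := fun r =>
      P0.valuation_le_one r
    have hw1 : ∀ r : F[X], r ∉ M → w (algebraMap F[X] (RatFunc F) r) = 1 := fun r hr =>
      le_antisymm (hwle r) (not_lt.1 fun h => hr ((hwlt r).1 h))
    -- a monomial of minimal order
    have hu : ∀ q, ∃ χ : (f q).support, rootPoly β t ⟨q, χ⟩ ∉ M := by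
      intro q
      by_cases hi : ∃ i, X - C (t i) ∈ M
      · obtain ⟨i, hi⟩ := hi
        obtain ⟨χ, hχ, hχ2⟩ := exists_mn (D.nz q) (b i)
        refine ⟨⟨χ, hχ⟩, fun hmem => ?_⟩
        have hp := hM.isPrime
        rw [rootPoly, hp.prod_mem_iff] at hmem
        obtain ⟨i', -, hi'⟩ := hmem
        by_cases h : i' = i
        · subst h
          have h0 : β i' ⟨q, ⟨χ, hχ⟩⟩ = 0 := by
            have h2 := blk_cast f (b i') ⟨q, ⟨χ, hχ⟩⟩
            simp only at h2
            rw [hχ2, sub_self] at h2
            exact_mod_cast h2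
          rw [h0, pow_zero] at hi'
          exact hM.ne_top ((Ideal.eq_top_iff_one _).2 hi')
        · have h1 := hp.mem_of_pow_mem _ hi'
          have h2 : C (t i' - t i) ∈ M := by
            have h3 := M.sub_mem hi h1
            have h4 : (X - C (t i)) - (X - C (t i')) = C (t i' - t i) := by
              rw [C_sub]; ring
            rwa [h4] at h3
          have h5 : t i' - t i ≠ 0 := sub_ne_zero.2 fun h6 => h (ht h6)
          exact hM.ne_top (Ideal.eq_top_of_isUnit_mem _ h2
            (isUnit_C.2 (IsUnit.mk0 _ h5)))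
      · obtain ⟨χ, hχ⟩ := Finsupp.support_nonempty_iff.2 (D.nz q)
        refine ⟨⟨χ, hχ⟩, fun hmem => ?_⟩
        have hp := hM.isPrime
        rw [rootPoly, hp.prod_mem_iff] at hmem
        obtain ⟨i', -, hi'⟩ := hmem
        exact hi ⟨i', hp.mem_of_pow_mem _ hi'⟩
    funext q
    rw [Pi.zero_apply, ← hΦ q, Ideal.Quotient.eq_zero_iff_mem]
    obtain ⟨χ, hχ⟩ := hu q
    set g : Q → RatFunc F := fun q => ∏ i, (RatFunc.X - RatFunc.C (t i)) ^ mn (f q) (b i) with hg
    have hg0 : ∀ q, g q ≠ 0 := fun q => Finset.prod_ne_zero_iff.2 fun i _ => zpow_ne_zero _ (hG i)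
    obtain ⟨j, hj⟩ := loc_ext D φ w hw (fun q => algebraMap F[X] (RatFunc F) (Φ q) * (g q)⁻¹) q χ.1
      χ.2
    have hmon : mon (fun j => φ (x j)) χ.1 =
        RatFunc.C (mon c χ.1) * (g q * algebraMap F[X] (RatFunc F) (rootPoly β t ⟨q, χ⟩)) := by
      rw [hφx, cs_mon c (fun i => (RatFunc.X - RatFunc.C (t i))) hG b]
      congr 1
      rw [hg, rootPoly, map_prod, ← Finset.prod_mul_distrib]
      refine Finset.prod_congr rfl fun i _ => ?_
      have h1 := blk_cast f (b i) ⟨q, χ⟩
      have h2 : pair χ.1 (b i) = β i ⟨q, χ⟩ + mn (f q) (b i) := by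
        simp only at h1
        simp only [hβ]
        omega
      rw [h2, zpow_add₀ (hG i), zpow_natCast, mul_comm, map_pow, map_sub, RatFunc.algebraMap_X,
        RatFunc.algebraMap_C]
    have hC1 : w (RatFunc.C (mon c χ.1)) = 1 := by
      rw [← RatFunc.algebraMap_C]
      refine hw1 _ fun h => hM.ne_top (Ideal.eq_top_of_isUnit_mem _ h
        (isUnit_C.2 (IsUnit.mk0 _ (mon_ne_zero hc0 _))))
    have hgw : w (g q) ≠ 0 := (Valuation.ne_zero_iff w).2 (hg0 q)
    have hleft : w (algebraMap F[X] (RatFunc F) (Φ q) * (g q)⁻¹) * w (mon (fun j => φ (x j)) χ.1) =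
        w (algebraMap F[X] (RatFunc F) (Φ q)) := by
      rw [hmon, map_mul, map_mul, map_mul, map_inv₀, hC1, hw1 _ hχ, one_mul, mul_one, mul_assoc,
        inv_mul_cancel₀ hgw, mul_one]
    have hright : ∑ q', algebraMap F[X] (RatFunc F) (Φ q') * (g q')⁻¹ *
        ldv (f q') j (fun j => φ (x j)) =
          algebraMap F[X] (RatFunc F) (∑ q', lj f c β t q' j * Φ q') := by
      rw [map_sum]
      refine Finset.sum_congr rfl fun q' _ => ?_
      rw [hφx, ldv_curve c b t q' j, map_mul]
      change algebraMap F[X] (RatFunc F) (Φ q') * (g q')⁻¹ * (g q' * _) = _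
      have := hg0 q'
      field_simp
      rfl
    rw [hleft, hright] at hj
    exact (hwlt _).1 (lt_of_le_of_lt hj ((hwlt _).2 (hr j)))
  have hmem : P ∈ N := by rw [htop]; trivial
  obtain ⟨V, hV⟩ := (Submodule.mem_span_range_iff_exists_fun F[X]).1 hmem
  refine ⟨V, fun q => ?_⟩
  rw [← hV, Finset.sum_apply]
  exact Finset.sum_congr rfl fun j _ => by rw [Pi.smul_apply, smul_eq_mul, mul_comm]

theorem uD_degree' {ι Pt F : Type} [Fintype ι] [Field F] (β : ι → Pt → ℕ) (t : ι → F) (p : Pt)
    (i : ι) : (Pool.Agent.Work.RC.uD β t p i).degree < (∑ i, β i p : ℕ) :=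
  Pool.Agent.Work.RC.uD_degree β t p i

/-- the columns of the Jacobian have small degree -/
theorem jac_degree {F : Type} [Field F] [Algebra ℂ F] (c : Fin d → F)
    {ι : Type} [Fintype ι] (b : ι → Fin d → ℤ) (hb : ∑ i, b i = 0) (t : ι → F) (q : Q) (i : ι) :
    (jac (coef f c) (fun i => blk f (b i)) t q i).degree < dg f b q := by
  classical
  rw [jac, ← mem_degreeLT]
  refine Submodule.sum_mem _ fun p _ => ?_
  by_cases hp : p.1 = q
  · rw [mem_degreeLT]
    refine (deg_C_mul_le _ _).trans_lt ?_
    rw [← hp, ← sum_blk b hb p]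
    exact uD_degree' _ t p i
  · have : coef f c q p = 0 := by
      unfold coef
      exact if_neg hp
    rw [this, C_0, zero_mul]
    exact Submodule.zero_mem _

/-- `(X - t i)` times the column `i` is a combination of the logarithmic Jacobian -/
theorem jac_mul {F : Type} [Field F] [Algebra ℂ F] (c : Fin d → F)
    {ι : Type} [Fintype ι] (b : ι → Fin d → ℤ) (t : ι → F)
    (hsol : IsSol (coef f c) (fun i => blk f (b i)) t) (q : Q) (i : ι) :
    (X - C (t i)) * jac (coef f c) (fun i => blk f (b i)) t q i =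
      ∑ j, C (b i j : F) * lj f c (fun i => blk f (b i)) t q j := by
  classical
  set β : ι → Pts f → ℕ := fun i => blk f (b i) with hβ
  have h1 : (X - C (t i)) * jac (coef f c) β t q i =
      ∑ p, C (coef f c q p * (β i p : F)) * rootPoly β t p := by
    rw [jac, Finset.mul_sum]
    refine Finset.sum_congr rfl fun p _ => ?_
    rw [mul_left_comm, Pool.Agent.Work.RC.uD_mul]
    rw [C_mul, mul_assoc]
  have h2 : ∀ p, coef f c q p * (β i p : F) =
      ∑ j, (b i j : F) * (coef f c q p * (p.2.1 j : F)) - coef f c q p * (mn (f q) (b i) : F) := by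
    intro p
    by_cases hp : p.1 = q
    · have h3 : ((β i p : ℕ) : ℤ) = pair p.2.1 (b i) - mn (f q) (b i) := by
        rw [← hp]
        exact blk_cast f (b i) p
      have h4 : ((β i p : ℕ) : F) = ∑ j, (p.2.1 j : F) * (b i j : F) - (mn (f q) (b i) : F) := by
        have h5 : (((β i p : ℕ) : ℤ) : F) = _ := congrArg (Int.cast : ℤ → F) h3
        rw [Int.cast_natCast] at h5
        rw [h5]
        unfold pair
        push_cast
        ring
      rw [h4, mul_sub, Finset.mul_sum]
      congr 1
      exact Finset.sum_congr rfl fun j _ => by ring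
    · have : coef f c q p = 0 := by
        unfold coef
        exact if_neg hp
      rw [this]
      simp
  rw [h1]
  have h3 : ∀ p, C (coef f c q p * (β i p : F)) * rootPoly β t p =
      ∑ j, C (b i j : F) * (C (coef f c q p * (p.2.1 j : F)) * rootPoly β t p) -
        C (mn (f q) (b i) : F) * (C (coef f c q p) * rootPoly β t p) := by
    intro p
    rw [h2, C_sub, map_sum, sub_mul, Finset.sum_mul]
    congr 1
    · exact Finset.sum_congr rfl fun j _ => by rw [C_mul, mul_assoc]
    · rw [C_mul]
      ring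
  rw [Finset.sum_congr rfl fun p _ => h3 p, Finset.sum_sub_distrib, ← Finset.mul_sum, hsol q,
    mul_zero, sub_zero, Finset.sum_comm]
  refine Finset.sum_congr rfl fun j _ => ?_
  rw [lj, Finset.mul_sum]

/-- the top coefficient of the logarithmic Jacobian -/
theorem lj_coeff {F : Type} [Field F] [Algebra ℂ F] (c : Fin d → F)
    {ι : Type} [Fintype ι] (b : ι → Fin d → ℤ) (hb : ∑ i, b i = 0) (t : ι → F) (q : Q)
    (j : Fin d) :
    (lj f c (fun i => blk f (b i)) t q j).natDegree ≤ dg f b q ∧
      (lj f c (fun i => blk f (b i)) t q j).coeff (dg f b q) = ldv (f q) j c := by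
  classical
  constructor
  · rw [lj]
    have h1 : ∀ p ∈ (Finset.univ : Finset (Pts f)),
        (C (coef f c q p * (p.2.1 j : F)) * rootPoly (fun i => blk f (b i)) t p).natDegree ≤
          dg f b q := by
      intro p _
      by_cases hp : p.1 = q
      · refine (natDegree_C_mul_le _ _).trans ?_
        rw [rootPoly_natDegree, sum_blk b hb p, hp]
      · have : coef f c q p = 0 := by
          unfold coef
          exact if_neg hp
        rw [this, zero_mul, C_0, zero_mul, natDegree_zero]
        exact Nat.zero_le _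
    exact natDegree_sum_le_of_forall_le _ _ h1
  · rw [lj, finsetSum_coeff (Finset.univ : Finset (Pts f)), Fintype.sum_sigma,
      Finset.sum_eq_single q]
    · unfold ldv
      rw [← Finset.sum_coe_sort (f q).support
        (fun χ => algebraMap ℂ F (f q χ) * (χ j : F) * mon c χ)]
      refine Finset.sum_congr rfl fun χ _ => ?_
      have h1 : (rootPoly (fun i => blk f (b i)) t ⟨q, χ⟩).coeff (dg f b q) = 1 := by
        have h2 := (rootPoly_monic (fun i => blk f (b i)) t ⟨q, χ⟩).coeff_natDegree
        rw [rootPoly_natDegree, sum_blk b hb] at h2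
        exact h2
      rw [coeff_C_mul, h1, mul_one]
      simp only [coef, if_true]
      ring
    · intro q' _ hq'
      refine Finset.sum_eq_zero fun χ _ => ?_
      have : coef f c q ⟨q', χ⟩ = 0 := by
        unfold coef
        exact if_neg hq'
      rw [this]
      simp
    · intro hq
      exact absurd (Finset.mem_univ _) hq

theorem free_aux (D : Data K n d Q x f) {F : Type} [Field F] [Algebra ℂ F] (emb : K →ₐ[ℂ] F)
    {ι : Type} [Fintype ι] (b : ι → Fin d → ℤ) (hb : ∑ i, b i = 0) (t : ι → F)
    (hsol : IsSol (coef f fun j => emb (x j)) (fun i => blk f (b i)) t) (N : ℕ) :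
    ∀ (P : Q → F[X]), (∀ q, (P q).degree < dg f b q) → ∀ V : Fin d → F[X],
      (∀ j, (V j).degree < N) →
      (∀ q, ∑ j, lj f (fun j => emb (x j)) (fun i => blk f (b i)) t q j * V j = P q) →
      ∃ δ : ι → F, ∀ q, ∑ i, C (δ i) * jac (coef f fun j => emb (x j)) (fun i => blk f (b i)) t q i
        = P q := by
  classical
  induction N with
  | zero =>
    intro P _ V hV hPV
    refine ⟨0, fun q => ?_⟩
    rw [← hPV q]
    have hV0 : ∀ j, V j = 0 := fun j => by
      have := hV j
      rw [Nat.cast_zero] at this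
      exact degree_eq_bot.1 (Nat.WithBot.lt_zero_iff.1 this)
    simp [hV0]
  | succ N ih =>
    intro P hP V hV hPV
    set β : ι → Pts f → ℕ := fun i => blk f (b i) with hβ
    set c : Fin d → F := fun j => emb (x j) with hc
    set v : Fin d → F := fun j => (V j).coeff N with hv
    have hVN : ∀ j, (V j).natDegree ≤ N := fun j => by
      refine Nat.lt_succ_iff.1 ?_
      by_cases h0 : V j = 0
      · rw [h0, natDegree_zero]
        exact Nat.succ_pos _
      · exact (natDegree_lt_iff_degree_lt h0).2 (hV j)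
    have hv0 : ∀ q, ∑ j, ldv (f q) j (fun j => emb (x j)) * v j = 0 := by
      intro q
      have h1 : (∑ j, lj f c β t q j * V j).coeff (dg f b q + N) = 0 := by
        rw [hPV q]
        refine coeff_eq_zero_of_degree_lt ((hP q).trans_le ?_)
        exact_mod_cast Nat.le_add_right _ _
      rw [finsetSum_coeff] at h1
      rw [← h1]
      refine Finset.sum_congr rfl fun j _ => ?_
      rw [coeff_mul_add_eq_of_natDegree_le (lj_coeff c b hb t q j).1 (hVN j),
        (lj_coeff c b hb t q j).2]
    obtain ⟨δ, hδ⟩ := lift D emb b t hsol v hv0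
    have hδ' : ∀ q, ∑ j, lj f c β t q j * C (v j) = ∑ i, C (δ i) * jac (coef f c) β t q i := by
      intro q
      rw [← hδ q]
      simp only [lj, Finset.sum_mul]
      rw [Finset.sum_comm]
      refine Finset.sum_congr rfl fun p _ => ?_
      rw [Finset.mul_sum, map_sum, Finset.sum_mul]
      refine Finset.sum_congr rfl fun j _ => ?_
      rw [← mul_assoc (coef f _ q p), C_mul (b := v j)]
      ring
    choose r hr1 hr2 using fun i => Pool.Agent.Work.RC.exists_pow_div (t i) N
    let V' : Fin d → F[X] := fun j => V j - X ^ N * C (v j) + ∑ i, C (δ i * (b i j : F)) * r i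
    let P' : Q → F[X] := fun q => P q - ∑ i, C (δ i * t i ^ N) * jac (coef f c) β t q i
    have hV' : ∀ j, (V' j).degree < N := by
      intro j
      rw [← mem_degreeLT]
      refine Submodule.add_mem _ ?_ (Submodule.sum_mem _ fun i _ => ?_)
      · rw [mem_degreeLT, degree_lt_iff_coeff_zero]
        intro m hm
        rw [coeff_sub, mul_comm, coeff_C_mul_X_pow]
        rcases hm.eq_or_lt with h | h
        · subst h
          rw [if_pos rfl, sub_self]
        · rw [if_neg h.ne', sub_zero]
          exact coeff_eq_zero_of_natDegree_lt ((hVN j).trans_lt h)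
      · rw [mem_degreeLT]
        exact (deg_C_mul_le _ _).trans_lt (hr1 i)
    have hP' : ∀ q, (P' q).degree < dg f b q := by
      intro q
      rw [← mem_degreeLT]
      refine Submodule.sub_mem _ (mem_degreeLT.2 (hP q)) (Submodule.sum_mem _ fun i _ => ?_)
      rw [mem_degreeLT]
      exact (deg_C_mul_le _ _).trans_lt (jac_degree c b hb t q i)
    have hPV' : ∀ q, ∑ j, lj f c β t q j * V' j = P' q := by
      intro q
      have e1 : ∑ j, lj f c β t q j * (X ^ N * C (v j)) =
          ∑ i, C (δ i) * (X ^ N * jac (coef f c) β t q i) := by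
        have := congrArg (fun r => X ^ N * r) (hδ' q)
        simp only [Finset.mul_sum] at this
        rw [Finset.sum_congr rfl fun j _ => show lj f c β t q j * (X ^ N * C (v j)) =
          X ^ N * (lj f c β t q j * C (v j)) by ring, this]
        exact Finset.sum_congr rfl fun i _ => by ring
      have e2 : ∑ j, lj f c β t q j * ∑ i, C (δ i * (b i j : F)) * r i =
          ∑ i, C (δ i) * (r i * (X - C (t i)) * jac (coef f c) β t q i) := by
        simp only [Finset.mul_sum]
        rw [Finset.sum_comm]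
        refine Finset.sum_congr rfl fun i _ => ?_
        rw [mul_assoc (r i), jac_mul c b t hsol q i, Finset.mul_sum, Finset.mul_sum]
        refine Finset.sum_congr rfl fun j _ => ?_
        rw [C_mul]
        ring
      have e3 : ∀ i, C (δ i) * (X ^ N * jac (coef f c) β t q i) =
          C (δ i * t i ^ N) * jac (coef f c) β t q i +
            C (δ i) * (r i * (X - C (t i)) * jac (coef f c) β t q i) := by
        intro i
        rw [hr2 i, C_mul]
        ring
      simp only [V', P', mul_add, mul_sub, Finset.sum_add_distrib, Finset.sum_sub_distrib]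
      rw [hPV q, e1, e2, Finset.sum_congr rfl fun i _ => e3 i, Finset.sum_add_distrib]
      ring
    obtain ⟨δ', hδ''⟩ := ih P' hP' V' hV' hPV'
    refine ⟨fun i => δ' i + δ i * t i ^ N, fun q => ?_⟩
    simp only [C_add, add_mul, Finset.sum_add_distrib]
    rw [hδ'' q]
    simp only [P']
    ring

end R2

open R2

/-- R2 -/
theorem free (D : Data K n d Q x f) {F : Type} [Field F] [Algebra ℂ F] (emb : K →ₐ[ℂ] F)
    {ι : Type} [Fintype ι] (b : ι → Fin d → ℤ) (hb : ∑ i, b i = 0) (t : ι → F)
    (ht : Function.Injective t)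
    (hsol : IsSol (coef f fun j => emb (x j)) (fun i => blk f (b i)) t)
    (P : Q → F[X]) (hP : ∀ q, (P q).degree < dg f b q) :
    ∃ δ : ι → F, ∀ q, ∑ i, C (δ i) * jac (coef f fun j => emb (x j)) (fun i => blk f (b i)) t q i
      = P q := by
  classical
  obtain ⟨V, hV⟩ := lj_onto D emb b hb t ht hsol P
  refine free_aux D emb b hb t hsol (∑ j, (V j).natDegree + 1) P hP V (fun j => ?_) hV
  refine degree_le_natDegree.trans_lt ?_
  have h1 : (V j).natDegree ≤ ∑ j, (V j).natDegree :=
    Finset.single_le_sum (f := fun j => (V j).natDegree) (fun _ _ => Nat.zero_le _)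
      (Finset.mem_univ j)
  exact_mod_cast Nat.lt_succ_of_le h1

end Pool.Agent.Work.CW
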