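import Mathlib
import Pool.Agent.Work.MP_4329d7_ag_w.Deg
import Pool.Agent.Work.MP_4329d7_ag_w.Free

/-!
Module W-FreeAt: `free` (`w/Free.lean`) in the form `FreeAt`.
-/

namespace Pool.Agent.Work.CW

open Polynomial Pool.Agent.Work.Uni Pool.Agent.Work.CI

variable {Q : Type} [Fintype Q] {d : ℕ} {ι : Type} [Fintype ι]
  {F : Type} [Field F] [Algebra ℂ F]
  {K : Type} [Field K] [Algebra ℂ K] {n : ℕ} {x : Fin d → K} {f : Q → Lau d}

theorem free_at [IsAlgClosed F] (D : Data K n d Q x f) (emb : K →ₐ[ℂ] F) {b : ι → Fin d → ℤ}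
    (hb : ∑ i, b i = 0) {t : ι → F} (ht : Function.Injective t)
    (hs : Sol f (fun j => emb (x j)) b t) :
    FreeAt (coef f fun j => emb (x j)) (fun i => blk f (b i)) (dg f b) t :=
  fun P hP => free D emb b hb t ht hs P hP

end Pool.Agent.Work.CW
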