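import Mathlib
import Pool.Agent.Work.MP_b62148_ag.Polar

/-!
THEOREM W, part IRR: a vector `t` over `κ ⊇ k` whose derivatives by all `k`-derivations are in the
span of `1` and `t` is an affine image of a vector over `k`.
-/

namespace Pool.Agent.Work.CW

theorem descend {k κ : Type} [Field k] [Field κ] [Algebra k κ] [IsAlgClosed k] [CharZero k]
    {ι : Type} (t : ι → κ) (i0 i1 : ι) (h01 : t i0 ≠ t i1)
    (hD : ∀ E : Derivation k κ κ, ∃ r s : κ, ∀ i, E (t i) = r + s * t i) :
    ∃ (t' : ι → k) (r s : κ), s ≠ 0 ∧ (∀ i, t i = r + s * algebraMap k κ (t' i)) ∧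
      t' i0 ≠ t' i1 := by
  classical
  have h10 : t i1 - t i0 ≠ 0 := sub_ne_zero.2 (Ne.symm h01)
  have key : ∀ i, ∃ c : k, algebraMap k κ c = (t i - t i0) / (t i1 - t i0) := by
    intro i
    have hE : ∀ E : Derivation k κ κ, E ((t i - t i0) / (t i1 - t i0)) = 0 := by
      intro E
      obtain ⟨r, s, h⟩ := hD E
      have h1 : (t i - t i0) / (t i1 - t i0) * (t i1 - t i0) = t i - t i0 :=
        div_mul_cancel₀ _ h10
      have h2 := congrArg E h1
      rw [Derivation.leibniz, map_sub, map_sub, h, h, h] at h2
      simp only [smul_eq_mul] at h2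
      have h3 : (t i1 - t i0) * E ((t i - t i0) / (t i1 - t i0)) = 0 := by
        have h4 : (t i - t i0) / (t i1 - t i0) * (r + s * t i1 - (r + s * t i0)) =
            s * (t i - t i0) := by
          rw [← h1]
          field_simp
          ring
        rw [h4] at h2
        linear_combination h2
      exact (mul_eq_zero.1 h3).resolve_left h10
    have halg : IsAlgebraic k ((t i - t i0) / (t i1 - t i0)) := by
      by_contra htr
      obtain ⟨E, hE'⟩ := Pool.Agent.Work.PD.exists_derivation_ne_zero (E := k) _ htr
      exact hE' (hE E)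
    exact Pool.Agent.Work.PD.mem_range_of_integral _ halg.isIntegral
  choose t' ht' using key
  refine ⟨t', t i0, t i1 - t i0, h10, fun i => ?_, fun h => ?_⟩
  · rw [ht', mul_div_cancel₀ _ h10]
    ring
  · have h1 := congrArg (algebraMap k κ) h
    rw [ht', ht', sub_self, zero_div, div_self h10] at h1
    exact zero_ne_one h1

end Pool.Agent.Work.CW
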