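import Mathlib
import Pool.Agent.Work.MP_4329d7_ag_uni.Sys
import Pool.Agent.Work.MP_4329d7_ag_w.IrrDefs

/-!
THEOREM W, part IRR: contact curves: coefficients, existence, scaling and reduction at a place.
-/

namespace Pool.Agent.Work.CW

open Pool.Agent.Work.Uni Pool.Agent.Work.CI Polynomial

variable {d : ℕ} {Q : Type} [Fintype Q] {f : Q → Lau d} {ι : Type} [Fintype ι]

theorem sum_coef {F : Type} [Field F] [Algebra ℂ F] (f : Q → Lau d) (y : Fin d → F) (q : Q) :
    ∑ p, coef f y q p = ev (f q) y := by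
  classical
  rw [Fintype.sum_sigma, Finset.sum_eq_single q]
  · simp only [coef, if_true]
    rw [Finset.sum_coe_sort (f q).support (fun χ => algebraMap ℂ F (f q χ) * mon y χ)]
    rfl
  · intro q' _ hq'
    refine Finset.sum_eq_zero fun χ _ => ?_
    unfold coef
    rw [if_neg hq']
  · intro hq
    exact absurd (Finset.mem_univ _) hq

omit [Fintype Q] in
theorem coef_ne {F : Type} [Field F] [Algebra ℂ F] {y : Fin d → F} {q : Q} {p : Pts f}
    (h : coef f y q p ≠ 0) : p.1 = q := by
  classical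
  by_contra hne
  apply h
  unfold coef
  exact if_neg hne

/-- the top degree part of the relations -/
theorem cont_iff {F : Type} [Field F] [Algebra ℂ F] (b : ι → Fin d → ℤ) (hb : ∑ i, b i = 0)
    (y : Fin d → F) (t : ι → F) :
    IsCont f y b t ↔ ∀ q, ∀ e < dg f b q,
      MvPolynomial.eval t (coefPoly (coef f y) (fun i => blk f (b i)) q e) = 0 := by
  have hdeg : ∀ q p, coef f y q p ≠ 0 → (rootPoly (fun i => blk f (b i)) t p).natDegree =
      dg f b q := by
    intro q p h
    rw [rootPoly_natDegree, sum_blk b hb, coef_ne h]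
  constructor
  · intro h q e he
    rw [eval_coefPoly, h q, coeff_C_mul, coeff_X_pow, if_neg (by omega), mul_zero]
  · intro h q
    ext e
    rcases lt_trichotomy e (dg f b q) with he | he | he
    · rw [← eval_coefPoly, h q e he, coeff_C_mul, coeff_X_pow, if_neg (by omega), mul_zero]
    · rw [coeff_C_mul, coeff_X_pow, if_pos he, mul_one, Polynomial.finsetSum_coeff, ← sum_coef]
      refine Finset.sum_congr rfl fun p _ => ?_
      rw [coeff_C_mul]
      by_cases hp : coef f y q p = 0
      · rw [hp, zero_mul]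
      · have h1 := (rootPoly_monic (fun i => blk f (b i)) t p).coeff_natDegree
        rw [hdeg q p hp, ← he] at h1
        rw [h1, mul_one]
    · rw [coeff_C_mul, coeff_X_pow, if_neg (by omega), mul_zero, Polynomial.finsetSum_coeff]
      refine Finset.sum_eq_zero fun p _ => ?_
      rw [coeff_C_mul]
      by_cases hp : coef f y q p = 0
      · rw [hp, zero_mul]
      · rw [coeff_eq_zero_of_natDegree_lt, mul_zero]
        rw [hdeg q p hp]
        exact he

/-- existence of contact curves, with a linear condition -/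
theorem exists_cont {F : Type} [Field F] [Algebra ℂ F] [IsAlgClosed F] (b : ι → Fin d → ℤ)
    (hb : ∑ i, b i = 0) (y : Fin d → F) (l : ι → F)
    (hcard : ∑ q, dg f b q + 2 ≤ Fintype.card ι) :
    ∃ t : ι → F, t ≠ 0 ∧ IsCont f y b t ∧ ∑ i, l i * t i = 0 := by
  obtain ⟨t, ht, hF⟩ := exists_zero' (k := F) (ι := ι) (κ := (Σ q, Fin (dg f b q)) ⊕ Unit)
    (Sum.elim (fun j => coefPoly (coef f y) (fun i => blk f (b i)) j.1 j.2)
      fun _ => ∑ i, MvPolynomial.C (l i) * MvPolynomial.X i) (by
      rintro (⟨q, e⟩ | u)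
      · exact eval_zero_coefPoly (coef f y) _ q _
          (fun p hp => by rw [sum_blk b hb, coef_ne hp]) e e.2
      · simp) (by
      simp only [Fintype.card_sum, Fintype.card_sigma, Fintype.card_fin, Fintype.card_unit]
      omega)
  refine ⟨t, ht, (cont_iff b hb y t).2 fun q e he => hF (Sum.inl ⟨q, ⟨e, he⟩⟩), ?_⟩
  have := hF (Sum.inr ())
  simpa using this

/-- scaling -/
theorem cont_scale {F : Type} [Field F] [Algebra ℂ F] (b : ι → Fin d → ℤ) (hb : ∑ i, b i = 0)
    (y : Fin d → F) (t : ι → F) (h : IsCont f y b t) (c : F) (hc : c ≠ 0) :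
    IsCont f y b (fun i => t i / c) := by
  intro q
  have h1 : ∀ p : Pts f, (rootPoly (fun i => blk f (b i)) t p).comp (C c * X) =
      C (c ^ dg f b p.1) * rootPoly (fun i => blk f (b i)) (fun i => t i / c) p := by
    intro p
    have h2 : ∀ i, ((X - C (t i)) ^ blk f (b i) p).comp (C c * X) =
        C c ^ blk f (b i) p * (X - C (t i / c)) ^ blk f (b i) p := by
      intro i
      rw [pow_comp, sub_comp, X_comp, C_comp, ← mul_pow]
      congr 1
      rw [mul_sub, ← C_mul, mul_div_cancel₀ _ hc]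
    unfold rootPoly
    rw [prod_comp, Finset.prod_congr rfl fun i _ => h2 i, Finset.prod_mul_distrib,
      Finset.prod_pow_eq_pow_sum, sum_blk b hb p, C_pow]
  have h3 := congrArg (fun r : F[X] => r.comp (C c * X)) (h q)
  simp only [Polynomial.sum_comp, mul_comp, C_comp, pow_comp, X_comp, h1] at h3
  have h4 : ∀ p : Pts f, C (coef f y q p) * (C (c ^ dg f b p.1) *
      rootPoly (fun i => blk f (b i)) (fun i => t i / c) p) = C (c ^ dg f b q) *
      (C (coef f y q p) * rootPoly (fun i => blk f (b i)) (fun i => t i / c) p) := by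
    intro p
    by_cases hp : coef f y q p = 0
    · rw [hp]; simp
    · rw [coef_ne hp]; ring
  rw [Finset.sum_congr rfl fun p _ => h4 p, ← Finset.mul_sum] at h3
  have h5 : (C (c ^ dg f b q) : F[X]) ≠ 0 := C_ne_zero.2 (pow_ne_zero _ hc)
  apply mul_left_cancel₀ h5
  rw [h3, mul_pow, C_pow]
  ring

section red

variable {F κ : Type} [Field F] [Field κ] (P : Plc F κ)

/-- specialisation of polynomials -/
def PX (p : F[X]) (r : κ[X]) : Prop := ∀ n, P.S (p.coeff n) (r.coeff n)

theorem PX.C {x : F} {y : κ} (h : P.S x y) : PX P (C x) (C y) := by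
  intro n
  rw [coeff_C, coeff_C]
  split_ifs
  · exact h
  · exact P.zero

theorem PX.X : PX P (X : F[X]) X := by
  intro n
  rw [coeff_X, coeff_X]
  split_ifs
  · exact P.one
  · exact P.zero

theorem PX.sub {p p' : F[X]} {r r' : κ[X]} (h : PX P p r) (h' : PX P p' r') :
    PX P (p - p') (r - r') := by
  intro n
  rw [coeff_sub, coeff_sub]
  exact P.sub (h n) (h' n)

theorem PX.mul {p p' : F[X]} {r r' : κ[X]} (h : PX P p r) (h' : PX P p' r') :
    PX P (p * p') (r * r') := by
  intro n
  rw [coeff_mul, coeff_mul]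
  exact P.sum _ fun i _ => P.mul (h _) (h' _)

theorem PX.one : PX P (1 : F[X]) 1 := by
  have := PX.C P P.one
  rwa [C_1, C_1] at this

theorem PX.pow {p : F[X]} {r : κ[X]} (h : PX P p r) (n : ℕ) : PX P (p ^ n) (r ^ n) := by
  induction n with
  | zero => rw [pow_zero, pow_zero]; exact PX.one P
  | succ n ih => rw [pow_succ, pow_succ]; exact PX.mul P ih h

theorem PX.prod {σ : Type} (s : Finset σ) {p : σ → F[X]} {r : σ → κ[X]}
    (h : ∀ i ∈ s, PX P (p i) (r i)) : PX P (∏ i ∈ s, p i) (∏ i ∈ s, r i) := by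
  classical
  induction s using Finset.induction_on with
  | empty => rw [Finset.prod_empty, Finset.prod_empty]; exact PX.one P
  | insert i s hi ih =>
    rw [Finset.prod_insert hi, Finset.prod_insert hi]
    exact PX.mul P (h i (Finset.mem_insert_self i s))
      (ih fun j hj => h j (Finset.mem_insert_of_mem hj))

theorem PX.sum {σ : Type} (s : Finset σ) {p : σ → F[X]} {r : σ → κ[X]}
    (h : ∀ i ∈ s, PX P (p i) (r i)) : PX P (∑ i ∈ s, p i) (∑ i ∈ s, r i) := by
  intro n
  rw [finsetSum_coeff, finsetSum_coeff]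
  exact P.sum _ fun i hi => h i hi n

theorem PX.rootPoly {Pt : Type} (β : ι → Pt → ℕ) {t : ι → F} {t' : ι → κ}
    (h : ∀ i, P.S (t i) (t' i)) (p : Pt) : PX P (rootPoly β t p) (Uni.rootPoly β t' p) :=
  PX.prod P _ fun i _ => PX.pow P (PX.sub P (PX.X P) (PX.C P (h i))) _

theorem PX.uniq {p : F[X]} {r r' : κ[X]} (h : PX P p r) (h' : PX P p r') : r = r' := by
  ext n
  exact P.uniq (h n) (h' n)

variable [Algebra ℂ F] [Algebra ℂ κ] (hC : ∀ c : ℂ, P.S (algebraMap ℂ F c) (algebraMap ℂ κ c))

include hC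

theorem red_ev {y : Fin d → F} {y' : Fin d → κ} (hy : ∀ j, P.S (y j) (y' j))
    (hy0 : ∀ j, y' j ≠ 0) (g : Lau d) : P.S (ev g y) (ev g y') :=
  P.sum _ fun χ _ => P.mul (hC _) (P.mon hy hy0 χ)

theorem red_aeval {y : Fin d → F} {y' : Fin d → κ} (hy : ∀ j, P.S (y j) (y' j))
    (G : MvPolynomial (Fin d) ℂ) : P.S (MvPolynomial.aeval y G) (MvPolynomial.aeval y' G) := by
  induction G using MvPolynomial.induction_on with
  | C a =>
    rw [MvPolynomial.aeval_C, MvPolynomial.aeval_C]
    exact hC a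
  | add p q hp hq =>
    rw [map_add, map_add]
    exact P.add hp hq
  | mul_X p n hp =>
    rw [map_mul, map_mul, MvPolynomial.aeval_X, MvPolynomial.aeval_X]
    exact P.mul hp (hy n)

omit [Fintype Q] in
theorem red_coef {y : Fin d → F} {y' : Fin d → κ} (hy : ∀ j, P.S (y j) (y' j))
    (hy0 : ∀ j, y' j ≠ 0) (q : Q) (p : Pts f) : P.S (coef f y q p) (coef f y' q p) := by
  classical
  unfold coef
  by_cases hq : p.1 = q
  · rw [if_pos hq, if_pos hq]
    exact P.mul (hC _) (P.mon hy hy0 _)
  · rw [if_neg hq, if_neg hq]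
    exact P.zero

/-- the reduction of a contact curve of a point which reduces to a solution -/
theorem cont_red (b : ι → Fin d → ℤ) (hb : ∑ i, b i = 0) {y : Fin d → F} {y' : Fin d → κ}
    (hy : ∀ j, P.S (y j) (y' j)) (hy0 : ∀ j, y' j ≠ 0) (hev : ∀ q, ev (f q) y' = 0)
    {t : ι → F} (ht : t ≠ 0) (hc : IsCont f y b t) :
    ∃ (i0 : ι) (t' : ι → κ), t i0 ≠ 0 ∧ (∀ i, P.S (t i / t i0) (t' i)) ∧ t' i0 = 1 ∧
      IsSol (coef f y') (fun i => blk f (b i)) t' := by
  obtain ⟨i0, h0, h1⟩ := P.exists_max t ht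
  choose t' ht' using h1
  refine ⟨i0, t', h0, ht', ?_, fun q => ?_⟩
  · have := ht' i0
    rw [div_self h0] at this
    exact P.uniq this P.one
  · have h2 := cont_scale b hb y t hc (t i0) h0 q
    have h3 : PX P (∑ p, C (coef f y q p) * rootPoly (fun i => blk f (b i))
        (fun i => t i / t i0) p) (∑ p, C (coef f y' q p) * rootPoly (fun i => blk f (b i)) t' p) :=
      PX.sum P _ fun p _ => PX.mul P (PX.C P (red_coef P hC hy hy0 q p))
        (PX.rootPoly P _ ht' p)
    have h4 : PX P (C (ev (f q) y) * X ^ dg f b q) (C (ev (f q) y') * X ^ dg f b q) :=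
      PX.mul P (PX.C P (red_ev P hC hy hy0 _)) (PX.pow P (PX.X P) _)
    rw [h2] at h3
    rw [PX.uniq P h3 h4, hev, C_0, zero_mul]

end red

end Pool.Agent.Work.CW
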