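import Mathlib
import Pool.Agent.Work.MP_4329d7_ag_w.Defs

/-!
Module W-Ker (abstract): the kernel at a free solution.
* `jac_sum`: `∑ i, jac i` is the derivative of the relation `∑ p, a_qp u_p = 0`;
* `jac_smul`: `t_i/(X - t_i) = X/(X - t_i) - 1` and `∑ i, β_ip = m_q`;
* `card_of_free`, `ker_of_free`: dimensions (`∏ q, degreeLT (m_q)` has dimension `∑ m_q`; the
  `jac`s have degree `< m_q`);
* `not_central`: if `∑ i, t_i β_ip = μ_q` for all `p` with `a_qp ≠ 0` then
  `∑ i, t_i^2 jac i = - ∑ p, a_qp (μ_q + m_q X) u_p = 0` (`t^2/(X-t) = X^2/(X-t) - X - t`), so `t_i^2` is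
  in the kernel `span(1, t)` and at most two roots are distinct.
-/

namespace Pool.Agent.Work.CW

open Polynomial Pool.Agent.Work.Uni

variable {Q ι Pt F : Type} [Fintype ι] [Fintype Pt] [Field F]
  {a : Q → Pt → F} {β : ι → Pt → ℕ} {t : ι → F} {mq : Q → ℕ}

theorem X_sub_mul_jac (q : Q) (i : ι) :
    (X - C (t i)) * jac a β t q i = ∑ p, C (a q p * (β i p : F)) * rootPoly β t p := by
  unfold jac
  rw [Finset.mul_sum]
  refine Finset.sum_congr rfl fun p _ => ?_
  have h := Pool.Agent.Work.RC.uD_mul β t p i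
  rw [C_mul]
  linear_combination (C (a q p)) * h

theorem jac_degree (hdeg : ∀ q p, a q p ≠ 0 → ∑ i, β i p = mq q) (q : Q) (i : ι) :
    (jac a β t q i).degree < (mq q : WithBot ℕ) := by
  rw [← mem_degreeLT]
  unfold jac
  refine Submodule.sum_mem _ fun p _ => ?_
  by_cases h : a q p = 0
  · rw [h, C_0, zero_mul]
    exact Submodule.zero_mem _
  · rw [C_mul']
    refine Submodule.smul_mem _ _ ?_
    rw [mem_degreeLT, ← hdeg q p h]
    exact Pool.Agent.Work.RC.uD_degree β t p i

theorem jac_sum (hs : IsSol a β t) (q : Q) : ∑ i, jac a β t q i = 0 := by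
  unfold jac
  rw [Finset.sum_comm]
  have h := congrArg derivative (hs q)
  rw [derivative_sum, derivative_zero] at h
  rw [← h]
  refine Finset.sum_congr rfl fun p _ => ?_
  rw [← Finset.mul_sum, ← Pool.Agent.Work.RC.derivative_rootPoly, derivative_C_mul]

theorem ker_sum_rel (hs : IsSol a β t) (hdeg : ∀ q p, a q p ≠ 0 → ∑ i, β i p = mq q) (q : Q)
    (g : ι → F) (μ : F) (hμ : ∀ p, a q p ≠ 0 → ∑ i, g i * (β i p : F) = μ) :
    ∑ i, C (g i) * ∑ p, C (a q p * (β i p : F)) * rootPoly β t p = 0 := by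
  have h1 : ∑ i, C (g i) * ∑ p, C (a q p * (β i p : F)) * rootPoly β t p =
      ∑ p, C (a q p * ∑ i, g i * (β i p : F)) * rootPoly β t p := by
    simp only [Finset.mul_sum]
    rw [Finset.sum_comm]
    refine Finset.sum_congr rfl fun p _ => ?_
    rw [map_sum, Finset.sum_mul]
    refine Finset.sum_congr rfl fun i _ => ?_
    simp only [C_mul]
    ring
  rw [h1]
  have h2 : ∀ p, C (a q p * ∑ i, g i * (β i p : F)) * rootPoly β t p =
      C μ * (C (a q p) * rootPoly β t p) := by
    intro p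
    by_cases h : a q p = 0
    · simp [h]
    · rw [hμ p h, C_mul]
      ring
  rw [Finset.sum_congr rfl fun p _ => h2 p, ← Finset.mul_sum, hs q, mul_zero]

theorem ker_sum_one (hs : IsSol a β t) (hdeg : ∀ q p, a q p ≠ 0 → ∑ i, β i p = mq q) (q : Q) :
    ∑ i, ∑ p, C (a q p * (β i p : F)) * rootPoly β t p = 0 := by
  have h := ker_sum_rel hs hdeg q (fun _ => 1) (mq q : F) (fun p hp => by
    simp only [one_mul]
    rw [← Nat.cast_sum, hdeg q p hp])
  simpa using h

theorem jac_smul (hs : IsSol a β t) (hdeg : ∀ q p, a q p ≠ 0 → ∑ i, β i p = mq q) (q : Q) :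
    ∑ i, C (t i) * jac a β t q i = 0 := by
  have h1 : ∀ i, C (t i) * jac a β t q i = X * jac a β t q i -
      ∑ p, C (a q p * (β i p : F)) * rootPoly β t p := by
    intro i
    rw [← X_sub_mul_jac]
    ring
  rw [Finset.sum_congr rfl fun i _ => h1 i, Finset.sum_sub_distrib, ← Finset.mul_sum,
    jac_sum hs, mul_zero, ker_sum_one hs hdeg, sub_zero]

variable [Fintype Q]

/-- the linear map of the Jacobian -/
noncomputable def kerMap (hdeg : ∀ q p, a q p ≠ 0 → ∑ i, β i p = mq q) :
    (ι → F) →ₗ[F] ((q : Q) → degreeLT F (mq q)) :=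
  LinearMap.pi fun q => LinearMap.codRestrict _
    (∑ i, (LinearMap.toSpanSingleton F F[X] (jac a β t q i)).comp (LinearMap.proj i)) (by
      intro δ
      rw [LinearMap.sum_apply]
      refine Submodule.sum_mem _ fun i _ => ?_
      simp only [LinearMap.comp_apply, LinearMap.proj_apply, LinearMap.toSpanSingleton_apply]
      refine Submodule.smul_mem _ _ ?_
      rw [mem_degreeLT]
      exact jac_degree hdeg q i)

theorem kerMap_apply (hdeg : ∀ q p, a q p ≠ 0 → ∑ i, β i p = mq q) (δ : ι → F) (q : Q) :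
    ((kerMap (t := t) hdeg δ q : degreeLT F (mq q)) : F[X]) = ∑ i, C (δ i) * jac a β t q i := by
  unfold kerMap
  simp only [LinearMap.pi_apply, LinearMap.codRestrict_apply, LinearMap.sum_apply,
    LinearMap.comp_apply, LinearMap.proj_apply, LinearMap.toSpanSingleton_apply, C_mul']

theorem mem_kerMap (hdeg : ∀ q p, a q p ≠ 0 → ∑ i, β i p = mq q) (δ : ι → F) :
    δ ∈ LinearMap.ker (kerMap (t := t) hdeg) ↔ ∀ q, ∑ i, C (δ i) * jac a β t q i = 0 := by
  rw [LinearMap.mem_ker]
  constructor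
  · intro h q
    rw [← kerMap_apply hdeg, h]
    rfl
  · intro h
    funext q
    apply Subtype.ext
    rw [kerMap_apply hdeg, h q]
    rfl

theorem finrank_target : Module.finrank F ((q : Q) → degreeLT F (mq q)) = ∑ q, mq q := by
  rw [Module.finrank_pi_fintype]
  refine Finset.sum_congr rfl fun q _ => ?_
  rw [LinearEquiv.finrank_eq (degreeLTEquiv F (mq q)), Module.finrank_fin_fun]

theorem finrank_kerMap (hdeg : ∀ q p, a q p ≠ 0 → ∑ i, β i p = mq q) (hf : FreeAt a β mq t) :
    ∑ q, mq q + Module.finrank F (LinearMap.ker (kerMap (t := t) hdeg)) = Fintype.card ι := by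
  have hsurj : Function.Surjective (kerMap (t := t) hdeg) := by
    intro P
    obtain ⟨δ, hδ⟩ := hf (fun q => (P q : F[X])) (fun q => mem_degreeLT.1 (P q).2)
    refine ⟨δ, ?_⟩
    funext q
    apply Subtype.ext
    rw [kerMap_apply hdeg, hδ q]
  have h1 := LinearMap.finrank_range_add_finrank_ker (kerMap (t := t) hdeg)
  rw [LinearMap.range_eq_top.2 hsurj, finrank_top, finrank_target, Module.finrank_fintype_fun_eq_card]
    at h1
  exact h1

/-- `1` and `t` in the kernel -/
noncomputable def kerVec (hs : IsSol a β t) (hdeg : ∀ q p, a q p ≠ 0 → ∑ i, β i p = mq q) :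
    Fin 2 → LinearMap.ker (kerMap (t := t) hdeg) :=
  ![⟨fun _ => 1, (mem_kerMap hdeg _).2 fun q => by simpa using jac_sum hs q⟩,
    ⟨t, (mem_kerMap hdeg _).2 fun q => jac_smul hs hdeg q⟩]

theorem kerVec_li (hs : IsSol a β t) (hdeg : ∀ q p, a q p ≠ 0 → ∑ i, β i p = mq q)
    (hne : ∃ i j, t i ≠ t j) : LinearIndependent F (kerVec hs hdeg) := by
  obtain ⟨i, j, hij⟩ := hne
  unfold kerVec
  rw [LinearIndependent.pair_iff]
  intro u v h
  have h1 := congrArg Subtype.val h
  simp only [Submodule.coe_add, Submodule.coe_smul, ZeroMemClass.coe_zero] at h1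
  have h2 := congrFun h1 i
  have h3 := congrFun h1 j
  simp only [Pi.add_apply, Pi.smul_apply, smul_eq_mul, Pi.zero_apply, mul_one] at h2 h3
  have h4 : v * (t i - t j) = 0 := by linear_combination h2 - h3
  have h5 : v = 0 := by
    rcases mul_eq_zero.1 h4 with h | h
    · exact h
    · exact absurd (sub_eq_zero.1 h) hij
  refine ⟨?_, h5⟩
  rw [h5, zero_mul, add_zero] at h2
  exact h2

theorem card_of_free (hs : IsSol a β t) (hdeg : ∀ q p, a q p ≠ 0 → ∑ i, β i p = mq q)
    (hf : FreeAt a β mq t) (hne : ∃ i j, t i ≠ t j) :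
    ∑ q, mq q + 2 ≤ Fintype.card ι := by
  have h1 := finrank_kerMap hdeg hf
  have h2 := (kerVec_li hs hdeg hne).fintype_card_le_finrank
  rw [Fintype.card_fin] at h2
  omega

theorem ker_of_free (hs : IsSol a β t) (hdeg : ∀ q p, a q p ≠ 0 → ∑ i, β i p = mq q)
    (hf : FreeAt a β mq t) (hne : ∃ i j, t i ≠ t j) (hcard : Fintype.card ι = ∑ q, mq q + 2)
    (δ : ι → F) (hδ : ∀ q, ∑ i, C (δ i) * jac a β t q i = 0) :
    ∃ u v : F, ∀ i, δ i = u + v * t i := by
  have h1 := finrank_kerMap hdeg hf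
  have h2 : Fintype.card (Fin 2) = Module.finrank F (LinearMap.ker (kerMap (t := t) hdeg)) := by
    rw [Fintype.card_fin]
    omega
  have h3 := (kerVec_li hs hdeg hne).span_eq_top_of_card_eq_finrank' h2
  have h4 : (⟨δ, (mem_kerMap hdeg δ).2 hδ⟩ : LinearMap.ker (kerMap (t := t) hdeg)) ∈
      Submodule.span F (Set.range (kerVec hs hdeg)) := by
    rw [h3]
    exact Submodule.mem_top
  unfold kerVec at h4
  rw [Matrix.range_cons, Matrix.range_cons, Matrix.range_empty, Set.union_empty,
    Set.singleton_union, Submodule.mem_span_pair] at h4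
  obtain ⟨u, v, h5⟩ := h4
  refine ⟨u, v, fun i => ?_⟩
  have h6 := congrFun (congrArg Subtype.val h5) i
  simp only [Submodule.coe_add, Submodule.coe_smul, Pi.add_apply, Pi.smul_apply, smul_eq_mul,
    mul_one] at h6
  exact h6.symm

theorem not_central (hs : IsSol a β t) (hdeg : ∀ q p, a q p ≠ 0 → ∑ i, β i p = mq q)
    (hf : FreeAt a β mq t) (ht : Function.Injective t) (hcard : Fintype.card ι = ∑ q, mq q + 2)
    (h3 : 3 ≤ Fintype.card ι) (μ : Q → F)
    (hμ : ∀ q p, a q p ≠ 0 → ∑ i, t i * (β i p : F) = μ q) : False := by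
  classical
  have hδ : ∀ q, ∑ i, C (t i ^ 2) * jac a β t q i = 0 := by
    intro q
    have h1 : ∀ i, C (t i ^ 2) * jac a β t q i = X ^ 2 * jac a β t q i -
        X * ∑ p, C (a q p * (β i p : F)) * rootPoly β t p -
        C (t i) * ∑ p, C (a q p * (β i p : F)) * rootPoly β t p := by
      intro i
      rw [← X_sub_mul_jac, C_pow]
      ring
    rw [Finset.sum_congr rfl fun i _ => h1 i, Finset.sum_sub_distrib, Finset.sum_sub_distrib,
      ← Finset.mul_sum, ← Finset.mul_sum, jac_sum hs, mul_zero, ker_sum_one hs hdeg, mul_zero,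
      ker_sum_rel hs hdeg q t (μ q) (hμ q), sub_zero, sub_zero]
  obtain ⟨s, -, hs3⟩ := Finset.exists_subset_card_eq
    (show 3 ≤ (Finset.univ : Finset ι).card by rw [Finset.card_univ]; exact h3)
  obtain ⟨i, j, k, hij, hik, hjk, -⟩ := Finset.card_eq_three.1 hs3
  obtain ⟨u, v, h⟩ := ker_of_free hs hdeg hf ⟨i, j, fun h => hij (ht h)⟩ hcard _ hδ
  have hi := h i
  have hj := h j
  have hk := h k
  have h1 : (t i - t j) * (t i + t j - v) = 0 := by linear_combination hi - hj
  have h2 : (t i - t k) * (t i + t k - v) = 0 := by linear_combination hi - hk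
  have h4 : t i + t j - v = 0 := by
    rcases mul_eq_zero.1 h1 with h | h
    · exact absurd (ht (sub_eq_zero.1 h)) hij
    · exact h
  have h5 : t i + t k - v = 0 := by
    rcases mul_eq_zero.1 h2 with h | h
    · exact absurd (ht (sub_eq_zero.1 h)) hik
    · exact h
  apply hjk
  apply ht
  linear_combination h4 - h5

theorem jac_coeff (hdeg : ∀ q p, a q p ≠ 0 → ∑ i, β i p = mq q) (q : Q) (hq : 0 < mq q) (i : ι) :
    (jac a β t q i).coeff (mq q - 1) = ∑ p, a q p * (β i p : F) := by
  have h1 := congrArg (fun P : F[X] => P.coeff (mq q)) (X_sub_mul_jac (a := a) (β := β) (t := t) q i)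
  beta_reduce at h1
  obtain ⟨m, hm⟩ := Nat.exists_eq_succ_of_ne_zero hq.ne'
  have h2 : (jac a β t q i).coeff (mq q) = 0 :=
    coeff_eq_zero_of_degree_lt (jac_degree hdeg q i)
  rw [sub_mul, coeff_sub, coeff_C_mul, h2, mul_zero, sub_zero, hm, Nat.succ_eq_add_one,
    coeff_X_mul, finset_sum_coeff] at h1
  rw [hm, Nat.succ_eq_add_one, Nat.add_sub_cancel, h1]
  refine Finset.sum_congr rfl fun p _ => ?_
  rw [coeff_C_mul]
  by_cases h : a q p = 0
  · rw [h, zero_mul, zero_mul]
  · have h3 : (rootPoly β t p).coeff (m + 1) = 1 := by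
      have h4 := (Pool.Agent.Work.RC.rootPoly_monic β t p).coeff_natDegree
      rw [Pool.Agent.Work.RC.natDegree_rootPoly, hdeg q p h, hm, Nat.succ_eq_add_one] at h4
      exact h4
    rw [h3, mul_one]

/-- the rows of the linear equations are independent if there is a free nonconstant solution -/
theorem rows_of_free (hdeg : ∀ q p, a q p ≠ 0 → ∑ i, β i p = mq q) (hf : FreeAt a β mq t)
    (c : Q → F) (hc : ∀ i, ∑ q, c q * ∑ p, a q p * (β i p : F) = 0) (q : Q) (hq : 0 < mq q) :
    c q = 0 := by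
  classical
  obtain ⟨δ, hδ⟩ := hf (fun q' => if q' = q then X ^ (mq q - 1) else 0) (fun q' => by
    by_cases h : q' = q
    · rw [if_pos h, h]
      refine lt_of_le_of_lt (degree_X_pow_le _) ?_
      exact_mod_cast Nat.sub_lt hq one_pos
    · rw [if_neg h, degree_zero]
      exact WithBot.bot_lt_coe _)
  have h1 : ∀ q', ∑ i, δ i * ∑ p, a q' p * (β i p : F) = if q' = q then 1 else 0 := by
    intro q'
    rcases Nat.eq_zero_or_pos (mq q') with h0 | h0
    · have hne : q' ≠ q := by
        rintro rfl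
        omega
      rw [if_neg hne]
      refine Finset.sum_eq_zero fun i _ => ?_
      have h2 : ∑ p, a q' p * (β i p : F) = 0 := by
        refine Finset.sum_eq_zero fun p _ => ?_
        by_cases h : a q' p = 0
        · rw [h, zero_mul]
        · have h3 := hdeg q' p h
          rw [h0] at h3
          rw [(Finset.sum_eq_zero_iff.1 h3) i (Finset.mem_univ i), Nat.cast_zero, mul_zero]
      rw [h2, mul_zero]
    · have h2 := congrArg (fun P : F[X] => P.coeff (mq q' - 1)) (hδ q')
      simp only [finset_sum_coeff, coeff_C_mul] at h2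
      rw [Finset.sum_congr rfl fun i _ => by rw [jac_coeff hdeg q' h0 i]] at h2
      rw [h2]
      by_cases h : q' = q
      · rw [if_pos h, if_pos h, h, coeff_X_pow, if_pos rfl]
      · rw [if_neg h, if_neg h, coeff_zero]
  have h2 : ∑ q', c q' * ∑ i, δ i * ∑ p, a q' p * (β i p : F) = c q := by
    rw [Finset.sum_congr rfl fun q' _ => by rw [h1 q']]
    simp
  rw [← h2]
  have h3 : ∑ q', c q' * ∑ i, δ i * ∑ p, a q' p * (β i p : F) =
      ∑ i, δ i * ∑ q', c q' * ∑ p, a q' p * (β i p : F) := by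
    simp only [Finset.mul_sum]
    rw [Finset.sum_comm]
    refine Finset.sum_congr rfl fun i _ => Finset.sum_congr rfl fun q' _ =>
      Finset.sum_congr rfl fun p _ => ?_
    ring
  rw [h3]
  refine Finset.sum_eq_zero fun i _ => ?_
  rw [hc i, mul_zero]

end Pool.Agent.Work.CW
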