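import Mathlib
import Pool.Agent.Work.MP_4329d7_ag_w.IrrRed
import Pool.Agent.Work.MP_4329d7_ag_w.IrrCurve
import Pool.Agent.Work.MP_4329d7_ag_w.IrrDesc
import Pool.Agent.Work.MP_4329d7_ag_w.Lift
import Pool.Agent.Work.MP_4329d7_ag_w.KerW
import Pool.Agent.Work.MP_4329d7_ag_w.FreeAtW

/-!
THEOREM W, part IRR: the half lemma.  A contact curve of a point `y` which reduces to the general
point `emb x`, with the generic linear condition `∑ lam ^ i v i t i = 0`: the contact point
`p = y ∏ (- t i) ^ b i` reduces to a general point `ω x` of the curve of a root solution, and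
`ω θ = emb θ` for the elements `θ` which are algebraic over `K_B`.
-/

namespace Pool.Agent.Work.CW

open Pool.Agent.Work.Uni Pool.Agent.Work.CI Pool.Agent.Work.MP_4329d7_ag_sq Polynomial

section general

/-- a transcendental element satisfies no linear relation between distinct powers -/
theorem trans_sum {k κ ι : Type} [Field k] [Field κ] [Algebra k κ] [Fintype ι] {lam : κ}
    (htr : Transcendental k lam) {e : ι → ℕ} (he : Function.Injective e) (c : ι → k)
    (h : ∑ i, lam ^ e i * algebraMap k κ (c i) = 0) (i : ι) : c i = 0 := by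
  classical
  have h1 : aeval lam (∑ i, C (c i) * X ^ e i : k[X]) = 0 := by
    rw [map_sum, ← h]
    refine Finset.sum_congr rfl fun i _ => ?_
    rw [map_mul, aeval_C, map_pow, aeval_X, mul_comm]
  have h2 : (∑ i, C (c i) * X ^ e i : k[X]) = 0 := by
    by_contra hne
    exact htr ⟨_, hne, h1⟩
  have h3 := congrArg (fun r => coeff r (e i)) h2
  simp only [finsetSum_coeff, coeff_C_mul, coeff_X_pow, coeff_zero] at h3
  rw [Finset.sum_eq_single i] at h3
  · simpa using h3
  · intro j _ hj
    rw [if_neg fun h => hj (he h).symm, mul_zero]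
  · intro hi
    exact absurd (Finset.mem_univ _) hi

/-- transfer of algebraic elements -/
theorem alg_transfer {A K L k : Type} [Field A] [Field K] [Field L] [Field k] [Algebra A K]
    [Algebra k L] (g : K →+* L) (j : A →+* k)
    (h : ∀ a, g (algebraMap A K a) = algebraMap k L (j a)) (θ : K) (hθ : IsAlgebraic A θ) :
    IsAlgebraic k (g θ) := by
  obtain ⟨p, hp, hp0⟩ := hθ
  refine ⟨p.map j, (Polynomial.map_ne_zero_iff j.injective).2 hp, ?_⟩
  have h1 := congrArg g hp0
  rw [map_zero, aeval_def, hom_eval₂] at h1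
  rw [aeval_def, eval₂_map, ← h1]
  congr 1
  ext a
  exact (h a).symm

end general

variable {K : Type} [Field K] [Algebra ℂ K] {n d : ℕ} {Q : Type} [Fintype Q]
  {x : Fin d → K} {f : Q → Lau d} {ι : Type} [Fintype ι] {b : ι → Fin d → ℤ}

omit [Fintype Q] in
theorem coef_map {F L : Type} [Field F] [Algebra ℂ F] [Field L] [Algebra ℂ L] (h : F →ₐ[ℂ] L)
    (y : Fin d → F) (q : Q) (p : Pts f) : coef f (fun j => h (y j)) q p = h (coef f y q p) := by
  classical
  unfold coef
  split_ifs
  · rw [map_mul, AlgHom.commutes]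
    congr 1
    exact cs_mon_hom (h : F →+* L) _ _
  · rw [map_zero]

/-- affine images of solutions are solutions -/
theorem sol_desc {F L : Type} [Field F] [Algebra ℂ F] [Field L] [Algebra ℂ L] (h : F →ₐ[ℂ] L)
    (hb : ∑ i, b i = 0) (y : Fin d → F) (t : ι → F) (t' : ι → L) (r s : L) (hs : s ≠ 0)
    (ht : ∀ i, t' i = r + s * h (t i)) (hsol : Sol f (fun j => h (y j)) b t') : Sol f y b t := by
  intro q
  have h1 : ∀ p : Pts f, (rootPoly (fun i => blk f (b i)) t' p).comp (C r + C s * X) =
      C (s ^ dg f b p.1) * (rootPoly (fun i => blk f (b i)) t p).map (h : F →+* L) := by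
    intro p
    have h2 : ∀ i, ((X - C (t' i)) ^ blk f (b i) p).comp (C r + C s * X) =
        C s ^ blk f (b i) p * (X - C (h (t i))) ^ blk f (b i) p := by
      intro i
      rw [pow_comp, sub_comp, X_comp, C_comp, ← mul_pow, ht, C_add, C_mul]
      congr 1
      ring
    rw [map_rootPoly]
    unfold rootPoly
    rw [prod_comp, Finset.prod_congr rfl fun i _ => h2 i, Finset.prod_mul_distrib,
      Finset.prod_pow_eq_pow_sum, sum_blk b hb p, C_pow]
    rfl
  have h3 := congrArg (fun r' : L[X] => r'.comp (C r + C s * X)) (hsol q)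
  simp only [Polynomial.sum_comp, mul_comp, C_comp, zero_comp, h1] at h3
  have h4 : ∀ p : Pts f, C (coef f (fun j => h (y j)) q p) * (C (s ^ dg f b p.1) *
      (rootPoly (fun i => blk f (b i)) t p).map (h : F →+* L)) = C (s ^ dg f b q) *
      ((C (coef f y q p) * rootPoly (fun i => blk f (b i)) t p).map (h : F →+* L)) := by
    intro p
    rw [Polynomial.map_mul, map_C, coef_map]
    by_cases hp : coef f y q p = 0
    · rw [hp]; simp
    · rw [coef_ne hp]
      change C (h (coef f y q p)) * _ = _ * (C (h (coef f y q p)) * _)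
      ring
  rw [Finset.sum_congr rfl fun p _ => h4 p, ← Finset.mul_sum, ← Polynomial.map_sum] at h3
  have h5 := (mul_eq_zero.1 h3).resolve_left (C_ne_zero.2 (pow_ne_zero _ hs))
  exact (Polynomial.map_eq_zero (h : F →+* L)).1 h5

section half

variable {k : Type} [Field k] [Algebra ℂ k] [IsAlgClosed k]
  {κ : Type} [Field κ] [IsAlgClosed κ] [Algebra ℂ κ] [Algebra k κ] [IsScalarTower ℂ k κ]

omit [IsAlgClosed k] in
/-- the derivatives of a nonconstant solution -/
theorem good_der (D : Data K n d Q x f) (hg : Good x f b) (emb : K →ₐ[ℂ] k) (t : ι → κ)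
    (hs : Sol f (fun j => algebraMap k κ (emb (x j))) b t) (i0 i1 : ι) (h01 : t i0 ≠ t i1)
    (E : Derivation k κ κ) : ∃ r s : κ, ∀ i, E (t i) = r + s * t i := by
  classical
  let h : k →ₐ[ℂ] κ := IsScalarTower.toAlgHom ℂ k κ
  let emb' : K →ₐ[ℂ] κ := h.comp emb
  have hs' : Sol f (fun j => emb' (x j)) b t := hs
  rcases hg.sol κ emb' t hs' with hc | ⟨i, j, hij, h2⟩ | hinj
  · exact absurd (hc i0 i1) h01
  · have hij' : t i - t j ≠ 0 := sub_ne_zero.2 hij
    refine ⟨E (t i) - (E (t i) - E (t j)) / (t i - t j) * t i,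
      (E (t i) - E (t j)) / (t i - t j), fun l => ?_⟩
    rcases h2 l with h3 | h3
    · rw [h3]; ring
    · rw [h3]
      field_simp
      ring
  · have hdeg : ∀ q p, coef f (fun j => emb' (x j)) q p ≠ 0 →
        ∑ i, blk f (b i) p = dg f b q := fun q p hp => by
      rw [sum_blk b hg.sum, coef_ne hp]
    refine ker_of_free hs' hdeg (free_at D emb' hg.sum hinj hs') ⟨i0, i1, h01⟩ hg.card
      (fun i => E (t i)) fun q => ?_
    have h1 := der_jac (E.restrictScalars ℂ) _ _ _ hs' q
    have h2 : ∑ p, C ((E.restrictScalars ℂ) (coef f (fun j => emb' (x j)) q p)) *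
        rootPoly (fun i => blk f (b i)) t p = 0 := by
      refine Finset.sum_eq_zero fun p _ => ?_
      have h3 : coef f (fun j => emb' (x j)) q p = algebraMap k κ
          (coef f (fun j => emb (x j)) q p) := coef_map h _ q p
      have h4 : (E.restrictScalars ℂ) (coef f (fun j => emb' (x j)) q p) = 0 := by
        rw [h3]
        exact E.map_algebraMap _
      rw [h4, C_0, zero_mul]
    rw [h2] at h1
    exact h1.symm

variable {F : Type} [Field F] [Algebra ℂ F]

theorem half (D : Data K n d Q x f) (hg : Good x f b) (emb : K →ₐ[ℂ] k)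
    (P : Plc F κ) (hC : ∀ c : ℂ, P.S (algebraMap ℂ F c) (algebraMap ℂ κ c))
    (y : Fin d → F) (hy : ∀ j, P.S (y j) (algebraMap k κ (emb (x j))))
    (t : ι → F) (ht : t ≠ 0) (hc : IsCont f y b t)
    (lam : F) (lam' : κ) (hlam : P.S lam lam') (htr : Transcendental k lam')
    (e : ι → ℕ) (he : Function.Injective e) (v : ι → F) (u : ι → k) (hu : ∀ i, u i ≠ 0)
    (hv : ∀ i, P.S (v i) (algebraMap k κ (u i))) (hl : ∑ i, lam ^ e i * v i * t i = 0) :
    (∀ i, t i ≠ 0) ∧ ∃ ω : K →ₐ[ℂ] κ, (∀ j, P.S (y j * ∏ i, (-t i) ^ b i j) (ω (x j))) ∧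
      ∀ θ, IsAlgebraic (KB x b) θ → ω θ = algebraMap k κ (emb θ) := by
  classical
  have hck : CharZero k := charZero_of_injective_algebraMap (algebraMap ℂ k).injective
  let h : k →ₐ[ℂ] κ := IsScalarTower.toAlgHom ℂ k κ
  let emb' : K →ₐ[ℂ] κ := h.comp emb
  have hy0 : ∀ j, algebraMap k κ (emb (x j)) ≠ 0 := fun j => by
    simpa using D.ne j
  have hev : ∀ q, ev (f q) (fun j => algebraMap k κ (emb (x j))) = 0 := by
    intro q
    have h1 := cs_ev_hom emb' (f q) x
    rw [D.eq q, map_zero] at h1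
    exact h1
  obtain ⟨i0, t', h0, ht', h1, hsol⟩ := cont_red P hC b hg.sum hy hy0 hev ht hc
  -- the linear condition
  have hlin : ∑ i, lam' ^ e i * algebraMap k κ (u i) * t' i = 0 := by
    have h2 : P.S (∑ i, lam ^ e i * v i * (t i / t i0))
        (∑ i, lam' ^ e i * algebraMap k κ (u i) * t' i) :=
      P.sum _ fun i _ => P.mul (P.mul (P.pow hlam _) (hv i)) (ht' i)
    have h3 : ∑ i, lam ^ e i * v i * (t i / t i0) = 0 := by
      have h4 : ∀ i, lam ^ e i * v i * (t i / t i0) = lam ^ e i * v i * t i / t i0 :=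
        fun i => (mul_div_assoc _ _ _).symm
      rw [Finset.sum_congr rfl fun i _ => h4 i, ← Finset.sum_div, hl, zero_div]
    rw [h3] at h2
    exact P.uniq h2 P.zero
  obtain ⟨i1, hi1⟩ : ∃ i1, t' i0 ≠ t' i1 := by
    by_contra hcon
    push Not at hcon
    have h2 := trans_sum htr he u (by
      rw [← hlin]
      refine Finset.sum_congr rfl fun i _ => ?_
      rw [← hcon i, h1, mul_one])
    exact hu i0 (h2 i0)
  obtain ⟨τ, r, s, hs0, hτ, hne⟩ := descend (k := k) t' i0 i1 hi1
    (fun E => good_der D hg emb t' hsol i0 i1 hi1 E)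
  -- `z` is transcendental
  set z : κ := -r / s with hz
  have ht'z : ∀ i, t' i = s * (algebraMap k κ (τ i) - z) := by
    intro i
    rw [hτ i, hz]
    field_simp
    ring
  have hzr : ∀ c : k, algebraMap k κ c ≠ z := by
    intro c hcz
    have h2 := trans_sum htr he (fun i => u i * (τ i - c)) (by
      have h3 : ∑ i, lam' ^ e i * algebraMap k κ (u i) * t' i =
          s * ∑ i, lam' ^ e i * algebraMap k κ (u i * (τ i - c)) := by
        rw [Finset.mul_sum]
        refine Finset.sum_congr rfl fun i _ => ?_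
        rw [ht'z i, ← hcz, map_mul, map_sub]
        ring
      rw [h3] at hlin
      exact (mul_eq_zero.1 hlin).resolve_left hs0)
    apply hne
    have h3 := (mul_eq_zero.1 (h2 i0)).resolve_left (hu i0)
    have h4 := (mul_eq_zero.1 (h2 i1)).resolve_left (hu i1)
    exact (sub_eq_zero.1 h3).trans (sub_eq_zero.1 h4).symm
  have hztr : Transcendental k z := by
    intro halg
    obtain ⟨c, hc⟩ := Pool.Agent.Work.PD.mem_range_of_integral z halg.isIntegral
    exact hzr c hc
  have hz0 : z ≠ 0 := fun h0' => hzr 0 (by rw [map_zero, h0'])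
  have ht'0 : ∀ i, t' i ≠ 0 := by
    intro i
    rw [ht'z i]
    exact mul_ne_zero hs0 (sub_ne_zero.2 (hzr _))
  have ht0 : ∀ i, t i ≠ 0 := by
    intro i h2
    have h3 := ht' i
    rw [h2, zero_div] at h3
    exact ht'0 i (P.uniq h3 P.zero)
  refine ⟨ht0, ?_⟩
  -- the curve over `k`
  have hsolk : Sol f (fun j => emb (x j)) b τ :=
    sol_desc h hg.sum (fun j => emb (x j)) τ t' r s hs0 hτ hsol
  obtain ⟨φ, hφ, hφm, hφP⟩ := root_hom D emb b hg.sum τ hsolk
  -- evaluation at `1 / z`
  have hinj : Function.Injective (aeval (z⁻¹) : k[X] →ₐ[k] κ) := by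
    rw [← transcendental_iff_injective]
    intro halg
    exact hztr (by simpa using halg.inv)
  let χ : RatFunc k →ₐ[k] κ := IsFractionRing.liftAlgHom hinj
  have hχ : ∀ p : k[X], χ (algebraMap k[X] (RatFunc k) p) = aeval (z⁻¹) p := by
    intro p
    change IsFractionRing.liftAlgHom hinj _ = _
    rw [IsFractionRing.liftAlgHom_apply, IsFractionRing.lift_algebraMap]
    rfl
  have hχC : ∀ c : k, χ (RatFunc.C c) = algebraMap k κ c := by
    intro c
    rw [← RatFunc.algebraMap_C, hχ, aeval_C]
  have hχG : ∀ c : k, χ (csG c) = 1 - algebraMap k κ c * z⁻¹ := by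
    intro c
    unfold csG
    rw [hχ]
    simp
  let ω : K →ₐ[ℂ] κ :=
    { toRingHom := (χ : RatFunc k →+* κ).comp (φ : K →+* RatFunc k)
      commutes' := fun c => by
        change χ (φ (algebraMap ℂ K c)) = algebraMap ℂ κ c
        rw [AlgHom.commutes, algebraMap_ratFunc, hχC, ← IsScalarTower.algebraMap_apply] }
  have hω : ∀ w, ω w = χ (φ w) := fun w => rfl
  refine ⟨ω, fun j => ?_, fun θ hθ => ?_⟩
  · have h2 : ω (x j) = algebraMap k κ (emb (x j)) * ∏ i, (-t' i) ^ b i j := by
      rw [hω, hφ, map_mul, hχC, map_prod]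
      congr 1
      have h3 : ∀ i, (-t' i) ^ b i j = (s * z) ^ b i j *
          (1 - algebraMap k κ (τ i) * z⁻¹) ^ b i j := by
        intro i
        rw [← mul_zpow, ht'z i]
        congr 1
        field_simp
        ring
      rw [Finset.prod_congr rfl fun i _ => h3 i, Finset.prod_mul_distrib,
        cs_zpow_sum _ (mul_ne_zero hs0 hz0)]
      have h4 : ∑ i, b i j = 0 := by
        have := congrFun hg.sum j
        rwa [Finset.sum_apply] at this
      rw [h4, zpow_zero, one_mul]
      refine Finset.prod_congr rfl fun i _ => ?_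
      rw [map_zpow₀, hχG]
    have h3 : y j * ∏ i, (-t i) ^ b i j = y j * ∏ i, (-(t i / t i0)) ^ b i j := by
      congr 1
      have h3 : ∀ i, (-t i) ^ b i j = (t i0) ^ b i j * (-(t i / t i0)) ^ b i j := by
        intro i
        rw [← mul_zpow]
        congr 1
        field_simp
      rw [Finset.prod_congr rfl fun i _ => h3 i, Finset.prod_mul_distrib, cs_zpow_sum _ h0]
      have h4 : ∑ i, b i j = 0 := by
        have := congrFun hg.sum j
        rwa [Finset.sum_apply] at this
      rw [h4, zpow_zero, one_mul]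
    rw [h2, h3]
    exact P.mul (hy j) (P.prod _ fun i _ => P.zpow (P.neg (ht' i)) (neg_ne_zero.2 (ht'0 i)) _)
  · -- algebraic elements
    have h2 : ∀ a ∈ KB x b, φ a = RatFunc.C (emb a) := by
      intro a ha
      unfold KB at ha
      induction ha using IntermediateField.adjoin_induction with
      | mem w hw =>
        obtain ⟨χ', hχ', rfl⟩ := hw
        rw [hφm]
        simp only [hχ', zpow_zero, Finset.prod_const_one, mul_one]
      | algebraMap c =>
        rw [AlgHom.commutes, AlgHom.commutes, algebraMap_ratFunc]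
      | add w w' _ _ hw hw' => rw [map_add, map_add, map_add, hw, hw']
      | inv w _ hw => rw [map_inv₀, map_inv₀, map_inv₀, hw]
      | mul w w' _ _ hw hw' => rw [map_mul, map_mul, map_mul, hw, hw']
    have h3 : IsAlgebraic k (φ θ) := alg_transfer (φ : K →+* RatFunc k)
      ((emb : K →+* k).comp (algebraMap (KB x b) K)) (fun a => h2 a a.2) θ hθ
    obtain ⟨c, hc⟩ := Pool.Agent.Work.PD.mem_range_of_integral (φ θ) h3.isIntegral
    have hc' : φ θ = RatFunc.C c := hc.symm
    have h4 := hφP θ
    rw [hc'] at h4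
    have h5 := cs_pl_unique (pl_C c) h4
    rw [hω, hc', hχC, h5]

/-- conclusion for the homomorphism `ψ` given by the contact point -/
theorem half_psi (D : Data K n d Q x f) (hg : Good x f b) (emb : K →ₐ[ℂ] k) [Algebra k F]
    [IsScalarTower ℂ k F]
    (P : Plc F κ) (hP : ∀ c : k, P.S (algebraMap k F c) (algebraMap k κ c))
    (y : Fin d → F) (hy0 : ∀ j, y j ≠ 0)
    (hyχ : ∀ χ : Fin d → ℤ, (∀ i, pair χ (b i) = 0) → mon y χ = algebraMap k F (emb (mon x χ)))
    (t : ι → F) (ht0 : ∀ i, t i ≠ 0) (ω : K →ₐ[ℂ] κ)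
    (h1 : ∀ j, P.S (y j * ∏ i, (-t i) ^ b i j) (ω (x j)))
    (h2 : ∀ θ, IsAlgebraic (KB x b) θ → ω θ = algebraMap k κ (emb θ))
    (ψ : K →ₐ[ℂ] F) (hψ : ∀ j, ψ (x j) = y j * ∏ i, (-t i) ^ b i j) (θ : K)
    (hθ : IsAlgebraic (KB x b) θ) : ψ θ = algebraMap k F (emb θ) := by
  classical
  have hC : ∀ c : ℂ, P.S (algebraMap ℂ F c) (algebraMap ℂ κ c) := by
    intro c
    rw [IsScalarTower.algebraMap_apply ℂ k F, IsScalarTower.algebraMap_apply ℂ k κ]
    exact hP _
  have hall : ∀ z : K, P.S (ψ z) (ω z) := by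
    intro z
    have hz : z ∈ IntermediateField.adjoin ℂ (Set.range x) := by
      rw [D.gen]
      exact IntermediateField.mem_top
    induction hz using IntermediateField.adjoin_induction with
    | mem z hz =>
      obtain ⟨j, rfl⟩ := hz
      rw [hψ]
      exact h1 j
    | algebraMap c =>
      rw [AlgHom.commutes, AlgHom.commutes]
      exact hC c
    | add z w _ _ hz hw => rw [map_add, map_add]; exact P.add hz hw
    | inv z _ hz =>
      rw [map_inv₀, map_inv₀]
      by_cases h0 : z = 0
      · rw [h0, map_zero, map_zero, inv_zero, inv_zero]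
        exact P.zero
      · exact P.inv hz (by simpa using h0)
    | mul z w _ _ hz hw => rw [map_mul, map_mul]; exact P.mul hz hw
  have hmon : ∀ χ : Fin d → ℤ, (∀ i, pair χ (b i) = 0) →
      ψ (mon x χ) = algebraMap k F (emb (mon x χ)) := by
    intro χ hχ
    rw [← hyχ χ hχ]
    have h3 := cs_mon_hom (ψ : K →+* F) χ x
    change _ = ψ (mon x χ) at h3
    rw [← h3]
    have h4 : (fun j => (ψ : K →+* F) (x j)) = fun j => y j * ∏ i, (-t i) ^ b i j := by
      funext j
      exact hψ j
    rw [h4]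
    unfold mon
    simp only [mul_zpow, Finset.prod_mul_distrib]
    rw [← mul_one (∏ j, y j ^ χ j)]
    congr 1
    · rw [mul_one]
    simp only [← Finset.prod_zpow, ← zpow_mul]
    rw [Finset.prod_comm]
    refine Finset.prod_eq_one fun i _ => ?_
    rw [cs_zpow_sum _ (neg_ne_zero.2 (ht0 i))]
    have h5 : ∑ j, b i j * χ j = 0 := by
      rw [← hχ i]
      exact Finset.sum_congr rfl fun j _ => mul_comm _ _
    rw [h5, zpow_zero]
  have h3 : ∀ a ∈ KB x b, ψ a = algebraMap k F (emb a) := by
    intro a ha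
    unfold KB at ha
    induction ha using IntermediateField.adjoin_induction with
    | mem w hw =>
      obtain ⟨χ', hχ', rfl⟩ := hw
      exact hmon χ' hχ'
    | algebraMap c =>
      rw [AlgHom.commutes, AlgHom.commutes, ← IsScalarTower.algebraMap_apply]
    | add w w' _ _ hw hw' => rw [map_add, map_add, map_add, hw, hw']
    | inv w _ hw => rw [map_inv₀, map_inv₀, map_inv₀, hw]
    | mul w w' _ _ hw hw' => rw [map_mul, map_mul, map_mul, hw, hw']
  have h4 : IsAlgebraic k (ψ θ) := alg_transfer (ψ : K →+* F)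
    ((emb : K →+* k).comp (algebraMap (KB x b) K)) (fun a => h3 a a.2) θ hθ
  obtain ⟨c, hc⟩ := Pool.Agent.Work.PD.mem_range_of_integral (ψ θ) h4.isIntegral
  have h5 := hall θ
  rw [← hc, h2 θ hθ] at h5
  have h6 := P.uniq (hP c) h5
  have h7 := (algebraMap k κ).injective h6
  rw [← hc, h7]

end half

end Pool.Agent.Work.CW
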