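import Mathlib
import Pool.Agent.Work.MP_4329d7_ag_w.IrrRed
import Pool.Agent.Work.MP_4329d7_ag_w.Lift

/-!
THEOREM W, part IRR: a point `p` of the complete intersection over `F` which specialises to the
general point is a general point: there is `ψ : K → F` with `ψ x = p`.
-/

namespace Pool.Agent.Work.CW

open Pool.Agent.Work.Uni Pool.Agent.Work.CI

section same

variable {K F : Type} [Field K] [Algebra ℂ K] [Field F] [Algebra ℂ F] {d n : ℕ}

theorem adjoin_top (p : Fin d → F) :
    IntermediateField.adjoin ℂ (Set.range fun j =>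
      (⟨p j, IntermediateField.subset_adjoin ℂ _ ⟨j, rfl⟩⟩ :
        IntermediateField.adjoin ℂ (Set.range p))) = ⊤ := by
  let L := IntermediateField.adjoin ℂ (Set.range p)
  have h1 : (IntermediateField.adjoin ℂ (Set.range fun j =>
      (⟨p j, IntermediateField.subset_adjoin ℂ _ ⟨j, rfl⟩⟩ : L))).map L.val =
      IntermediateField.adjoin ℂ (Set.range p) := by
    rw [IntermediateField.adjoin_map]
    congr 1
    rw [← Set.range_comp]
    rfl
  apply IntermediateField.map_injective L.val
  rw [h1, ← AlgHom.fieldRange_eq_map, IntermediateField.fieldRange_val]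

/-- a transcendence basis among the generators -/
theorem exists_basis (x : Fin d → K) (hgen : IntermediateField.adjoin ℂ (Set.range x) = ⊤) :
    ∃ (T : Type) (_ : Fintype T) (J : T → Fin d), IsTranscendenceBasis ℂ (fun i => x (J i)) := by
  classical
  have : Algebra.IsAlgebraic (Algebra.adjoin ℂ (Set.range x)) K := by
    rw [← IntermediateField.isAlgebraic_adjoin_iff_top, hgen,
      Algebra.isAlgebraic_iff_isIntegral]
    exact Algebra.isIntegral_of_surjective IntermediateField.topEquiv.surjective
  obtain ⟨t, hts, ht⟩ := exists_isTranscendenceBasis_subset (R := ℂ) (Set.range x)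
  have hfin : Finite t := (Set.finite_range x).subset hts
  have := Fintype.ofFinite t
  choose J hJ using fun i : t => hts i.2
  refine ⟨t, inferInstance, J, ?_⟩
  have h1 : (fun i => x (J i)) = ((↑) : t → K) := funext hJ
  rw [h1]
  exact ht

/-- equality of the ideals from the dimensions -/
theorem same_ideal (x : Fin d → K) (hgen : IntermediateField.adjoin ℂ (Set.range x) = ⊤)
    (htr : Algebra.trdeg ℂ K = n) (p : Fin d → F)
    (hle : Algebra.trdeg ℂ (IntermediateField.adjoin ℂ (Set.range p)) ≤ n)
    (hspec : ∀ G : MvPolynomial (Fin d) ℂ, MvPolynomial.aeval p G = 0 →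
      MvPolynomial.aeval x G = 0) (G : MvPolynomial (Fin d) ℂ)
    (hG : MvPolynomial.aeval x G = 0) : MvPolynomial.aeval p G = 0 := by
  classical
  obtain ⟨T, _, J, hT⟩ := exists_basis x hgen
  have hcard : (Fintype.card T : Cardinal) = n := by
    rw [← htr, ← hT.cardinalMk_eq_trdeg, Cardinal.mk_fintype]
  set L := IntermediateField.adjoin ℂ (Set.range p) with hL
  let pL : Fin d → L := fun j => ⟨p j, IntermediateField.subset_adjoin ℂ _ ⟨j, rfl⟩⟩
  have hpL : ∀ H : MvPolynomial (Fin d) ℂ,
      ((MvPolynomial.aeval pL H : L) : F) = MvPolynomial.aeval p H := by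
    intro H
    have h1 : L.val (MvPolynomial.aeval pL H) = MvPolynomial.aeval (fun j => L.val (pL j)) H := by
      rw [← AlgHom.comp_apply, MvPolynomial.comp_aeval]
    exact h1
  have hrename : ∀ {R : Type} [CommRing R] [Algebra ℂ R] (y : Fin d → R)
      (H : MvPolynomial T ℂ), MvPolynomial.aeval y (MvPolynomial.rename J H) =
        MvPolynomial.aeval (fun i => y (J i)) H := by
    intro R _ _ y H
    rw [MvPolynomial.aeval_rename]
    rfl
  have hind : AlgebraicIndependent ℂ (fun i => pL (J i)) := by
    rw [algebraicIndependent_iff]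
    intro H hH
    rw [← hrename pL H] at hH
    have h1 := hpL (MvPolynomial.rename J H)
    rw [hH] at h1
    have h2 := hspec _ h1.symm
    rw [hrename x H] at h2
    exact (algebraicIndependent_iff.1 hT.1) H h2
  have hbas : IsTranscendenceBasis ℂ (fun i => pL (J i)) :=
    hind.isTranscendenceBasis_of_trdeg_le_of_finite (by
      rw [Cardinal.mk_fintype, hcard]
      exact hle)
  by_contra hne
  have hw0 : (MvPolynomial.aeval pL G : L) ≠ 0 := by
    intro h
    have h1 := hpL G
    rw [h] at h1
    exact hne h1.symm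
  have halg := hbas.isAlgebraic.isAlgebraic (MvPolynomial.aeval pL G : L)
  obtain ⟨q, hq0, hq⟩ := halg.exists_nonzero_coeff_and_aeval_eq_zero
    (mem_nonZeroDivisors_of_ne_zero hw0)
  have hr : ∀ i, ∃ r : MvPolynomial T ℂ,
      MvPolynomial.aeval (fun i => pL (J i)) r = ((q.coeff i : _) : L) := by
    intro i
    have h1 := (q.coeff i).2
    have h2 : ((q.coeff i : _) : L) ∈
        (MvPolynomial.aeval (fun i => pL (J i)) : MvPolynomial T ℂ →ₐ[ℂ] L).range := by
      rw [← Algebra.adjoin_range_eq_range_aeval]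
      exact h1
    exact h2
  choose r hr using hr
  have h1 : MvPolynomial.aeval pL (∑ i ∈ Finset.range (q.natDegree + 1),
      MvPolynomial.rename J (r i) * G ^ i) = 0 := by
    rw [map_sum, ← hq, Polynomial.aeval_eq_sum_range]
    refine Finset.sum_congr rfl fun i _ => ?_
    rw [map_mul, map_pow, hrename, hr, Algebra.smul_def]
    rfl
  have h2 := hpL (∑ i ∈ Finset.range (q.natDegree + 1), MvPolynomial.rename J (r i) * G ^ i)
  rw [h1] at h2
  have h3 := hspec _ h2.symm
  rw [map_sum, Finset.sum_range_succ'] at h3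
  have h4 : ∑ i ∈ Finset.range q.natDegree, MvPolynomial.aeval x
      (MvPolynomial.rename J (r (i + 1)) * G ^ (i + 1)) = 0 := by
    refine Finset.sum_eq_zero fun i _ => ?_
    rw [map_mul, map_pow, hG, zero_pow (Nat.succ_ne_zero i), mul_zero]
  rw [h4, zero_add, pow_zero, mul_one, hrename] at h3
  have h5 := (algebraicIndependent_iff.1 hT.1) _ h3
  apply hq0
  apply Subtype.ext
  rw [← hr 0, h5, map_zero]
  rfl

end same

section ci

variable {K : Type} [Field K] [Algebra ℂ K] {n d : ℕ} {Q : Type} [Fintype Q]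
  {x : Fin d → K} {f : Q → Lau d} {F : Type} [Field F] [Algebra ℂ F]

/-- the dimension of a point with independent equations -/
theorem trdeg_le_of_li (D : Data K n d Q x f) (p : Fin d → F) (hp0 : ∀ j, p j ≠ 0)
    (hp : ∀ q, ev (f q) p = 0) (hli : LinearIndependent F (fun q j => ldv (f q) j p)) :
    Algebra.trdeg ℂ (IntermediateField.adjoin ℂ (Set.range p)) ≤ n := by
  classical
  set L := IntermediateField.adjoin ℂ (Set.range p) with hL
  let pL : Fin d → L := fun j => ⟨p j, IntermediateField.subset_adjoin ℂ _ ⟨j, rfl⟩⟩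
  have hpL0 : ∀ j, pL j ≠ 0 := fun j h => hp0 j (congrArg Subtype.val h)
  have hgen : IntermediateField.adjoin ℂ (Set.range pL) = ⊤ := adjoin_top p
  obtain ⟨T, _, J, hT⟩ := exists_basis pL hgen
  have htr : Algebra.trdeg ℂ L = (Fintype.card T : ℕ) := by
    rw [← hT.cardinalMk_eq_trdeg, Cardinal.mk_fintype]
  obtain ⟨I, _, E, hI, hE⟩ := curve_frame pL hgen htr
  rw [htr]
  have hval : ∀ (g : Lau d) (j : Fin d), ((ldv g j pL : L) : F) = ldv g j p := fun g j =>
    map_ldv L.val g j pL
  have hev : ∀ q, ev (f q) pL = 0 := by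
    intro q
    have h1 : ((ev (f q) pL : L) : F) = ev (f q) p := map_ev L.val (f q) pL
    rw [hp q] at h1
    exact Subtype.ext h1
  let r : Q → Fin d → L := fun q j => ldv (f q) j pL
  let M : I → Fin d → L := fun i j => E i (pL j) * (pL j)⁻¹
  have hr : LinearIndependent L r := by
    rw [Fintype.linearIndependent_iff]
    intro a ha q
    have h1 := (Fintype.linearIndependent_iff.1 hli) (fun q => (a q : F)) (by
      funext j
      have h2 := congrArg (fun z : L => (z : F)) (congrFun ha j)
      simp only [Finset.sum_apply, Pi.smul_apply, smul_eq_mul, Pi.zero_apply] at h2 ⊢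
      rw [← ZeroMemClass.coe_zero L, ← h2]
      push_cast
      refine Finset.sum_congr rfl fun q _ => ?_
      rw [← hval]) q
    exact Subtype.ext h1
  have hM : LinearIndependent L M := by
    rw [Fintype.linearIndependent_iff] at hE ⊢
    intro a ha
    apply hE
    funext j
    have h2 := congrFun ha j
    simp only [Finset.sum_apply, Pi.smul_apply, smul_eq_mul, Pi.zero_apply, M] at h2 ⊢
    have h3 : (∑ i, a i * E i (pL j)) * (pL j)⁻¹ = 0 := by
      rw [← h2, Finset.sum_mul]
      exact Finset.sum_congr rfl fun i _ => by ring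
    exact (mul_eq_zero.1 h3).resolve_right (inv_ne_zero (hpL0 j))
  have horth : ∀ q i, ∑ j, r q j * M i j = 0 := by
    intro q i
    have h1 : E i (ev (f q) pL) = 0 := by rw [hev, map_zero]
    have h2 : ∀ χ, E i (mon pL χ) = mon pL χ * ∑ j, (χ j : L) * M i j := fun χ =>
      der_mon hpL0 (E i) (M i) (fun j => by
        simp only [M]
        rw [mul_assoc, inv_mul_cancel₀ (hpL0 j), mul_one]) χ
    rw [← h1]
    unfold ev
    rw [map_sum]
    simp only [r, ldv, Finset.sum_mul]
    rw [Finset.sum_comm]
    refine Finset.sum_congr rfl fun χ _ => ?_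
    rw [Derivation.leibniz, Derivation.map_algebraMap, smul_zero, add_zero, smul_eq_mul, h2,
      Finset.mul_sum, Finset.mul_sum]
    exact Finset.sum_congr rfl fun j _ => by ring
  -- linear algebra
  set T' : (Fin d → L) →ₗ[L] (Q → L) := Matrix.mulVecLin (Matrix.of r) with hT'
  have hrank : Module.finrank L (LinearMap.range T') = Fintype.card Q := by
    have h1 := LinearIndependent.rank_matrix (M := Matrix.of r) (by exact hr)
    rw [Matrix.rank] at h1
    exact h1
  have hker := LinearMap.finrank_range_add_finrank_ker T'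
  rw [hrank, Module.finrank_fin_fun] at hker
  have hmem : ∀ i, M i ∈ LinearMap.ker T' := by
    intro i
    rw [LinearMap.mem_ker, hT', Matrix.mulVecLin_apply]
    funext q
    exact horth q i
  have hcard := (LinearIndependent.of_comp (LinearMap.ker T').subtype
    (v := fun i => (⟨M i, hmem i⟩ : LinearMap.ker T')) hM).fintype_card_le_finrank
  have hdim := D.dim
  have : Fintype.card T ≤ n := by omega
  exact_mod_cast this

/-- independence is an open condition -/
theorem li_of_spec (D : Data K n d Q x f) {κ : Type} [Field κ] [Algebra ℂ κ] (ω : K →ₐ[ℂ] κ)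
    (P : Plc F κ) (hC : ∀ c : ℂ, P.S (algebraMap ℂ F c) (algebraMap ℂ κ c)) (p : Fin d → F)
    (hω : ∀ j, P.S (p j) (ω (x j))) : LinearIndependent F (fun q j => ldv (f q) j p) := by
  classical
  have hω0 : ∀ j, ω (x j) ≠ 0 := fun j => by simpa using D.ne j
  have hldv : ∀ q j, P.S (ldv (f q) j p) (ldv (f q) j fun j => ω (x j)) := by
    intro q j
    unfold ldv
    refine P.sum _ fun χ _ => P.mul (P.mul (hC _) ?_) (P.mon hω hω0 χ)
    have h1 := hC (χ j : ℂ)
    rwa [map_intCast, map_intCast] at h1
  rw [Fintype.linearIndependent_iff]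
  intro a ha
  by_contra hne
  push Not at hne
  obtain ⟨q1, hq1⟩ := hne
  have ha0 : a ≠ 0 := fun h => hq1 (congrFun h q1)
  obtain ⟨q0, h0, h1⟩ := P.exists_max a ha0
  choose a' ha' using h1
  have h2 := (Fintype.linearIndependent_iff.1 (ldv_li D ω)) a' (by
    funext j
    simp only [Finset.sum_apply, Pi.smul_apply, smul_eq_mul, Pi.zero_apply]
    have h3 : P.S (∑ q, a q / a q0 * ldv (f q) j p)
        (∑ q, a' q * ldv (f q) j fun j => ω (x j)) :=
      P.sum _ fun q _ => P.mul (ha' q) (hldv q j)
    have h4 : ∑ q, a q / a q0 * ldv (f q) j p = 0 := by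
      have h5 := congrFun ha j
      simp only [Finset.sum_apply, Pi.smul_apply, smul_eq_mul, Pi.zero_apply] at h5
      have h6 : ∀ q, a q / a q0 * ldv (f q) j p = a q * ldv (f q) j p / a q0 := fun q => by ring
      rw [Finset.sum_congr rfl fun q _ => h6 q, ← Finset.sum_div, h5, zero_div]
    rw [h4] at h3
    exact P.uniq h3 P.zero) q0
  have h3 := ha' q0
  rw [div_self h0, h2] at h3
  exact one_ne_zero (P.uniq P.one h3)

/-- a point which specialises to the general point is general -/
theorem same_hom (D : Data K n d Q x f) {κ : Type} [Field κ] [Algebra ℂ κ] (ω : K →ₐ[ℂ] κ)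
    (P : Plc F κ) (hC : ∀ c : ℂ, P.S (algebraMap ℂ F c) (algebraMap ℂ κ c)) (p : Fin d → F)
    (hp : ∀ q, ev (f q) p = 0) (hω : ∀ j, P.S (p j) (ω (x j))) :
    ∃ ψ : K →ₐ[ℂ] F, ∀ j, ψ (x j) = p j := by
  have hω0 : ∀ j, ω (x j) ≠ 0 := fun j => by simpa using D.ne j
  have hp0 : ∀ j, p j ≠ 0 := fun j => P.ne_zero (hω j) (hω0 j)
  have hspec : ∀ G : MvPolynomial (Fin d) ℂ, MvPolynomial.aeval p G = 0 →
      MvPolynomial.aeval x G = 0 := by
    intro G hG
    have h1 := red_aeval P hC hω G
    rw [hG] at h1
    have h2 := P.uniq h1 P.zero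
    have h3 : ω (MvPolynomial.aeval x G) = MvPolynomial.aeval (fun j => ω (x j)) G := by
      rw [← AlgHom.comp_apply, MvPolynomial.comp_aeval]
    rw [h2] at h3
    exact (map_eq_zero_iff _ ω.injective).1 h3
  exact curve_hom x D.gen p fun G => ⟨same_ideal x D.gen D.trdeg p
    (trdeg_le_of_li D p hp0 hp (li_of_spec D ω P hC p hω)) hspec G, hspec G⟩

end ci

end Pool.Agent.Work.CW
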