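import Mathlib
import Pool.Agent.Work.MP_4329d7_ag_w.IrrHalf
import Pool.Agent.Work.MP_4329d7_ag_w.IrrSame

/-!
THEOREM W, part IRR: two embeddings of `K` over `K_B` agree on the elements which are algebraic over
`K_B`.
-/

namespace Pool.Agent.Work.CW

open Pool.Agent.Work.Uni Pool.Agent.Work.CI Polynomial

variable {K : Type} [Field K] [Algebra ℂ K] {n d : ℕ} {Q : Type} [Fintype Q]
  {x : Fin d → K} {f : Q → Lau d} {ι : Type} [Fintype ι] {b : ι → Fin d → ℤ}

omit [Fintype Q] in
theorem mon_mul_prod {F : Type} [Field F] (y : Fin d → F) (v : ι → F) (hv : ∀ i, v i ≠ 0)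
    (b : ι → Fin d → ℤ) (χ : Fin d → ℤ) :
    mon (fun j => y j * ∏ i, v i ^ b i j) χ = mon y χ * ∏ i, v i ^ pair χ (b i) := by
  classical
  unfold mon pair
  simp only [mul_zpow, Finset.prod_mul_distrib]
  congr 1
  simp only [← Finset.prod_zpow, ← zpow_mul]
  rw [Finset.prod_comm]
  refine Finset.prod_congr rfl fun i _ => ?_
  rw [← cs_zpow_sum _ (hv i)]
  exact Finset.prod_congr rfl fun j _ => by rw [mul_comm]

/-- the contact point lies on the complete intersection -/
theorem cont_point {F : Type} [Field F] [Algebra ℂ F] (hb : ∑ i, b i = 0) (y : Fin d → F)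
    (t : ι → F) (ht : ∀ i, t i ≠ 0) (hc : IsCont f y b t) (q : Q)
    (h0 : dg f b q = 0 → ev (f q) y = 0) :
    ev (f q) (fun j => y j * ∏ i, (-t i) ^ b i j) = 0 := by
  classical
  have h1 := congrArg (eval 0) (hc q)
  rw [eval_mul, eval_C, eval_pow, eval_X, eval_finsetSum] at h1
  have h2 : ev (f q) y * 0 ^ dg f b q = 0 := by
    by_cases hd : dg f b q = 0
    · rw [h0 hd, zero_mul]
    · rw [zero_pow hd, mul_zero]
  rw [h2, Fintype.sum_sigma, Finset.sum_eq_single q] at h1
  · have h3 : ev (f q) (fun j => y j * ∏ i, (-t i) ^ b i j) =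
        (∏ i, (-t i) ^ mn (f q) (b i)) * ∑ χ : (f q).support,
          eval 0 (C (coef f y q ⟨q, χ⟩) * rootPoly (fun i => blk f (b i)) t ⟨q, χ⟩) := by
      unfold ev
      rw [Finset.mul_sum, ← Finset.sum_coe_sort]
      refine Finset.sum_congr rfl fun χ _ => ?_
      rw [mon_mul_prod y _ (fun i => neg_ne_zero.2 (ht i)), eval_mul, eval_C, rootPoly, eval_prod]
      have h4 : ∀ i, (-t i) ^ pair χ.1 (b i) = (-t i) ^ mn (f q) (b i) *
          eval 0 ((X - C (t i)) ^ blk f (b i) ⟨q, χ⟩) := by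
        intro i
        rw [eval_pow, eval_sub, eval_X, eval_C, zero_sub, ← zpow_natCast,
          ← zpow_add₀ (neg_ne_zero.2 (ht i)), blk_cast]
        congr 1
        ring
      rw [Finset.prod_congr rfl fun i _ => h4 i, Finset.prod_mul_distrib]
      simp only [coef, if_true]
      ring
    rw [h3, h1, mul_zero]
  · intro q' _ hq'
    refine Finset.sum_eq_zero fun χ _ => ?_
    unfold coef
    rw [if_neg hq', C_0, zero_mul, eval_zero]
  · intro hq
    exact absurd (Finset.mem_univ _) hq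

/-- two embeddings over `K_B` -/
theorem irr_core (D : Data K n d Q x f) (hg : Good x f b) {k : Type} [Field k] [Algebra ℂ k]
    [IsAlgClosed k] (j0 j1 : K →ₐ[ℂ] k) (u : ι → k) (hu : ∀ i, u i ≠ 0)
    (hux : ∀ j, j1 (x j) = j0 (x j) * ∏ i, u i ^ b i j)
    {L F : Type} [Field L] [Field F] [IsAlgClosed F] (i : k →+* L) (lam : L)
    (hlam : ∀ p : k[X], p ≠ 0 → p.eval₂ i lam ≠ 0) (φ : L[X] →+* F)
    (hφ : Function.Injective φ) (θ : K) (hθ : IsAlgebraic (KB x b) θ) : j0 θ = j1 θ := by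
  classical
  have hι : Nonempty ι := by
    rw [← Fintype.card_pos_iff, hg.card]
    omega
  letI ak : Algebra k F := ((φ.comp C).comp i).toAlgebra
  letI ac : Algebra ℂ F := (((φ.comp C).comp i).comp (algebraMap ℂ k)).toAlgebra
  haveI : IsScalarTower ℂ k F := IsScalarTower.of_algebraMap_eq' rfl
  have hιφ : ∀ c : k, algebraMap k F c = φ (C (i c)) := fun c => rfl
  set V : ι → L[X] := fun l => 1 + X * C (i (u l) - 1) with hV
  have hV0 : ∀ l, φ (V l) ≠ 0 := by
    intro l h
    have h1 : V l = 0 := hφ (by rw [h, map_zero])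
    have h2 := congrArg (eval 0) h1
    simp [hV] at h2
  set v : ι → F := fun l => φ (V l) with hv
  set y : Fin d → F := fun j => algebraMap k F (j0 (x j)) * ∏ l, v l ^ b l j with hy
  have hx0 : ∀ j, j0 (x j) ≠ 0 := fun j => by simpa using D.ne j
  have hy0 : ∀ j, y j ≠ 0 := fun j => mul_ne_zero (by simpa using D.ne j)
    (Finset.prod_ne_zero_iff.2 fun l _ => zpow_ne_zero _ (hV0 l))
  have hmon : ∀ χ, mon y χ = algebraMap k F (j0 (mon x χ)) * ∏ l, v l ^ pair χ (b l) := by
    intro χ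
    rw [hy, mon_mul_prod _ v hV0]
    congr 1
    have h1 := cs_mon_hom ((algebraMap k F).comp (j0 : K →+* k)) χ x
    exact h1
  have hmon1 : ∀ χ, j1 (mon x χ) = j0 (mon x χ) * ∏ l, u l ^ pair χ (b l) := by
    intro χ
    have h1 := cs_mon_hom (j1 : K →+* k) χ x
    have h2 := cs_mon_hom (j0 : K →+* k) χ x
    change _ = j1 (mon x χ) at h1
    change _ = j0 (mon x χ) at h2
    rw [← h1, ← h2, ← mon_mul_prod _ u hu]
    congr 1
    funext j
    exact hux j
  have hyχ0 : ∀ χ : Fin d → ℤ, (∀ l, pair χ (b l) = 0) →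
      mon y χ = algebraMap k F (j0 (mon x χ)) := by
    intro χ hχ
    rw [hmon]
    simp only [hχ, zpow_zero, Finset.prod_const_one, mul_one]
  have hyχ1 : ∀ χ : Fin d → ℤ, (∀ l, pair χ (b l) = 0) →
      mon y χ = algebraMap k F (j1 (mon x χ)) := by
    intro χ hχ
    rw [hyχ0 χ hχ, hmon1]
    simp only [hχ, zpow_zero, Finset.prod_const_one, mul_one]
  -- relations which do not move
  have hev0 : ∀ q, dg f b q = 0 → ev (f q) y = 0 := by
    intro q hq
    have h1 : ∀ χ ∈ (f q).support, mon y χ = algebraMap k F (j0 (mon x χ)) *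
        ∏ l, v l ^ mn (f q) (b l) := by
      intro χ hχ
      rw [hmon]
      congr 1
      refine Finset.prod_congr rfl fun l _ => ?_
      have h2 := sum_blk b hg.sum ⟨q, ⟨χ, hχ⟩⟩
      simp only [hq] at h2
      have h3 := (Finset.sum_eq_zero_iff.1 h2) l (Finset.mem_univ l)
      have h4 := blk_cast f (b l) ⟨q, ⟨χ, hχ⟩⟩
      rw [h3] at h4
      simp only [Nat.cast_zero] at h4
      congr 1
      linarith
    have h2 : ev (f q) y = algebraMap k F (j0 (ev (f q) x)) * ∏ l, v l ^ mn (f q) (b l) := by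
      unfold ev
      rw [map_sum, map_sum, Finset.sum_mul]
      refine Finset.sum_congr rfl fun χ hχ => ?_
      rw [h1 χ hχ, map_mul, map_mul, AlgHom.commutes, ← IsScalarTower.algebraMap_apply]
      ring
    rw [h2, D.eq, map_zero, map_zero, zero_mul]
  -- the contact curve
  let e : ι → ℕ := fun l => (Fintype.equivFin ι l : ℕ)
  have he : Function.Injective e := fun a c h =>
    (Fintype.equivFin ι).injective (Fin.ext h)
  obtain ⟨t, ht, hc, hl⟩ := exists_cont (f := f) b hg.sum y (fun l => φ (C lam) ^ e l * v l)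
    hg.card.ge
  -- the places
  have key : ∀ (c : L) (emb : K →ₐ[ℂ] k) (u' : ι → k), (∀ l, u' l ≠ 0) →
      (∀ l, eval c (V l) = i (u' l)) →
      (∀ j, emb (x j) = j0 (x j) * ∏ l, u' l ^ b l j) →
      ∃ (κ : Type) (_ : Field κ) (_ : IsAlgClosed κ) (_ : Algebra ℂ κ) (_ : Algebra k κ)
        (_ : IsScalarTower ℂ k κ) (P : Plc F κ),
        (∀ c : k, P.S (algebraMap k F c) (algebraMap k κ c)) ∧ (∀ l, t l ≠ 0) ∧
        ∃ ω : K →ₐ[ℂ] κ, (∀ j, P.S (y j * ∏ l, (-t l) ^ b l j) (ω (x j))) ∧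
          ∀ θ, IsAlgebraic (KB x b) θ → ω θ = algebraMap k κ (emb θ) := by
    intro c emb u' hu' hVu hemb
    obtain ⟨κ, _, _, g, P, hP⟩ := exists_plc φ hφ (evalRingHom c) (fun l => ⟨C l, by simp⟩)
    letI ak' : Algebra k κ := (g.comp i).toAlgebra
    letI ac' : Algebra ℂ κ := ((g.comp i).comp (algebraMap ℂ k)).toAlgebra
    haveI : IsScalarTower ℂ k κ := IsScalarTower.of_algebraMap_eq' rfl
    have hPk : ∀ c : k, P.S (algebraMap k F c) (algebraMap k κ c) := by
      intro c'
      have h1 := hP (C (i c'))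
      simp only [coe_evalRingHom, eval_C] at h1
      exact h1
    have hPC : ∀ c : ℂ, P.S (algebraMap ℂ F c) (algebraMap ℂ κ c) := by
      intro c'
      rw [IsScalarTower.algebraMap_apply ℂ k F, IsScalarTower.algebraMap_apply ℂ k κ]
      exact hPk _
    have hPv : ∀ l, P.S (v l) (algebraMap k κ (u' l)) := by
      intro l
      have h1 := hP (V l)
      rw [coe_evalRingHom, hVu l] at h1
      exact h1
    have hPl : P.S (φ (C lam)) (g lam) := by
      have h1 := hP (C lam)
      simp only [coe_evalRingHom, eval_C] at h1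
      exact h1
    have htr : Transcendental k (g lam) := by
      rintro ⟨p, hp, hp0⟩
      apply hlam p hp
      have h1 : g (p.eval₂ i lam) = aeval (g lam) p := by
        rw [hom_eval₂, aeval_def]
        rfl
      rw [hp0] at h1
      exact (map_eq_zero g).1 h1
    have hPy : ∀ j, P.S (y j) (algebraMap k κ (emb (x j))) := by
      intro j
      rw [hemb, map_mul, map_prod]
      refine P.mul (hPk _) (P.prod _ fun l _ => ?_)
      rw [map_zpow₀]
      exact P.zpow (hPv l) (by simpa using hu' l) _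
    obtain ⟨h1, h2⟩ := half D hg emb P hPC y hPy t ht hc (φ (C lam)) (g lam) hPl htr e he v u'
      hu' hPv hl
    exact ⟨κ, inferInstance, inferInstance, ac', ak', inferInstance, P, hPk, h1, h2⟩
  obtain ⟨κ, _, _, _, _, _, P, hP, ht0, ω, h1, h2⟩ := key 0 j0 (fun _ => 1)
    (fun _ => one_ne_zero) (fun l => by simp [hV]) (fun j => by simp)
  have hPC : ∀ c : ℂ, P.S (algebraMap ℂ F c) (algebraMap ℂ κ c) := by
    intro c'
    rw [IsScalarTower.algebraMap_apply ℂ k F, IsScalarTower.algebraMap_apply ℂ k κ]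
    exact hP _
  obtain ⟨ψ, hψ⟩ := same_hom D ω P hPC (fun j => y j * ∏ l, (-t l) ^ b l j)
    (fun q => cont_point hg.sum y t ht0 hc q (hev0 q)) h1
  have e0 := half_psi D hg j0 P hP y hy0 hyχ0 t ht0 ω h1 h2 ψ hψ θ hθ
  obtain ⟨κ', _, _, _, _, _, P', hP', _, ω', h1', h2'⟩ := key 1 j1 u hu
    (fun l => by simp [hV]) hux
  have e1 := half_psi D hg j1 P' hP' y hy0 hyχ1 t ht0 ω' h1' h2' ψ hψ θ hθ
  exact (algebraMap k F).injective (e0.symm.trans e1)

end Pool.Agent.Work.CW
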