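import Mathlib


/-!
THEOREM W, part IRR: an algebraic element outside a subfield is moved by an embedding over the
subfield.
-/

namespace Pool.Agent.Work.CW

open Polynomial

/-- an automorphism of a subfield extends to an algebraically closed field -/
theorem exists_extend {k0 k : Type} [Field k0] [Field k] [Algebra k0 k] [IsAlgClosed k]
    (τ : k0 ≃+* k0) : ∃ e : k ≃+* k, ∀ z : k0, e (algebraMap k0 k z) = algebraMap k0 k (τ z) := by
  obtain ⟨ι, v, hv⟩ := exists_isTranscendenceBasis' k0 k
  let := IsAlgClosed.isAlgClosure_of_transcendence_basis v hv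
  let A := Algebra.adjoin k0 (Set.range v)
  let e0 : MvPolynomial ι k0 ≃ₐ[k0] A := hv.1.aevalEquiv
  let th : A ≃+* A := (e0.symm.toRingEquiv.trans (MvPolynomial.mapEquiv ι τ)).trans e0.toRingEquiv
  refine ⟨IsAlgClosure.equivOfEquiv k k th, fun z => ?_⟩
  have h1 := IsAlgClosure.equivOfEquiv_algebraMap k k th (algebraMap k0 A z)
  have h2 : algebraMap A k (algebraMap k0 A z) = algebraMap k0 k z := rfl
  have h3 : th (algebraMap k0 A z) = algebraMap k0 A (τ z) := by
    change e0 (MvPolynomial.mapEquiv ι τ (e0.symm (algebraMap k0 A z))) = _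
    rw [AlgEquiv.commutes, MvPolynomial.algebraMap_eq]
    have h4 : MvPolynomial.mapEquiv ι τ (MvPolynomial.C z) = MvPolynomial.C (τ z) := by
      simp
    rw [h4, ← MvPolynomial.algebraMap_eq, AlgEquiv.commutes]
  rw [h3, h2] at h1
  exact h1

/-- an algebraic element outside of `F` is moved -/
theorem exists_moving_at {K : Type} [Field K] [Algebra ℂ K] (F : IntermediateField ℂ K) (θ : K)
    (hθ : IsAlgebraic F θ) (hF : θ ∉ F) :
    ∃ σ : K →+* AlgebraicClosure K, (∀ z ∈ F, σ z = algebraMap K (AlgebraicClosure K) z) ∧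
      σ θ ≠ algebraMap K (AlgebraicClosure K) θ := by
  have hc : CharZero K := charZero_of_injective_algebraMap (algebraMap ℂ K).injective
  have hcF : CharZero F := charZero_of_injective_algebraMap (algebraMap ℂ F).injective
  let k := AlgebraicClosure K
  let k0 := algebraicClosure F k
  have hint : IsIntegral F θ := hθ.isIntegral
  have hirr := minpoly.irreducible hint
  have hsep := hirr.separable
  have hdeg : (minpoly F θ).natDegree ≠ 1 := by
    intro h
    have h1 := minpoly.natDegree_eq_one_iff.1 h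
    rw [RingHom.mem_range] at h1
    obtain ⟨y, hy⟩ := h1
    exact hF (hy ▸ y.2)
  have hpos := minpoly.natDegree_pos hint
  have hcard := card_rootSet_eq_natDegree (K := k) hsep (IsAlgClosed.splits _)
  obtain ⟨y, hy⟩ : ∃ y : (minpoly F θ).rootSet k, (y : k) ≠ algebraMap K k θ := by
    by_contra h
    push Not at h
    have h1 : Fintype.card ((minpoly F θ).rootSet k) ≤ 1 :=
      Fintype.card_le_one_iff.2 fun a b => Subtype.ext ((h a).trans (h b).symm)
    omega
  have hy0 : aeval (y : k) (minpoly F θ) = 0 := aeval_eq_zero_of_mem_rootSet y.2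
  have hyalg : IsAlgebraic F (y : k) := ⟨minpoly F θ, minpoly.ne_zero hint, hy0⟩
  have hθalg : IsAlgebraic F (algebraMap K k θ) := hθ.algebraMap
  let y0 : k0 := ⟨(y : k), mem_algebraicClosure_iff.2 hyalg⟩
  let θ0 : k0 := ⟨algebraMap K k θ, mem_algebraicClosure_iff.2 hθalg⟩
  have hmin : minpoly F θ0 = minpoly F θ := by
    have h1 : minpoly F (algebraMap k0 k θ0) = minpoly F θ0 :=
      minpoly.algebraMap_eq (algebraMap k0 k).injective θ0
    have h2 : minpoly F (algebraMap K k θ) = minpoly F θ :=
      minpoly.algebraMap_eq (algebraMap K k).injective θ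
    rw [← h1, ← h2]
    rfl
  have hroot : aeval y0 (minpoly F θ0) = 0 := by
    rw [hmin]
    apply Subtype.ext
    have h1 : ((aeval y0 (minpoly F θ) : k0) : k) = aeval (y : k) (minpoly F θ) :=
      (aeval_algebraMap_apply k y0 (minpoly F θ)).symm
    rw [h1, hy0]
    rfl
  obtain ⟨τ, hτ⟩ := minpoly.exists_algEquiv_of_root' (K := F) (L := k0)
    (y := θ0) (Algebra.IsAlgebraic.isAlgebraic θ0) hroot
  obtain ⟨e, he⟩ := exists_extend (k0 := k0) (k := k) τ.toRingEquiv
  refine ⟨e.toRingHom.comp (algebraMap K k), fun z hz => ?_, ?_⟩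
  · have h1 := he (algebraMap F k0 ⟨z, hz⟩)
    have h2 : τ.toRingEquiv (algebraMap F k0 ⟨z, hz⟩) = algebraMap F k0 ⟨z, hz⟩ := τ.commutes _
    rw [h2] at h1
    exact h1
  · intro h
    apply hy
    have h1 := he θ0
    have h2 : τ.toRingEquiv θ0 = y0 := hτ
    rw [h2] at h1
    change e (algebraMap K k θ) = algebraMap K k θ at h
    change e (algebraMap K k θ) = (y : k) at h1
    rw [← h1, h]

end Pool.Agent.Work.CW
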