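import Mathlib
import Pool.Agent.Work.MP_4329d7_ag_ci.Divis
import Pool.Agent.Work.MP_4329d7_ag_w.IrrCore
import Pool.Agent.Work.MP_4329d7_ag_w.IrrMove

/-!
Module W-Irr (helper46, note 3167): `K_B` is algebraically closed in `K`.
-/

namespace Pool.Agent.Work.CW

open Polynomial Pool.Agent.Work.Uni Pool.Agent.Work.CI

variable {Q : Type} [Fintype Q] {d : ℕ} {K : Type} [Field K] [Algebra ℂ K] {n : ℕ}
  {x : Fin d → K} {f : Q → Lau d} {ι : Type} [Fintype ι]

theorem exists_big1 (L : Type) [Field L] : ∃ (F : Type) (_ : Field F) (_ : IsAlgClosed F)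
    (φ : L[X] →+* F), Function.Injective φ :=
  ⟨AlgebraicClosure (RatFunc L), inferInstance, inferInstance,
    (algebraMap (RatFunc L) (AlgebraicClosure (RatFunc L))).comp (algebraMap L[X] (RatFunc L)),
    (algebraMap (RatFunc L) (AlgebraicClosure (RatFunc L))).injective.comp
      (IsFractionRing.injective L[X] (RatFunc L))⟩

theorem exists_big (k : Type) [Field k] : ∃ (L : Type) (_ : Field L) (F : Type) (_ : Field F)
    (_ : IsAlgClosed F) (i : k →+* L) (lam : L) (φ : L[X] →+* F),
    (∀ p : k[X], p ≠ 0 → p.eval₂ i lam ≠ 0) ∧ Function.Injective φ := by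
  obtain ⟨F, _, _, φ, hφ⟩ := exists_big1 (RatFunc k)
  refine ⟨RatFunc k, inferInstance, F, inferInstance, inferInstance, RatFunc.C, RatFunc.X, φ,
    fun p hp h => hp ?_, hφ⟩
  apply IsFractionRing.injective k[X] (RatFunc k)
  rw [map_zero, ← h]
  have h2 := hom_eval₂ p (C : k →+* k[X]) (algebraMap k[X] (RatFunc k)) X
  rw [eval₂_C_X] at h2
  rw [h2, RatFunc.algebraMap_X]
  congr 1

theorem irr [Algebra.EssFiniteType ℂ K] (D : Data K n d Q x f) {b : ι → Fin d → ℤ}
    (hg : Good x f b) (θ : K) (hθ : IsAlgebraic (KB x b) θ) : θ ∈ KB x b := by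
  classical
  by_contra hne
  obtain ⟨σ, hσ, hσθ⟩ := exists_moving_at (KB x b) θ hθ hne
  let k := AlgebraicClosure K
  let j0 : K →ₐ[ℂ] k := IsScalarTower.toAlgHom ℂ K k
  have hσC : ∀ c : ℂ, σ (algebraMap ℂ K c) = algebraMap ℂ k c := by
    intro c
    rw [hσ _ (IntermediateField.algebraMap_mem _ c)]
    exact (IsScalarTower.algebraMap_apply ℂ K k c).symm
  let j1 : K →ₐ[ℂ] k := { toRingHom := σ, commutes' := hσC }
  -- the character
  have hx' : ∀ j, j0 (x j) ≠ 0 := fun j => by simpa using D.ne j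
  have hσx : ∀ j, j1 (x j) ≠ 0 := fun j => by simpa using D.ne j
  set u : Fin d → k := fun j => j1 (x j) / j0 (x j) with hu
  have hu0 : ∀ j, u j ≠ 0 := fun j => div_ne_zero (hσx j) (hx' j)
  have hmonu : ∀ χ, mon (fun j => j1 (x j)) χ = mon u χ * mon (fun j => j0 (x j)) χ := by
    intro χ
    unfold mon
    rw [← Finset.prod_mul_distrib]
    refine Finset.prod_congr rfl fun j _ => ?_
    rw [← mul_zpow, hu]
    simp only
    rw [div_mul_cancel₀ _ (hx' j)]
  have h0mon : ∀ χ, j0 (mon x χ) = mon (fun j => j0 (x j)) χ := fun χ =>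
    (cs_mon_hom (j0 : K →+* k) χ x).symm
  have h1mon : ∀ χ, j1 (mon x χ) = mon (fun j => j1 (x j)) χ := fun χ =>
    (cs_mon_hom (j1 : K →+* k) χ x).symm
  let ψ : Multiplicative (Fin d → ℤ) →* kˣ :=
    { toFun := fun χ => Units.mk0 (mon u (Multiplicative.toAdd χ)) (mon_ne_zero hu0 _)
      map_one' := by
        apply Units.ext
        exact mon_zero u
      map_mul' := fun χ χ' => by
        apply Units.ext
        exact mon_add hu0 _ _ }
  have hψv : ∀ χ : Fin d → ℤ, ((ψ (Multiplicative.ofAdd χ) : kˣ) : k) = mon u χ := fun χ => rfl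
  obtain ⟨y, hy⟩ := divisible b ψ (fun χ hχ => by
    apply Units.ext
    rw [hψv, Units.val_one]
    have h3 : j1 (mon x χ) = j0 (mon x χ) :=
      hσ _ (IntermediateField.subset_adjoin _ _ ⟨χ, hχ, rfl⟩)
    rw [h0mon, h1mon, hmonu] at h3
    have h4 := mon_ne_zero hx' χ
    exact mul_right_cancel₀ h4 (by rw [h3, one_mul]))
  have hux : ∀ j, j1 (x j) = j0 (x j) * ∏ i, (y i : k) ^ b i j := by
    intro j
    have h1 := hψv (Pi.single j 1)
    rw [hy] at h1
    have h2 : mon u (Pi.single j 1) = u j := by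
      unfold mon
      rw [Finset.prod_eq_single j]
      · simp
      · intro j' _ hj'
        rw [Pi.single_eq_of_ne hj', zpow_zero]
      · intro h
        exact absurd (Finset.mem_univ _) h
    have h3 : ∀ i, pair (Pi.single j 1) (b i) = b i j := by
      intro i
      unfold pair
      rw [Finset.sum_eq_single j]
      · simp
      · intro j' _ hj'
        rw [Pi.single_eq_of_ne hj', zero_mul]
      · intro h
        exact absurd (Finset.mem_univ _) h
    rw [h2] at h1
    simp only [h3] at h1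
    push_cast at h1
    rw [h1, hu]
    simp only
    rw [mul_div_cancel₀ _ (hx' j)]
  obtain ⟨L, _, F, _, _, i, lam, φ, hlam, hφ⟩ := exists_big k
  have h := irr_core D hg j0 j1 (fun i => (y i : k)) (fun i => Units.ne_zero _) hux
    i lam hlam φ hφ θ hθ
  exact hσθ h.symm

end Pool.Agent.Work.CW
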