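import Mathlib
import Pool.Agent.Work.MP_4329d7_ag_w.Deg
import Pool.Agent.Work.MP_4329d7_ag_w.IrrCurve

/-!
Module W-Curve: solutions and curves (`T = 1/s`, `s - t = s (1 - t T)`).
* `sol_iff`: the relation `q` at the curve is `∏ csG (t i) ^ mn (f q) (b i)` times the reflected
  relation.
* `exists_phi`: `root_hom`.
* `exists_phi_s`: the same map in the variable `s` (compose with the map `T ↦ 1/X` of `RatFunc F`).
* `const_of_not_uniruled`: `Uni.uniruled_of_hom` for `K'`.
-/

namespace Pool.Agent.Work.CW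

open Polynomial Pool.Agent.Work.Uni Pool.Agent.Work.CI Pool.Agent.Work.MP_4329d7_ag_sq

variable {Q : Type} [Fintype Q] {d : ℕ} {ι : Type} [Fintype ι] {F : Type} [Field F] [Algebra ℂ F]

/-- the relation at the curve -/
theorem ev_crv (f : Q → Lau d) (y : Fin d → F) (b : ι → Fin d → ℤ) (t : ι → F) (q : Q) :
    ev (f q) (crv y b t) = (∏ i, csG (t i) ^ mn (f q) (b i)) *
      algebraMap F[X] (RatFunc F) (∑ p, C (coef f y q p) *
        revPoly (fun i => blk f (b i)) t p) := by
  classical
  have hpair : ∀ (p : Pts f) i, pair p.2.1 (b i) = (blk f (b i) p : ℤ) + mn (f p.1) (b i) := by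
    intro p i
    rw [blk_cast]
    ring
  have hprod : ∀ p : Pts f, ∏ i, csG (t i) ^ pair p.2.1 (b i) =
      (∏ i, csG (t i) ^ mn (f p.1) (b i)) *
        algebraMap F[X] (RatFunc F) (revPoly (fun i => blk f (b i)) t p) := by
    intro p
    rw [revPoly, map_prod, ← Finset.prod_mul_distrib]
    refine Finset.prod_congr rfl fun i _ => ?_
    rw [hpair, zpow_add₀ (csG_ne_zero _), zpow_natCast, mul_comm, map_pow]
    rfl
  rw [map_sum, Finset.mul_sum, Fintype.sum_sigma, Finset.sum_eq_single q]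
  · unfold ev
    rw [← Finset.sum_coe_sort]
    refine Finset.sum_congr rfl fun χ _ => ?_
    have h2 := hprod ⟨q, χ⟩
    simp only at h2
    unfold crv
    rw [cs_mon y (fun i => csG (t i)) (fun i => csG_ne_zero _) b χ, h2, map_mul,
      RatFunc.algebraMap_C, algebraMap_ratFunc]
    simp only [coef, if_true, map_mul]
    ring
  · intro q' _ hq'
    refine Finset.sum_eq_zero fun χ _ => ?_
    unfold coef
    rw [if_neg hq']
    simp
  · intro hq
    exact absurd (Finset.mem_univ _) hq

/-- the reflected relation -/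
theorem reflect_rel (f : Q → Lau d) (y : Fin d → F) {b : ι → Fin d → ℤ} (hb : ∑ i, b i = 0)
    (t : ι → F) (q : Q) :
    reflect (dg f b q) (∑ p, C (coef f y q p) * rootPoly (fun i => blk f (b i)) t p) =
      ∑ p, C (coef f y q p) * revPoly (fun i => blk f (b i)) t p := by
  rw [reflect_sum']
  refine Finset.sum_congr rfl fun p _ => ?_
  by_cases hp : p.1 = q
  · have h1 := sum_blk (f := f) b hb p
    rw [hp] at h1
    rw [reflect_C_mul, ← h1, reflect_rootPoly]
  · have : coef f y q p = 0 := by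
      unfold coef
      exact if_neg hp
    rw [this]
    simp

set_option linter.unusedVariables false in
theorem sol_iff {f : Q → Lau d} (hf : ∀ q, f q ≠ 0) {y : Fin d → F} (hy : ∀ j, y j ≠ 0)
    {b : ι → Fin d → ℤ} (hb : ∑ i, b i = 0) (t : ι → F) :
    Sol f y b t ↔ ∀ q, ev (f q) (crv y b t) = 0 := by
  unfold Sol IsSol
  refine forall_congr' fun q => ?_
  rw [ev_crv, ← reflect_rel f y hb t q]
  have h0 : (∏ i, csG (t i) ^ mn (f q) (b i)) ≠ 0 :=
    Finset.prod_ne_zero_iff.2 fun i _ => zpow_ne_zero _ (csG_ne_zero _)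
  rw [mul_eq_zero_iff_left h0, map_eq_zero_iff _ (IsFractionRing.injective F[X] (RatFunc F)),
    reflect_eq_zero_iff]

omit [Fintype Q] in
/-- the coefficients over an extension -/
theorem coef_hom {F' : Type} [Field F'] [Algebra ℂ F'] (h : F →ₐ[ℂ] F') (f : Q → Lau d)
    (y : Fin d → F) (q : Q) (p : Pts f) : coef f (fun j => h (y j)) q p = h (coef f y q p) := by
  unfold coef
  split_ifs
  · rw [map_mul, AlgHom.commutes]
    congr 1
    exact cs_mon_hom (h : F →+* F') _ y
  · rw [map_zero]

set_option linter.unusedVariables false in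
/-- translations and homotheties (over an extension field) -/
theorem sol_affine {F' : Type} [Field F'] [Algebra ℂ F'] (h : F →ₐ[ℂ] F') {f : Q → Lau d}
    (hf : ∀ q, f q ≠ 0) {y : Fin d → F} {b : ι → Fin d → ℤ} (hb : ∑ i, b i = 0) {t : ι → F}
    {α β : F'} (hβ : β ≠ 0) :
    Sol f (fun j => h (y j)) b (fun i => α + β * h (t i)) ↔ Sol f y b t := by
  unfold Sol IsSol
  refine forall_congr' fun q => ?_
  have key : (∑ p, C (coef f (fun j => h (y j)) q p) *
      rootPoly (fun i => blk f (b i)) (fun i => α + β * h (t i)) p).comp (C β * X + C α) =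
      C (β ^ dg f b q) * (∑ p, C (coef f y q p) *
        rootPoly (fun i => blk f (b i)) t p).map (h : F →+* F') := by
    rw [Polynomial.sum_comp, Polynomial.map_sum, Finset.mul_sum]
    refine Finset.sum_congr rfl fun p _ => ?_
    by_cases hp : p.1 = q
    · rw [coef_hom, mul_comp, C_comp, Polynomial.map_mul, map_C]
      have h1 := sum_blk (f := f) b hb p
      rw [hp] at h1
      rw [← h1, rootPoly, rootPoly, Polynomial.prod_comp, Polynomial.map_prod,
        ← Finset.prod_pow_eq_pow_sum, map_prod]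
      have h2 : ∀ i, ((X - C (α + β * h (t i))) ^ blk f (b i) p).comp (C β * X + C α) =
          C (β ^ blk f (b i) p) * ((X - C (t i)) ^ blk f (b i) p).map (h : F →+* F') := by
        intro i
        rw [pow_comp, sub_comp, X_comp, C_comp, Polynomial.map_pow, Polynomial.map_sub, map_X,
          map_C, C_pow, ← mul_pow]
        congr 1
        rw [C_add, C_mul]
        simp only [RingHom.coe_coe]
        ring
      rw [Finset.prod_congr rfl fun i _ => h2 i, Finset.prod_mul_distrib]
      simp only [RingHom.coe_coe]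
      ring
    · have h1 : coef f y q p = 0 := by
        unfold coef
        exact if_neg hp
      rw [coef_hom, h1, map_zero, C_0, C_0, zero_mul, zero_mul, zero_comp, Polynomial.map_zero,
        mul_zero]
  constructor
  · intro h1
    rw [h1, zero_comp] at key
    have h2 := (mul_eq_zero.1 key.symm).resolve_left (by
      exact fun h => pow_ne_zero _ hβ (C_eq_zero.1 h))
    exact (Polynomial.map_eq_zero (h : F →+* F')).1 h2
  · intro h1
    rw [h1, Polynomial.map_zero, mul_zero, comp_eq_zero_iff] at key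
    rcases key with h2 | ⟨_, h2⟩
    · exact h2
    · exfalso
      have h3 := congrArg (fun P => Polynomial.coeff P 1) h2
      simp [coeff_C] at h3
      exact hβ h3

variable {K : Type} [Field K] [Algebra ℂ K] {n : ℕ} {x : Fin d → K} {f : Q → Lau d}

theorem exists_phi (D : Data K n d Q x f) (emb : K →ₐ[ℂ] F) {b : ι → Fin d → ℤ}
    (hb : ∑ i, b i = 0) {t : ι → F} (hs : Sol f (fun j => emb (x j)) b t) :
    ∃ φ : K →ₐ[ℂ] RatFunc F, (∀ j, φ (x j) = crv (fun j => emb (x j)) b t j) ∧
      ∀ y, Pl (φ y) (emb y) := by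
  obtain ⟨φ, h1, _, h3⟩ := root_hom D emb b hb t hs
  exact ⟨φ, h1, h3⟩

/-- the map `T ↦ 1/X` -/
theorem exists_inv_map (F : Type) [Field F] : ∃ σ : RatFunc F →+* RatFunc F,
    (∀ c, σ (RatFunc.C c) = RatFunc.C c) ∧ σ RatFunc.X = RatFunc.X⁻¹ := by
  have hy : ∀ p : F[X], p ≠ 0 → p.eval₂ (RatFunc.C : F →+* RatFunc F) RatFunc.X⁻¹ ≠ 0 := by
    intro p hp h0
    have htr : Transcendental F (RatFunc.X⁻¹ : RatFunc F) := by
      intro h
      exact RatFunc.transcendental_X (by simpa using h.inv)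
    apply htr
    refine ⟨p, hp, ?_⟩
    rw [aeval_def]
    exact h0
  exact ⟨rlift RatFunc.C RatFunc.X⁻¹ hy, rlift_C _ _ _, rlift_X _ _ _⟩

theorem exists_phi_s (D : Data K n d Q x f) (emb : K →ₐ[ℂ] F) {b : ι → Fin d → ℤ}
    (hb : ∑ i, b i = 0) {t : ι → F} (hs : Sol f (fun j => emb (x j)) b t) :
    ∃ φ : K →ₐ[ℂ] RatFunc F, ∀ j, φ (x j) =
      RatFunc.C (emb (x j)) * ∏ i, (algebraMap F[X] (RatFunc F) (X - C (t i))) ^ b i j := by
  obtain ⟨φ, hφ, _⟩ := exists_phi D emb hb hs
  obtain ⟨σ, hσC, hσX⟩ := exists_inv_map F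
  let σ' : RatFunc F →ₐ[ℂ] RatFunc F :=
    { σ with
      commutes' := fun c => by
        rw [algebraMap_ratFunc]
        exact hσC _ }
  refine ⟨σ'.comp φ, fun j => ?_⟩
  change σ (φ (x j)) = _
  rw [hφ]
  unfold crv
  rw [map_mul, hσC, map_prod]
  congr 1
  have h1 : ∀ i, σ (csG (t i)) = algebraMap F[X] (RatFunc F) (X - C (t i)) * RatFunc.X⁻¹ := by
    intro i
    unfold csG
    rw [map_sub, map_sub, map_one, map_mul, RatFunc.algebraMap_C, RatFunc.algebraMap_X, map_sub,
      map_one, map_mul, hσC, hσX, RatFunc.algebraMap_X, RatFunc.algebraMap_C, sub_mul,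
      mul_inv_cancel₀ RatFunc.X_ne_zero]
  have h2 : ∏ i, (RatFunc.X⁻¹ : RatFunc F) ^ b i j = 1 := by
    have h3 : ∀ s : Finset ι, ∏ i ∈ s, (RatFunc.X⁻¹ : RatFunc F) ^ b i j =
        (RatFunc.X⁻¹ : RatFunc F) ^ ∑ i ∈ s, b i j := by
      classical
      intro s
      induction s using Finset.induction_on with
      | empty => simp
      | insert i s hi ih =>
        rw [Finset.prod_insert hi, Finset.sum_insert hi, ih,
          zpow_add₀ (inv_ne_zero RatFunc.X_ne_zero)]
    rw [h3]
    have h4 := congrFun hb j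
    rw [Finset.sum_apply] at h4
    rw [h4]
    simp
  calc ∏ i, σ (csG (t i) ^ b i j) =
      ∏ i, (algebraMap F[X] (RatFunc F) (X - C (t i)) ^ b i j * (RatFunc.X⁻¹) ^ b i j) := by
        refine Finset.prod_congr rfl fun i _ => ?_
        rw [map_zpow₀, h1, mul_zpow]
    _ = _ := by rw [Finset.prod_mul_distrib, h2, mul_one]

/-- a subfield which is not uniruled is constant along all curves -/
theorem const_of_not_uniruled (emb : K →ₐ[ℂ] F) (K' : IntermediateField ℂ K)
    (hfg : Algebra.EssFiniteType ℂ K') (hK' : ¬ Uniruled K') (φ : K →ₐ[ℂ] RatFunc F)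
    (hφ : ∀ y, Pl (φ y) (emb y)) (y : K) (hy : y ∈ K') : φ y = RatFunc.C (emb y) := by
  by_contra hne
  apply hK'
  refine uniruled_of_hom (φ.comp K'.val) ⟨y, hy⟩ fun e he => hne ?_
  have he' : φ y = RatFunc.C e := he
  have h1 := hφ y
  rw [he'] at h1
  rw [he', cs_pl_unique (pl_C e) h1]

end Pool.Agent.Work.CW
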