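import Mathlib
import Pool.Agent.Work.MP_4329d7_ag.Ext

/-!
Module W-Der, part 2: a transcendental element is not killed by all derivations over `K₀`.
-/

namespace Pool.Agent.Work.CW

open Polynomial

theorem derover {K : Type} [Field K] [Algebra ℂ K] (K₀ : IntermediateField ℂ K) (y : K)
    (hy : ¬ IsAlgebraic K₀ y) :
    ∃ δ : Derivation ℂ K K, (∀ z ∈ K₀, δ z = 0) ∧ δ y ≠ 0 := by
  classical
  obtain ⟨s₀, hs₀⟩ := exists_isTranscendenceBasis ℂ K₀
  set x : s₀ → K := fun b => ((b : K₀) : K) with hx
  have hxi : AlgebraicIndependent ℂ x := hs₀.1.map' (f := K₀.val) (RingHom.injective _)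
  have hle : ∀ z ∈ Algebra.adjoin ℂ (Set.range x), z ∈ K₀ := by
    intro z hz
    induction hz using Algebra.adjoin_induction with
    | mem z hz => obtain ⟨b, rfl⟩ := hz; exact b.1.2
    | algebraMap c => exact K₀.algebraMap_mem c
    | add a b _ _ ha hb => exact K₀.add_mem ha hb
    | mul a b _ _ ha hb => exact K₀.mul_mem ha hb
  have htr : Transcendental (Algebra.adjoin ℂ (Set.range x)) y := by
    intro halg
    apply hy
    obtain ⟨p, hp, hp0⟩ := halg
    let i : Algebra.adjoin ℂ (Set.range x) →+* K₀ :=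
      { toFun := fun z => ⟨z, hle z z.2⟩
        map_one' := rfl
        map_zero' := rfl
        map_add' := fun _ _ => rfl
        map_mul' := fun _ _ => rfl }
    have hi : Function.Injective i := fun a b h => by
      have := congrArg Subtype.val h
      exact Subtype.ext this
    refine ⟨p.map i, ?_, ?_⟩
    · exact (Polynomial.map_ne_zero_iff hi).2 hp
    · rw [aeval_def, eval₂_map]
      rw [aeval_def] at hp0
      exact hp0
  have hopt := (hxi.option_iff_transcendental y).2 htr
  obtain ⟨s, hs, hsb⟩ := exists_isTranscendenceBasis_superset (R := ℂ)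
    ((AlgebraicIndependent.coe_range hopt : AlgebraicIndepOn ℂ id _))
  have hinj := hopt.injective
  obtain ⟨δ, hδ⟩ := Pool.Agent.Work.MP_4329d7_ag.R.exists_derivation (M := K) hsb
    (fun u : s => if (u : K) = y then 1 else 0)
  have hmem : ∀ o : Option s₀, o.elim y x ∈ s := fun o => hs ⟨o, rfl⟩
  have hδy : δ y = 1 := by
    have := hδ ⟨y, hmem none⟩
    simpa using this
  have hδx : ∀ b : s₀, δ (x b) = 0 := by
    intro b
    have h1 := hδ ⟨x b, hmem (some b)⟩
    have hne : x b ≠ y := by
      intro h
      have : (some b : Option s₀) = none := hinj h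
      exact absurd this (by simp)
    simpa [hne] using h1
  refine ⟨δ, ?_, by rw [hδy]; exact one_ne_zero⟩
  let D₁ : Derivation ℂ K₀ K := δ.compAlgebraMap K₀
  have hD : D₁ = 0 := Pool.Agent.Work.MP_4329d7_ag.R.derivation_ext hs₀ (fun b => by
    change δ (x b) = 0
    exact hδx b)
  intro z hz
  have h1 : D₁ ⟨z, hz⟩ = 0 := by rw [hD]; rfl
  exact h1

end Pool.Agent.Work.CW
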