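import Mathlib
import Pool.Agent.Work.MP_4329d7_ag_ci.Defs

/-!
Module W-Der, `mem_span_of_orth` (helper84): the double orthogonal complement of a rational
subspace, with coefficients in a field of characteristic zero.
-/

namespace Pool.Agent.Work.CW

open Pool.Agent.Work.CI

namespace Orth

variable {d : ℕ} {ι : Type} [Fintype ι]

/-- clearing denominators -/
theorem exists_int (g : Fin d → ℚ) : ∃ (N : ℚ) (χ : Fin d → ℤ), N ≠ 0 ∧
    ∀ j, (χ j : ℚ) = N * g j := by
  classical
  refine ⟨∏ j, ((g j).den : ℚ), fun j => (g j).num * ∏ k ∈ Finset.univ.erase j, ((g k).den : ℤ),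
    ?_, fun j => ?_⟩
  · exact Finset.prod_ne_zero_iff.2 fun j _ => Nat.cast_ne_zero.2 (g j).den_nz
  · rw [← Finset.mul_prod_erase Finset.univ (fun j => ((g j).den : ℚ)) (Finset.mem_univ j)]
    push_cast
    have h1 : ((g j).num : ℚ) = (g j).den * g j := by
      rw [mul_comm]
      exact (Rat.mul_den_eq_num (g j)).symm
    rw [h1]
    ring

/-- the rational case -/
theorem mem_span_rat (b : ι → Fin d → ℤ) (r : Fin d → ℚ)
    (h : ∀ χ : Fin d → ℤ, (∀ i, pair χ (b i) = 0) → ∑ j, (χ j : ℚ) * r j = 0) :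
    ∃ c : ι → ℚ, ∀ j, r j = ∑ i, c i * (b i j : ℚ) := by
  classical
  let W : Submodule ℚ (Fin d → ℚ) := Submodule.span ℚ (Set.range fun i j => (b i j : ℚ))
  have hr : r ∈ W := by
    by_contra hcon
    obtain ⟨g, hg, hgW⟩ := Submodule.exists_le_ker_of_notMem hcon
    have hval : ∀ v : Fin d → ℚ, g v = ∑ j, g (Pi.single j 1) * v j := by
      intro v
      conv_lhs => rw [pi_eq_sum_univ' v]
      rw [map_sum]
      refine Finset.sum_congr rfl fun j _ => ?_
      rw [map_smul, smul_eq_mul, mul_comm]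
    obtain ⟨N, χ, hN, hχ⟩ := exists_int fun j => g (Pi.single j 1)
    have h1 : ∀ i, pair χ (b i) = 0 := by
      intro i
      have h2 : g (fun j => (b i j : ℚ)) = 0 := by
        have h3 : (fun j => (b i j : ℚ)) ∈ W := Submodule.subset_span ⟨i, rfl⟩
        exact hgW h3
      rw [hval] at h2
      have h3 : ((pair χ (b i) : ℤ) : ℚ) = N * ∑ j, g (Pi.single j 1) * (b i j : ℚ) := by
        unfold pair
        push_cast
        rw [Finset.mul_sum]
        refine Finset.sum_congr rfl fun j _ => ?_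
        rw [hχ]
        ring
      rw [h2, mul_zero] at h3
      exact_mod_cast h3
    have h4 := h χ h1
    have h5 : ∑ j, (χ j : ℚ) * r j = N * g r := by
      rw [hval, Finset.mul_sum]
      refine Finset.sum_congr rfl fun j _ => ?_
      rw [hχ]
      ring
    rw [h5] at h4
    exact hg ((mul_eq_zero.1 h4).resolve_left hN)
  obtain ⟨c, hc⟩ := (Submodule.mem_span_range_iff_exists_fun ℚ).1 hr
  refine ⟨c, fun j => ?_⟩
  rw [← hc, Finset.sum_apply]
  rfl

end Orth

theorem mem_span_of_orth' {d : ℕ} {ι : Type} [Fintype ι] {F : Type} [Field F] [CharZero F]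
    (b : ι → Fin d → ℤ) (η : Fin d → F)
    (h : ∀ χ : Fin d → ℤ, (∀ i, pair χ (b i) = 0) → ∑ j, (χ j : F) * η j = 0) :
    ∃ c : ι → F, ∀ j, η j = ∑ i, c i * (b i j : F) := by
  classical
  let B := Module.Basis.ofVectorSpace ℚ F
  have key : ∀ k, ∃ c : ι → ℚ, ∀ j, B.repr (η j) k = ∑ i, c i * (b i j : ℚ) := by
    intro k
    refine Orth.mem_span_rat b (fun j => B.repr (η j) k) fun χ hχ => ?_
    have h1 := congrArg (fun z => B.repr z k) (h χ hχ)
    simp only [map_sum, map_zero, Finsupp.coe_zero, Pi.zero_apply] at h1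
    rw [← h1, Finsupp.finsetSum_apply]
    refine Finset.sum_congr rfl fun j _ => ?_
    have h2 : (χ j : F) * η j = (χ j : ℚ) • η j := by
      rw [Rat.smul_def]
      push_cast
      rfl
    rw [h2, map_smul, Finsupp.smul_apply, smul_eq_mul]
  choose c hc using key
  let S : Finset (Module.Basis.ofVectorSpaceIndex ℚ F) :=
    Finset.univ.biUnion fun j => (B.repr (η j)).support
  refine ⟨fun i => ∑ k ∈ S, (c k i : F) * B k, fun j => ?_⟩
  have h1 : η j = ∑ k ∈ S, ((B.repr (η j) k : ℚ) : F) * B k := by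
    conv_lhs => rw [← B.linearCombination_repr (η j), Finsupp.linearCombination_apply]
    rw [Finsupp.sum_of_support_subset (s := S) _ ?_ _ ?_]
    · refine Finset.sum_congr rfl fun k _ => ?_
      rw [Rat.smul_def]
    · intro k hk
      exact Finset.mem_biUnion.2 ⟨j, Finset.mem_univ _, hk⟩
    · intro k _
      rw [zero_smul]
  rw [h1]
  calc ∑ k ∈ S, ((B.repr (η j) k : ℚ) : F) * B k
      = ∑ k ∈ S, ∑ i, (c k i : F) * B k * (b i j : F) := by
        refine Finset.sum_congr rfl fun k _ => ?_
        rw [hc k j]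
        push_cast
        rw [Finset.sum_mul]
        refine Finset.sum_congr rfl fun i _ => ?_
        ring
    _ = ∑ i, (∑ k ∈ S, (c k i : F) * B k) * (b i j : F) := by
        rw [Finset.sum_comm]
        refine Finset.sum_congr rfl fun i _ => ?_
        rw [Finset.sum_mul]

end Pool.Agent.Work.CW
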