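import Mathlib
import Pool.Agent.Work.MP_4329d7_ag_w.CurveW
import Pool.Agent.Work.MP_4329d7_ag_w.DerOver
import Pool.Agent.Work.MP_4329d7_ag_w.Orth

/-!
Module W-Der: derivations.
* `der_phi`: the coefficient of `T` of `φ y`.
* `exists_der_over`: a transcendental element is not killed by all derivations over `K₀`.
* `mem_span_of_orth`: linear algebra over `ℚ` (double orthogonal complement of a rational subspace).
-/

namespace Pool.Agent.Work.CW

open Polynomial Pool.Agent.Work.Uni Pool.Agent.Work.CI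

variable {Q : Type} [Fintype Q] {d : ℕ} {ι : Type} [Fintype ι] {F : Type} [Field F] [Algebra ℂ F]
  {K : Type} [Field K] [Algebra ℂ K] {n : ℕ} {x : Fin d → K} {f : Q → Lau d}

/-- `Y` is the power series of the rational function `z` -/
def DwS {F : Type} [Field F] (z : RatFunc F) (Y : PowerSeries F) : Prop :=
  HahnSeries.ofPowerSeries ℤ F Y = curvePsi F z

theorem DwS.mul {F : Type} [Field F] {z z' : RatFunc F} {Y Y' : PowerSeries F} (h : DwS z Y)
    (h' : DwS z' Y') : DwS (z * z') (Y * Y') := by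
  unfold DwS at *
  rw [map_mul, map_mul, h, h']

theorem DwS.add {F : Type} [Field F] {z z' : RatFunc F} {Y Y' : PowerSeries F} (h : DwS z Y)
    (h' : DwS z' Y') : DwS (z + z') (Y + Y') := by
  unfold DwS at *
  rw [map_add, map_add, h, h']

theorem DwS.uniq {F : Type} [Field F] {z : RatFunc F} {Y Y' : PowerSeries F} (h : DwS z Y)
    (h' : DwS z Y') : Y = Y' :=
  HahnSeries.ofPowerSeries_injective (h.trans h'.symm)

theorem dwS_poly {F : Type} [Field F] (p : F[X]) :
    DwS (algebraMap F[X] (RatFunc F) p) (p : PowerSeries F) := (curvePsi_coe p).symm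

theorem dwS_C {F : Type} [Field F] (c : F) : DwS (RatFunc.C c) (PowerSeries.C c) := by
  have h := dwS_poly (C c)
  rwa [RatFunc.algebraMap_C, Polynomial.coe_C] at h

/-- the rational function `z` has the value `v` and the logarithmic derivative `w` at `0` -/
def DwL {F : Type} [Field F] (z : RatFunc F) (v w : F) : Prop :=
  ∃ Y : PowerSeries F, DwS z Y ∧ PowerSeries.constantCoeff Y = v ∧ v ≠ 0 ∧
    PowerSeries.coeff 1 Y = v * w

theorem dw_coeff_one {F : Type} [Field F] (Y Z : PowerSeries F) : PowerSeries.coeff 1 (Y * Z) =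
    PowerSeries.constantCoeff Y * PowerSeries.coeff 1 Z +
      PowerSeries.constantCoeff Z * PowerSeries.coeff 1 Y := by
  rw [PowerSeries.coeff_mul, Finset.Nat.antidiagonal_succ]
  simp
  ring

theorem DwL.mul {F : Type} [Field F] {z z' : RatFunc F} {v v' w w' : F} (h : DwL z v w)
    (h' : DwL z' v' w') : DwL (z * z') (v * v') (w + w') := by
  obtain ⟨Y, h1, h2, h3, h4⟩ := h
  obtain ⟨Y', h1', h2', h3', h4'⟩ := h'
  refine ⟨Y * Y', h1.mul h1', by rw [map_mul, h2, h2'], mul_ne_zero h3 h3', ?_⟩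
  rw [dw_coeff_one, h2, h2', h4, h4']
  ring

theorem dwL_one {F : Type} [Field F] : DwL (1 : RatFunc F) 1 0 := by
  refine ⟨1, ?_, by simp, one_ne_zero, by simp [PowerSeries.coeff_one]⟩
  have := dwS_C (1 : F)
  rwa [map_one, map_one] at this

theorem DwL.inv {F : Type} [Field F] {z : RatFunc F} {v w : F} (h : DwL z v w) :
    DwL z⁻¹ v⁻¹ (-w) := by
  obtain ⟨Y, h1, h2, h3, h4⟩ := h
  have h0 : PowerSeries.constantCoeff Y ≠ 0 := by rwa [h2]
  have hYY : Y * Y⁻¹ = 1 := PowerSeries.mul_inv_cancel Y h0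
  have hc : PowerSeries.constantCoeff (Y⁻¹) = v⁻¹ := by
    rw [PowerSeries.constantCoeff_inv, h2]
  refine ⟨Y⁻¹, ?_, hc, inv_ne_zero h3, ?_⟩
  · have e1 : HahnSeries.ofPowerSeries ℤ F Y * HahnSeries.ofPowerSeries ℤ F Y⁻¹ = 1 := by
      rw [← map_mul, hYY, map_one]
    have e2 : curvePsi F z ≠ 0 := by
      intro h
      rw [DwS, h] at h1
      rw [h1, zero_mul] at e1
      exact zero_ne_one e1
    unfold DwS
    rw [h1] at e1
    rw [map_inv₀]
    exact eq_inv_of_mul_eq_one_right e1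
  · have e1 := dw_coeff_one Y Y⁻¹
    rw [hYY, hc, h2, h4, PowerSeries.coeff_one, if_neg one_ne_zero] at e1
    have e3 : v * PowerSeries.coeff 1 Y⁻¹ = v * (v⁻¹ * -w) := by
      rw [mul_neg, mul_neg, ← mul_assoc, mul_inv_cancel₀ h3, one_mul]
      have e4 : v⁻¹ * (v * w) = w := by rw [← mul_assoc, inv_mul_cancel₀ h3, one_mul]
      rw [e4] at e1
      linear_combination -e1
    exact mul_left_cancel₀ h3 e3

theorem DwL.pow {F : Type} [Field F] {z : RatFunc F} {v w : F} (h : DwL z v w) (n : ℕ) :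
    DwL (z ^ n) (v ^ n) (n * w) := by
  induction n with
  | zero => simpa using dwL_one
  | succ n ih =>
    rw [pow_succ, pow_succ]
    have := ih.mul h
    have e : ((n : F) * w + w) = ((n + 1 : ℕ) : F) * w := by push_cast; ring
    rwa [e] at this

theorem DwL.zpow {F : Type} [Field F] {z : RatFunc F} {v w : F} (h : DwL z v w) (n : ℤ) :
    DwL (z ^ n) (v ^ n) (n * w) := by
  rcases n with n | n
  · rw [Int.ofNat_eq_natCast, zpow_natCast, zpow_natCast, Int.cast_natCast]
    exact h.pow n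
  · rw [zpow_negSucc, zpow_negSucc, Int.cast_negSucc, neg_mul]
    exact (h.pow _).inv

theorem DwL.prod {F : Type} [Field F] {ι : Type} (s : Finset ι) {z : ι → RatFunc F} {v w : ι → F}
    (h : ∀ i ∈ s, DwL (z i) (v i) (w i)) :
    DwL (∏ i ∈ s, z i) (∏ i ∈ s, v i) (∑ i ∈ s, w i) := by
  classical
  induction s using Finset.induction_on with
  | empty => simpa using dwL_one
  | insert i s hi ih =>
    rw [Finset.prod_insert hi, Finset.prod_insert hi, Finset.sum_insert hi]
    exact (h i (Finset.mem_insert_self i s)).mul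
      (ih fun j hj => h j (Finset.mem_insert_of_mem hj))

theorem dwL_G {F : Type} [Field F] (t : F) : DwL (csG t) 1 (-t) := by
  refine ⟨((1 - C t * X : F[X]) : PowerSeries F), dwS_poly _, ?_, one_ne_zero, ?_⟩
  · rw [Polynomial.constantCoeff_coe]
    simp
  · rw [Polynomial.coeff_coe]
    simp [coeff_one]

theorem dwL_crv {F : Type} [Field F] (y : Fin d → F) (hy : ∀ j, y j ≠ 0) (b : ι → Fin d → ℤ)
    (t : ι → F) (j : Fin d) : DwL (crv y b t j) (y j) (-(wt b t j)) := by
  have h1 : DwL (RatFunc.C (y j)) (y j) 0 :=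
    ⟨PowerSeries.C (y j), dwS_C _, by simp, hy j, by simp⟩
  have h2 := h1.mul (DwL.prod Finset.univ fun i _ => (dwL_G (t i)).zpow (b i j))
  have e1 : (y j * ∏ i, (1 : F) ^ b i j) = y j := by simp
  have e2 : (0 + ∑ i, ((b i j : ℤ) : F) * -t i) = -(wt b t j) := by
    rw [zero_add, wt, ← Finset.sum_neg_distrib]
    exact Finset.sum_congr rfl fun i _ => by ring
  rw [e1, e2] at h2
  exact h2

theorem der_phi [Algebra K F] [IsScalarTower ℂ K F] (y : Fin d → K) (hy : ∀ j, y j ≠ 0)
    (b : ι → Fin d → ℤ) (t : ι → F) (φ : K →ₐ[ℂ] RatFunc F)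
    (h : ∀ j, φ (y j) = crv (fun j => algebraMap K F (y j)) b t j)
    (hPl : ∀ y, Pl (φ y) (algebraMap K F y)) :
    ∃ δ : Derivation ℂ K F, (∀ j, δ (y j) = -(wt b t j * algebraMap K F (y j))) ∧
      ∀ (z : K) (c : F), φ z = RatFunc.C c → δ z = 0 := by
  choose Y hY0 hY using fun z : K => curve_series (hPl z)
  have hYS : ∀ z, DwS (φ z) (Y z) := hY
  have hadd : ∀ z w, Y (z + w) = Y z + Y w := fun z w => by
    have h1 := (hYS z).add (hYS w)
    rw [← map_add] at h1
    exact (hYS _).uniq h1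
  have hmul : ∀ z w, Y (z * w) = Y z * Y w := fun z w => by
    have h1 := (hYS z).mul (hYS w)
    rw [← map_mul] at h1
    exact (hYS _).uniq h1
  have hC : ∀ (z : K) (c : F), φ z = RatFunc.C c → Y z = PowerSeries.C c := fun z c hz => by
    have h1 := hYS z
    rw [hz] at h1
    exact h1.uniq (dwS_C c)
  have hCC : ∀ a : ℂ, Y (algebraMap ℂ K a) = PowerSeries.C (algebraMap ℂ F a) := fun a => by
    apply hC
    rw [AlgHom.commutes]
    rfl
  let δ₀ : K →ₗ[ℂ] F :=
    { toFun := fun z => PowerSeries.coeff 1 (Y z)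
      map_add' := fun z w => by rw [hadd, map_add]
      map_smul' := fun a z => by
        rw [Algebra.smul_def, hmul, hCC, dw_coeff_one]
        simp [Algebra.smul_def] }
  refine ⟨Derivation.mk' δ₀ fun z w => ?_, fun j => ?_, fun z c hz => ?_⟩
  · change PowerSeries.coeff 1 (Y (z * w)) =
      z • PowerSeries.coeff 1 (Y w) + w • PowerSeries.coeff 1 (Y z)
    rw [hmul, dw_coeff_one, hY0, hY0, Algebra.smul_def, Algebra.smul_def]
  · change PowerSeries.coeff 1 (Y (y j)) = _
    obtain ⟨Z, h1, -, -, h4⟩ := dwL_crv (fun j => algebraMap K F (y j))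
      (fun j => by
        rw [Ne, map_eq_zero]
        exact hy j) b t j
    rw [← h j] at h1
    rw [(hYS (y j)).uniq h1, h4]
    ring
  · change PowerSeries.coeff 1 (Y z) = 0
    rw [hC z c hz, PowerSeries.coeff_C, if_neg one_ne_zero]

theorem exists_der_over [Algebra.EssFiniteType ℂ K] (K₀ : IntermediateField ℂ K) (y : K)
    (hy : ¬ IsAlgebraic K₀ y) :
    ∃ δ : Derivation ℂ K K, (∀ z ∈ K₀, δ z = 0) ∧ δ y ≠ 0 :=
  derover K₀ y hy

theorem mem_span_of_orth [CharZero F] (b : ι → Fin d → ℤ) (η : Fin d → F)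
    (h : ∀ χ : Fin d → ℤ, (∀ i, pair χ (b i) = 0) → ∑ j, (χ j : F) * η j = 0) :
    ∃ c : ι → F, ∀ j, η j = ∑ i, c i * (b i j : F) :=
  mem_span_of_orth' b η h

end Pool.Agent.Work.CW
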