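import Mathlib
import Pool.Agent.Work.MP_4329d7_ag_w.CurveW

/-!
Module W-Red: reduction of a solution.  Merge equal roots, drop the roots with zero block:
`ι' = {s ∈ image t | ∑_{t i = s} b i ≠ 0}`, `t' = Subtype.val`, `b' s = ∑_{t i = s} b i`.
The curve does not change (`sol_iff`); `dg f b' q ≤ dg f b q` by `mn_sum_le`,
`∑ |b'| ≤ ∑ |b|` by the triangle inequality.  If no two roots are equal ... `card ι' = card ι` forces
`t` injective.
-/

namespace Pool.Agent.Work.CW

open Polynomial Pool.Agent.Work.Uni Pool.Agent.Work.CI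

variable {Q : Type} [Fintype Q] {d : ℕ} {ι : Type} [Fintype ι] {F : Type} [Field F] [Algebra ℂ F]

open Classical in
/-- the curve of the roots `t` is not constant -/
def Moves (b : ι → Fin d → ℤ) (t : ι → F) : Prop :=
  ∃ s : F, ∑ i ∈ Finset.univ.filter (fun i => t i = s), b i ≠ 0

omit [Field F] [Algebra ℂ F] in
theorem moves_of_injective {b : ι → Fin d → ℤ} {t : ι → F} (ht : Function.Injective t)
    (hb : ∃ i, b i ≠ 0) : Moves b t := by
  classical
  obtain ⟨i, hi⟩ := hb
  refine ⟨t i, ?_⟩
  have h1 : Finset.univ.filter (fun j => t j = t i) = {i} := by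
    ext j
    rw [Finset.mem_filter, Finset.mem_singleton]
    exact ⟨fun h => ht h.2, fun h => ⟨Finset.mem_univ _, by rw [h]⟩⟩
  rw [h1, Finset.sum_singleton]
  exact hi

omit [Algebra ℂ F] in
/-- products over the fibres -/
theorem red_prod {κ : Type} [Fintype κ] [DecidableEq F] (b : κ → Fin d → ℤ) (t : κ → F)
    (S : Finset F) (hS : ∀ i, t i ∈ S) (j : Fin d) :
    ∏ i, csG (t i) ^ b i j = ∏ s ∈ S, csG s ^ (∑ i with t i = s, b i) j := by
  rw [← Finset.prod_fiberwise_of_maps_to (s := Finset.univ) (t := S) (g := t)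
    (fun i _ => hS i)]
  refine Finset.prod_congr rfl fun s _ => ?_
  rw [Finset.sum_apply, ← cs_zpow_sum _ (csG_ne_zero s)]
  refine Finset.prod_congr rfl fun i hi => ?_
  rw [(Finset.mem_filter.1 hi).2]

open Classical in
/-- merging does not change the curve -/
theorem crv_merge {κ : Type} [Fintype κ] (y : Fin d → F) (b : ι → Fin d → ℤ) (t : ι → F)
    (b' : κ → Fin d → ℤ) (t' : κ → F)
    (h : ∀ s : F, ∑ i with t i = s, b i = ∑ i with t' i = s, b' i) : crv y b t = crv y b' t' := by
  funext j
  unfold crv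
  congr 1
  rw [red_prod b t (Finset.univ.image t ∪ Finset.univ.image t')
    (fun i => Finset.mem_union_left _ (Finset.mem_image_of_mem _ (Finset.mem_univ i))) j,
    red_prod b' t' (Finset.univ.image t ∪ Finset.univ.image t')
    (fun i => Finset.mem_union_right _ (Finset.mem_image_of_mem _ (Finset.mem_univ i))) j]
  exact Finset.prod_congr rfl fun s _ => by rw [h s]

theorem exists_red {f : Q → Lau d} (hf : ∀ q, f q ≠ 0) {y : Fin d → F} (hy : ∀ j, y j ≠ 0)
    {b : ι → Fin d → ℤ} (hb : ∑ i, b i = 0) {t : ι → F} (hs : Sol f y b t) (hm : Moves b t) :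
    ∃ (ι' : Type) (_ : Fintype ι') (b' : ι' → Fin d → ℤ) (t' : ι' → F),
      Nonempty ι' ∧ (∀ i, b' i ≠ 0) ∧ ∑ i, b' i = 0 ∧ Function.Injective t' ∧ Sol f y b' t' ∧
      Fintype.card ι' ≤ Fintype.card ι ∧ nu f b' ≤ nu f b ∧ (∀ q, dg f b' q ≤ dg f b q) ∧
      (nu f b' = nu f b → ∀ q, dg f b' q = dg f b q) ∧
      (Fintype.card ι' = Fintype.card ι → Function.Injective t) := by
  classical
  set B : F → Fin d → ℤ := fun s => ∑ i with t i = s, b i with hB
  set S : Finset F := (Finset.univ.image t).filter (fun s => B s ≠ 0) with hS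
  have hmem : ∀ s, s ∈ S ↔ B s ≠ 0 := by
    intro s
    rw [hS, Finset.mem_filter]
    refine ⟨fun h => h.2, fun h => ⟨?_, h⟩⟩
    by_contra hn
    apply h
    rw [hB]
    refine Finset.sum_eq_zero fun i hi => ?_
    exfalso
    apply hn
    rw [← (Finset.mem_filter.1 hi).2]
    exact Finset.mem_image_of_mem _ (Finset.mem_univ i)
  have hsub : S ⊆ Finset.univ.image t := Finset.filter_subset _ _
  have hmaps : ∀ i ∈ (Finset.univ : Finset ι), t i ∈ Finset.univ.image t := fun i _ =>
    Finset.mem_image_of_mem _ (Finset.mem_univ i)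
  -- sums over `S`
  have hsum : ∀ {M : Type} [AddCommMonoid M] (g : F → M), (∀ s, B s = 0 → g s = 0) →
      ∑ s : S, g s = ∑ s ∈ Finset.univ.image t, g s := by
    intro M _ g hg
    rw [Finset.sum_coe_sort S g]
    refine Finset.sum_subset hsub fun s _ hs => hg s ?_
    by_contra h
    exact hs ((hmem s).2 h)
  have hb' : ∑ s : S, B s = 0 := by
    rw [hsum B (fun s h => h), ← hb, ← Finset.sum_fiberwise_of_maps_to hmaps]
  have hmerge : ∀ s : F, ∑ i with t i = s, b i =
      ∑ i ∈ Finset.univ.filter (fun i : S => (i : F) = s), B i := by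
    intro s
    by_cases h : B s = 0
    · rw [Finset.sum_eq_zero (s := Finset.univ.filter fun i : S => (i : F) = s)]
      · exact h
      · intro i hi
        rw [(Finset.mem_filter.1 hi).2]
        exact h
    · have h1 : (Finset.univ.filter fun i : S => (i : F) = s) = {⟨s, (hmem s).2 h⟩} := by
        ext i
        rw [Finset.mem_filter, Finset.mem_singleton]
        constructor
        · intro h2
          exact Subtype.ext h2.2
        · intro h2
          exact ⟨Finset.mem_univ _, by rw [h2]⟩
      rw [h1, Finset.sum_singleton]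
  have hdg : ∀ q, dg f (fun s : S => B s) q ≤ dg f b q := by
    intro q
    have h1 := dg_cast hf hb q
    have h2 := dg_cast hf (b := fun s : S => B s) hb' q
    have h3 : ∑ s : S, mn (f q) (B s) = ∑ s ∈ Finset.univ.image t, mn (f q) (B s) :=
      hsum (fun s => mn (f q) (B s)) fun s h => by rw [h]; exact mn_zero (hf q)
    have h4 : ∑ i, mn (f q) (b i) ≤ ∑ s ∈ Finset.univ.image t, mn (f q) (B s) := by
      rw [← Finset.sum_fiberwise_of_maps_to hmaps]
      exact Finset.sum_le_sum fun s _ => mn_sum_le (hf q) _ _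
    have h5 : (dg f (fun s : S => B s) q : ℤ) ≤ dg f b q := by
      rw [h1, h2, h3]
      linarith
    exact_mod_cast h5
  have habs : ∑ s : S, ∑ j, (B s j).natAbs ≤ ∑ i, ∑ j, (b i j).natAbs := by
    rw [hsum (fun s => ∑ j, (B s j).natAbs) fun s h => by
      rw [h]; simp, ← Finset.sum_fiberwise_of_maps_to hmaps]
    refine Finset.sum_le_sum fun s _ => ?_
    rw [Finset.sum_comm]
    refine Finset.sum_le_sum fun j _ => ?_
    rw [hB]
    simp only [Finset.sum_apply]
    exact Int.natAbs_sum_le _ _
  have hcard : Fintype.card S ≤ (Finset.univ.image t).card := by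
    rw [Fintype.card_coe]
    exact Finset.card_le_card hsub
  have hcard' : (Finset.univ.image t).card ≤ Fintype.card ι := by
    rw [← Finset.card_univ]
    exact Finset.card_image_le
  refine ⟨S, inferInstance, fun s => B s, fun s => s, ?_, ?_, hb', Subtype.val_injective, ?_,
    hcard.trans hcard', ?_, hdg, ?_, ?_⟩
  · obtain ⟨s, hs⟩ := hm
    exact ⟨⟨s, (hmem s).2 hs⟩⟩
  · exact fun s => (hmem s).1 s.2
  · rw [sol_iff hf hy hb', ← crv_merge y b t (fun s : S => B s) (fun s : S => (s : F)) hmerge]
    exact (sol_iff hf hy hb t).1 hs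
  · exact add_le_add habs (Finset.sum_le_sum fun q _ => hdg q)
  · intro h q
    have h1 : ∑ q, dg f (fun s : S => B s) q = ∑ q, dg f b q := by
      have h2 : ∑ q, dg f (fun s : S => B s) q ≤ ∑ q, dg f b q :=
        Finset.sum_le_sum fun q _ => hdg q
      have h3 : ∑ s : S, ∑ j, (B s j).natAbs + ∑ q, dg f (fun s : S => B s) q =
        ∑ i, ∑ j, (b i j).natAbs + ∑ q, dg f b q := h
      omega
    exact (Finset.sum_eq_sum_iff_of_le fun q _ => hdg q).1 h1 q (Finset.mem_univ q)
  · intro h
    have h1 : (Finset.univ.image t).card = (Finset.univ : Finset ι).card := by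
      rw [Finset.card_univ]
      omega
    have h2 := Finset.card_image_iff.1 h1
    exact fun i j hij => h2 (Finset.mem_coe.2 (Finset.mem_univ i))
      (Finset.mem_coe.2 (Finset.mem_univ j)) hij

end Pool.Agent.Work.CW
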