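import Mathlib
import Pool.Agent.Work.MP_4329d7_ag_w.RedW

/-!
Module W-Split: a nonconstant tuple with constant curve splits the type into zero sum parts, the
groups `{i // t i = s}` of equal roots; the degrees, `nu` and `card` are additive; and a solution of a
part extends to the whole type (put all other roots at one point).
-/

namespace Pool.Agent.Work.CW

open Polynomial Pool.Agent.Work.Uni Pool.Agent.Work.CI

variable {Q : Type} [Fintype Q] {d : ℕ} {ι : Type} [Fintype ι] {F : Type} [Field F] [Algebra ℂ F]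

open Classical in
/-- sums over the fibres -/
theorem split_sum_fibres {M : Type*} [AddCommMonoid M] (t : ι → F) (g : ι → M) :
    ∑ s ∈ Finset.univ.image t, ∑ i : {i // t i = s}, g i = ∑ i, g i := by
  have h1 : ∀ s : F, ∑ i : {i // t i = s}, g i = ∑ i with t i = s, g i := by
    intro s
    rw [← Finset.sum_subtype_eq_sum_filter, Finset.subtype_univ]
  rw [Finset.sum_congr rfl fun s _ => h1 s]
  exact Finset.sum_fiberwise_of_maps_to (fun i _ => Finset.mem_image_of_mem t (Finset.mem_univ i)) g

open Classical in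
theorem split_fibre_zero {b : ι → Fin d → ℤ} {t : ι → F} (h : ¬ Moves b t) (s : F) :
    ∑ i : {i // t i = s}, b i = 0 := by
  unfold Moves at h
  push Not at h
  have h1 : ∑ i : {i // t i = s}, b i = ∑ i with t i = s, b i := by
    rw [← Finset.sum_subtype_eq_sum_filter, Finset.subtype_univ]
  rw [h1]
  exact h s

open Classical in
/-- additivity of the degrees over a family of zero sum parts (here: the fibres of `t`) -/
theorem dg_fibres {f : Q → Lau d} (hf : ∀ q, f q ≠ 0) {b : ι → Fin d → ℤ} (hb : ∑ i, b i = 0)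
    (t : ι → F) (h : ¬ Moves b t) (q : Q) :
    ∑ s ∈ Finset.univ.image t, dg f (fun i : {i // t i = s} => b i) q = dg f b q := by
  have h1 : ((∑ s ∈ Finset.univ.image t, dg f (fun i : {i // t i = s} => b i) q : ℕ) : ℤ) =
      dg f b q := by
    rw [dg_cast hf hb, Nat.cast_sum, ← split_sum_fibres t (fun i => mn (f q) (b i)),
      ← Finset.sum_neg_distrib]
    refine Finset.sum_congr rfl fun s _ => ?_
    rw [dg_cast hf (split_fibre_zero h s)]
  exact_mod_cast h1

open Classical in
theorem nu_fibres {f : Q → Lau d} (hf : ∀ q, f q ≠ 0) {b : ι → Fin d → ℤ} (hb : ∑ i, b i = 0)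
    (t : ι → F) (h : ¬ Moves b t) :
    ∑ s ∈ Finset.univ.image t, nu f (fun i : {i // t i = s} => b i) = nu f b := by
  unfold nu
  rw [Finset.sum_add_distrib, split_sum_fibres t (fun i => ∑ j, (b i j).natAbs),
    Finset.sum_comm (s := Finset.univ.image t)]
  refine congrArg₂ (· + ·) rfl ?_
  exact Finset.sum_congr rfl fun q _ => dg_fibres hf hb t h q

open Classical in
theorem card_fibres (t : ι → F) :
    ∑ s ∈ Finset.univ.image t, Fintype.card {i // t i = s} = Fintype.card ι := by
  have h1 := split_sum_fibres t (fun _ => (1 : ℕ))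
  have h2 : ∀ s : F, Fintype.card {i // t i = s} = ∑ _i : {i // t i = s}, 1 := fun s => by
    rw [Finset.sum_const, smul_eq_mul, mul_one, Finset.card_univ]
  rw [Finset.sum_congr rfl fun s _ => h2 s, h1, Finset.sum_const, smul_eq_mul, mul_one,
    Finset.card_univ]

theorem nu_pos (f : Q → Lau d) {b : ι → Fin d → ℤ} (hb0 : ∀ i, b i ≠ 0) [Nonempty ι] :
    0 < nu f b := by
  obtain ⟨i⟩ := ‹Nonempty ι›
  obtain ⟨j, hj⟩ := Function.ne_iff.1 (hb0 i)
  unfold nu
  have h1 : 0 < (b i j).natAbs := Int.natAbs_pos.2 hj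
  have h2 : (b i j).natAbs ≤ ∑ j, (b i j).natAbs :=
    Finset.single_le_sum (f := fun j => (b i j).natAbs) (fun _ _ => Nat.zero_le _)
      (Finset.mem_univ j)
  have h3 : ∑ j, (b i j).natAbs ≤ ∑ i, ∑ j, (b i j).natAbs :=
    Finset.single_le_sum (f := fun i => ∑ j, (b i j).natAbs) (fun _ _ => Nat.zero_le _)
      (Finset.mem_univ i)
  omega

open Classical in
/-- extending a solution of a zero sum part -/
theorem extend_sol {f : Q → Lau d} (hf : ∀ q, f q ≠ 0) {y : Fin d → F} (hy : ∀ j, y j ≠ 0)
    {b : ι → Fin d → ℤ} (hb : ∑ i, b i = 0) (P : ι → Prop)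
    (hP : ∑ i : {i // P i}, b i = 0) (t : {i // P i} → F)
    (hs : Sol f y (fun i : {i // P i} => b i) t) (hm : Moves (fun i : {i // P i} => b i) t) :
    ∃ t' : ι → F, Sol f y b t' ∧ Moves b t' := by
  set t' : ι → F := fun i => if h : P i then t ⟨i, h⟩ else 0 with ht'
  have hN : ∑ i : {i // ¬ P i}, b i = 0 := by
    have h1 := Fintype.sum_subtype_add_sum_subtype P b
    rw [hP, hb, zero_add] at h1
    exact h1
  have key : ∀ s : F, ∑ i : {i // P i} with t i = s, b i = ∑ i with t' i = s, b i := by
    intro s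
    rw [Finset.sum_filter, Finset.sum_filter,
      ← Fintype.sum_subtype_add_sum_subtype P (fun i => if t' i = s then b i else 0)]
    have h2 : ∑ i : {i // ¬ P i}, (if t' i = s then b i else 0) = 0 := by
      have h3 : ∀ i : {i // ¬ P i}, (if t' i = s then b i else 0) =
          if (0 : F) = s then b i else 0 := by
        intro i
        have : t' i = 0 := by rw [ht']; simp only [dif_neg i.2]
        rw [this]
      rw [Finset.sum_congr rfl fun i _ => h3 i]
      by_cases hs0 : (0 : F) = s
      · simp only [if_pos hs0]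
        exact hN
      · simp only [if_neg hs0, Finset.sum_const_zero]
    rw [h2, add_zero]
    refine Finset.sum_congr rfl fun i _ => ?_
    have : t' i = t i := by rw [ht']; simp only [dif_pos i.2]
    rw [this]
  refine ⟨t', ?_, ?_⟩
  · rw [sol_iff hf hy hb, ← crv_merge y (fun i : {i // P i} => b i) t b t' key]
    exact (sol_iff hf hy hP t).1 hs
  · obtain ⟨s, hs⟩ := hm
    refine ⟨s, ?_⟩
    rw [← key s]
    exact hs

end Pool.Agent.Work.CW
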