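import Mathlib
import Pool.Agent.Work.MP_4329d7_ag_w.SplitW
import Pool.Agent.Work.MP_4329d7_ag_uni.Sys

/-!
Module W-Min, part (D): `exists_curve` (helper11).
-/

namespace Pool.Agent.Work.CW

open Polynomial Pool.Agent.Work.Uni Pool.Agent.Work.CI

namespace MinC

/-- the combinatorics of the parts: one part has `δ ≥ 2` -/
theorem one_part {α : Type} (S : Finset α) (C M U : α → ℕ) (ν₀ N : ℕ)
    (hC : ∑ s ∈ S, M s + 2 ≤ ∑ s ∈ S, C s) (hU : ∑ s ∈ S, U s = N) (hN : N < 2 * ν₀)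
    (h4 : ∀ s ∈ S, M s + 1 ≤ C s → ν₀ ≤ U s) : ∃ s ∈ S, M s + 2 ≤ C s := by
  classical
  by_contra hcon
  push Not at hcon
  have h6 : 2 ≤ (S.filter fun s => M s + 1 ≤ C s).card := by
    have h7 : ∑ s ∈ S, C s ≤ ∑ s ∈ S, (M s + if M s + 1 ≤ C s then 1 else 0) := by
      refine Finset.sum_le_sum fun s hs => ?_
      have h8 := hcon s hs
      split_ifs with h9
      · omega
      · omega
    rw [Finset.sum_add_distrib, ← Finset.card_filter] at h7
    omega
  obtain ⟨s₁, hs₁, s₂, hs₂, hne⟩ := Finset.one_lt_card.1 h6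
  obtain ⟨h7, h8⟩ := Finset.mem_filter.1 hs₁
  obtain ⟨h9, h10⟩ := Finset.mem_filter.1 hs₂
  have h11 := h4 s₁ h7 h8
  have h12 := h4 s₂ h9 h10
  have h13 : U s₁ + U s₂ ≤ ∑ s ∈ S, U s := by
    rw [← Finset.sum_pair hne]
    refine Finset.sum_le_sum_of_subset ?_
    intro z hz
    rcases Finset.mem_insert.1 hz with rfl | hz
    · exact h7
    · rw [Finset.mem_singleton.1 hz]
      exact h9
  omega

/-- a part is smaller than the whole -/
theorem part_lt {α : Type} (S : Finset α) (U : α → ℕ) (hpos : ∀ s ∈ S, 0 < U s) {s : α}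
    (hs : s ∈ S) (h2 : ∃ a ∈ S, ∃ a' ∈ S, a ≠ a') : U s < ∑ s ∈ S, U s := by
  classical
  obtain ⟨a, ha, a', ha', hne⟩ := h2
  obtain ⟨s', hs', hne'⟩ : ∃ s' ∈ S, s ≠ s' := by
    by_cases h : s = a
    · exact ⟨a', ha', by rw [h]; exact hne⟩
    · exact ⟨a, ha, h⟩
  have h6 : U s + U s' ≤ ∑ s ∈ S, U s := by
    rw [← Finset.sum_pair hne']
    refine Finset.sum_le_sum_of_subset ?_
    intro z hz
    rcases Finset.mem_insert.1 hz with rfl | hz
    · exact hs
    · rw [Finset.mem_singleton.1 hz]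
      exact hs'
  have h7 := hpos s' hs'
  omega

end MinC

variable {Q : Type} [Fintype Q] {d : ℕ}

open Classical in
/-- a nonconstant tuple with constant curve has a part with `δ ≥ 2` and smaller `nu` -/
theorem exists_part {F : Type} [Field F] [Algebra ℂ F] {f : Q → Lau d}
    (hf : ∀ q, f q ≠ 0) (ν₀ : ℕ)
    (hν₀ : ∀ (κ : Type) [Fintype κ] (c : κ → Fin d → ℤ), (∀ i, c i ≠ 0) → ∑ i, c i = 0 →
      ∑ q, dg f c q + 1 ≤ Fintype.card κ → ν₀ ≤ nu f c)
    {ι : Type} [Fintype ι] {b : ι → Fin d → ℤ} (hb0 : ∀ i, b i ≠ 0) (hb : ∑ i, b i = 0)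
    (hcard : ∑ q, dg f b q + 2 ≤ Fintype.card ι) (hnu : nu f b < 2 * ν₀) {t : ι → F}
    (hne : ∃ i j, t i ≠ t j) (hm : ¬ Moves b t) :
    ∃ s : F, ∑ q, dg f (fun i : {i // t i = s} => b i) q + 2 ≤ Fintype.card {i // t i = s} ∧
      nu f (fun i : {i // t i = s} => b i) < nu f b := by
  have hdg : ∑ s ∈ Finset.univ.image t, ∑ q, dg f (fun i : {i // t i = s} => b i) q =
      ∑ q, dg f b q := by
    rw [Finset.sum_comm]
    exact Finset.sum_congr rfl fun q _ => dg_fibres hf hb t hm q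
  have hnu' := nu_fibres hf hb t hm
  have hc := card_fibres t
  obtain ⟨s, hs, h1⟩ := MinC.one_part (Finset.univ.image t)
    (fun s => Fintype.card {i // t i = s})
    (fun s => ∑ q, dg f (fun i : {i // t i = s} => b i) q)
    (fun s => nu f (fun i : {i // t i = s} => b i)) ν₀ (nu f b) (by rw [hdg, hc]; exact hcard)
    hnu' hnu (fun s _ hs => hν₀ _ _ (fun i => hb0 i) (split_fibre_zero hm s) hs)
  refine ⟨s, h1, ?_⟩
  rw [← hnu']
  refine MinC.part_lt (Finset.univ.image t) (fun s => nu f (fun i : {i // t i = s} => b i)) ?_ hs ?_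
  · intro s hs
    obtain ⟨l, -, hl⟩ := Finset.mem_image.1 hs
    have : Nonempty {i // t i = s} := ⟨⟨l, hl⟩⟩
    exact nu_pos f fun i => hb0 i
  · obtain ⟨i, j, hij⟩ := hne
    exact ⟨t i, Finset.mem_image_of_mem _ (Finset.mem_univ _), t j,
      Finset.mem_image_of_mem _ (Finset.mem_univ _), hij⟩

/-- the version of `exists_curve` -/
theorem exists_curve' {F : Type} [Field F] [Algebra ℂ F] [IsAlgClosed F] {f : Q → Lau d}
    (hf : ∀ q, f q ≠ 0) {y : Fin d → F} (hy : ∀ j, y j ≠ 0) (hfy : ∀ q, ev (f q) y = 0) (ν₀ : ℕ)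
    (hν₀ : ∀ (κ : Type) [Fintype κ] (c : κ → Fin d → ℤ), (∀ i, c i ≠ 0) → ∑ i, c i = 0 →
      ∑ q, dg f c q + 1 ≤ Fintype.card κ → ν₀ ≤ nu f c)
    (N : ℕ) : ∀ (ι : Type) [Fintype ι] (b : ι → Fin d → ℤ), (∀ i, b i ≠ 0) → ∑ i, b i = 0 →
    ∑ q, dg f b q + 2 ≤ Fintype.card ι → nu f b < 2 * ν₀ → nu f b < N →
    ∃ t : ι → F, Sol f y b t ∧ Moves b t := by
  classical
  haveI : CharZero F := charZero_of_injective_algebraMap (algebraMap ℂ F).injective
  induction N with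
  | zero => intro ι _ b _ _ _ _ h; exact absurd h (Nat.not_lt_zero _)
  | succ N ih =>
    intro ι _ b hb0 hb hcard hnu hN
    obtain ⟨t, hs, hne⟩ := exists_nonconst_sol (coef f y) (coef_isCoef f y hfy).sum
      (fun i => blk f (b i)) (dg f b) (fun q p hp => coef_deg hf hb y q p hp) hcard
    by_cases hm : Moves b t
    · exact ⟨t, hs, hm⟩
    · obtain ⟨s, h1, h2⟩ := exists_part hf ν₀ hν₀ hb0 hb hcard hnu hne hm
      obtain ⟨t', h3, h4⟩ := ih {i // t i = s} (fun i => b i) (fun i => hb0 i)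
        (split_fibre_zero hm s) h1 (by omega) (by omega)
      exact extend_sol hf hy hb (fun i => t i = s) (split_fibre_zero hm s) t' h3 h4

end Pool.Agent.Work.CW
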