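import Mathlib
import Pool.Agent.Work.MP_4329d7_ag_w.SplitW
import Pool.Agent.Work.MP_4329d7_ag_w.MinCurve
import Pool.Agent.Work.MP_4329d7_ag_w.FreeAtW
import Pool.Agent.Work.MP_4329d7_ag_w.KerW
import Pool.Agent.Work.MP_4329d7_ag_uni.Sys

/-!
Module W-Min (R3): minimality.
`IsPk f b`: a packing with `δ ≥ 1` (all `b i ≠ 0`, `∑ b i = 0`, `∑ dg + 1 ≤ card`).
Let `ν₀` = minimum of `nu` on these packings.
(D) `exists_curve`: a type with all `b i ≠ 0`, `δ ≥ 2` and `nu < 2 ν₀` has a solution with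
nonconstant curve at every point `y` of the torus with `f q (y) = 0`.  PROOF: induction on `nu`:
`exists_nonconst_sol` gives a nonconstant tuple; if its curve is constant it splits the type
(`SplitW`); `δ` is additive, at most one part has `δ ≥ 1` (each has `nu ≥ ν₀`), so one part has
`δ ≥ 2` and smaller `nu`; `extend_sol`.
Let `ν⁎` = minimum of `nu f b` over all fields `F` (alg. closed), embeddings `emb : K → F` and
solutions `t` with `t` injective, all `b i ≠ 0`, `ι` nonempty (reduced solutions).  By `free` and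
`card_of_free` they have `δ ≥ 2`.
Case (i) `ν⁎ < 2 ν₀` (`CaseI`): a reduced solution with `nu = ν⁎` and `card ι` minimal.  Every nonconstant
tuple `t'` of type `b`: its curve moves (else it splits, one part has `δ ≥ 2` and smaller `nu`, use
(D) and `exists_red`); it is injective (`exists_red`, minimality).  `δ = 2`: if `δ ≥ 3` impose
`t i₀ = t i₁`: merge the two blocks `b i₀, b i₁` into one block: `card - 1 ≥ ∑ dg + 2` roots and the
degrees do not increase, so `exists_nonconst_sol` gives a nonconstant tuple with `t i₀ = t i₁`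
(work with the polynomial equations of the type `b` and the variables `ι / (i₀ ~ i₁)`:
`exists_nonconst_sol` for the blocks `β' = β i₀ + β i₁`, same degrees).
Case (ii) `2 ν₀ ≤ ν⁎` or no reduced solution (`CaseII`): `b₀` a packing with `nu = ν₀` and
`∑_v (number of i with b₀ i = v)^2` maximal.  `δ(b₀) = 1` and all its solutions are constant
((D), (D)+`exists_red`, minimality of `ν₀`).  Type `b₀ ∘ fst` on `ι₀ × Bool` (`nu = 2 ν₀`, `δ = 2`), `t`
nonconstant: if the curve moves, the reduction has `nu ≥ ν⁎ ≥ 2 ν₀`, so `nu` and the degrees do not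
drop, `card ι' ≥ ∑ dg + 2 = card ι`, so `t` is injective.  If it does not move it splits; no part has
`δ ≥ 2` ((D)), so exactly two parts, both with `δ = 1` and `nu = ν₀`; by the parallelogram law and
the maximality of the square sum both have the same type as `b₀`.
-/

namespace Pool.Agent.Work.CW

open Polynomial Pool.Agent.Work.Uni Pool.Agent.Work.CI

variable {Q : Type} [Fintype Q] {d : ℕ}

/-- a packing with `δ ≥ 1` -/
def IsPk (f : Q → Lau d) {ι : Type} [Fintype ι] (b : ι → Fin d → ℤ) : Prop :=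
  (∀ i, b i ≠ 0) ∧ ∑ i, b i = 0 ∧ ∑ q, dg f b q + 1 ≤ Fintype.card ι

theorem exists_curve {F : Type} [Field F] [Algebra ℂ F] [IsAlgClosed F] {f : Q → Lau d}
    (hf : ∀ q, f q ≠ 0) {y : Fin d → F} (hy : ∀ j, y j ≠ 0) (hfy : ∀ q, ev (f q) y = 0) (ν₀ : ℕ)
    (hν₀ : ∀ (κ : Type) [Fintype κ] (c : κ → Fin d → ℤ), IsPk f c → ν₀ ≤ nu f c)
    (N : ℕ) : ∀ (ι : Type) [Fintype ι] (b : ι → Fin d → ℤ), (∀ i, b i ≠ 0) → ∑ i, b i = 0 →
    ∑ q, dg f b q + 2 ≤ Fintype.card ι → nu f b < 2 * ν₀ → nu f b < N →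
    ∃ t : ι → F, Sol f y b t ∧ Moves b t :=
  exists_curve' hf hy hfy ν₀ (fun κ _ c h1 h2 h3 => hν₀ κ c ⟨h1, h2, h3⟩) N

variable {K : Type} [Field K] [Algebra ℂ K] {n : ℕ} {x : Fin d → K} {f : Q → Lau d}

/-- case (i): all nonconstant solutions have distinct roots -/
def CaseI (x : Fin d → K) (f : Q → Lau d) : Prop :=
  ∃ (ι : Type) (_ : Fintype ι) (b : ι → Fin d → ℤ), (∀ i, b i ≠ 0) ∧ ∑ i, b i = 0 ∧
    Fintype.card ι = ∑ q, dg f b q + 2 ∧
    ∀ (F : Type) [Field F] [Algebra ℂ F] [IsAlgClosed F] (emb : K →ₐ[ℂ] F) (t : ι → F),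
      Sol f (fun j => emb (x j)) b t → (∀ i j, t i = t j) ∨ Function.Injective t

open Classical in
/-- case (ii): all solutions of type `b₀` are constant, the solutions of type `2 b₀` are constant,
split in two groups of type `b₀`, or have distinct roots -/
def CaseII (x : Fin d → K) (f : Q → Lau d) : Prop :=
  ∃ (ι : Type) (_ : Fintype ι) (b : ι → Fin d → ℤ), (∀ i, b i ≠ 0) ∧ ∑ i, b i = 0 ∧
    Fintype.card ι = ∑ q, dg f b q + 1 ∧
    ∀ (F : Type) [Field F] [Algebra ℂ F] [IsAlgClosed F] (emb : K →ₐ[ℂ] F),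
      (∀ t : ι → F, Sol f (fun j => emb (x j)) b t → ∀ i j, t i = t j) ∧
      ∀ t : ι × Bool → F, Sol f (fun j => emb (x j)) (fun i => b i.1) t →
        (∀ i j, t i = t j) ∨
        (∃ (G : Finset (ι × Bool)) (s₁ s₂ : F), s₁ ≠ s₂ ∧ (∀ i ∈ G, t i = s₁) ∧
          (∀ i, i ∉ G → t i = s₂) ∧
          ∀ v : Fin d → ℤ, (G.filter fun i => b i.1 = v).card =
            (Finset.univ.filter fun i => b i = v).card) ∨
        Function.Injective t

end Pool.Agent.Work.CW
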