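import Mathlib
import Pool.Agent.Work.MP_4329d7_ag_w.MinW

/-!
Module W-Min (R3), case (i) (helper11): there is a reduced solution with `nu < 2 ν₀`.
-/

namespace Pool.Agent.Work.CW

open Polynomial Pool.Agent.Work.Uni Pool.Agent.Work.CI

namespace MinI

variable {Q : Type} [Fintype Q] {d : ℕ}

/-- `exists_nonconst_sol` with two equal roots -/
theorem exists_nonconst_sol_eq {Pt ι k : Type} [Fintype Pt] [Fintype ι] [Field k] [IsAlgClosed k]
    [CharZero k] (a : Q → Pt → k) (hsum : ∀ q, ∑ p, a q p = 0) (β : ι → Pt → ℕ) (mq : Q → ℕ)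
    (hm : ∀ q p, a q p ≠ 0 → ∑ i, β i p = mq q) (hcard : ∑ q, mq q + 3 ≤ Fintype.card ι)
    (i₀ i₁ : ι) : ∃ t : ι → k, IsSol a β t ∧ (∃ i j, t i ≠ t j) ∧ t i₀ = t i₁ := by
  obtain ⟨x, hx, hF⟩ := exists_zero' (k := k) (ι := ι) (κ := ((Σ q, Fin (mq q)) ⊕ Unit) ⊕ Unit)
    (Sum.elim (Sum.elim (fun j => coefPoly a β j.1 j.2) fun _ => ∑ i, MvPolynomial.X i)
      fun _ => MvPolynomial.X i₀ - MvPolynomial.X i₁) (by
      rintro ((⟨q, d⟩ | u) | u)
      · exact eval_zero_coefPoly a β q _ (hm q) d d.2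
      · simp
      · simp) (by
      simp only [Fintype.card_sum, Fintype.card_sigma, Fintype.card_fin, Fintype.card_unit]
      omega)
  refine ⟨x, ?_, sum_const_ne x hx ?_, ?_⟩
  · rw [isSol_iff a hsum β mq hm]
    intro q d hd
    exact hF (Sum.inl (Sum.inl ⟨q, ⟨d, hd⟩⟩))
  · have := hF (Sum.inl (Sum.inr ()))
    simpa using this
  · have := hF (Sum.inr ())
    simpa [sub_eq_zero] using this

variable {K : Type} [Field K] [Algebra ℂ K] {n : ℕ} {x : Fin d → K} {f : Q → Lau d}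

/-- types of reduced solutions -/
def IsRed (x : Fin d → K) (f : Q → Lau d) {ι : Type} [Fintype ι] (b : ι → Fin d → ℤ) : Prop :=
  Nonempty ι ∧ (∀ i, b i ≠ 0) ∧ ∑ i, b i = 0 ∧
    ∃ (F : Type) (_ : Field F) (_ : Algebra ℂ F) (_ : IsAlgClosed F) (emb : K →ₐ[ℂ] F)
      (t : ι → F), Function.Injective t ∧ Sol f (fun j => emb (x j)) b t

theorem exists_min_red {N : ℕ}
    (h : ∃ (ι : Type) (_ : Fintype ι) (b : ι → Fin d → ℤ), IsRed x f b ∧ nu f b < N) :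
    ∃ (ι : Type) (_ : Fintype ι) (b : ι → Fin d → ℤ), IsRed x f b ∧ nu f b < N ∧
      ∀ (κ : Type) [Fintype κ] (c : κ → Fin d → ℤ), IsRed x f c →
        nu f b ≤ nu f c ∧ (nu f c = nu f b → Fintype.card ι ≤ Fintype.card κ) := by
  classical
  have h1 : ∃ m, ∃ (ι : Type) (_ : Fintype ι) (b : ι → Fin d → ℤ), IsRed x f b ∧ nu f b = m := by
    obtain ⟨ι, hι, b, h1, h2⟩ := h
    exact ⟨_, ι, hι, b, h1, rfl⟩
  have h2 : ∃ m, ∃ (ι : Type) (_ : Fintype ι) (b : ι → Fin d → ℤ), IsRed x f b ∧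
      nu f b = Nat.find h1 ∧ Fintype.card ι = m := by
    obtain ⟨ι, hι, b, h3, h4⟩ := Nat.find_spec h1
    exact ⟨_, ι, hι, b, h3, h4, rfl⟩
  obtain ⟨ι, hι, b, h3, h4, h5⟩ := Nat.find_spec h2
  refine ⟨ι, hι, b, h3, ?_, fun κ hκ c hc => ⟨?_, fun hc' => ?_⟩⟩
  · obtain ⟨ι', hι', b', h6, h7⟩ := h
    rw [h4]
    exact lt_of_le_of_lt (Nat.find_min' h1 ⟨ι', hι', b', h6, rfl⟩) h7
  · rw [h4]
    exact Nat.find_min' h1 ⟨κ, hκ, c, hc, rfl⟩
  · rw [h5]
    exact Nat.find_min' h2 ⟨κ, hκ, c, hc, hc'.trans h4, rfl⟩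

omit [Fintype Q] in
theorem map_ev' {F : Type} [Field F] [Algebra ℂ F] (emb : K →ₐ[ℂ] F) (g : Lau d) (y : Fin d → K) :
    emb (ev g y) = ev g (fun j => emb (y j)) := by
  unfold ev mon
  rw [map_sum]
  refine Finset.sum_congr rfl fun u _ => ?_
  rw [map_mul, AlgHom.commutes, map_prod]
  simp only [map_zpow₀]

end MinI

open MinI

variable {Q : Type} [Fintype Q] {d : ℕ} {K : Type} [Field K] [Algebra ℂ K] {n : ℕ}
  {x : Fin d → K} {f : Q → Lau d}

/-- case (i) of `exists_min` -/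
theorem min_caseI (D : Data K n d Q x f) {ν₀ : ℕ}
    (hν₀ : ∀ (κ : Type) [Fintype κ] (c : κ → Fin d → ℤ), IsPk f c → ν₀ ≤ nu f c)
    (hex : ∃ (F : Type) (_ : Field F) (_ : Algebra ℂ F) (_ : IsAlgClosed F) (emb : K →ₐ[ℂ] F)
      (ι : Type) (_ : Fintype ι) (b : ι → Fin d → ℤ) (t : ι → F), Nonempty ι ∧ (∀ i, b i ≠ 0) ∧
      ∑ i, b i = 0 ∧ Function.Injective t ∧ Sol f (fun j => emb (x j)) b t ∧
      nu f b < 2 * ν₀) : CaseI x f := by
  classical
  obtain ⟨ι, hι, b, hred, hnu, hmin⟩ := exists_min_red (x := x) (f := f) (N := 2 * ν₀) (by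
    obtain ⟨F, h1, h2, h3, emb, ι, h4, b, t, h5, h6, h7, h8, h9, h10⟩ := hex
    exact ⟨ι, h4, b, ⟨h5, h6, h7, F, h1, h2, h3, emb, t, h8, h9⟩, h10⟩)
  obtain ⟨hne, hb0, hb, F₀, hF1, hF2, hF3, emb₀, t₀, ht₀, hs₀⟩ := hred
  have hsub : ∃ i j, t₀ i ≠ t₀ j := by
    obtain ⟨i⟩ := hne
    by_contra hcon
    push Not at hcon
    apply hb0 i
    rw [← hb]
    symm
    exact Finset.sum_eq_single i (fun j _ hj => absurd (ht₀ (hcon j i)) hj)
      (fun h => absurd (Finset.mem_univ i) h)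
  have hcard : ∑ q, dg f b q + 2 ≤ Fintype.card ι :=
    card_of_free hs₀ (fun q p hp => coef_deg D.nz hb _ q p hp) (free_at D emb₀ hb ht₀ hs₀) hsub
  have key : ∀ (F : Type) [Field F] [Algebra ℂ F] [IsAlgClosed F] (emb : K →ₐ[ℂ] F) (t : ι → F),
      Sol f (fun j => emb (x j)) b t → (∀ i j, t i = t j) ∨ Function.Injective t := by
    intro F _ _ _ emb t hs
    have hy : ∀ j, emb (x j) ≠ 0 := fun j => by simpa using D.ne j
    have hfy : ∀ q, ev (f q) (fun j => emb (x j)) = 0 := fun q => by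
      rw [← map_ev', D.eq q, map_zero]
    by_cases hc : ∀ i j, t i = t j
    · exact Or.inl hc
    right
    push Not at hc
    by_cases hm : Moves b t
    · obtain ⟨ι', hι', b', t', h1, h2, h3, h4, h5, h6, h7, h8, h9, h10⟩ :=
        exists_red D.nz hy hb hs hm
      obtain ⟨h11, h12⟩ := hmin ι' b' ⟨h1, h2, h3, F, _, _, ‹_›, emb, t', h4, h5⟩
      exact h10 (le_antisymm h6 (h12 (le_antisymm h7 h11)))
    · exfalso
      obtain ⟨s, h1, h2⟩ := exists_part D.nz ν₀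
        (fun κ _ c h1 h2 h3 => hν₀ κ c ⟨h1, h2, h3⟩) hb0 hb hcard hnu hc hm
      obtain ⟨t', h3, h4⟩ := exists_curve D.nz hy hfy ν₀ hν₀
        (nu f (fun i : {i // t i = s} => b i) + 1) {i // t i = s} (fun i => b i)
        (fun i => hb0 i) (split_fibre_zero hm s) h1 (by omega) (Nat.lt_succ_self _)
      obtain ⟨ι', hι', b', t'', h5, h6, h7, h8, h9, h10, h11, -⟩ :=
        exists_red D.nz hy (split_fibre_zero hm s) h3 h4
      obtain ⟨h12, -⟩ := hmin ι' b' ⟨h5, h6, h7, F, _, _, ‹_›, emb, t'', h8, h9⟩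
      omega
  refine ⟨ι, hι, b, hb0, hb, le_antisymm ?_ hcard, key⟩
  by_contra hcon
  haveI : CharZero F₀ := charZero_of_injective_algebraMap (algebraMap ℂ F₀).injective
  have hfy : ∀ q, ev (f q) (fun j => emb₀ (x j)) = 0 := fun q => by
    rw [← map_ev', D.eq q, map_zero]
  obtain ⟨i₀, i₁, hi⟩ := hsub
  obtain ⟨t, h1, h2, h3⟩ := exists_nonconst_sol_eq (coef f fun j => emb₀ (x j))
    (coef_isCoef f _ hfy).sum (fun i => blk f (b i)) (dg f b)
    (fun q p hp => coef_deg D.nz hb _ q p hp) (by omega) i₀ i₁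
  rcases key F₀ emb₀ t h1 with h4 | h4
  · obtain ⟨i, j, h5⟩ := h2
    exact h5 (h4 i j)
  · exact hi (congrArg t₀ (h4 h3))

end Pool.Agent.Work.CW
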