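import Mathlib
import Pool.Agent.Work.MP_4329d7_ag_w.MinW

/-!
Module W-Min (R3), case (ii) (helper84): there is no reduced solution with `nu < 2 ν₀`.
-/

namespace Pool.Agent.Work.CW

open Polynomial Pool.Agent.Work.Uni Pool.Agent.Work.CI

namespace MinII

section comb

variable {d : ℕ}

open Classical in
/-- the number of the indices with vector `v` -/
noncomputable def mult {ι : Type} [Fintype ι] (b : ι → Fin d → ℤ) (v : Fin d → ℤ) : ℕ :=
  (Finset.univ.filter fun i => b i = v).card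

/-- the square sum of the numbers of equal vectors -/
noncomputable def sqs {ι : Type} [Fintype ι] (b : ι → Fin d → ℤ) : ℕ := ∑ i, mult b (b i)

theorem sqs_eq {ι : Type} [Fintype ι] (b : ι → Fin d → ℤ) (V : Finset (Fin d → ℤ))
    (hV : ∀ i, b i ∈ V) : sqs b = ∑ v ∈ V, mult b v ^ 2 := by
  classical
  unfold sqs
  rw [← Finset.sum_fiberwise_of_maps_to (fun i _ => hV i)]
  refine Finset.sum_congr rfl fun v _ => ?_
  rw [Finset.sum_congr rfl (g := fun _ => mult b v) fun i hi => ?_]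
  · rw [Finset.sum_const, smul_eq_mul, sq]
    congr 1
  · rw [(Finset.mem_filter.1 hi).2]

theorem mult_le {ι : Type} [Fintype ι] (b : ι → Fin d → ℤ) (v : Fin d → ℤ) :
    mult b v ≤ Fintype.card ι := by
  unfold mult
  exact Finset.card_filter_le _ _

theorem sqs_le {ι : Type} [Fintype ι] (b : ι → Fin d → ℤ) :
    sqs b ≤ Fintype.card ι * Fintype.card ι := by
  unfold sqs
  refine (Finset.sum_le_sum fun i _ => mult_le b (b i)).trans ?_
  rw [Finset.sum_const, Finset.card_univ, smul_eq_mul]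

/-- the parallelogram law -/
theorem parallelogram {α : Type} (V : Finset α) (n n₁ n₂ : α → ℕ)
    (h : ∀ v ∈ V, n₁ v + n₂ v = 2 * n v) (h1 : ∑ v ∈ V, n₁ v ^ 2 ≤ ∑ v ∈ V, n v ^ 2)
    (h2 : ∑ v ∈ V, n₂ v ^ 2 ≤ ∑ v ∈ V, n v ^ 2) : ∀ v ∈ V, n₁ v = n v := by
  have h1' : ∑ v ∈ V, (n₁ v : ℤ) ^ 2 ≤ ∑ v ∈ V, (n v : ℤ) ^ 2 := by exact_mod_cast h1
  have h2' : ∑ v ∈ V, (n₂ v : ℤ) ^ 2 ≤ ∑ v ∈ V, (n v : ℤ) ^ 2 := by exact_mod_cast h2
  have h3 : ∑ v ∈ V, ((n₁ v : ℤ) - n₂ v) ^ 2 =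
      2 * ∑ v ∈ V, (n₁ v : ℤ) ^ 2 + 2 * ∑ v ∈ V, (n₂ v : ℤ) ^ 2 -
        4 * ∑ v ∈ V, (n v : ℤ) ^ 2 := by
    rw [Finset.mul_sum, Finset.mul_sum, Finset.mul_sum, ← Finset.sum_add_distrib,
      ← Finset.sum_sub_distrib]
    refine Finset.sum_congr rfl fun v hv => ?_
    have h4 : (n₁ v : ℤ) + n₂ v = 2 * n v := by exact_mod_cast h v hv
    have h5 : (n v : ℤ) * 2 = n₁ v + n₂ v := by linarith
    have h6 : 4 * (n v : ℤ) ^ 2 = ((n₁ v : ℤ) + n₂ v) ^ 2 := by rw [← h5]; ring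
    rw [h6]
    ring
  have h4 : ∑ v ∈ V, ((n₁ v : ℤ) - n₂ v) ^ 2 ≤ 0 := by rw [h3]; linarith
  have h5 : ∑ v ∈ V, ((n₁ v : ℤ) - n₂ v) ^ 2 = 0 :=
    le_antisymm h4 (Finset.sum_nonneg fun v _ => sq_nonneg _)
  rw [Finset.sum_eq_zero_iff_of_nonneg (fun v _ => sq_nonneg _)] at h5
  intro v hv
  have h6 := pow_eq_zero_iff (two_ne_zero) |>.1 (h5 v hv)
  have h7 := h v hv
  omega

/-- the number of vectors is bounded by the measure -/
theorem card_le_nu {Q : Type} [Fintype Q] (f : Q → Lau d) {ι : Type} [Fintype ι]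
    (b : ι → Fin d → ℤ) (hb : ∀ i, b i ≠ 0) : Fintype.card ι ≤ nu f b := by
  unfold nu
  refine le_trans ?_ (Nat.le_add_right _ _)
  rw [← Finset.card_univ, Finset.card_eq_sum_ones]
  refine Finset.sum_le_sum fun i _ => ?_
  obtain ⟨j, hj⟩ : ∃ j, b i j ≠ 0 := by
    by_contra h
    push Not at h
    exact hb i (funext h)
  refine le_trans ?_ (Finset.single_le_sum (fun j _ => Nat.zero_le _) (Finset.mem_univ j))
  exact Nat.one_le_iff_ne_zero.2 (Int.natAbs_ne_zero.2 hj)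

/-- a packing of minimal measure with maximal square sum -/
theorem exists_max {Q : Type} [Fintype Q] (f : Q → Lau d) {ν₀ : ℕ}
    (hpk : ∃ (ι : Type) (_ : Fintype ι) (b : ι → Fin d → ℤ), IsPk f b ∧ nu f b = ν₀) :
    ∃ (ι : Type) (_ : Fintype ι) (b : ι → Fin d → ℤ), IsPk f b ∧ nu f b = ν₀ ∧
      ∀ (κ : Type) [Fintype κ] (c : κ → Fin d → ℤ), IsPk f c → nu f c = ν₀ → sqs c ≤ sqs b := by
  let A : Set ℕ := {m | ∃ (ι : Type) (_ : Fintype ι) (b : ι → Fin d → ℤ),
    IsPk f b ∧ nu f b = ν₀ ∧ sqs b = m}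
  have hA : A.Nonempty := by
    obtain ⟨ι, hι, b, h1, h2⟩ := hpk
    exact ⟨_, ι, hι, b, h1, h2, rfl⟩
  have hB : BddAbove A := by
    refine ⟨ν₀ * ν₀, ?_⟩
    rintro m ⟨ι, hι, b, h1, h2, rfl⟩
    have h3 := card_le_nu f b h1.1
    rw [h2] at h3
    exact (sqs_le b).trans (Nat.mul_le_mul h3 h3)
  obtain ⟨ι, hι, b, h1, h2, h3⟩ := Nat.sSup_mem hA hB
  refine ⟨ι, hι, b, h1, h2, fun κ hκ c hc hc' => ?_⟩
  rw [h3]
  exact le_csSup hB ⟨κ, hκ, c, hc, hc', rfl⟩

end comb

section parts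

variable {Q : Type} [Fintype Q] {d : ℕ} {ι : Type} [Fintype ι] {F : Type}

open Classical in
theorem part_sum {b : ι → Fin d → ℤ} {t : ι → F} (h : ¬ Moves b t) (s : F) :
    ∑ i : {i // t i = s}, b i = 0 := by
  by_contra hcon
  apply h
  refine ⟨s, ?_⟩
  rw [Finset.sum_subtype (Finset.univ.filter (fun i => t i = s)) (p := fun i => t i = s)
    (by simp) (fun i => b i)]
  exact hcon

end parts

/-- the combinatorics of the parts -/
theorem two_parts {α : Type} (S : Finset α) (C M U : α → ℕ) (ν₀ : ℕ)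
    (hC : ∑ s ∈ S, C s = ∑ s ∈ S, M s + 2) (hU : ∑ s ∈ S, U s = 2 * ν₀)
    (hpos : ∀ s ∈ S, 0 < U s) (h2 : ∃ s ∈ S, ∃ s' ∈ S, s ≠ s')
    (h3 : ∀ s ∈ S, U s < 2 * ν₀ → C s ≤ M s + 1) (h4 : ∀ s ∈ S, M s + 1 ≤ C s → ν₀ ≤ U s) :
    ∃ s₁ s₂, s₁ ≠ s₂ ∧ s₁ ∈ S ∧ s₂ ∈ S ∧ (∀ s ∈ S, s = s₁ ∨ s = s₂) ∧ U s₁ = ν₀ ∧ U s₂ = ν₀ ∧
      M s₁ + 1 ≤ C s₁ ∧ M s₂ + 1 ≤ C s₂ := by
  classical
  have h5 : ∀ s ∈ S, U s < 2 * ν₀ := by
    intro s hs
    obtain ⟨a, ha, a', ha', hne⟩ := h2
    obtain ⟨s', hs', hne'⟩ : ∃ s' ∈ S, s ≠ s' := by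
      by_cases h : s = a
      · exact ⟨a', ha', by rw [h]; exact hne⟩
      · exact ⟨a, ha, h⟩
    have h6 : U s + U s' ≤ ∑ s ∈ S, U s := by
      rw [← Finset.sum_pair hne']
      refine Finset.sum_le_sum_of_subset ?_
      intro z hz
      rcases Finset.mem_insert.1 hz with rfl | hz
      · exact hs
      · rw [Finset.mem_singleton.1 hz]
        exact hs'
    have h7 := hpos s' hs'
    omega
  have h6 : 2 ≤ (S.filter fun s => M s + 1 ≤ C s).card := by
    have h7 : ∑ s ∈ S, C s ≤ ∑ s ∈ S, (M s + if M s + 1 ≤ C s then 1 else 0) := by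
      refine Finset.sum_le_sum fun s hs => ?_
      have h8 := h3 s hs (h5 s hs)
      split_ifs with h9
      · exact h8
      · omega
    rw [Finset.sum_add_distrib, ← Finset.card_filter, hC] at h7
    omega
  obtain ⟨s₁, hs₁, s₂, hs₂, hne⟩ := Finset.one_lt_card.1 h6
  obtain ⟨h7, h8⟩ := Finset.mem_filter.1 hs₁
  obtain ⟨h9, h10⟩ := Finset.mem_filter.1 hs₂
  have h11 := h4 s₁ h7 h8
  have h12 := h4 s₂ h9 h10
  have h13 : U s₁ + U s₂ ≤ ∑ s ∈ S, U s := by
    rw [← Finset.sum_pair hne]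
    refine Finset.sum_le_sum_of_subset ?_
    intro z hz
    rcases Finset.mem_insert.1 hz with rfl | hz
    · exact h7
    · rw [Finset.mem_singleton.1 hz]
      exact h9
  refine ⟨s₁, s₂, hne, h7, h9, fun s hs => ?_, by omega, by omega, h8, h10⟩
  by_contra hcon
  push Not at hcon
  have h14 : U s + (U s₁ + U s₂) ≤ ∑ s ∈ S, U s := by
    have h15 : s ∉ ({s₁, s₂} : Finset α) := by
      rw [Finset.mem_insert, Finset.mem_singleton]
      push Not
      exact hcon
    rw [← Finset.sum_pair hne, ← Finset.sum_insert h15]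
    refine Finset.sum_le_sum_of_subset ?_
    intro z hz
    rcases Finset.mem_insert.1 hz with rfl | hz
    · exact hs
    rcases Finset.mem_insert.1 hz with rfl | hz
    · exact h7
    · rw [Finset.mem_singleton.1 hz]
      exact h9
  have h15 := hpos s hs
  omega

section main

variable {Q : Type} [Fintype Q] {d : ℕ} {K : Type} [Field K] [Algebra ℂ K] {n : ℕ}
  {x : Fin d → K} {f : Q → Lau d}

omit [Fintype Q] in
theorem map_ev {F : Type} [Field F] [Algebra ℂ F] (emb : K →ₐ[ℂ] F) (g : Lau d) (y : Fin d → K) :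
    emb (ev g y) = ev g (fun j => emb (y j)) := by
  unfold ev mon
  rw [map_sum]
  refine Finset.sum_congr rfl fun u _ => ?_
  rw [map_mul, AlgHom.commutes, map_prod]
  simp only [map_zpow₀]

/-- the reduced solutions are large -/
def RedGe (x : Fin d → K) (f : Q → Lau d) (N : ℕ) : Prop :=
  ∀ (F : Type) [Field F] [Algebra ℂ F] [IsAlgClosed F] (emb : K →ₐ[ℂ] F) (ι : Type) [Fintype ι]
    (b : ι → Fin d → ℤ) (t : ι → F), Nonempty ι → (∀ i, b i ≠ 0) → ∑ i, b i = 0 →
    Function.Injective t → Sol f (fun j => emb (x j)) b t → N ≤ nu f b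

/-- a solution whose curve moves is large -/
theorem ge_of_moves (D : Data K n d Q x f) {N : ℕ} (hred : RedGe x f N) {F : Type} [Field F]
    [Algebra ℂ F] [IsAlgClosed F] (emb : K →ₐ[ℂ] F) {ι : Type} [Fintype ι] {b : ι → Fin d → ℤ}
    (hb : ∑ i, b i = 0) {t : ι → F} (hs : Sol f (fun j => emb (x j)) b t) (hm : Moves b t) :
    N ≤ nu f b := by
  have hy : ∀ j, emb (x j) ≠ 0 := fun j => by simpa using D.ne j
  obtain ⟨ι', hι', b', t', h1, h2, h3, h4, h5, -, h6, -⟩ := exists_red D.nz hy hb hs hm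
  exact (hred F emb ι' b' t' h1 h2 h3 h4 h5).trans h6

/-- (D) -/
theorem delta_le (D : Data K n d Q x f) {ν₀ : ℕ}
    (hν₀ : ∀ (κ : Type) [Fintype κ] (c : κ → Fin d → ℤ), IsPk f c → ν₀ ≤ nu f c)
    (hred : RedGe x f (2 * ν₀)) {ι : Type} [Fintype ι] (b : ι → Fin d → ℤ) (hb : ∀ i, b i ≠ 0)
    (hb0 : ∑ i, b i = 0) (hnu : nu f b < 2 * ν₀) :
    Fintype.card ι ≤ ∑ q, dg f b q + 1 := by
  by_contra hcon
  let emb : K →ₐ[ℂ] AlgebraicClosure K := IsScalarTower.toAlgHom ℂ K (AlgebraicClosure K)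
  have hy : ∀ j, emb (x j) ≠ 0 := fun j => by simpa using D.ne j
  have hfy : ∀ q, ev (f q) (fun j => emb (x j)) = 0 := fun q => by
    rw [← map_ev, D.eq q, map_zero]
  obtain ⟨t, h1, h2⟩ := exists_curve D.nz hy hfy ν₀ hν₀ (nu f b + 1) ι b hb hb0 (by omega) hnu
    (Nat.lt_succ_self _)
  have h3 := ge_of_moves D hred emb hb0 h1 h2
  omega

omit [Fintype Q] in
theorem dg_double {ι : Type} [Fintype ι] (b : ι → Fin d → ℤ) (q : Q) :
    dg f (fun i : ι × Bool => b i.1) q = 2 * dg f b q := by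
  unfold dg
  rw [Fintype.sum_prod_type]
  simp only [Fintype.sum_bool]
  rw [Finset.sum_add_distrib]
  omega

theorem nu_double {ι : Type} [Fintype ι] (b : ι → Fin d → ℤ) :
    nu f (fun i : ι × Bool => b i.1) = 2 * nu f b := by
  unfold nu
  rw [Fintype.sum_prod_type]
  simp only [Fintype.sum_bool, dg_double]
  rw [Finset.sum_add_distrib, ← Finset.mul_sum]
  ring

theorem sum_double {ι : Type} [Fintype ι] (b : ι → Fin d → ℤ) (hb : ∑ i, b i = 0) :
    ∑ i : ι × Bool, b i.1 = 0 := by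
  rw [Fintype.sum_prod_type]
  simp only [Fintype.sum_bool]
  rw [Finset.sum_add_distrib, hb, add_zero]

theorem mult_double {ι : Type} [Fintype ι] (b : ι → Fin d → ℤ) (v : Fin d → ℤ) :
    mult (fun i : ι × Bool => b i.1) v = 2 * mult b v := by
  classical
  unfold mult
  rw [Finset.card_filter, Finset.card_filter, Fintype.sum_prod_type]
  simp only [Fintype.sum_bool]
  rw [Finset.sum_add_distrib]
  ring

open Classical in
theorem mult_part {ι F : Type} [Fintype ι] (b : ι → Fin d → ℤ) (t : ι → F) (s : F)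
    (v : Fin d → ℤ) : mult (fun i : {i // t i = s} => b i) v =
      ((Finset.univ.filter fun i => t i = s).filter fun i => b i = v).card := by
  unfold mult
  rw [Finset.card_filter, Finset.card_filter]
  rw [Finset.sum_subtype (Finset.univ.filter (fun i => t i = s)) (p := fun i => t i = s)
    (by simp) (fun i => if b i = v then 1 else 0)]

/-- the parts of the type `b₀` -/
theorem const_of_sol (D : Data K n d Q x f) {ν₀ : ℕ}
    (hν₀ : ∀ (κ : Type) [Fintype κ] (c : κ → Fin d → ℤ), IsPk f c → ν₀ ≤ nu f c)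
    (hred : RedGe x f (2 * ν₀)) {F : Type} [Field F] [Algebra ℂ F] [IsAlgClosed F]
    (emb : K →ₐ[ℂ] F) {ι : Type} [Fintype ι] {b : ι → Fin d → ℤ} (hb : IsPk f b)
    (hnu : nu f b = ν₀) (hcard : Fintype.card ι = ∑ q, dg f b q + 1) (hpos : 0 < ν₀) {t : ι → F}
    (hs : Sol f (fun j => emb (x j)) b t) : ∀ i j, t i = t j := by
  classical
  by_contra hcon
  push Not at hcon
  obtain ⟨i, j, hij⟩ := hcon
  by_cases hm : Moves b t
  · have h1 := ge_of_moves D hred emb hb.2.1 hs hm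
    omega
  have hdg : ∑ s ∈ Finset.univ.image t, ∑ q, dg f (fun i : {i // t i = s} => b i) q =
      ∑ q, dg f b q := by
    rw [Finset.sum_comm]
    exact Finset.sum_congr rfl fun q _ => dg_fibres D.nz hb.2.1 t hm q
  have hnu' := nu_fibres D.nz hb.2.1 t hm
  have hc := card_fibres t
  obtain ⟨s, hs1, hs2⟩ : ∃ s ∈ Finset.univ.image t,
      ∑ q, dg f (fun i : {i // t i = s} => b i) q < Fintype.card {i // t i = s} := by
    by_contra h
    push Not at h
    have h1 := Finset.sum_le_sum h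
    omega
  have h1 : ν₀ ≤ nu f (fun i : {i // t i = s} => b i) :=
    hν₀ _ _ ⟨fun i => hb.1 i, part_sum hm s, hs2⟩
  obtain ⟨s', hs3, hs4⟩ : ∃ s' ∈ Finset.univ.image t, s ≠ s' := by
    by_cases h : s = t i
    · exact ⟨t j, Finset.mem_image_of_mem _ (Finset.mem_univ _), by rw [h]; exact hij⟩
    · exact ⟨t i, Finset.mem_image_of_mem _ (Finset.mem_univ _), h⟩
  have h2 : 0 < nu f (fun i : {i // t i = s'} => b i) := by
    obtain ⟨l, -, hl⟩ := Finset.mem_image.1 hs3
    have : Nonempty {i // t i = s'} := ⟨⟨l, hl⟩⟩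
    exact nu_pos f fun i => hb.1 i
  have h3 : nu f (fun i : {i // t i = s} => b i) + nu f (fun i : {i // t i = s'} => b i) ≤
      ∑ s ∈ Finset.univ.image t, nu f (fun i : {i // t i = s} => b i) := by
    rw [← Finset.sum_pair (f := fun s => nu f (fun i : {i // t i = s} => b i)) hs4]
    refine Finset.sum_le_sum_of_subset ?_
    intro z hz
    rcases Finset.mem_insert.1 hz with rfl | hz
    · exact hs1
    · rw [Finset.mem_singleton.1 hz]
      exact hs3
  omega

open Classical in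
/-- the type `b₀ ∘ fst` -/
theorem sol_double (D : Data K n d Q x f) {ν₀ : ℕ}
    (hν₀ : ∀ (κ : Type) [Fintype κ] (c : κ → Fin d → ℤ), IsPk f c → ν₀ ≤ nu f c)
    (hred : RedGe x f (2 * ν₀)) {F : Type} [Field F] [Algebra ℂ F] [IsAlgClosed F]
    (emb : K →ₐ[ℂ] F) {ι : Type} [Fintype ι] {b : ι → Fin d → ℤ} (hb : IsPk f b)
    (hnu : nu f b = ν₀) (hcard : Fintype.card ι = ∑ q, dg f b q + 1)
    (hmax : ∀ (κ : Type) [Fintype κ] (c : κ → Fin d → ℤ), IsPk f c → nu f c = ν₀ →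
      sqs c ≤ sqs b) {t : ι × Bool → F}
    (hs : Sol f (fun j => emb (x j)) (fun i => b i.1) t) (hne : ∃ i j, t i ≠ t j) :
    (∃ s₁ s₂ : F, s₁ ≠ s₂ ∧ (∀ i, t i = s₁ ∨ t i = s₂) ∧
      ∀ v, mult (fun i : {i // t i = s₁} => b i.1.1) v = mult b v) ∨ Function.Injective t := by
  classical
  have hb2 : ∀ i : ι × Bool, b i.1 ≠ 0 := fun i => hb.1 i.1
  have hb20 := sum_double b hb.2.1
  have hnu2 : nu f (fun i : ι × Bool => b i.1) = 2 * ν₀ := by rw [nu_double, hnu]
  have hcard2 : Fintype.card (ι × Bool) = 2 * Fintype.card ι := by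
    rw [Fintype.card_prod, Fintype.card_bool, mul_comm]
  by_cases hm : Moves (fun i : ι × Bool => b i.1) t
  · right
    have hy : ∀ j, emb (x j) ≠ 0 := fun j => by simpa using D.ne j
    obtain ⟨ι', hι', b', t', h1, h2, h3, h4, h5, h6, h7, -, h8, h9⟩ :=
      exists_red D.nz hy hb20 hs hm
    have h10 := hred F emb ι' b' t' h1 h2 h3 h4 h5
    have h11 := h8 (by omega)
    have hne' : ∃ i j, t' i ≠ t' j := by
      obtain ⟨i⟩ := h1
      by_contra hcon
      push Not at hcon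
      apply h2 i
      rw [← h3]
      symm
      refine Finset.sum_eq_single i (fun j _ hj => ?_) (fun h => absurd (Finset.mem_univ i) h)
      exact absurd (h4 (hcon j i)) hj
    have h12 := card_of_free h5 (fun q p hp => coef_deg D.nz h3 _ q p hp)
      (free_at D emb h3 h4 h5) hne'
    have h13 : ∑ q, dg f b' q = 2 * ∑ q, dg f b q := by
      rw [Finset.mul_sum]
      exact Finset.sum_congr rfl fun q _ => by rw [h11 q, dg_double]
    exact h9 (by omega)
  · left
    have hdg : ∑ s ∈ Finset.univ.image t, ∑ q, dg f (fun i : {i // t i = s} => b i.1.1) q =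
        2 * ∑ q, dg f b q := by
      rw [Finset.sum_comm, Finset.mul_sum]
      refine Finset.sum_congr rfl fun q _ => ?_
      rw [← dg_double]
      exact dg_fibres D.nz hb20 t hm q
    have hnu' := nu_fibres D.nz hb20 t hm
    have hc := card_fibres t
    obtain ⟨s₁, s₂, h1, h2, h3, h4, h5, h6, h7, h8⟩ := two_parts (Finset.univ.image t)
      (fun s => Fintype.card {i // t i = s})
      (fun s => ∑ q, dg f (fun i : {i // t i = s} => b i.1.1) q)
      (fun s => nu f (fun i : {i // t i = s} => b i.1.1)) ν₀ (by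
        rw [hdg, hc, hcard2, hcard]
        ring) (by rw [hnu', hnu2]) (by
        intro s hs'
        obtain ⟨l, -, hl⟩ := Finset.mem_image.1 hs'
        have : Nonempty {i // t i = s} := ⟨⟨l, hl⟩⟩
        exact nu_pos f fun i => hb2 i) (by
        obtain ⟨i, j, hij⟩ := hne
        exact ⟨t i, Finset.mem_image_of_mem _ (Finset.mem_univ _), t j,
          Finset.mem_image_of_mem _ (Finset.mem_univ _), hij⟩)
      (fun s _ hs' => delta_le D hν₀ hred _ (fun i => hb2 i) (part_sum hm s) hs')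
      (fun s _ hs' => hν₀ _ _ ⟨fun i => hb2 i, part_sum hm s, hs'⟩)
    have hpk1 : IsPk f (fun i : {i // t i = s₁} => b i.1.1) :=
      ⟨fun i => hb2 i, part_sum hm s₁, h7⟩
    have hpk2 : IsPk f (fun i : {i // t i = s₂} => b i.1.1) :=
      ⟨fun i => hb2 i, part_sum hm s₂, h8⟩
    have hm1 := hmax _ _ hpk1 h5
    have hm2 := hmax _ _ hpk2 h6
    have h9 : ∀ i, t i = s₁ ∨ t i = s₂ := fun i =>
      h4 _ (Finset.mem_image_of_mem _ (Finset.mem_univ _))
    have h10 : ∀ v, mult (fun i : {i // t i = s₁} => b i.1.1) v +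
        mult (fun i : {i // t i = s₂} => b i.1.1) v = 2 * mult b v := by
      intro v
      rw [← mult_double, mult_part (fun i : ι × Bool => b i.1) t s₁ v,
        mult_part (fun i : ι × Bool => b i.1) t s₂ v]
      unfold mult
      rw [← Finset.card_union_of_disjoint]
      · congr 1
        ext i
        simp only [Finset.mem_union, Finset.mem_filter, Finset.mem_univ, true_and]
        have := h9 i
        tauto
      · rw [Finset.disjoint_left]
        intro i hi hi'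
        simp only [Finset.mem_filter, Finset.mem_univ, true_and] at hi hi'
        exact h1 (hi.1.symm.trans hi'.1)
    refine ⟨s₁, s₂, h1, h9, fun v => ?_⟩
    set V : Finset (Fin d → ℤ) := insert v (Finset.univ.image b) with hV
    have hVb : ∀ i, b i ∈ V := fun i =>
      Finset.mem_insert_of_mem (Finset.mem_image_of_mem _ (Finset.mem_univ _))
    rw [sqs_eq _ V (fun i => hVb _), sqs_eq b V hVb] at hm1 hm2
    exact parallelogram V (mult b) _ _ (fun v _ => h10 v) hm1 hm2 v (Finset.mem_insert_self _ _)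

end main

end MinII

open MinII in
/-- case (ii) of `exists_min` -/
theorem min_caseII {Q : Type} [Fintype Q] {d : ℕ} {K : Type} [Field K] [Algebra ℂ K] {n : ℕ}
    {x : Fin d → K} {f : Q → Lau d} (D : Data K n d Q x f) {ν₀ : ℕ}
    (hpk : ∃ (ι : Type) (_ : Fintype ι) (b : ι → Fin d → ℤ), IsPk f b ∧ nu f b = ν₀)
    (hν₀ : ∀ (κ : Type) [Fintype κ] (c : κ → Fin d → ℤ), IsPk f c → ν₀ ≤ nu f c)
    (hred : ∀ (F : Type) [Field F] [Algebra ℂ F] [IsAlgClosed F] (emb : K →ₐ[ℂ] F) (ι : Type)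
      [Fintype ι] (b : ι → Fin d → ℤ) (t : ι → F), Nonempty ι → (∀ i, b i ≠ 0) →
      ∑ i, b i = 0 → Function.Injective t → Sol f (fun j => emb (x j)) b t →
      2 * ν₀ ≤ nu f b) : CaseII x f := by
  classical
  have hred' : RedGe x f (2 * ν₀) := hred
  obtain ⟨ι, hι, b, h1, h2, h3⟩ := exists_max f hpk
  have hpos : 0 < ν₀ := by
    have h4 := card_le_nu f b h1.1
    have h5 := h1.2.2
    omega
  have hcard : Fintype.card ι = ∑ q, dg f b q + 1 :=
    le_antisymm (delta_le D hν₀ hred' b h1.1 h1.2.1 (by omega)) h1.2.2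
  refine ⟨ι, hι, b, h1.1, h1.2.1, hcard, fun F _ _ _ emb => ⟨fun t ht => ?_, fun t ht => ?_⟩⟩
  · exact const_of_sol D hν₀ hred' emb h1 h2 hcard hpos ht
  · by_cases hne : ∃ i j, t i ≠ t j
    · right
      rcases sol_double D hν₀ hred' emb h1 h2 hcard h3 ht hne with ⟨s₁, s₂, h4, h5, h6⟩ | h4
      · left
        refine ⟨Finset.univ.filter fun i => t i = s₁, s₁, s₂, h4, fun i hi => ?_,
          fun i hi => ?_, fun v => ?_⟩
        · exact (Finset.mem_filter.1 hi).2
        · rcases h5 i with h7 | h7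
          · exact absurd (Finset.mem_filter.2 ⟨Finset.mem_univ i, h7⟩) hi
          · exact h7
        · have h7 := h6 v
          rw [mult_part (fun i : ι × Bool => b i.1) t s₁ v] at h7
          exact h7
      · right
        exact h4
    · left
      push Not at hne
      exact hne


end Pool.Agent.Work.CW
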