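import Mathlib
import Pool.Agent.Work.MP_4329d7_ag_w.MinI
import Pool.Agent.Work.MP_4329d7_ag_w.MinII

/-!
Module W-Min (R3), assembly (helper11).
-/

namespace Pool.Agent.Work.CW

open Polynomial Pool.Agent.Work.Uni Pool.Agent.Work.CI

variable {Q : Type} [Fintype Q] {d : ℕ} {K : Type} [Field K] [Algebra ℂ K] {n : ℕ}
  {x : Fin d → K} {f : Q → Lau d}

theorem exists_min_all (D : Data K n d Q x f)
    (h : ∃ (ι : Type) (_ : Fintype ι) (b : ι → Fin d → ℤ), IsPk f b) :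
    CaseI x f ∨ CaseII x f := by
  classical
  have h1 : ∃ m, ∃ (ι : Type) (_ : Fintype ι) (b : ι → Fin d → ℤ), IsPk f b ∧ nu f b = m := by
    obtain ⟨ι, hι, b, h⟩ := h
    exact ⟨_, ι, hι, b, h, rfl⟩
  have hν₀ : ∀ (κ : Type) [Fintype κ] (c : κ → Fin d → ℤ), IsPk f c → Nat.find h1 ≤ nu f c :=
    fun κ _ c hc => Nat.find_min' h1 ⟨κ, _, c, hc, rfl⟩
  by_cases hex : ∃ (F : Type) (_ : Field F) (_ : Algebra ℂ F) (_ : IsAlgClosed F)
      (emb : K →ₐ[ℂ] F) (ι : Type) (_ : Fintype ι) (b : ι → Fin d → ℤ) (t : ι → F),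
      Nonempty ι ∧ (∀ i, b i ≠ 0) ∧ ∑ i, b i = 0 ∧ Function.Injective t ∧
      Sol f (fun j => emb (x j)) b t ∧ nu f b < 2 * Nat.find h1
  · exact Or.inl (min_caseI D hν₀ hex)
  · refine Or.inr (min_caseII D (Nat.find_spec h1) hν₀ ?_)
    intro F _ _ _ emb ι _ b t h2 h3 h4 h5 h6
    by_contra h7
    exact hex ⟨F, _, _, ‹_›, emb, ι, _, b, t, h2, h3, h4, h5, h6, not_le.1 h7⟩

end Pool.Agent.Work.CW
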