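import Mathlib
import Pool.Agent.Work.MP_4329d7_ag_uni.Crit
import Pool.Agent.Work.MP_4329d7_ag_uni.Sys

/-!
Module W-ExFree: if there are at least 2 more types than moving relations then there is a solution
which is neither constant nor split (`spec_bound` and `num_ineq`, as in `crit_of_star`).
-/

namespace Pool.Agent.Work.CW

open Polynomial Pool.Agent.Work.Uni

open scoped Nat

/-- solutions may be reindexed -/
theorem isSol_equiv {k ι ι' Pt Q : Type} [Field k] [Fintype ι] [Fintype ι'] [Fintype Pt]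
    (a : Q → Pt → k) (β : ι' → Pt → ℕ) (e : ι ≃ ι') (t : ι' → k)
    (ht : IsSol a β t) : IsSol a (fun i => β (e i)) (fun i => t (e i)) := by
  intro q
  rw [← ht q]
  refine Finset.sum_congr rfl fun p _ => ?_
  congr 1
  unfold rootPoly
  exact Equiv.prod_comp e (fun i' => (X - C (t i')) ^ β i' p)

/-- a set with given numbers of elements of each type is the standard one -/
theorem exists_std {ι Ty : Type} [Fintype ι] [DecidableEq ι] [DecidableEq Ty] (τ : ι → Ty)
    (n : Ty → ℕ) (hn : ∀ y, (Finset.univ.filter fun i => τ i = y).card = n y) :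
    ∃ e : ι ≃ Σ y, Fin (n y), ∀ i, (e i).1 = τ i := by
  have h1 : ∀ y, Fintype.card {i // τ i = y} = n y := fun y => by
    rw [← hn y, Fintype.card_subtype]
  exact ⟨(Equiv.sigmaFiberEquiv τ).symm.trans
    (Equiv.sigmaCongrRight fun y => Fintype.equivFinOfCardEq (h1 y)), fun i => rfl⟩

/-- the number of splittings, for any type map -/
theorem card_splittings' {ι Ty : Type} [Fintype ι] [DecidableEq ι] [Fintype Ty] [DecidableEq Ty]
    (τ : ι → Ty) (lam : Ty → ℕ)
    (hτ : ∀ y, (Finset.univ.filter fun i => τ i = y).card = 2 * lam y) :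
    (Finset.univ.filter fun G : Finset ι =>
      ∀ y, (G.filter fun i => τ i = y).card = lam y).card = ∏ y, (2 * lam y).choose (lam y) := by
  classical
  obtain ⟨e, he⟩ := exists_std τ (fun y => 2 * lam y) hτ
  rw [← card_splittings lam]
  have hmap : ∀ (G : Finset ι) (y : Ty),
      ((G.map e.toEmbedding).filter fun i => i.1 = y).card = (G.filter fun i => τ i = y).card := by
    intro G y
    rw [Finset.filter_map, Finset.card_map]
    congr 1
    refine Finset.filter_congr fun i _ => ?_
    show (e i).1 = y ↔ τ i = y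
    rw [he]
  refine Finset.card_bij (fun G _ => G.map e.toEmbedding) ?_ ?_ ?_
  · intro G hG
    rw [Finset.mem_filter] at hG ⊢
    exact ⟨Finset.mem_univ _, fun y => by rw [hmap]; exact hG.2 y⟩
  · intro G _ G' _ h
    exact Finset.map_injective _ h
  · intro G hG
    rw [Finset.mem_filter] at hG
    have h2 : (G.map e.symm.toEmbedding).map e.toEmbedding = G := by
      rw [Finset.map_map]
      ext i
      simp
    refine ⟨G.map e.symm.toEmbedding, ?_, h2⟩
    rw [Finset.mem_filter]
    refine ⟨Finset.mem_univ _, fun y => ?_⟩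
    rw [← hmap, h2]
    exact hG.2 y

/-- the Bezout count, when all solutions are constant or split -/
theorem bound_of_split {k ι Pt Q Ty : Type} [Field k] [IsAlgClosed k] [CharZero k] [Fintype ι]
    [DecidableEq ι] [Fintype Pt] [Fintype Q] [Fintype Ty] [DecidableEq Ty]
    (a : Q → Pt → k) (hsum : ∀ q, ∑ p, a q p = 0) (b : Ty → Pt → ℕ) (lam : Ty → ℕ)
    (mq : Q → ℕ) (hdeg : ∀ q p, a q p ≠ 0 → ∑ y, lam y * b y p = mq q)
    (hδ : ∑ y, lam y = ∑ q, mq q + 1)
    (hconst : ∀ t : (Σ y, Fin (lam y)) → k, IsSol a (fun i => b i.1) t → ∀ i j, t i = t j)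
    (τ : ι → Ty) (hτ : ∀ y, (Finset.univ.filter fun i => τ i = y).card = 2 * lam y)
    (hsplit : ∀ t : ι → k, IsSol a (fun i => b (τ i)) t → (∃ i j, t i ≠ t j) →
      ∃ (G : Finset ι) (s₁ s₂ : k), s₁ ≠ s₂ ∧ (∀ i ∈ G, t i = s₁) ∧ (∀ i, i ∉ G → t i = s₂) ∧
        ∀ y, (G.filter fun i => τ i = y).card = lam y) :
    2 * ∏ q, (2 * mq q)! ≤ (∏ y, (2 * lam y).choose (lam y)) * (∏ q, (mq q)!) ^ 2 := by
  classical
  rw [← card_splittings' τ lam hτ]
  have hmem : ∀ G : Finset ι, G ∈ (Finset.univ.filter fun G : Finset ι =>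
      ∀ y, (G.filter fun i => τ i = y).card = lam y) ↔
      ∀ y, (G.filter fun i => τ i = y).card = lam y := fun G => by
    rw [Finset.mem_filter]
    exact ⟨fun h => h.2, fun h => ⟨Finset.mem_univ _, h⟩⟩
  refine spec_bound a hsum (fun i => b (τ i)) mq (∑ y, lam y) hδ.symm _
    ?_ ?_ ?_ ?_ ?_ ?_ ?_
  · rw [← Finset.card_univ, card_by_types Finset.univ τ, Finset.mul_sum]
    exact Finset.sum_congr rfl fun y _ => hτ y
  · intro G hG
    rw [hmem] at hG
    rw [card_by_types G τ]
    exact Finset.sum_congr rfl fun y _ => hG y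
  · intro G hG
    rw [hmem] at hG ⊢
    intro y
    have h1 := hG y
    have h2 := hτ y
    have h3 := compl_types G τ y
    omega
  · intro q p h
    rw [sum_types, ← hdeg q p h, Finset.mul_sum]
    exact Finset.sum_congr rfl fun y _ => by rw [hτ]; ring
  · intro G hG q p h
    rw [hmem] at hG
    rw [sum_types, ← hdeg q p h]
    exact Finset.sum_congr rfl fun y _ => by rw [hG y]
  · intro G hG t ht i j
    rw [hmem] at hG
    obtain ⟨e, he⟩ := exists_std (fun i : G => τ i.1) lam (by
      intro y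
      rw [← hG y]
      refine Finset.card_bij (fun i _ => i.1) ?_ ?_ ?_
      · intro i hi
        rw [Finset.mem_filter] at hi ⊢
        exact ⟨i.2, hi.2⟩
      · intro i _ j _ h
        exact Subtype.ext h
      · intro i hi
        rw [Finset.mem_filter] at hi
        refine ⟨⟨i, hi.1⟩, ?_, rfl⟩
        rw [Finset.mem_filter]
        exact ⟨Finset.mem_univ _, hi.2⟩)
    have h1 := isSol_equiv a (fun i : G => b (τ i.1)) e.symm t ht
    have h2 : (fun i : (Σ y, Fin (lam y)) => b (τ (e.symm i).1)) = fun i => b i.1 := by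
      funext i
      have h3 := he (e.symm i)
      rw [Equiv.apply_symm_apply] at h3
      rw [h3]
    rw [h2] at h1
    have h4 := hconst _ h1 (e i) (e j)
    simpa using h4
  · intro t ht
    by_cases hc : ∀ i j, t i = t j
    · exact Or.inl hc
    right
    push Not at hc
    obtain ⟨G, s1, s2, hne, hG1, hG2, hG3⟩ := hsplit t ht hc
    exact ⟨G, (hmem G).2 hG3, s1, s2, hne, hG1, hG2⟩

/-- if there are at least 2 more types than moving relations then there is a solution which is
neither constant nor split (`spec_bound` and `num_ineq`, as in `crit_of_star`) -/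
theorem exists_free {k ι Pt Q Ty : Type} [Field k] [IsAlgClosed k] [CharZero k] [Fintype ι]
    [DecidableEq ι] [Fintype Pt] [Fintype Q] [Fintype Ty] [DecidableEq Ty]
    (a : Q → Pt → k) (hsum : ∀ q, ∑ p, a q p = 0) (b : Ty → Pt → ℕ) (lam : Ty → ℕ)
    (hlam : ∀ y, 1 ≤ lam y) (mq : Q → ℕ) (hdeg : ∀ q p, a q p ≠ 0 → ∑ y, lam y * b y p = mq q)
    (hδ : ∑ y, lam y = ∑ q, mq q + 1)
    (hconst : ∀ t : (Σ y, Fin (lam y)) → k, IsSol a (fun i => b i.1) t → ∀ i j, t i = t j)
    (τ : ι → Ty) (hτ : ∀ y, (Finset.univ.filter fun i => τ i = y).card = 2 * lam y)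
    (hT : (Finset.univ.filter fun q => 1 ≤ mq q).card + 2 ≤ Fintype.card Ty) :
    ∃ t : ι → k, IsSol a (fun i => b (τ i)) t ∧ (∃ i j, t i ≠ t j) ∧
      ¬ ∃ (G : Finset ι) (s₁ s₂ : k), s₁ ≠ s₂ ∧ (∀ i ∈ G, t i = s₁) ∧ (∀ i, i ∉ G → t i = s₂) ∧
        ∀ y, (G.filter fun i => τ i = y).card = lam y := by
  classical
  by_contra hcon
  have hsplit : ∀ t : ι → k, IsSol a (fun i => b (τ i)) t → (∃ i j, t i ≠ t j) →
      ∃ (G : Finset ι) (s₁ s₂ : k), s₁ ≠ s₂ ∧ (∀ i ∈ G, t i = s₁) ∧ (∀ i, i ∉ G → t i = s₂) ∧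
        ∀ y, (G.filter fun i => τ i = y).card = lam y := by
    intro t ht hne
    by_contra hG
    exact hcon ⟨t, ht, hne, hG⟩
  have hR : ∀ J, 1 ≤ J → ∑ q, min (mq q) J + 1 ≤ ∑ y, min (lam y) J := by
    intro J hJ
    have h1 := truncated a hsum b lam mq hdeg J hJ hconst
    have h2 : ∑ y, (lam y - min (lam y) J) + ∑ y, min (lam y) J = ∑ y, lam y := by
      rw [← Finset.sum_add_distrib]
      exact Finset.sum_congr rfl fun y _ => by omega
    have h3 : ∑ q, (mq q - min (mq q) J) + ∑ q, min (mq q) J = ∑ q, mq q := by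
      rw [← Finset.sum_add_distrib]
      exact Finset.sum_congr rfl fun y _ => by omega
    omega
  have hstrict : ∃ J, 1 ≤ J ∧ ∑ q, min (mq q) J + 2 ≤ ∑ y, min (lam y) J := by
    refine ⟨1, le_refl 1, ?_⟩
    have h1 : ∑ q, min (mq q) 1 = (Finset.univ.filter fun q => 1 ≤ mq q).card := by
      rw [Finset.card_filter]
      refine Finset.sum_congr rfl fun q _ => ?_
      split_ifs with h
      · exact min_eq_right h
      · rw [min_eq_left] <;> omega
    have h2 : ∑ y, min (lam y) 1 = Fintype.card Ty := by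
      rw [Finset.sum_congr rfl (g := fun _ => 1) fun y _ => min_eq_right (hlam y)]
      simp
    rw [h1, h2]
    exact hT
  have hlt := num_ineq lam mq hδ hR hstrict
  have hbound := bound_of_split a hsum b lam mq hdeg hδ hconst τ hτ hsplit
  exact absurd hlt (not_lt.2 hbound)

end Pool.Agent.Work.CW
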