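import Mathlib
import Pool.Agent.Work.MP_4329d7_ag_uni.Num
import Pool.Agent.Work.MP_4329d7_ag_uni.Sys

/-!
The numerical inequality of `bezB`: a gain of a factor `2 / 3` for every further type.
-/

open scoped Nat

namespace Pool.Agent.Work.CW

open Polynomial Pool.Agent.Work.Uni

theorem logCB_two : logCB 2 = Real.log 6 := by
  have h : Nat.centralBinom 2 = 6 := by decide
  rw [logCB, h]
  norm_num

theorem logCB_first : (logCB (0 + 1) - logCB 0) - (logCB (0 + 2) - logCB (0 + 1)) =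
    -Real.log (3 / 2) := by
  rw [Nat.zero_add, Nat.zero_add, logCB_zero, logCB_one, logCB_two,
    show (6 : ℝ) = 2 * 3 by norm_num, Real.log_mul (by norm_num) (by norm_num),
    Real.log_div (by norm_num) (by norm_num)]
  ring

theorem sum_logCB_le {Ty Q : Type*} [Fintype Ty] [Fintype Q] (lam : Ty → ℕ) (mq : Q → ℕ)
    (hsum : ∑ y, lam y = ∑ q, mq q + 1)
    (hR : ∀ J, 1 ≤ J → ∑ q, min (mq q) J + 1 ≤ ∑ y, min (lam y) J) (n : ℕ)
    (hn : ∑ q, min (mq q) 1 + (n + 1) ≤ ∑ y, min (lam y) 1) :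
    ∑ y, logCB (lam y) + n * Real.log (3 / 2) ≤ logCB 1 + ∑ q, logCB (mq q) := by
  classical
  obtain ⟨X, hX⟩ : ∃ X, X = ∑ y, lam y + ∑ q, mq q + 1 := ⟨_, rfl⟩
  have hXl : ∀ y, lam y ≤ X := fun y => by
    have := Finset.single_le_sum (f := lam) (fun i _ => Nat.zero_le _) (Finset.mem_univ y)
    omega
  have hXm : ∀ q, mq q ≤ X := fun q => by
    have := Finset.single_le_sum (f := mq) (fun i _ => Nat.zero_le _) (Finset.mem_univ q)
    omega
  have e1 : ∑ y, logCB (lam y) = (logCB (X + 1) - logCB X) * (∑ y, lam y : ℕ) +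
      ∑ J ∈ Finset.range X, ((logCB (J + 1) - logCB J) - (logCB (J + 2) - logCB (J + 1))) *
        ((∑ y, min (lam y) (J + 1) : ℕ) : ℝ) := by
    rw [Finset.sum_congr rfl fun y _ => abel_min logCB logCB_zero X (lam y) (hXl y),
      Finset.sum_add_distrib, Finset.sum_comm, ← Finset.mul_sum]
    push_cast
    simp only [Finset.mul_sum]
  have e2 : ∑ q, logCB (mq q) = (logCB (X + 1) - logCB X) * (∑ q, mq q : ℕ) +
      ∑ J ∈ Finset.range X, ((logCB (J + 1) - logCB J) - (logCB (J + 2) - logCB (J + 1))) *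
        ((∑ q, min (mq q) (J + 1) : ℕ) : ℝ) := by
    rw [Finset.sum_congr rfl fun y _ => abel_min logCB logCB_zero X (mq y) (hXm y),
      Finset.sum_add_distrib, Finset.sum_comm, ← Finset.mul_sum]
    push_cast
    simp only [Finset.mul_sum]
  have e3 := abel_min logCB logCB_zero X 1 (by omega)
  rw [e1, e2, e3, hsum]
  push_cast
  have key : ∑ J ∈ Finset.range X, ((logCB (J + 1) - logCB J) - (logCB (J + 2) - logCB (J + 1))) *
        ((∑ y, min (lam y) (J + 1) : ℕ) : ℝ) ≤
      ∑ J ∈ Finset.range X, (((logCB (J + 1) - logCB J) - (logCB (J + 2) - logCB (J + 1))) *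
        ((min 1 (J + 1) : ℕ) : ℝ) +
      ((logCB (J + 1) - logCB J) - (logCB (J + 2) - logCB (J + 1))) *
        ((∑ q, min (mq q) (J + 1) : ℕ) : ℝ) +
      if J = 0 then -(n * Real.log (3 / 2)) else 0) := by
    apply Finset.sum_le_sum
    intro J _
    have h2 := logCB_conc J
    rw [min_eq_left (show 1 ≤ J + 1 by omega), ← mul_add]
    rcases Nat.eq_zero_or_pos J with rfl | hJ
    · rw [if_pos rfl]
      have h1' : ((∑ q, min (mq q) (0 + 1) + (n + 1) : ℕ) : ℝ) ≤
          ((∑ y, min (lam y) (0 + 1) : ℕ) : ℝ) := by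
        exact_mod_cast hn
      rw [logCB_first]
      have h3 : 0 ≤ Real.log (3 / 2) := Real.log_nonneg (by norm_num)
      have h4 := mul_le_mul_of_nonneg_left h1' h3
      push_cast at h4 ⊢
      nlinarith [h4]
    · rw [if_neg hJ.ne', add_zero]
      have h1 := hR (J + 1) (by omega)
      apply mul_le_mul_of_nonpos_left _ h2.le
      have h1' : ((∑ q, min (mq q) (J + 1) + 1 : ℕ) : ℝ) ≤ ((∑ y, min (lam y) (J + 1) : ℕ) : ℝ) := by
        exact_mod_cast h1
      push_cast at h1' ⊢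
      linarith
  have hlast : ∑ J ∈ Finset.range X, (if J = 0 then -(n * Real.log (3 / 2)) else (0 : ℝ)) =
      -(n * Real.log (3 / 2)) := by
    rw [Finset.sum_ite_eq' (Finset.range X) 0 fun _ => -(n * Real.log (3 / 2)),
      if_pos (Finset.mem_range.2 (by omega))]
  rw [Finset.sum_add_distrib, Finset.sum_add_distrib, hlast] at key
  push_cast at key ⊢
  linarith

/-- a gain of a factor `2 / 3` for every further type -/
theorem num_ineq_pow {Ty Q : Type*} [Fintype Ty] [Fintype Q] (lam : Ty → ℕ) (mq : Q → ℕ)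
    (hsum : ∑ y, lam y = ∑ q, mq q + 1)
    (hR : ∀ J, 1 ≤ J → ∑ q, min (mq q) J + 1 ≤ ∑ y, min (lam y) J) (n : ℕ)
    (hn : ∑ q, min (mq q) 1 + (n + 1) ≤ ∑ y, min (lam y) 1) :
    3 ^ n * (∏ y, (2 * lam y).choose (lam y)) * (∏ q, (mq q)!) ^ 2 ≤
      2 ^ (n + 1) * ∏ q, (2 * mq q)! := by
  have h := sum_logCB_le lam mq hsum hR n hn
  have hp : ∀ x, (0 : ℝ) < Nat.centralBinom x := fun x => by
    exact_mod_cast Nat.centralBinom_pos x
  have h1 : (3 / 2 : ℝ) ^ n * ∏ y, (Nat.centralBinom (lam y) : ℝ) ≤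
      2 * ∏ q, (Nat.centralBinom (mq q) : ℝ) := by
    have h2 : Real.log ((3 / 2 : ℝ) ^ n * ∏ y, (Nat.centralBinom (lam y) : ℝ)) ≤
        Real.log (2 * ∏ q, (Nat.centralBinom (mq q) : ℝ)) := by
      rw [Real.log_mul (by positivity) (Finset.prod_pos fun q _ => hp _).ne', Real.log_pow,
        Real.log_mul (by norm_num) (Finset.prod_pos fun q _ => hp _).ne',
        Real.log_prod (fun y _ => (hp _).ne'), Real.log_prod (fun y _ => (hp _).ne'), ← logCB_one]
      simp only [logCB] at h ⊢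
      linarith
    exact (Real.log_le_log_iff (mul_pos (by positivity) (Finset.prod_pos fun q _ => hp _))
      (mul_pos (by norm_num) (Finset.prod_pos fun q _ => hp _))).1 h2
  have h3 : 3 ^ n * ∏ y, Nat.centralBinom (lam y) ≤
      2 ^ (n + 1) * ∏ q, Nat.centralBinom (mq q) := by
    have h2 : (3 : ℝ) ^ n * ∏ y, (Nat.centralBinom (lam y) : ℝ) ≤
        2 ^ (n + 1) * ∏ q, (Nat.centralBinom (mq q) : ℝ) := by
      have h5 := mul_le_mul_of_nonneg_left h1 (show (0 : ℝ) ≤ 2 ^ n by positivity)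
      rw [← mul_assoc, ← mul_pow, show (2 : ℝ) * (3 / 2) = 3 by norm_num] at h5
      refine h5.trans_eq ?_
      rw [pow_succ]
      ring
    exact_mod_cast h2
  have h4 : ∀ q, (2 * mq q)! = Nat.centralBinom (mq q) * (mq q)! ^ 2 := fun q => by
    have := Nat.choose_mul_factorial_mul_factorial (show mq q ≤ 2 * mq q by omega)
    rw [show 2 * mq q - mq q = mq q by omega] at this
    rw [← this, Nat.centralBinom_eq_two_mul_choose]
    ring
  rw [Finset.prod_congr rfl fun q _ => h4 q, Finset.prod_mul_distrib, Finset.prod_pow,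
    ← mul_assoc]
  apply Nat.mul_le_mul_right
  simpa only [Nat.centralBinom_eq_two_mul_choose] using h3

/-- the inequality needed in `bezB`: at least three more types than moving relations -/
theorem num_ineq_three {Ty Q : Type*} [Fintype Ty] [Fintype Q] (lam : Ty → ℕ)
    (hlam : ∀ y, 1 ≤ lam y) (mq : Q → ℕ) (hsum : ∑ y, lam y = ∑ q, mq q + 1)
    (hR : ∀ J, 1 ≤ J → ∑ q, min (mq q) J + 1 ≤ ∑ y, min (lam y) J)
    (hT : (Finset.univ.filter fun q => 1 ≤ mq q).card + 3 ≤ Fintype.card Ty) :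
    9 * ((∏ y, (2 * lam y).choose (lam y)) * (∏ q, (mq q)!) ^ 2) ≤ 8 * ∏ q, (2 * mq q)! := by
  classical
  have h := num_ineq_pow lam mq hsum hR 2 (by
    have h1 : ∑ y, min (lam y) 1 = Fintype.card Ty := by
      rw [Finset.sum_congr rfl fun y _ => min_eq_right (hlam y)]
      simp
    have h2 : ∑ q, min (mq q) 1 = (Finset.univ.filter fun q => 1 ≤ mq q).card := by
      rw [Finset.card_filter]
      refine Finset.sum_congr rfl fun q _ => ?_
      split_ifs with hq
      · exact min_eq_right hq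
      · rw [show mq q = 0 by omega]
        rfl
    omega)
  rw [← mul_assoc]
  exact h

/-- all together, from the hypotheses of `bezB` -/
theorem num_bezB {k Pt Q Ty : Type} [Field k] [IsAlgClosed k] [CharZero k]
    [Fintype Pt] [Fintype Q] [Fintype Ty]
    (a : Q → Pt → k) (hsum : ∀ q, ∑ p, a q p = 0) (b : Ty → Pt → ℕ) (lam : Ty → ℕ)
    (hlam : ∀ y, 1 ≤ lam y) (mq : Q → ℕ) (hdeg : ∀ q p, a q p ≠ 0 → ∑ y, lam y * b y p = mq q)
    (hδ : ∑ y, lam y = ∑ q, mq q + 1)
    (hconst : ∀ t : (Σ y, Fin (lam y)) → k, IsSol a (fun i => b i.1) t → ∀ i j, t i = t j)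
    (hT : (Finset.univ.filter fun q => 1 ≤ mq q).card + 3 ≤ Fintype.card Ty) :
    9 * ((∏ y, (2 * lam y).choose (lam y)) * (∏ q, (mq q)!) ^ 2) ≤ 8 * ∏ q, (2 * mq q)! := by
  refine num_ineq_three lam hlam mq hδ (fun J hJ => ?_) hT
  have h := truncated a hsum b lam mq hdeg J hJ hconst
  have h1 : ∑ y, (lam y - min (lam y) J) + ∑ y, min (lam y) J = ∑ y, lam y := by
    rw [← Finset.sum_add_distrib]
    exact Finset.sum_congr rfl fun y _ => Nat.sub_add_cancel (min_le_left _ _)
  have h2 : ∑ q, (mq q - min (mq q) J) + ∑ q, min (mq q) J = ∑ q, mq q := by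
    rw [← Finset.sum_add_distrib]
    exact Finset.sum_congr rfl fun y _ => Nat.sub_add_cancel (min_le_left _ _)
  omega

end Pool.Agent.Work.CW
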