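import Pool.Agent.Work.MP_4329d7_ag_w.UB

/-!
Counting lines of solutions (helper27): homogeneous equations `F j` whose differentials are
independent at every solution outside a bad set; if a linear form `l` vanishes on all these
solutions and is not a combination of the linear equations then there are few lines of solutions.
-/

set_option autoImplicit false

namespace Pool.Agent.Work.W

open Finset MvPolynomial

section

variable {ι κ k : Type} [Field k] [Fintype ι]

/-- the differential of `F` at `t` in the direction `y` -/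
noncomputable def dF (t y : ι → k) (F : MvPolynomial ι k) : k :=
  ∑ i, eval t (pderiv i F) * y i

lemma dF_add (t y : ι → k) (F G : MvPolynomial ι k) : dF t y (F + G) = dF t y F + dF t y G := by
  unfold dF
  rw [← Finset.sum_add_distrib]
  exact Finset.sum_congr rfl fun i _ => by rw [map_add, map_add, add_mul]

lemma dF_sub (t y : ι → k) (F G : MvPolynomial ι k) : dF t y (F - G) = dF t y F - dF t y G := by
  unfold dF
  rw [← Finset.sum_sub_distrib]
  exact Finset.sum_congr rfl fun i _ => by rw [map_sub, map_sub, sub_mul]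

lemma dF_C_mul (t y : ι → k) (c : k) (F : MvPolynomial ι k) : dF t y (C c * F) = c * dF t y F := by
  unfold dF
  rw [Finset.mul_sum]
  refine Finset.sum_congr rfl fun i _ => ?_
  rw [pderiv_C_mul, map_mul, eval_C, mul_assoc]

lemma dF_C (t y : ι → k) (c : k) : dF t y (C c) = 0 := by
  unfold dF
  exact Finset.sum_eq_zero fun i _ => by rw [pderiv_C, map_zero, zero_mul]

lemma dF_sum {α : Type*} (t y : ι → k) (s : Finset α) (F : α → MvPolynomial ι k) :
    dF t y (∑ a ∈ s, F a) = ∑ a ∈ s, dF t y (F a) := by
  classical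
  induction s using Finset.induction_on with
  | empty =>
    have := dF_C t y 0
    rw [map_zero] at this
    rw [Finset.sum_empty, Finset.sum_empty, this]
  | insert a s ha ih => rw [Finset.sum_insert ha, Finset.sum_insert ha, dF_add, ih]

lemma dF_X (t y : ι → k) (i : ι) : dF t y (X i : MvPolynomial ι k) = y i := by
  classical
  unfold dF
  rw [Finset.sum_eq_single i]
  · rw [pderiv_X_self, map_one, one_mul]
  · intro j _ hj
    rw [pderiv_X_of_ne (Ne.symm hj), map_zero, zero_mul]
  · intro h
    exact absurd (Finset.mem_univ _) h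

/-- the linear form with coefficients `l` -/
noncomputable def linF (l : ι → k) : MvPolynomial ι k := ∑ i, C (l i) * X i

lemma eval_linF (l t : ι → k) : eval t (linF l) = ∑ i, l i * t i := by
  unfold linF
  rw [map_sum]
  exact Finset.sum_congr rfl fun i _ => by rw [map_mul, eval_C, eval_X]

lemma dF_linF (t y l : ι → k) : dF t y (linF l) = ∑ i, l i * y i := by
  unfold linF
  rw [dF_sum]
  exact Finset.sum_congr rfl fun i _ => by rw [dF_C_mul, dF_X]

lemma hom_linF (l : ι → k) : (linF l).IsHomogeneous 1 := by
  unfold linF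
  refine MvPolynomial.IsHomogeneous.sum _ _ _ fun i _ => ?_
  simpa using (isHomogeneous_C ι (l i)).mul (isHomogeneous_X k i)

/-- generic choice -/
lemma exists_generic {α τ : Type*} [Infinite k] (T : Finset α) (P : α → MvPolynomial τ k)
    (h : ∀ t ∈ T, P t ≠ 0) : ∃ x : τ → k, ∀ t ∈ T, eval x (P t) ≠ 0 := by
  classical
  have h1 : ∏ t ∈ T, P t ≠ 0 := Finset.prod_ne_zero_iff.2 h
  by_contra hcon
  push Not at hcon
  apply h1
  apply MvPolynomial.funext
  intro x
  obtain ⟨t, ht, h2⟩ := hcon x
  rw [map_prod, map_zero]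
  exact Finset.prod_eq_zero ht h2

lemma linF_ne_zero {l : ι → k} (h : l ≠ 0) : linF l ≠ 0 := by
  classical
  obtain ⟨i, hi⟩ := Function.ne_iff.1 h
  intro h0
  apply hi
  have h1 := congrArg (eval (Pi.single i 1 : ι → k)) h0
  rw [eval_linF, map_zero, Finset.sum_eq_single i] at h1
  · simpa using h1
  · intro j _ hj
    rw [Pi.single_eq_of_ne hj, mul_zero]
  · intro h
    exact absurd (Finset.mem_univ _) h

/-- a linear form vanishing on the common kernel is a combination -/
lemma exists_comb [Finite κ] (A : κ → (ι → k) → k) (L : κ → (ι → k) →ₗ[k] k)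
    (hA : ∀ j y, A j y = L j y) (l : ι → k)
    (h : ∀ y, (∀ j, A j y = 0) → ∑ i, l i * y i = 0) [Fintype κ] :
    ∃ c : κ → k, ∀ y, ∑ i, l i * y i = ∑ j, c j * A j y := by
  let K : (ι → k) →ₗ[k] k := Fintype.linearCombination k l |>.comp LinearMap.id
  have hK : ∀ y, K y = ∑ i, l i * y i := fun y => by
    show ∑ i, y i • l i = _
    exact Finset.sum_congr rfl fun i _ => by rw [smul_eq_mul, mul_comm]
  have h1 : K ∈ Submodule.span k (Set.range L) := by
    apply mem_span_of_iInf_ker_le_ker
    intro y hy
    rw [LinearMap.mem_ker, hK]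
    refine h y fun j => ?_
    rw [hA]
    exact LinearMap.mem_ker.1 ((Submodule.mem_iInf _).1 hy j)
  obtain ⟨c, hc⟩ := (Submodule.mem_span_range_iff_exists_fun k).1 h1
  refine ⟨c, fun y => ?_⟩
  rw [← hK, ← hc]
  rw [LinearMap.sum_apply]
  exact Finset.sum_congr rfl fun j _ => by rw [LinearMap.smul_apply, smul_eq_mul, hA]

lemma exists_comb' [Fintype κ] (t : ι → k) (F : κ → MvPolynomial ι k) (l : ι → k)
    (h : ∀ y, (∀ j, dF t y (F j) = 0) → ∑ i, l i * y i = 0) :
    ∃ c : κ → k, ∀ y, ∑ i, l i * y i = ∑ j, c j * dF t y (F j) := by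
  refine exists_comb (fun j y => dF t y (F j)) (fun j =>
    { toFun := fun y => dF t y (F j)
      map_add' := fun y y' => by
        unfold dF
        rw [← Finset.sum_add_distrib]
        exact Finset.sum_congr rfl fun i _ => by rw [Pi.add_apply, mul_add]
      map_smul' := fun c y => by
        unfold dF
        rw [RingHom.id_apply, smul_eq_mul, Finset.mul_sum]
        exact Finset.sum_congr rfl fun i _ => by rw [Pi.smul_apply, smul_eq_mul]; ring })
    (fun j y => rfl) l h

/-- the differential of a form of degree one does not depend on the point -/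
lemma dF_of_deg_one {F : MvPolynomial ι k} (hF : F.IsHomogeneous 1) (t y : ι → k) :
    dF t y F = eval y F := by
  classical
  have h1 : F = linF (fun i => coeff (Finsupp.single i 1) F) := by
    ext m
    unfold linF
    rw [coeff_sum]
    simp only [coeff_C_mul]
    by_cases hm : m.degree = 1
    · obtain ⟨i, rfl⟩ : ∃ i, m = Finsupp.single i 1 := by
        have h2 : m ≠ 0 := by
          rintro rfl
          simp at hm
        obtain ⟨i, hi⟩ := Finsupp.ne_iff.1 h2
        refine ⟨i, ?_⟩
        rw [Finsupp.degree_eq_sum] at hm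
        have h3 : ∀ j, j ≠ i → m j = 0 := by
          intro j hj
          have h4 : ∑ x, m x = m i + ∑ x ∈ univ.erase i, m x :=
            (Finset.add_sum_erase _ _ (mem_univ i)).symm
          have h5 : m j ≤ ∑ x ∈ univ.erase i, m x :=
            Finset.single_le_sum (f := fun x => m x) (fun _ _ => Nat.zero_le _)
              (mem_erase.2 ⟨hj, mem_univ _⟩)
          have h6 : m i ≠ 0 := hi
          omega
        have h7 : m i = 1 := by
          rw [Finset.sum_eq_single i (fun j _ hj => h3 j hj) (fun h => absurd (mem_univ _) h)] at hm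
          exact hm
        ext j
        by_cases hj : j = i
        · subst hj
          rw [Finsupp.single_eq_same, h7]
        · rw [h3 j hj, Finsupp.single_eq_of_ne hj]
      rw [Finset.sum_eq_single i]
      · rw [coeff_X, if_pos rfl, mul_one]
      · intro j _ hj
        rw [coeff_X, if_neg, mul_zero]
        intro h
        exact hj (Finsupp.single_left_injective one_ne_zero h)
      · intro h
        exact absurd (mem_univ _) h
    · have h2 : coeff m F = 0 := by
        by_contra h
        have h3 := hF h
        rw [show (1 : ι → ℕ) = fun _ => 1 from rfl, ← Finsupp.degree_eq_weight_one] at h3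
        exact hm h3
      rw [h2]
      symm
      refine Finset.sum_eq_zero fun i _ => ?_
      rw [coeff_X, if_neg, mul_zero]
      rintro rfl
      exact hm (by rw [Finsupp.degree_single])
  rw [h1, dF_linF, eval_linF]

/-- FEW LINES OF SOLUTIONS. -/
theorem card_lines_le [CharZero k] [DecidableEq ι] [Fintype κ] [DecidableEq κ]
    (F : κ → MvPolynomial ι k) (e : κ → ℕ) (he : ∀ j, 1 ≤ e j)
    (hF : ∀ j, (F j).IsHomogeneous (e j)) (hcard : Fintype.card ι = Fintype.card κ + 2)
    (S : Set (ι → k)) (hS0 : ∀ t ∈ S, t ≠ 0) (hSsum : ∀ t ∈ S, ∑ i, t i = 0)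
    (hSF : ∀ t ∈ S, ∀ j, eval t (F j) = 0)
    (hSsc : ∀ t ∈ S, ∀ c : k, c ≠ 0 → (fun i => c * t i) ∈ S)
    (hker : ∀ t ∈ S, ∀ y, (∀ j, dF t y (F j) = 0) → ∃ u v : k, ∀ i, y i = u + v * t i)
    (l : ι → k) (hl1 : ∑ i, l i = 0) (hl : ∀ t ∈ S, ∑ i, l i * t i = 0)
    (hnot : ¬ ∃ c : κ → k, (∀ j, c j ≠ 0 → e j = 1) ∧
      ∀ y : ι → k, ∑ i, l i * y i = ∑ j, c j * eval y (F j))
    (j0 : κ) (hj0 : e j0 = 2) (T : Finset (ι → k)) (hT : ∀ t ∈ T, t ∈ S)
    (hprop : ∀ t ∈ T, ∀ t' ∈ T, ∀ c : k, (∀ i, t' i = c * t i) → t' = t) :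
    2 * T.card ≤ ∏ j, e j := by
  classical
  have : Infinite k := Infinite.of_injective ((↑) : ℕ → k) Nat.cast_injective
  -- the normalising linear form
  obtain ⟨θ, hθ⟩ := exists_generic T (fun t => linF t) fun t ht => linF_ne_zero (hS0 t (hT t ht))
  simp only [eval_linF] at hθ
  set Z : Finset (ι → k) := T.image fun t i => (∑ i, t i * θ i)⁻¹ * t i with hZdef
  have hZcard : Z.card = T.card := by
    refine Finset.card_image_of_injOn fun t ht t' ht' h => ?_
    refine (hprop t ht t' ht' ((∑ i, t' i * θ i) * (∑ i, t i * θ i)⁻¹) fun i => ?_).symm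
    have h1 : (∑ i, t i * θ i)⁻¹ * t i = (∑ i, t' i * θ i)⁻¹ * t' i := congrFun h i
    have h2 := hθ t' ht'
    rw [mul_assoc, h1, ← mul_assoc, mul_inv_cancel₀ h2, one_mul]
  have hZS : ∀ z ∈ Z, z ∈ S := by
    intro z hz
    obtain ⟨t, ht, rfl⟩ := Finset.mem_image.1 hz
    exact hSsc t (hT t ht) _ (inv_ne_zero (hθ t ht))
  have hZθ : ∀ z ∈ Z, ∑ i, θ i * z i = 1 := by
    intro z hz
    obtain ⟨t, ht, rfl⟩ := Finset.mem_image.1 hz
    have h1 : ∑ i, θ i * ((∑ i, t i * θ i)⁻¹ * t i) =
        (∑ i, t i * θ i)⁻¹ * ∑ i, t i * θ i := by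
      conv_rhs => rw [Finset.mul_sum]
      exact Finset.sum_congr rfl fun i _ => by ring
    rw [h1, inv_mul_cancel₀ (hθ t ht)]
  -- the combinations
  have hcomb : ∀ z : ↥Z, ∃ c : κ → k, ∀ y, ∑ i, l i * y i = ∑ j, c j * dF z.1 y (F j) := by
    intro z
    refine exists_comb' z.1 F l fun y hy => ?_
    obtain ⟨u, v, huv⟩ := hker z.1 (hZS z.1 z.2) y hy
    have h1 : ∑ i, l i * y i = u * ∑ i, l i + v * ∑ i, l i * z.1 i := by
      rw [Finset.mul_sum, Finset.mul_sum, ← Finset.sum_add_distrib]
      exact Finset.sum_congr rfl fun i _ => by rw [huv i]; ring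
    rw [h1, hl1, hl z.1 (hZS z.1 z.2), mul_zero, mul_zero, add_zero]
  choose c hc using hcomb
  let J : Finset κ := Finset.univ.filter fun j => 2 ≤ e j ∧ j ≠ j0
  let P : ↥Z → MvPolynomial κ k := fun z => C (c z j0) + ∑ j ∈ J, C (c z j) * X j
  have hPev : ∀ (z : ↥Z) (x : κ → k), eval x (P z) = c z j0 + ∑ j ∈ J, c z j * x j := by
    intro z x
    simp only [P, map_add, map_sum, map_mul, eval_C, eval_X]
  have hP : ∀ z ∈ (Finset.univ : Finset ↥Z), P z ≠ 0 := by
    intro z _ h0
    apply hnot
    have h1 : c z j0 = 0 := by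
      have := hPev z 0
      rw [h0, map_zero] at this
      simpa using this.symm
    have h2 : ∀ j ∈ J, c z j = 0 := by
      intro j hj
      have h3 := hPev z (Pi.single j 1)
      rw [h0, map_zero, h1, zero_add, Finset.sum_eq_single j] at h3
      · rw [Pi.single_eq_same, mul_one] at h3
        exact h3.symm
      · intro i _ hi
        rw [Pi.single_eq_of_ne hi, mul_zero]
      · intro h
        exact absurd hj h
    have h4 : ∀ j, c z j ≠ 0 → e j = 1 := by
      intro j hj
      by_contra hne
      have h5 := he j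
      by_cases hj0' : j = j0
      · rw [hj0'] at hj
        exact hj h1
      · exact hj (h2 j (Finset.mem_filter.2 ⟨Finset.mem_univ _, by omega, hj0'⟩))
    refine ⟨c z, h4, fun y => ?_⟩
    rw [hc z y]
    refine Finset.sum_congr rfl fun j _ => ?_
    by_cases hj : c z j = 0
    · rw [hj, zero_mul, zero_mul]
    · have h6 := hF j
      rw [h4 j hj] at h6
      rw [dF_of_deg_one h6]
  obtain ⟨x, hx⟩ := exists_generic (Finset.univ : Finset ↥Z) P hP
  -- the square system
  let G : κ ⊕ Fin 2 → MvPolynomial ι k := Sum.elim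
    (fun j => if j = j0 then linF l else if 2 ≤ e j then F j - C (x j) * F j0 else F j)
    ![linF (fun _ => 1), linF θ - C 1]
  let D : κ ⊕ Fin 2 → ℕ := Sum.elim (fun j => if j = j0 then 1 else e j) ![1, 1]
  have hcard' : Fintype.card ι = Fintype.card (κ ⊕ Fin 2) := by
    rw [Fintype.card_sum, hcard, Fintype.card_fin]
  let E : ι ≃ κ ⊕ Fin 2 := Fintype.equivOfCardEq hcard'
  have hDpos : ∀ s, 0 < D s := by
    rintro (j | s)
    · show 0 < (if j = j0 then 1 else e j)
      split_ifs
      · exact one_pos
      · exact he j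
    · fin_cases s
      · exact one_pos
      · exact one_pos
  have hdeg : ∀ s, (G s).totalDegree ≤ D s := by
    rintro (j | s)
    · show (if j = j0 then linF l else if 2 ≤ e j then F j - C (x j) * F j0 else F j).totalDegree
        ≤ (if j = j0 then 1 else e j)
      split_ifs with h1 h2
      · exact (hom_linF l).totalDegree_le
      · refine (totalDegree_sub _ _).trans (max_le (hF j).totalDegree_le ?_)
        refine (totalDegree_mul _ _).trans ?_
        rw [totalDegree_C, zero_add]
        have := (hF j0).totalDegree_le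
        omega
      · exact (hF j).totalDegree_le
    · fin_cases s
      · exact (hom_linF _).totalDegree_le
      · show (linF θ - C 1 : MvPolynomial ι k).totalDegree ≤ 1
        refine (totalDegree_sub _ _).trans (max_le (hom_linF _).totalDegree_le ?_)
        rw [totalDegree_C]
        exact Nat.zero_le _
  have hbound := card_le_of_nondeg (fun i => G (E i)) (D := fun i => D (E i))
    (fun i => hDpos _) (fun i => hdeg _) Z ?_ ?_
  · rw [Equiv.prod_comp E D, Fintype.prod_sum_type, Fin.prod_univ_two] at hbound
    have h1 : ∏ j, e j = 2 * ∏ j, (if j = j0 then 1 else e j) := by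
      rw [← Finset.mul_prod_erase Finset.univ e (Finset.mem_univ j0), hj0,
        ← Finset.mul_prod_erase Finset.univ (fun j => if j = j0 then 1 else e j)
          (Finset.mem_univ j0), if_pos rfl, one_mul]
      congr 1
      exact Finset.prod_congr rfl fun j hj => by rw [if_neg (Finset.ne_of_mem_erase hj)]
    rw [h1]
    refine Nat.mul_le_mul_left _ ?_
    rw [hZcard] at hbound
    refine hbound.trans (le_of_eq ?_)
    show (∏ j, (if j = j0 then 1 else e j)) * (1 * 1) = _
    rw [mul_one, mul_one]
  · -- zeros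
    intro z hz i
    have hzS := hZS z hz
    rcases E i with (j | s)
    · show eval z (if j = j0 then linF l else if 2 ≤ e j then F j - C (x j) * F j0 else F j) = 0
      split_ifs with h1 h2
      · rw [eval_linF]
        exact hl z hzS
      · rw [map_sub, map_mul, hSF z hzS, hSF z hzS, mul_zero, sub_zero]
      · exact hSF z hzS j
    · fin_cases s
      · show eval z (linF (fun _ => 1)) = 0
        rw [eval_linF]
        simpa using hSsum z hzS
      · show eval z (linF θ - C 1) = 0
        rw [map_sub, eval_linF, eval_C, hZθ z hz, sub_self]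
  · -- the Jacobian
    intro z hz y hy
    have hzS := hZS z hz
    have hy' : ∀ s, dF z y (G s) = 0 := by
      intro s
      have := hy (E.symm s)
      simp only [Equiv.apply_symm_apply] at this
      exact this
    have hyl : ∑ i, l i * y i = 0 := by
      have h1 : dF z y (if j0 = j0 then linF l else if 2 ≤ e j0 then F j0 - C (x j0) * F j0
        else F j0) = 0 := hy' (Sum.inl j0)
      rw [if_pos rfl, dF_linF] at h1
      exact h1
    have hy2 : ∀ j ∈ J, dF z y (F j) = x j * dF z y (F j0) := by
      intro j hj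
      obtain ⟨_, hj1, hj2⟩ := Finset.mem_filter.1 hj
      have h1 : dF z y (if j = j0 then linF l else if 2 ≤ e j then F j - C (x j) * F j0
        else F j) = 0 := hy' (Sum.inl j)
      rw [if_neg hj2, if_pos hj1, dF_sub, dF_C_mul, sub_eq_zero] at h1
      exact h1
    have hy3 : ∀ j, j ≠ j0 → j ∉ J → dF z y (F j) = 0 := by
      intro j hj hjJ
      have h1 : dF z y (if j = j0 then linF l else if 2 ≤ e j then F j - C (x j) * F j0
        else F j) = 0 := hy' (Sum.inl j)
      rw [if_neg hj, if_neg] at h1
      · exact h1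
      · intro h
        exact hjJ (Finset.mem_filter.2 ⟨Finset.mem_univ _, h, hj⟩)
    have hys : ∑ i, y i = 0 := by
      have h1 : dF z y (linF (fun _ => 1)) = 0 := hy' (Sum.inr 0)
      rw [dF_linF] at h1
      simpa using h1
    have hyθ : ∑ i, θ i * y i = 0 := by
      have h1 : dF z y (linF θ - C 1) = 0 := hy' (Sum.inr 1)
      rw [dF_sub, dF_linF, dF_C, sub_zero] at h1
      exact h1
    have h0 : dF z y (F j0) = 0 := by
      have h1 := hc ⟨z, hz⟩ y
      have h2 : ∑ j, c ⟨z, hz⟩ j * dF z y (F j) =
          (eval x (P ⟨z, hz⟩)) * dF z y (F j0) := by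
        rw [hPev, add_mul, Finset.sum_mul]
        rw [← Finset.add_sum_erase Finset.univ _ (Finset.mem_univ j0)]
        congr 1
        have h3 : J ⊆ Finset.univ.erase j0 := fun j hj =>
          Finset.mem_erase.2 ⟨(Finset.mem_filter.1 hj).2.2, Finset.mem_univ _⟩
        rw [← Finset.sum_subset h3]
        · exact Finset.sum_congr rfl fun j hj => by rw [hy2 j hj, mul_assoc]
        · intro j hj hjJ
          rw [hy3 j (Finset.ne_of_mem_erase hj) hjJ, mul_zero]
      rw [hyl] at h1
      have h3 : (eval x (P ⟨z, hz⟩)) * dF z y (F j0) = 0 := by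
        rw [← h2]
        exact h1.symm
      exact (mul_eq_zero.1 h3).resolve_left (hx _ (Finset.mem_univ _))
    have hall : ∀ j, dF z y (F j) = 0 := by
      intro j
      by_cases hj : j = j0
      · rw [hj, h0]
      · by_cases hjJ : j ∈ J
        · rw [hy2 j hjJ, h0, mul_zero]
        · exact hy3 j hj hjJ
    obtain ⟨u, v, huv⟩ := hker z hzS y hall
    have hu : u = 0 := by
      have h1 : ∑ i, y i = (Fintype.card ι : k) * u + v * ∑ i, z i := by
        rw [Finset.mul_sum]
        have h2 : (Fintype.card ι : k) * u = ∑ _i : ι, u := by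
          rw [Finset.sum_const, nsmul_eq_mul, Finset.card_univ]
        rw [h2, ← Finset.sum_add_distrib]
        exact Finset.sum_congr rfl fun i _ => huv i
      rw [hys, hSsum z hzS, mul_zero, add_zero] at h1
      rcases mul_eq_zero.1 h1.symm with h | h
      · exfalso
        have h3 : Fintype.card ι = 0 := by exact_mod_cast h
        omega
      · exact h
    have hv : v = 0 := by
      have h1 : ∑ i, θ i * y i = v * ∑ i, θ i * z i := by
        rw [Finset.mul_sum]
        exact Finset.sum_congr rfl fun i _ => by rw [huv i, hu]; ring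
      rw [hyθ, hZθ z hz, mul_one] at h1
      exact h1.symm
    funext i
    rw [huv i, hu, hv, zero_mul, add_zero]
    rfl

end

end Pool.Agent.Work.W
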