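import Mathlib
import Pool.Agent.Work.MP_4329d7_ag_w.KerW
import Pool.Agent.Work.MP_4329d7_ag_w.Lines
import Pool.Agent.Work.MP_4329d7_ag_uni.Sys

/-!
The coefficients `coefPoly` of the relations, their differentials (`jac`), scaling, and a maximal
set of lines of solutions (helper27).
-/

set_option autoImplicit false

namespace Pool.Agent.Work.CW

open Polynomial Pool.Agent.Work.Uni

section coeffD

variable {k R : Type*} [CommRing k] [CommRing R] [Algebra k R]

theorem coeffDk_aux (D : Derivation k R R) (p : R[X]) (i : ℕ) :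
    (p.sum fun i a => monomial i (D a)).coeff i = D (p.coeff i) := by
  rw [Polynomial.sum_def, finsetSum_coeff]
  simp only [coeff_monomial]
  rw [Finset.sum_ite_eq']
  split_ifs with h
  · rfl
  · rw [notMem_support_iff.1 h, map_zero]

/-- the coefficientwise extension of a derivation to polynomials -/
noncomputable def coeffDk (D : Derivation k R R) : Derivation k R[X] R[X] where
  toFun p := p.sum fun i a => monomial i (D a)
  map_add' p q := by
    ext i
    rw [coeff_add, coeffDk_aux, coeffDk_aux, coeffDk_aux, coeff_add, map_add]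
  map_smul' c p := by
    ext i
    rw [coeffDk_aux, coeff_smul, Derivation.map_smul, RingHom.id_apply, coeff_smul, coeffDk_aux]
  map_one_eq_zero' := by
    change (1 : R[X]).sum (fun i a => monomial i (D a)) = 0
    ext i
    rw [coeffDk_aux, coeff_one, coeff_zero]
    split_ifs
    · exact D.map_one_eq_zero
    · exact map_zero D
  leibniz' p q := by
    change (p * q).sum (fun i a => monomial i (D a)) =
      p • q.sum (fun i a => monomial i (D a)) + q • p.sum (fun i a => monomial i (D a))
    ext i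
    rw [coeffDk_aux, coeff_add, smul_eq_mul, smul_eq_mul, coeff_mul, map_sum,
      mul_comm q, coeff_mul, coeff_mul, ← Finset.sum_add_distrib]
    refine Finset.sum_congr rfl fun a _ => ?_
    rw [coeffDk_aux, coeffDk_aux, Derivation.leibniz, smul_eq_mul, smul_eq_mul]
    ring

theorem coeffDk_coeff (D : Derivation k R R) (p : R[X])
    (i : ℕ) : (coeffDk D p).coeff i = D (p.coeff i) := coeffDk_aux D p i

theorem coeffDk_C (D : Derivation k R R) (a : R) :
    coeffDk D (C a) = C (D a) := by
  ext i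
  rw [coeffDk_coeff, coeff_C, coeff_C]
  split_ifs
  · rfl
  · exact map_zero D

theorem coeffDk_X (D : Derivation k R R) : coeffDk D X = 0 := by
  ext i
  rw [coeffDk_coeff, coeff_X, coeff_zero]
  split_ifs
  · exact D.map_one_eq_zero
  · exact map_zero D

theorem coeffDk_rootPoly {ι E : Type*} [Fintype ι] (D : Derivation k R R) (β : ι → E → ℕ)
    (t : ι → R) (e : E) :
    coeffDk D (rootPoly β t e) = - ∑ i, C (D (t i)) * RC.uD β t e i := by
  classical
  unfold rootPoly
  rw [RC.derivation_prod, ← Finset.sum_neg_distrib]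
  refine Finset.sum_congr rfl fun i _ => ?_
  rw [RC.uD_eq, Derivation.leibniz_pow, map_sub, coeffDk_X, coeffDk_C]
  simp only [nsmul_eq_mul, smul_eq_mul, map_natCast]
  ring

end coeffD

section

variable {k ι Pt Q : Type} [Field k] [Fintype ι] [Fintype Pt]

theorem eval_pderiv_coefPoly (a : Q → Pt → k) (β : ι → Pt → ℕ) (q : Q) (d : ℕ) (t : ι → k)
    (i : ι) :
    MvPolynomial.eval t (MvPolynomial.pderiv i (coefPoly a β q d)) =
      -(jac a β t q i).coeff d := by
  classical
  unfold coefPoly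
  rw [← coeffDk_coeff, map_sum, ← Polynomial.coeff_map, Polynomial.map_sum]
  unfold jac
  rw [← Polynomial.coeff_neg, ← Finset.sum_neg_distrib]
  congr 1
  refine Finset.sum_congr rfl fun p _ => ?_
  rw [Derivation.leibniz, coeffDk_C, MvPolynomial.pderiv_C, map_zero, smul_zero, add_zero,
    coeffDk_rootPoly, smul_eq_mul, Polynomial.map_mul, Polynomial.map_neg, Polynomial.map_C,
    Polynomial.map_sum, MvPolynomial.eval_C, Finset.sum_eq_single i]
  · rw [Polynomial.map_mul, MvPolynomial.pderiv_X_self, map_one, Polynomial.map_one, one_mul,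
      RC.uD_map]
    simp only [MvPolynomial.eval_X]
    ring
  · intro j _ hj
    rw [MvPolynomial.pderiv_X_of_ne hj, map_zero, zero_mul, Polynomial.map_zero]
  · intro h
    exact absurd (Finset.mem_univ _) h

theorem dF_coefPoly (a : Q → Pt → k) (β : ι → Pt → ℕ) (q : Q) (d : ℕ) (t y : ι → k) :
    W.dF t y (coefPoly a β q d) = -(∑ i, C (y i) * jac a β t q i).coeff d := by
  unfold W.dF
  rw [finsetSum_coeff, ← Finset.sum_neg_distrib]
  refine Finset.sum_congr rfl fun i _ => ?_
  rw [eval_pderiv_coefPoly, coeff_C_mul]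
  ring

/-- the kernel at a free solution -/
theorem ker_dF [Fintype Q] {a : Q → Pt → k} {β : ι → Pt → ℕ} {t : ι → k} {mq : Q → ℕ}
    (hs : IsSol a β t) (hdeg : ∀ q p, a q p ≠ 0 → ∑ i, β i p = mq q)
    (hf : FreeAt a β mq t) (hne : ∃ i j, t i ≠ t j) (hcard : Fintype.card ι = ∑ q, mq q + 2)
    (y : ι → k) (hy : ∀ q, ∀ d < mq q, W.dF t y (coefPoly a β q d) = 0) :
    ∃ u v : k, ∀ i, y i = u + v * t i := by
  refine ker_of_free hs hdeg hf hne hcard y fun q => ?_
  ext d
  rw [coeff_zero]
  rcases lt_or_ge d (mq q) with h | h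
  · have h1 := hy q d h
    rw [dF_coefPoly, neg_eq_zero] at h1
    exact h1
  · refine coeff_eq_zero_of_degree_lt (lt_of_lt_of_le ?_ (WithBot.coe_le_coe.2 h))
    refine (degree_sum_le _ _).trans_lt ((Finset.sup_lt_iff (WithBot.bot_lt_coe _)).2 fun i _ => ?_)
    rw [← smul_eq_C_mul]
    exact (degree_smul_le _ _).trans_lt (jac_degree hdeg q i)

theorem eval_scale {F : MvPolynomial ι k} {n : ℕ} (hF : F.IsHomogeneous n) (c : k) (t : ι → k) :
    MvPolynomial.eval (fun i => c * t i) F = c ^ n * MvPolynomial.eval t F := by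
  rw [MvPolynomial.eval_eq', MvPolynomial.eval_eq', Finset.mul_sum]
  refine Finset.sum_congr rfl fun m hm => ?_
  have h1 := hF (MvPolynomial.mem_support_iff.1 hm)
  rw [show (1 : ι → ℕ) = fun _ => 1 from rfl, ← Finsupp.degree_eq_weight_one,
    Finsupp.degree_eq_sum] at h1
  simp only [mul_pow]
  rw [Finset.prod_mul_distrib, Finset.prod_pow_eq_pow_sum, h1]
  ring

theorem isSol_scale (a : Q → Pt → k) (hsum : ∀ q, ∑ p, a q p = 0) (β : ι → Pt → ℕ) (mq : Q → ℕ)
    (hdeg : ∀ q p, a q p ≠ 0 → ∑ i, β i p = mq q) {t : ι → k} (ht : IsSol a β t) (c : k) :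
    IsSol a β (fun i => c * t i) := by
  rw [isSol_iff a hsum β mq hdeg] at ht ⊢
  intro q d hd
  rw [eval_scale (coefPoly_homogeneous a β q (mq q) (hdeg q) d hd.le), ht q d hd, mul_zero]

omit [Fintype ι] in
/-- a maximal set of lines -/
theorem exists_lines (S : Set (ι → k)) (hS0 : ∀ t ∈ S, t ≠ 0) (B : ℕ)
    (hB : ∀ T : Finset (ι → k), (∀ t ∈ T, t ∈ S) →
      (∀ t ∈ T, ∀ t' ∈ T, ∀ c : k, (∀ i, t' i = c * t i) → t' = t) → 2 * T.card ≤ B) :
    ∃ T : Finset (ι → k), (∀ t ∈ T, t ∈ S) ∧ 2 * T.card ≤ B ∧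
      ∀ s ∈ S, ∃ t ∈ T, ∃ c : k, ∀ i, s i = c * t i := by
  classical
  let A : Set ℕ := {n | ∃ T : Finset (ι → k), (∀ t ∈ T, t ∈ S) ∧
      (∀ t ∈ T, ∀ t' ∈ T, ∀ c : k, (∀ i, t' i = c * t i) → t' = t) ∧ T.card = n}
  have hA0 : (0 : ℕ) ∈ A := ⟨∅, by simp, by simp, rfl⟩
  have hAB : BddAbove A := by
    refine ⟨B, ?_⟩
    rintro n ⟨T, h1, h2, rfl⟩
    have := hB T h1 h2
    omega
  obtain ⟨T, h1, h2, h3⟩ := Nat.sSup_mem ⟨0, hA0⟩ hAB
  refine ⟨T, h1, hB T h1 h2, fun s hs => ?_⟩
  by_contra hcon
  push Not at hcon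
  have hsT : s ∉ T := by
    intro h
    obtain ⟨i, hi⟩ := hcon s h 1
    exact hi (one_mul _).symm
  have h4 : (insert s T).card ∈ A := by
    refine ⟨insert s T, ?_, ?_, rfl⟩
    · intro t ht
      rcases Finset.mem_insert.1 ht with rfl | ht
      · exact hs
      · exact h1 t ht
    · intro t ht t' ht' c hc
      rcases Finset.mem_insert.1 ht with hts | htT
      · rcases Finset.mem_insert.1 ht' with hts' | htT'
        · rw [hts, hts']
        · exfalso
          have hc0 : c ≠ 0 := by
            rintro rfl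
            apply hS0 t' (h1 t' htT')
            funext i
            rw [hc i, zero_mul]
            rfl
          obtain ⟨i, hi⟩ := hcon t' htT' c⁻¹
          apply hi
          rw [hc i, ← mul_assoc, inv_mul_cancel₀ hc0, one_mul, hts]
      · rcases Finset.mem_insert.1 ht' with hts' | htT'
        · exfalso
          obtain ⟨i, hi⟩ := hcon t htT c
          exact hi (by rw [← hts']; exact hc i)
        · exact h2 t htT t' htT' c hc
  have h5 := le_csSup hAB h4
  rw [Finset.card_insert_of_notMem hsT, h3] at h5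
  omega

end

end Pool.Agent.Work.CW
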