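import Pool.Agent.Work.MP_4329d7_ag_uni.BezC

/-!
Bezout inequality with two kinds of zeros (helper27): at the zeros in `Z₀` the polynomials start in
degree `d i` with initial forms without common zero, at the zeros in `Z₁` the Jacobian is
invertible.
-/

set_option autoImplicit false

namespace Pool.Agent.Work.W

open MvPolynomial Pool.Agent.Uni8

section loc

variable {k : Type*} [Field k] {σ ι : Type*} [Fintype ι]

/-- polynomials in local coordinates approximate everything -/
lemma exists_aeval_sub_mem (Ψ : ι → MvPolynomial σ k) (P : Ideal (MvPolynomial σ k))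
    (hΨ : ∀ i, Ψ i ∈ P) (h1 : P ≤ Ideal.span (Set.range Ψ) ⊔ P ^ 2)
    (h0 : ∀ f : MvPolynomial σ k, ∃ c : k, f - C c ∈ P) (M : ℕ) :
    ∀ f : MvPolynomial σ k, ∃ g : MvPolynomial ι k, f - aeval Ψ g ∈ P ^ M := by
  induction M with
  | zero => exact fun f => ⟨0, by simp⟩
  | succ M ih =>
    intro f
    rcases Nat.eq_zero_or_pos M with hM | hM
    · subst hM
      obtain ⟨c, hc⟩ := h0 f
      refine ⟨C c, ?_⟩
      rw [zero_add, pow_one, aeval_C, MvPolynomial.algebraMap_eq]
      exact hc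
    · obtain ⟨g, hg⟩ := ih f
      have h2 : P ^ M ≤ Ideal.span (Set.range Ψ) ⊔ P ^ (M + 1) := by
        have h3 : P ^ M = P ^ (M - 1) * P := by
          rw [← pow_succ]
          congr 1
          omega
        rw [h3]
        refine (Ideal.mul_mono_right h1).trans ?_
        rw [Ideal.mul_sup]
        refine sup_le (Ideal.mul_le_right.trans le_sup_left) ?_
        rw [← pow_add, show M - 1 + 2 = M + 1 by omega]
        exact le_sup_right
      obtain ⟨u, hu, w, hw, huw⟩ := Submodule.mem_sup.mp (h2 hg)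
      obtain ⟨h, hh⟩ := (Ideal.mem_span_range_iff_exists_fun).mp hu
      choose g' hg' using fun i => ih (h i)
      refine ⟨g + ∑ i, g' i * X i, ?_⟩
      have h4 : f - aeval Ψ (g + ∑ i, g' i * X i) =
          ∑ i, (h i - aeval Ψ (g' i)) * Ψ i + w := by
        rw [map_add, map_sum]
        have h5 : ∀ i, aeval Ψ (g' i * X i) = aeval Ψ (g' i) * Ψ i := fun i => by
          rw [map_mul, aeval_X]
        simp_rw [h5, sub_mul, Finset.sum_sub_distrib, hh]
        rw [← sub_sub, ← huw]
        ring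
      rw [h4]
      refine Ideal.add_mem _ (Ideal.sum_mem _ fun i _ => ?_) hw
      rw [pow_succ]
      exact Ideal.mul_mem_mul (hg' i) (hΨ i)

end loc

section lin

variable {k σ : Type} [Field k] [Fintype σ] [DecidableEq σ]

/-- Taylor expansion of order one -/
lemma sub_taylor_mem (p : σ → k) (f : MvPolynomial σ k) :
    f - C (eval p f) - ∑ j, C (eval p (pderiv j f)) * (X j - C (p j)) ∈ PI p ^ 2 := by
  induction f using MvPolynomial.induction_on with
  | C r => simp
  | add f g hf hg =>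
    have h : f + g - C (eval p (f + g)) -
        ∑ j, C (eval p (pderiv j (f + g))) * (X j - C (p j)) =
        (f - C (eval p f) - ∑ j, C (eval p (pderiv j f)) * (X j - C (p j))) +
        (g - C (eval p g) - ∑ j, C (eval p (pderiv j g)) * (X j - C (p j))) := by
      simp only [map_add, add_mul, Finset.sum_add_distrib]
      ring
    rw [h]
    exact Ideal.add_mem _ hf hg
  | mul_X f i hf =>
    have h1 : ∑ j, C (eval p (pderiv j (f * X i))) * (X j - C (p j)) =
        (∑ j, C (eval p (pderiv j f)) * (X j - C (p j))) * C (p i) +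
          C (eval p f) * (X i - C (p i)) := by
      have h2 : ∀ j, C (eval p (pderiv j (f * X i))) * (X j - C (p j)) =
          C (eval p (pderiv j f)) * (X j - C (p j)) * C (p i) +
            if j = i then C (eval p f) * (X i - C (p i)) else 0 := by
        intro j
        rw [Derivation.leibniz]
        by_cases hj : j = i
        · subst hj
          rw [if_pos rfl, pderiv_X_self]
          simp only [smul_eq_mul, mul_one, map_add, map_mul, eval_X]
          ring
        · rw [if_neg hj, pderiv_X_of_ne (Ne.symm hj)]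
          simp only [smul_eq_mul, mul_zero, zero_add, map_mul, eval_X]
          ring
      simp_rw [h2, Finset.sum_add_distrib, ← Finset.sum_mul]
      rw [Finset.sum_ite_eq' Finset.univ i, if_pos (Finset.mem_univ _)]
    have h3 : f * X i - C (eval p (f * X i)) -
        ∑ j, C (eval p (pderiv j (f * X i))) * (X j - C (p j)) =
        (f - C (eval p f) - ∑ j, C (eval p (pderiv j f)) * (X j - C (p j))) * C (p i) +
          (f - C (eval p f)) * (X i - C (p i)) := by
      rw [h1]
      simp only [map_mul, eval_X]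
      ring
    rw [h3]
    refine Ideal.add_mem _ (Ideal.mul_mem_right _ _ hf) ?_
    rw [pow_two]
    refine Ideal.mul_mem_mul ?_ (X_sub_mem_PI p i)
    exact mem_PI_of_eval p _ (by simp)

lemma PI_le_of_jac (p : σ → k) (Ψ : σ → MvPolynomial σ k) (hz : ∀ i, eval p (Ψ i) = 0)
    (hJ : ∀ y : σ → k, (∀ i, ∑ j, eval p (pderiv j (Ψ i)) * y j = 0) → y = 0) :
    PI p ≤ Ideal.span (Set.range Ψ) ⊔ PI p ^ 2 := by
  -- the inverse matrix
  let A : Matrix σ σ k := fun i j => eval p (pderiv j (Ψ i))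
  have hA : IsUnit A := by
    rw [← Matrix.mulVec_injective_iff_isUnit]
    intro x y hxy
    have h1 : x - y = 0 := by
      refine hJ _ fun i => ?_
      have h2 := congrFun hxy i
      simp only [Matrix.mulVec, dotProduct, A] at h2
      simp only [Pi.sub_apply, mul_sub, Finset.sum_sub_distrib, h2, sub_self]
    exact sub_eq_zero.1 h1
  obtain ⟨B, hB⟩ := hA.exists_left_inv
  have hX : ∀ l, X l - C (p l) ∈ Ideal.span (Set.range Ψ) ⊔ PI p ^ 2 := by
    intro l
    have h1 : X l - C (p l) = ∑ i, C (B l i) * (∑ j, C (A i j) * (X j - C (p j))) := by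
      simp_rw [Finset.mul_sum]
      rw [Finset.sum_comm]
      have h2 : ∀ j, ∑ i, C (B l i) * (C (A i j) * (X j - C (p j))) =
          (if l = j then X j - C (p j) else 0 : MvPolynomial σ k) := by
        intro j
        have h3 := congrFun (congrFun hB l) j
        rw [Matrix.mul_apply, Matrix.one_apply] at h3
        have h4 : ∑ i, C (B l i) * (C (A i j) * (X j - C (p j))) =
            C (∑ i, B l i * A i j) * (X j - C (p j)) := by
          rw [map_sum, Finset.sum_mul]
          exact Finset.sum_congr rfl fun i _ => by rw [C_mul, mul_assoc]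
        rw [h4, h3]
        split_ifs <;> simp
      simp_rw [h2]
      rw [Finset.sum_ite_eq Finset.univ l, if_pos (Finset.mem_univ _)]
    rw [h1]
    refine Ideal.sum_mem _ fun i _ => Ideal.mul_mem_left _ _ ?_
    have h5 := sub_taylor_mem p (Ψ i)
    rw [hz i, map_zero, sub_zero] at h5
    have h6 : ∑ j, C (A i j) * (X j - C (p j)) = Ψ i - (Ψ i - ∑ j, C (A i j) * (X j - C (p j))) := by
      ring
    rw [h6]
    refine Ideal.sub_mem _ (Ideal.mem_sup_left (Ideal.subset_span ⟨i, rfl⟩)) (Ideal.mem_sup_right h5)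
  intro f hf
  have h1 := sub_taylor_mem p f
  rw [eval_of_mem_PI p f hf, map_zero, sub_zero] at h1
  have h2 : f = (f - ∑ j, C (eval p (pderiv j f)) * (X j - C (p j))) +
      ∑ j, C (eval p (pderiv j f)) * (X j - C (p j)) := by ring
  rw [h2]
  exact Ideal.add_mem _ (Ideal.mem_sup_right h1)
    (Ideal.sum_mem _ fun j _ => Ideal.mul_mem_left _ _ (hX j))

end lin

section main

variable {k σ : Type} [Field k] [Fintype σ] [DecidableEq σ]

open Pool.Agent.Work.Bezout in
/-- the quotient at a simple point is small -/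
lemma exists_lambda (Ψ : σ → MvPolynomial σ k) (d : σ → ℕ) (hd : ∀ i, 1 ≤ d i) (p : σ → k)
    (hz : ∀ i, eval p (Ψ i) = 0)
    (hJ : ∀ y : σ → k, (∀ i, ∑ j, eval p (pderiv j (Ψ i)) * y j = 0) → y = 0) (E M : ℕ) :
    ∃ L : MvPolynomial σ k →ₗ[k] (↥(wset d E) → k), ∀ f, L f = 0 →
      f ∈ WI Ψ d (E + 1) ⊔ PI p ^ M := by
  classical
  set I : Ideal (MvPolynomial σ k) := WI Ψ d (E + 1) ⊔ PI p ^ M with hI
  let π : (↥(wset d E) → k) →ₗ[k] (MvPolynomial σ k ⧸ I) :=
    (I.mkQ.restrictScalars k) ∘ₗ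
      Fintype.linearCombination k (fun a : ↥(wset d E) => gpow Ψ a)
  have hπ : Function.Surjective π := by
    intro x
    obtain ⟨f, rfl⟩ := Submodule.Quotient.mk_surjective I x
    obtain ⟨g, hg⟩ := exists_aeval_sub_mem Ψ (PI p) (fun i => mem_PI_of_eval p _ (hz i))
      (PI_le_of_jac p Ψ hz hJ) (fun f => ⟨eval p f, mem_PI_of_eval p _ (by simp)⟩) M f
    refine ⟨fun a => coeff (Finsupp.equivFunOnFinite.symm (a : σ → ℕ)) g, ?_⟩
    have h1 : π (fun a => coeff (Finsupp.equivFunOnFinite.symm (a : σ → ℕ)) g) =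
        Submodule.Quotient.mk (∑ a : ↥(wset d E),
          coeff (Finsupp.equivFunOnFinite.symm (a : σ → ℕ)) g • gpow Ψ (a : σ → ℕ)) := rfl
    rw [h1, Submodule.Quotient.eq]
    have h2 : ∑ a : ↥(wset d E),
          coeff (Finsupp.equivFunOnFinite.symm (a : σ → ℕ)) g • gpow Ψ (a : σ → ℕ) - f =
        (∑ a : ↥(wset d E),
          coeff (Finsupp.equivFunOnFinite.symm (a : σ → ℕ)) g • gpow Ψ (a : σ → ℕ) -
            aeval Ψ g) - (f - aeval Ψ g) := by ring
    rw [h2]
    refine Ideal.sub_mem _ (Ideal.mem_sup_left ?_) (Ideal.mem_sup_right hg)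
    have h3 : ∑ a : ↥(wset d E),
          coeff (Finsupp.equivFunOnFinite.symm (a : σ → ℕ)) g • gpow Ψ (a : σ → ℕ) =
        ∑ b ∈ g.support, if wt d b ≤ E then coeff b g • pw Ψ b else 0 := by
      rw [← Finset.sum_filter]
      have h4 : ∑ a : ↥(wset d E),
          coeff (Finsupp.equivFunOnFinite.symm (a : σ → ℕ)) g • gpow Ψ (a : σ → ℕ) =
          ∑ a ∈ wset d E, coeff (Finsupp.equivFunOnFinite.symm a) g • gpow Ψ a :=
        Finset.sum_coe_sort (wset d E)
          (fun a => coeff (Finsupp.equivFunOnFinite.symm a) g • gpow Ψ a)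
      rw [h4]
      symm
      refine Finset.sum_bij_ne_zero (fun b _ _ => (b : σ → ℕ)) ?_ ?_ ?_ ?_
      · intro b hb _
        rw [mem_wset hd]
        have h5 := (Finset.mem_filter.1 hb).2
        refine le_trans (le_of_eq ?_) h5
        rw [wt]
        exact Finset.sum_congr rfl fun j _ => mul_comm _ _
      · intro b _ _ b' _ _ h
        exact DFunLike.coe_injective h
      · intro a ha hne
        refine ⟨Finsupp.equivFunOnFinite.symm a, ?_, ?_, rfl⟩
        · rw [Finset.mem_filter, mem_support_iff]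
          refine ⟨fun h => hne (by rw [h, zero_smul]), ?_⟩
          have h5 := (mem_wset hd).1 ha
          refine le_trans (le_of_eq ?_) h5
          rw [wt]
          exact Finset.sum_congr rfl fun j _ => mul_comm _ _
        · exact hne
      · intro b _ _
        rw [Finsupp.equivFunOnFinite_symm_coe]
        rfl
    have h4 : aeval Ψ g = ∑ b ∈ g.support, coeff b g • pw Ψ b := by
      conv_lhs => rw [g.as_sum, map_sum]
      exact Finset.sum_congr rfl fun b _ => aeval_monomial_pw Ψ b _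
    rw [h3, h4, ← Finset.sum_sub_distrib]
    refine Ideal.sum_mem _ fun b _ => ?_
    split_ifs with h5
    · rw [sub_self]
      exact Ideal.zero_mem _
    · rw [zero_sub, Algebra.smul_def]
      refine Ideal.neg_mem_iff _ |>.2 (Ideal.mul_mem_left _ _ (Ideal.subset_span ⟨b, by omega, rfl⟩))
  obtain ⟨s, hs⟩ := LinearMap.exists_rightInverse_of_surjective π (LinearMap.range_eq_top.2 hπ)
  refine ⟨s ∘ₗ (I.mkQ.restrictScalars k), fun f hf => ?_⟩
  have h1 : π (s (Submodule.Quotient.mk f : MvPolynomial σ k ⧸ I)) = Submodule.Quotient.mk f :=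
    LinearMap.congr_fun hs _
  have h2 : s (Submodule.Quotient.mk f : MvPolynomial σ k ⧸ I) = 0 := hf
  rw [h2, map_zero] at h1
  exact (Submodule.Quotient.mk_eq_zero I).1 h1.symm

omit [DecidableEq σ] in
/-- membership from orders at all zeros -/
lemma exists_mem_WI [IsAlgClosed k] (Φ : σ → MvPolynomial σ k) (d : σ → ℕ) (hd : ∀ i, 1 ≤ d i)
    (Z₀ Z₁ : Finset (σ → k)) (hZ : ∀ x, (∀ i, eval x (Φ i) = 0) → x ∈ Z₀ ∨ x ∈ Z₁)
    (hlow : ∀ p ∈ Z₀, ∀ i, ∀ j < d i, homogeneousComponent j (tr p (Φ i)) = 0) (c : ℕ)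
    (hc0 : ∀ p ∈ Z₀, idealOfVars σ k ^ c ≤
      Ideal.span (Set.range fun i => homogeneousComponent (d i) (tr p (Φ i))))
    (hcD : ∀ i, d i ≤ c) (E : ℕ) :
    ∃ M, ∀ f : MvPolynomial σ k,
    (∀ p ∈ Z₀, tr p f ∈ idealOfVars σ k ^ (E + c)) → (∀ p ∈ Z₁, f ∈ WI Φ d E ⊔ PI p ^ M) →
      f ∈ WI Φ d E := by
  classical
  have hcop : ((Z₀ ∪ Z₁ : Finset (σ → k)) : Set (σ → k)).Pairwise (Function.onFun IsCoprime PI) :=
    fun p _ q _ h => PI_coprime h
  have h1 : ∏ p ∈ Z₀ ∪ Z₁, PI p ≤ (WI Φ d E).radical := by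
    rw [← vanishingIdeal_zeroLocus_eq_radical (K := k)]
    intro g hg
    rw [mem_vanishingIdeal_iff]
    intro x hx
    rw [mem_zeroLocus_iff] at hx
    simp only [aeval_eq_eval] at hx ⊢
    have h2 : x ∈ Z₀ ∪ Z₁ := Finset.mem_union.2 (hZ x fun i => zeroLocus_WI Φ d hd E x hx i)
    rw [Ideal.prod_eq_iInf_of_pairwise_isCoprime hcop] at hg
    simp only [Ideal.mem_iInf] at hg
    exact eval_of_mem_PI x g (hg x h2)
  obtain ⟨M, hM⟩ := Ideal.exists_pow_le_of_le_radical_of_fg h1
    (IsNoetherian.noetherian _)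
  refine ⟨M, fun f hf hf' => crt_le (WI Φ d E) (Z₀ ∪ Z₁) PI M hcop hM ?_⟩
  simp only [Ideal.mem_iInf]
  intro p hp
  by_cases hp0 : p ∈ Z₀
  · exact mem_sup_PI p Φ d hd (hlow p hp0) c c (hc0 p hp0) le_rfl hcD E M f (hf p hp0)
  · exact hf' p ((Finset.mem_union.1 hp).resolve_left hp0)

open Pool.Agent.Work.Bezout in
/-- the upper bound for the rank -/
theorem finrank_le2 [IsAlgClosed k] (Ψ : σ → MvPolynomial σ k) (d : σ → ℕ) (hd : ∀ i, 1 ≤ d i)
    (Z₀ Z₁ : Finset (σ → k)) (hZ : ∀ x, (∀ i, eval x (Ψ i) = 0) → x ∈ Z₀ ∨ x ∈ Z₁)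
    (hlow : ∀ p ∈ Z₀, ∀ i, ∀ j < d i, homogeneousComponent j (tr p (Ψ i)) = 0)
    (hloc : ∀ p ∈ Z₀, ∀ x : σ → k,
      (∀ i, eval x (homogeneousComponent (d i) (tr p (Ψ i))) = 0) → x = 0)
    (hz : ∀ p ∈ Z₁, ∀ i, eval p (Ψ i) = 0)
    (hJ : ∀ p ∈ Z₁, ∀ y : σ → k, (∀ i, ∑ j, eval p (pderiv j (Ψ i)) * y j = 0) → y = 0)
    [Module.Finite (Algebra.adjoin k (Set.range Ψ)) (MvPolynomial σ k)] :
    Module.finrank (Algebra.adjoin k (Set.range Ψ)) (MvPolynomial σ k) ≤
      Z₀.card * ∏ i, d i + Z₁.card := by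
  classical
  have hind : AlgebraicIndependent k Ψ := algIndep
  have hinj : Function.Injective (aeval Ψ : MvPolynomial σ k →ₐ[k] MvPolynomial σ k) := hind
  have hA : Algebra.adjoin k (Set.range Ψ) = (aeval Ψ : MvPolynomial σ k →ₐ[k] _).range :=
    Algebra.adjoin_range_eq_range_aeval k Ψ
  -- the constant of the local expansions
  obtain ⟨c, hc0, hcD⟩ : ∃ c, (∀ p ∈ Z₀, idealOfVars σ k ^ c ≤
      Ideal.span (Set.range fun i => homogeneousComponent (d i) (tr p (Ψ i)))) ∧
      ∀ i, d i ≤ c := by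
    have h1 : ∀ p : Z₀, ∃ c0, idealOfVars σ k ^ c0 ≤
        Ideal.span (Set.range fun i => homogeneousComponent (d i) (tr p.1 (Ψ i))) :=
      fun p => exists_pow_le_span _ (hloc p.1 p.2)
    choose c0 hc0 using h1
    refine ⟨∑ p, c0 p + ∑ i, d i, fun p hp => ?_, fun i => ?_⟩
    · refine le_trans (Ideal.pow_le_pow_right ?_) (hc0 ⟨p, hp⟩)
      have := Finset.single_le_sum (f := c0) (fun _ _ => Nat.zero_le _) (Finset.mem_univ ⟨p, hp⟩)
      omega
    · have := Finset.single_le_sum (f := d) (fun _ _ => Nat.zero_le _) (Finset.mem_univ i)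
      omega
  -- the frame
  obtain ⟨s, hs, h, h0, hh⟩ := exists_frame (Algebra.adjoin k (Set.range Ψ))
  have hpre : ∀ y : Algebra.adjoin k (Set.range Ψ), ∃ q : MvPolynomial σ k,
      aeval Ψ q = (y : MvPolynomial σ k) := by
    intro y
    exact hA.le y.2
  obtain ⟨η, hη⟩ := hpre h
  have hη0 : η ≠ 0 := by
    rintro rfl
    rw [map_zero] at hη
    exact h0 (Subtype.ext hη.symm)
  have hηx : ∀ x, ∃ q : Fin (Module.finrank (Algebra.adjoin k (Set.range Ψ)) (MvPolynomial σ k)) →
      MvPolynomial σ k, aeval Ψ η * x = ∑ i, aeval Ψ (q i) * s i := by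
    intro x
    obtain ⟨y, hy⟩ := (Submodule.mem_span_range_iff_exists_fun _).1 (hh x)
    choose q hq using fun i => hpre (y i)
    refine ⟨q, ?_⟩
    rw [hη]
    simp_rw [hq]
    exact hy.symm
  generalize Module.finrank (Algebra.adjoin k (Set.range Ψ)) (MvPolynomial σ k) = r at *
  have hindep : ∀ q : Fin r → MvPolynomial σ k, ∑ i, aeval Ψ (q i) * s i = 0 → ∀ i, q i = 0 := by
    intro q hq i
    have hm : ∀ i, aeval Ψ (q i) ∈ Algebra.adjoin k (Set.range Ψ) := by
      intro i
      rw [hA]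
      exact ⟨q i, rfl⟩
    have h1 := Fintype.linearIndependent_iff.1 hs (fun i => ⟨aeval Ψ (q i), hm i⟩) hq i
    have h2 : aeval Ψ (q i) = 0 := congrArg Subtype.val h1
    rw [← map_zero (aeval Ψ : MvPolynomial σ k →ₐ[k] MvPolynomial σ k)] at h2
    exact hinj h2
  obtain ⟨a0, ha0⟩ := order_mul d η hη0
  -- the jet map
  have hcount : ∀ t, r * (wset d t).card ≤
      Z₀.card * (wset (fun _ : σ => 1) (t + (a0 + c))).card + Z₁.card * (wset d (t + a0)).card := by
    intro t
    obtain ⟨M, hM⟩ := exists_mem_WI Ψ d hd Z₀ Z₁ hZ hlow c hc0 hcD (t + a0 + 1)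
    choose lam hlam using fun p : ↥Z₁ =>
      exists_lambda Ψ d hd (p : σ → k) (hz p.1 p.2) (hJ p.1 p.2) (t + a0) M
    let L1 : ((Fin r × ↥(wset d t)) → k) →ₗ[k] MvPolynomial σ k :=
      Fintype.linearCombination k fun z : Fin r × ↥(wset d t) => gpow Ψ z.2 * s z.1
    let L0 : ((Fin r × ↥(wset d t)) → k) →ₗ[k]
        ((↥Z₀ × ↥(wset (fun _ : σ => 1) (t + (a0 + c)))) → k) :=
      LinearMap.pi fun z => (lcoeff k (Finsupp.equivFunOnFinite.symm (z.2 : σ → ℕ))) ∘ₗ
        (tr (z.1 : σ → k)).toLinearMap ∘ₗ L1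
    let L2 : ((Fin r × ↥(wset d t)) → k) →ₗ[k] ((↥Z₁ × ↥(wset d (t + a0))) → k) :=
      LinearMap.pi fun z => (LinearMap.proj z.2) ∘ₗ (lam z.1) ∘ₗ L1
    let L := L0.prod L2
    have hL : Function.Injective L := by
      rw [← LinearMap.ker_eq_bot, LinearMap.ker_eq_bot']
      intro v hv0
      have hv : L0 v = 0 := congrArg Prod.fst hv0
      have hv2 : L2 v = 0 := congrArg Prod.snd hv0
      set f := L1 v with hf
      have hf1 : f = ∑ z, v z • (gpow Ψ z.2 * s z.1) := rfl
      let u : Fin r → MvPolynomial σ k := fun i =>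
        ∑ a : ↥(wset d t), monomial (Finsupp.equivFunOnFinite.symm (a : σ → ℕ)) (v (i, a))
      have hcoeff : ∀ i (b : σ →₀ ℕ), coeff b (u i) =
          ∑ a : ↥(wset d t), if Finsupp.equivFunOnFinite.symm (a : σ → ℕ) = b then v (i, a)
            else 0 := by
        intro i b
        simp only [u, coeff_sum, coeff_monomial]
      have hfu : f = ∑ i, aeval Ψ (u i) * s i := by
        rw [hf1, Fintype.sum_prod_type]
        refine Finset.sum_congr rfl fun i _ => ?_
        simp only [u, map_sum, Finset.sum_mul]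
        refine Finset.sum_congr rfl fun a _ => ?_
        rw [aeval_monomial_pw, smul_mul_assoc]
        rfl
      have hjet : ∀ p ∈ Z₀, tr p f ∈ idealOfVars σ k ^ (t + a0 + 1 + c) := by
        intro p hp
        rw [mem_pow_idealOfVars_iff']
        intro x hx
        have hx' : (x : σ → ℕ) ∈ wset (fun _ : σ => 1) (t + (a0 + c)) := by
          rw [mem_wset fun _ => one_pos]
          rw [Finsupp.degree_eq_sum] at hx
          simp only [mul_one]
          omega
        have h1 := congrFun hv (⟨p, hp⟩, ⟨x, hx'⟩)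
        simp only [L0, LinearMap.pi_apply, LinearMap.comp_apply, AlgHom.toLinearMap_apply,
          lcoeff_apply, Pi.zero_apply, Finsupp.equivFunOnFinite_symm_coe] at h1
        exact h1
      have hjet2 : ∀ p ∈ Z₁, f ∈ WI Ψ d (t + a0 + 1) ⊔ PI p ^ M := by
        intro p hp
        refine hlam ⟨p, hp⟩ f ?_
        funext x
        exact congrFun hv2 (⟨p, hp⟩, x)
      have hmem := hM f hjet hjet2
      obtain ⟨q, hq1, hq2⟩ := coords_of_mem_WI Ψ d (t + a0 + 1) s η hηx f hmem
      have h2 : ∀ i, η * u i = q i := by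
        intro i
        have h3 : ∑ i, aeval Ψ (η * u i - q i) * s i = 0 := by
          simp only [map_sub, map_mul, sub_mul, Finset.sum_sub_distrib]
          rw [← hq2, hfu, Finset.mul_sum, sub_eq_zero]
          exact Finset.sum_congr rfl fun i _ => by rw [mul_assoc]
        exact sub_eq_zero.1 (hindep _ h3 i)
      have h4 : ∀ i, u i = 0 := by
        intro i
        refine ha0 (t + a0 + 1) (u i) (fun a ha => hq1 i a (by rwa [← h2 i])) fun a ha => ?_
        rw [hcoeff] at ha
        obtain ⟨b, _, hb⟩ := Finset.exists_ne_zero_of_sum_ne_zero ha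
        split_ifs at hb with h5
        · have h6 := (mem_wset hd).1 b.2
          have h7 : wt d a ≤ t := by
            rw [← h5, wt]
            refine le_trans (le_of_eq ?_) h6
            exact Finset.sum_congr rfl fun j _ => mul_comm _ _
          omega
        · exact absurd rfl hb
      funext z
      have h5 := congrArg (coeff (Finsupp.equivFunOnFinite.symm (z.2 : σ → ℕ))) (h4 z.1)
      rw [hcoeff, coeff_zero, Finset.sum_eq_single z.2] at h5
      · rw [if_pos rfl] at h5
        exact h5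
      · intro b _ hb
        rw [if_neg]
        intro h6
        exact hb (Subtype.ext (Finsupp.equivFunOnFinite.symm.injective h6))
      · intro h6
        exact absurd (Finset.mem_univ _) h6
    have h1 := LinearMap.finrank_le_finrank_of_injective hL
    rw [Module.finrank_prod, Module.finrank_fintype_fun_eq_card, Module.finrank_fintype_fun_eq_card,
      Module.finrank_fintype_fun_eq_card] at h1
    simpa using h1
  refine growth (P := fun t => (wset (fun _ : σ => 1) t).card) (card_wset_zero fun _ => one_pos)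
    (card_wset_le _) (c := a0 + c + ∑ j, d j) fun t => ?_
  have hmono : ∀ t t' : ℕ, t ≤ t' → (wset (fun _ : σ => 1) t).card ≤
      (wset (fun _ : σ => 1) t').card := by
    intro t t' htt
    refine Finset.card_le_card fun a ha => ?_
    rw [mem_wset fun _ => one_pos] at ha ⊢
    omega
  calc r * (wset (fun _ : σ => 1) t).card ≤ r * ((∏ j, d j) * (wset d t).card) :=
        Nat.mul_le_mul_left _ (wset_one_le hd t)
    _ = (∏ j, d j) * (r * (wset d t).card) := by ring
    _ ≤ (∏ j, d j) * (Z₀.card * (wset (fun _ : σ => 1) (t + (a0 + c))).card +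
          Z₁.card * (wset d (t + a0)).card) :=
        Nat.mul_le_mul_left _ (hcount t)
    _ = (Z₀.card * ∏ j, d j) * (wset (fun _ : σ => 1) (t + (a0 + c))).card +
          Z₁.card * ((∏ j, d j) * (wset d (t + a0)).card) := by ring
    _ ≤ (Z₀.card * ∏ j, d j) * (wset (fun _ : σ => 1) (t + (a0 + c + ∑ j, d j))).card +
          Z₁.card * (wset (fun _ : σ => 1) (t + (a0 + c + ∑ j, d j))).card := by
        refine Nat.add_le_add (Nat.mul_le_mul_left _ (hmono _ _ (by omega)))
          (Nat.mul_le_mul_left _ ((le_wset_one hd _).trans (hmono _ _ (by omega))))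
    _ = _ := by ring

open Pool.Agent.Work.Bezout in
/-- BEZOUT INEQUALITY with two kinds of zeros. -/
theorem bezout_ineq2 [IsAlgClosed k]
    (Φ Ψ : σ → MvPolynomial σ k) (D d : σ → ℕ) (hd1 : ∀ i, 1 ≤ d i) (hD1 : ∀ i, 1 ≤ D i)
    (hgen : Algebra.adjoin k (Set.range Φ) = Algebra.adjoin k (Set.range Ψ))
    (hD : ∀ i, (Φ i).totalDegree ≤ D i)
    (htop : ∀ x : σ → k, (∀ i, eval x (homogeneousComponent (D i) (Φ i)) = 0) → x = 0)
    (Z₀ Z₁ : Finset (σ → k)) (hZ : ∀ x, (∀ i, eval x (Ψ i) = 0) → x ∈ Z₀ ∨ x ∈ Z₁)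
    (hlow : ∀ p ∈ Z₀, ∀ i, ∀ j < d i, homogeneousComponent j (tr p (Ψ i)) = 0)
    (hloc : ∀ p ∈ Z₀, ∀ x : σ → k,
      (∀ i, eval x (homogeneousComponent (d i) (tr p (Ψ i))) = 0) → x = 0)
    (hz : ∀ p ∈ Z₁, ∀ i, eval p (Ψ i) = 0)
    (hJ : ∀ p ∈ Z₁, ∀ y : σ → k, (∀ i, ∑ j, eval p (pderiv j (Ψ i)) * y j = 0) → y = 0) :
    ∏ i, D i ≤ Z₀.card * ∏ i, d i + Z₁.card := by
  have h1 := Pool.Agent.Work.Bezout.finite_alg hD1 hD htop
  have h2 := Pool.Agent.Work.Bezout.prod_le_finrank hD1 hD htop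
  rw [hgen] at h1 h2
  exact h2.trans (finrank_le2 Ψ d hd1 Z₀ Z₁ hZ hlow hloc hz hJ)

end main

end Pool.Agent.Work.W
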