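import Mathlib
import Pool.Agent.Work.MP_4329d7_ag_w.KerW
import Pool.Agent.Work.MP_4329d7_ag_w.JacW
import Pool.Agent.Work.MP_4329d7_ag_w.LB
import Pool.Agent.Work.MP_4329d7_ag_uni.Crit

/-!
Module W-BezA (abstract, helper27): case (i) of R4.
PROOF. If `l` is not a combination of the rows, then at every nonconstant solution `t`
`l = ∑ c_(q,d) dF_(q,d)(t)` (the kernel of the Jacobian is `span(1, t)`) with some
`c_(q,d) ≠ 0`, `d ≥ 2`, so for generic `x` the solution is a nondegenerate zero of a square system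
with product of the degrees `(∏ mq q !)/2`: UB; and LB: `∏ mq q !` (all solutions are simple).
Nonconstant solutions exist (`exists_nonconst_sol`).
-/

open scoped Nat

namespace Pool.Agent.Work.CW

open Polynomial Pool.Agent.Work.Uni

section

variable {k ι Pt Q : Type} [Field k] [CharZero k] [Fintype ι] [Fintype Pt] [Fintype Q]

/-- the product of the degrees of the equations -/
theorem prod_deg_coef (mq : Q → ℕ) :
    ∏ j : (Σ q, Fin (mq q)), (mq j.1 - (j.2 : ℕ)) = ∏ q, (mq q)! := by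
  rw [Fintype.prod_sigma]
  exact Finset.prod_congr rfl fun q _ => prod_fin_sub (mq q)

omit [CharZero k] in
/-- a combination of the equations of degree one is a combination of the rows -/
theorem rows_of_comb (a : Q → Pt → k) (β : ι → Pt → ℕ) (mq : Q → ℕ)
    (hdeg : ∀ q p, a q p ≠ 0 → ∑ i, β i p = mq q) (l : ι → k)
    (c : (Σ q, Fin (mq q)) → k) (hc1 : ∀ j, c j ≠ 0 → mq j.1 - (j.2 : ℕ) = 1)
    (hc : ∀ y : ι → k, ∑ i, l i * y i =
      ∑ j, c j * MvPolynomial.eval y (coefPoly a β j.1 (j.2 : ℕ))) :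
    ∃ c : Q → k, ∀ i, l i = ∑ q, c q * ∑ p, a q p * (β i p : k) := by
  classical
  obtain ⟨c', hc'⟩ : ∃ c' : Q → k, ∀ q, c' q =
      if h : 1 ≤ mq q then -c ⟨q, ⟨mq q - 1, by omega⟩⟩ else 0 := ⟨_, fun _ => rfl⟩
  refine ⟨c', fun i => ?_⟩
  have h1 := hc (Pi.single i 1)
  rw [Finset.sum_eq_single i (fun j _ hj => by rw [Pi.single_eq_of_ne hj, mul_zero])
    (fun h => absurd (Finset.mem_univ _) h), Pi.single_eq_same, mul_one] at h1
  rw [h1, Fintype.sum_sigma]
  refine Finset.sum_congr rfl fun q _ => ?_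
  by_cases hq : 1 ≤ mq q
  · rw [hc', dif_pos hq, Finset.sum_eq_single ⟨mq q - 1, by omega⟩]
    · show c ⟨q, ⟨mq q - 1, _⟩⟩ * MvPolynomial.eval (Pi.single i 1) (coefPoly a β q (mq q - 1)) = _
      rw [eval_coefPoly_lin a β q (mq q) hq (hdeg q), Finset.sum_eq_single i]
      · rw [Pi.single_eq_same, mul_one]
        ring
      · intro j _ hj
        rw [Pi.single_eq_of_ne hj, mul_zero]
      · intro h
        exact absurd (Finset.mem_univ _) h
    · intro d _ hd
      have h2 : c ⟨q, d⟩ = 0 := by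
        by_contra h3
        have h4 : mq q - (d : ℕ) = 1 := hc1 ⟨q, d⟩ h3
        apply hd
        ext
        show (d : ℕ) = mq q - 1
        have := d.2
        omega
      rw [h2, zero_mul]
    · intro h
      exact absurd (Finset.mem_univ _) h
  · rw [hc', dif_neg hq, zero_mul]
    refine Finset.sum_eq_zero fun d _ => ?_
    exfalso
    have := d.2
    omega

/-- UPPER BOUND: few lines of solutions -/
theorem lines_of_free (a : Q → Pt → k) (β : ι → Pt → ℕ)
    (mq : Q → ℕ) (hdeg : ∀ q p, a q p ≠ 0 → ∑ i, β i p = mq q)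
    (hcard : Fintype.card ι = ∑ q, mq q + 2)
    (S : Set (ι → k)) (hS0 : ∀ t ∈ S, t ≠ 0) (hSs : ∀ t ∈ S, ∑ i, t i = 0)
    (hSsol : ∀ t ∈ S, IsSol a β t) (hSc : ∀ t ∈ S, ∀ c : k, c ≠ 0 → (fun i => c * t i) ∈ S)
    (hSf : ∀ t ∈ S, FreeAt a β mq t)
    (l : ι → k) (h1 : ∑ i, l i = 0) (hl : ∀ t ∈ S, ∑ i, l i * t i = 0)
    (hcon : ¬ ∃ c : Q → k, ∀ i, l i = ∑ q, c q * ∑ p, a q p * (β i p : k))
    (q0 : Q) (hq0 : 2 ≤ mq q0) :
    ∃ T : Finset (ι → k), (∀ t ∈ T, t ∈ S) ∧ 2 * T.card ≤ ∏ q, (mq q)! ∧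
      ∀ s ∈ S, ∃ t ∈ T, ∃ c : k, ∀ i, s i = c * t i := by
  classical
  rw [← prod_deg_coef mq]
  refine exists_lines S hS0 _ fun T hT hTp => ?_
  have hlt : ∀ j : (Σ q, Fin (mq q)), (j.2 : ℕ) < mq j.1 := fun j => j.2.2
  refine W.card_lines_le (fun j : (Σ q, Fin (mq q)) => coefPoly a β j.1 (j.2 : ℕ))
    (fun j => mq j.1 - (j.2 : ℕ)) (fun j => by have := hlt j; omega)
    (fun j => coefPoly_homogeneous a β j.1 (mq j.1) (hdeg j.1) j.2 (hlt j).le)
    (by rw [hcard, Fintype.card_sigma]; simp) S hS0 hSs ?_ hSc ?_ l h1 hl ?_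
    ⟨q0, ⟨mq q0 - 2, by omega⟩⟩ ?_ T hT hTp
  · intro t ht j
    rw [eval_coefPoly, hSsol t ht j.1, coeff_zero]
  · intro t ht y hy
    refine ker_dF (hSsol t ht) hdeg (hSf t ht) (sum_const_ne t (hS0 t ht) (hSs t ht)) hcard y
      fun q d hd => hy ⟨q, ⟨d, hd⟩⟩
  · rintro ⟨c, hc1, hc⟩
    exact hcon (rows_of_comb a β mq hdeg l c hc1 hc)
  · show mq q0 - (mq q0 - 2) = 2
    omega

omit [CharZero k] in
/-- if all degrees are at most one -/
theorem rows_of_small (a : Q → Pt → k) (β : ι → Pt → ℕ)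
    (mq : Q → ℕ) (hdeg : ∀ q p, a q p ≠ 0 → ∑ i, β i p = mq q)
    (hcard : Fintype.card ι = ∑ q, mq q + 2) (t : ι → k) (ht : IsSol a β t)
    (hne : ∃ i j, t i ≠ t j) (hf : FreeAt a β mq t)
    (l : ι → k) (h1 : ∑ i, l i = 0) (hl : ∑ i, l i * t i = 0) (hsm : ∀ q, mq q ≤ 1) :
    ∃ c : Q → k, ∀ i, l i = ∑ q, c q * ∑ p, a q p * (β i p : k) := by
  classical
  have hlt : ∀ j : (Σ q, Fin (mq q)), (j.2 : ℕ) < mq j.1 := fun j => j.2.2
  have he : ∀ j : (Σ q, Fin (mq q)), mq j.1 - (j.2 : ℕ) = 1 := fun j => by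
    have := hlt j
    have := hsm j.1
    omega
  obtain ⟨c, hc⟩ := W.exists_comb' t (fun j : (Σ q, Fin (mq q)) => coefPoly a β j.1 (j.2 : ℕ)) l
    fun y hy => by
      obtain ⟨u, v, huv⟩ := ker_dF ht hdeg hf hne hcard y fun q d hd => hy ⟨q, ⟨d, hd⟩⟩
      have h2 : ∑ i, l i * y i = u * ∑ i, l i + v * ∑ i, l i * t i := by
        rw [Finset.mul_sum, Finset.mul_sum, ← Finset.sum_add_distrib]
        exact Finset.sum_congr rfl fun i _ => by rw [huv i]; ring
      rw [h2, h1, hl, mul_zero, mul_zero, add_zero]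
  refine rows_of_comb a β mq hdeg l c (fun j _ => he j) fun y => ?_
  rw [hc y]
  refine Finset.sum_congr rfl fun j _ => ?_
  have h2 := coefPoly_homogeneous a β j.1 (mq j.1) (hdeg j.1) j.2 (hlt j).le
  rw [he j] at h2
  rw [W.dF_of_deg_one h2]

/-- LOWER BOUND when all solutions are free -/
theorem prod_le_lines [IsAlgClosed k] (a : Q → Pt → k) (hsum : ∀ q, ∑ p, a q p = 0)
    (β : ι → Pt → ℕ) (mq : Q → ℕ) (hdeg : ∀ q p, a q p ≠ 0 → ∑ i, β i p = mq q)
    (hcard : Fintype.card ι = ∑ q, mq q + 2)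
    (hfree : ∀ t : ι → k, IsSol a β t → (∃ i j, t i ≠ t j) → FreeAt a β mq t)
    (T : Finset (ι → k)) (hT0 : ∀ t ∈ T, t ≠ 0)
    (hT : ∀ t : ι → k, IsSol a β t → t ≠ 0 → ∑ i, t i = 0 → ∃ s ∈ T, ∃ c : k, ∀ i, t i = c * s i) :
    ∏ q, (mq q)! ≤ T.card := by
  classical
  have : Infinite k := Infinite.of_injective ((↑) : ℕ → k) Nat.cast_injective
  have hlt : ∀ j : (Σ q, Fin (mq q)), (j.2 : ℕ) < mq j.1 := fun j => j.2.2
  obtain ⟨θ, hθ⟩ := W.exists_generic T (fun t => W.linF t) fun t ht => W.linF_ne_zero (hT0 t ht)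
  simp only [W.eval_linF] at hθ
  let G : (Σ q, Fin (mq q)) ⊕ Fin 2 → MvPolynomial ι k := Sum.elim
    (fun j => coefPoly a β j.1 (j.2 : ℕ))
    ![W.linF (fun _ => 1), W.linF θ - MvPolynomial.C 1]
  let D : (Σ q, Fin (mq q)) ⊕ Fin 2 → ℕ := Sum.elim (fun j => mq j.1 - (j.2 : ℕ)) ![1, 1]
  have hcard' : Fintype.card ι = Fintype.card ((Σ q, Fin (mq q)) ⊕ Fin 2) := by
    rw [Fintype.card_sum, hcard, Fintype.card_fin, Fintype.card_sigma]
    simp
  let E : ι ≃ (Σ q, Fin (mq q)) ⊕ Fin 2 := Fintype.equivOfCardEq hcard'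
  have hDpos : ∀ s, 1 ≤ D s := by
    rintro (j | s)
    · show 1 ≤ mq j.1 - (j.2 : ℕ)
      have := hlt j
      omega
    · fin_cases s
      · exact le_refl 1
      · exact le_refl 1
  have hhom : ∀ j : (Σ q, Fin (mq q)),
      (coefPoly a β j.1 (j.2 : ℕ)).IsHomogeneous (mq j.1 - (j.2 : ℕ)) := fun j =>
    coefPoly_homogeneous a β j.1 (mq j.1) (hdeg j.1) j.2 (hlt j).le
  have hdeg' : ∀ s, (G s).totalDegree ≤ D s := by
    rintro (j | s)
    · exact (hhom j).totalDegree_le
    · fin_cases s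
      · exact (W.hom_linF _).totalDegree_le
      · show (W.linF θ - MvPolynomial.C 1 : MvPolynomial ι k).totalDegree ≤ 1
        refine (MvPolynomial.totalDegree_sub _ _).trans
          (max_le (W.hom_linF _).totalDegree_le ?_)
        rw [MvPolynomial.totalDegree_C]
        exact Nat.zero_le _
  have hsol : ∀ x : ι → k, (∀ j : (Σ q, Fin (mq q)),
      MvPolynomial.eval x (coefPoly a β j.1 (j.2 : ℕ)) = 0) → IsSol a β x := by
    intro x hx
    rw [isSol_iff a hsum β mq hdeg]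
    exact fun q d hd => hx ⟨q, ⟨d, hd⟩⟩
  let Z₁ : Finset (ι → k) := T.image fun t i => (∑ i, t i * θ i)⁻¹ * t i
  have hmem : ∀ x : ι → k, IsSol a β x → ∑ i, x i = 0 → ∑ i, θ i * x i = 1 → x ∈ Z₁ := by
    intro x hx hxs hxθ
    have hx0 : x ≠ 0 := by
      rintro rfl
      simp at hxθ
    obtain ⟨s, hs, c, hc⟩ := hT x hx hx0 hxs
    refine Finset.mem_image.2 ⟨s, hs, ?_⟩
    have h1 : c * ∑ i, s i * θ i = 1 := by
      rw [← hxθ, Finset.mul_sum]
      exact Finset.sum_congr rfl fun i _ => by rw [hc i]; ring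
    have h2 : (∑ i, s i * θ i)⁻¹ = c := by
      rw [eq_comm, ← mul_eq_one_iff_eq_inv₀ (hθ s hs)]
      exact h1
    funext i
    simp only [h2]
    exact (hc i).symm
  let Z₂ : Finset (ι → k) := Z₁.filter fun z => IsSol a β z ∧ ∑ i, z i = 0 ∧ ∑ i, θ i * z i = 1
  have hcardZ : Z₂.card ≤ T.card :=
    (Finset.card_le_card (Finset.filter_subset _ _)).trans Finset.card_image_le
  have hG : ∀ x : ι → k, (∀ s, MvPolynomial.eval x (G s) = 0) ↔
      (IsSol a β x ∧ ∑ i, x i = 0 ∧ ∑ i, θ i * x i = 1) := by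
    intro x
    constructor
    · intro h
      refine ⟨hsol x fun j => h (Sum.inl j), ?_, ?_⟩
      · have h1 : MvPolynomial.eval x (W.linF (fun _ : ι => (1 : k))) = 0 := h (Sum.inr 0)
        rw [W.eval_linF] at h1
        simpa using h1
      · have h1 : MvPolynomial.eval x (W.linF θ - MvPolynomial.C 1) = 0 := h (Sum.inr 1)
        rw [map_sub, W.eval_linF, MvPolynomial.eval_C, sub_eq_zero] at h1
        exact h1
    · rintro ⟨h1, h2, h3⟩ (j | s)
      · show MvPolynomial.eval x (coefPoly a β j.1 (j.2 : ℕ)) = 0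
        rw [eval_coefPoly, h1 j.1, coeff_zero]
      · fin_cases s
        · show MvPolynomial.eval x (W.linF (fun _ : ι => (1 : k))) = 0
          rw [W.eval_linF]
          simpa using h2
        · show MvPolynomial.eval x (W.linF θ - MvPolynomial.C 1) = 0
          rw [map_sub, W.eval_linF, MvPolynomial.eval_C, h3, sub_self]
  have key := W.bezout_ineq2 (fun i => G (E i)) (fun i => G (E i)) (fun i => D (E i))
    (fun _ => 1) (fun _ => le_refl 1) (fun i => hDpos _) rfl (fun i => hdeg' _) ?_ ∅ Z₂ ?_ ?_ ?_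
    ?_ ?_
  · rw [Finset.card_empty, zero_mul, zero_add, Equiv.prod_comp E D, Fintype.prod_sum_type,
      Fin.prod_univ_two] at key
    rw [← prod_deg_coef mq]
    refine le_trans (le_of_eq ?_) (key.trans hcardZ)
    show _ = (∏ j : (Σ q, Fin (mq q)), (mq j.1 - (j.2 : ℕ))) * (1 * 1)
    rw [mul_one, mul_one]
  · -- zeros at infinity
    intro x hx
    have hx' : ∀ s, MvPolynomial.eval x (MvPolynomial.homogeneousComponent (D s) (G s)) = 0 := by
      intro s
      have := hx (E.symm s)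
      simpa using this
    by_contra hx0
    have h1 : IsSol a β x := hsol x fun j => by
      have h2 := hx' (Sum.inl j)
      have h3 : MvPolynomial.homogeneousComponent (mq j.1 - (j.2 : ℕ))
          (coefPoly a β j.1 (j.2 : ℕ)) = coefPoly a β j.1 (j.2 : ℕ) :=
        MvPolynomial.homogeneousComponent_eq_self (hhom j)
      rw [← h3]
      exact h2
    have h2 : ∑ i, x i = 0 := by
      have h3 : MvPolynomial.eval x (MvPolynomial.homogeneousComponent 1
        (W.linF (fun _ : ι => (1 : k)))) = 0 := hx' (Sum.inr 0)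
      rw [MvPolynomial.homogeneousComponent_eq_self (W.hom_linF _), W.eval_linF] at h3
      simpa using h3
    have h4 : ∑ i, θ i * x i = 0 := by
      have h3 : MvPolynomial.eval x (MvPolynomial.homogeneousComponent 1
        (W.linF θ - MvPolynomial.C 1)) = 0 := hx' (Sum.inr 1)
      have h5 : MvPolynomial.homogeneousComponent 1
          (MvPolynomial.C 1 : MvPolynomial ι k) = 0 := by
        apply MvPolynomial.homogeneousComponent_eq_zero
        rw [MvPolynomial.totalDegree_C]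
        exact one_pos
      rw [map_sub, MvPolynomial.homogeneousComponent_eq_self (W.hom_linF _), h5, sub_zero,
        W.eval_linF] at h3
      exact h3
    obtain ⟨s, hs, c, hc⟩ := hT x h1 hx0 h2
    have h5 : c * ∑ i, s i * θ i = 0 := by
      rw [← h4, Finset.mul_sum]
      exact Finset.sum_congr rfl fun i _ => by rw [hc i]; ring
    rcases mul_eq_zero.1 h5 with h6 | h6
    · apply hx0
      funext i
      rw [hc i, h6, zero_mul]
      rfl
    · exact hθ s hs h6
  · -- zeros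
    intro x hx
    right
    have hx' : ∀ s, MvPolynomial.eval x (G s) = 0 := by
      intro s
      have := hx (E.symm s)
      simpa using this
    obtain ⟨h1, h2, h3⟩ := (hG x).1 hx'
    exact Finset.mem_filter.2 ⟨hmem x h1 h2 h3, h1, h2, h3⟩
  · intro p hp
    exact absurd hp (Finset.notMem_empty _)
  · intro p hp
    exact absurd hp (Finset.notMem_empty _)
  · intro z hz i
    exact (hG z).2 (Finset.mem_filter.1 hz).2 (E i)
  · -- the Jacobian
    intro z hz y hy
    obtain ⟨h1, h2, h3⟩ := (Finset.mem_filter.1 hz).2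
    have hz0 : z ≠ 0 := by
      rintro rfl
      simp at h3
    have hne := sum_const_ne z hz0 h2
    have hy' : ∀ s, W.dF z y (G s) = 0 := by
      intro s
      have := hy (E.symm s)
      simp only [Equiv.apply_symm_apply] at this
      exact this
    obtain ⟨u, v, huv⟩ := ker_dF h1 hdeg (hfree z h1 hne) hne hcard y
      fun q d hd => hy' (Sum.inl ⟨q, ⟨d, hd⟩⟩)
    have hys : ∑ i, y i = 0 := by
      have h4 : W.dF z y (W.linF (fun _ => 1)) = 0 := hy' (Sum.inr 0)
      rw [W.dF_linF] at h4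
      simpa using h4
    have hyθ : ∑ i, θ i * y i = 0 := by
      have h4 : W.dF z y (W.linF θ - MvPolynomial.C 1) = 0 := hy' (Sum.inr 1)
      rw [W.dF_sub, W.dF_linF, W.dF_C, sub_zero] at h4
      exact h4
    have hu : u = 0 := by
      have h4 : ∑ i, y i = (Fintype.card ι : k) * u + v * ∑ i, z i := by
        rw [Finset.mul_sum]
        have h5 : (Fintype.card ι : k) * u = ∑ _i : ι, u := by
          rw [Finset.sum_const, nsmul_eq_mul, Finset.card_univ]
        rw [h5, ← Finset.sum_add_distrib]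
        exact Finset.sum_congr rfl fun i _ => huv i
      rw [hys, h2, mul_zero, add_zero] at h4
      rcases mul_eq_zero.1 h4.symm with h | h
      · exfalso
        have h5 : Fintype.card ι = 0 := by exact_mod_cast h
        omega
      · exact h
    have hv : v = 0 := by
      have h4 : ∑ i, θ i * y i = v * ∑ i, θ i * z i := by
        rw [Finset.mul_sum]
        exact Finset.sum_congr rfl fun i _ => by rw [huv i, hu]; ring
      rw [hyθ, h3, mul_one] at h4
      exact h4.symm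
    funext i
    rw [huv i, hu, hv, zero_mul, add_zero]
    rfl

end

theorem bezA {k ι Pt Q : Type} [Field k] [IsAlgClosed k] [CharZero k] [Fintype ι]
    [Fintype Pt] [Fintype Q] (a : Q → Pt → k) (hsum : ∀ q, ∑ p, a q p = 0) (β : ι → Pt → ℕ)
    (mq : Q → ℕ) (hdeg : ∀ q p, a q p ≠ 0 → ∑ i, β i p = mq q)
    (hcard : Fintype.card ι = ∑ q, mq q + 2)
    (hfree : ∀ t : ι → k, IsSol a β t → (∃ i j, t i ≠ t j) → FreeAt a β mq t)
    (l : ι → k) (h1 : ∑ i, l i = 0) (hl : ∀ t : ι → k, IsSol a β t → ∑ i, l i * t i = 0) :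
    ∃ c : Q → k, ∀ i, l i = ∑ q, c q * ∑ p, a q p * (β i p : k) := by
  classical
  by_cases hsm : ∀ q, mq q ≤ 1
  · obtain ⟨t, ht, hne⟩ := exists_nonconst_sol a hsum β mq hdeg hcard.ge
    exact rows_of_small a β mq hdeg hcard t ht hne (hfree t ht hne) l h1 (hl t ht) hsm
  · push Not at hsm
    obtain ⟨q0, hq0⟩ := hsm
    by_contra hcon
    let S : Set (ι → k) := {t | IsSol a β t ∧ t ≠ 0 ∧ ∑ i, t i = 0}
    obtain ⟨T, hT1, hT2, hT3⟩ := lines_of_free a β mq hdeg hcard S (fun t ht => ht.2.1)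
      (fun t ht => ht.2.2) (fun t ht => ht.1)
      (fun t ht c hc => ⟨isSol_scale a hsum β mq hdeg ht.1 c, by
        intro h
        apply ht.2.1
        funext i
        have h2 : c * t i = 0 := congrFun h i
        exact (mul_eq_zero.1 h2).resolve_left hc, by
        rw [← Finset.mul_sum, ht.2.2, mul_zero]⟩)
      (fun t ht => hfree t ht.1 (sum_const_ne t ht.2.1 ht.2.2)) l h1
      (fun t ht => hl t ht.1) hcon q0 hq0
    have h2 := prod_le_lines a hsum β mq hdeg hcard hfree T (fun t ht => (hT1 t ht).2.1)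
      fun t ht ht0 hts => hT3 t ⟨ht, ht0, hts⟩
    have h3 : 0 < ∏ q, (mq q)! := Finset.prod_pos fun q _ => Nat.factorial_pos _
    omega

end Pool.Agent.Work.CW
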