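import Mathlib
import Pool.Agent.Work.MP_4329d7_ag_w.R4A
import Pool.Agent.Work.MP_4329d7_ag_w.NumW
import Pool.Agent.Work.MP_4329d7_ag_uni.Crit

/-!
Case (ii) of R4 (helper27): the Bezout count with free solutions besides the split ones.
The normalisation is `∑ x_i = 0`, `∑ w_i x_i^2 = ∑ w_i` with generic weights `w`.
-/

open scoped Nat

namespace Pool.Agent.Work.CW

open Polynomial Pool.Agent.Work.Uni

section fam

variable {k ι Pt Q : Type} [Field k] [CharZero k] [Fintype ι] [DecidableEq ι] [Fintype Pt]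

/-- the quadratic form with weights `w` -/
noncomputable def quadW (w : ι → k) : MvPolynomial ι k :=
  ∑ i, MvPolynomial.C (w i) * MvPolynomial.X i ^ 2

omit [CharZero k] [DecidableEq ι] in
theorem hom_quadW (w : ι → k) : (quadW w).IsHomogeneous 2 := by
  unfold quadW
  apply MvPolynomial.IsHomogeneous.sum
  intro i _
  have := (MvPolynomial.isHomogeneous_C ι (w i)).mul ((MvPolynomial.isHomogeneous_X k i).pow 2)
  simpa using this

omit [CharZero k] [DecidableEq ι] in
theorem eval_quadW (w x : ι → k) : MvPolynomial.eval x (quadW w) = ∑ i, w i * x i ^ 2 := by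
  unfold quadW
  rw [map_sum]
  exact Finset.sum_congr rfl fun i _ => by
    rw [map_mul, map_pow, MvPolynomial.eval_C, MvPolynomial.eval_X]

omit [CharZero k] in
theorem shift_quadW (G : Finset ι) (w : ι → k) :
    shift (splitPt k G) (quadW w - MvPolynomial.C (∑ i, w i)) =
      quadW w + W.linF (fun i => 2 * w i * splitPt k G i) := by
  unfold shift quadW W.linF
  rw [map_sub, map_sum, MvPolynomial.aeval_C, MvPolynomial.algebraMap_eq, map_sum,
    ← Finset.sum_sub_distrib, ← Finset.sum_add_distrib]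
  apply Finset.sum_congr rfl
  intro i _
  rw [map_mul, map_pow, MvPolynomial.aeval_X, MvPolynomial.aeval_C, MvPolynomial.algebraMap_eq]
  have h1 : splitPt k G i ^ 2 = 1 := by
    by_cases hi : i ∈ G
    · rw [splitPt_mem hi]; ring
    · rw [splitPt_not_mem hi]; ring
  have h2 : MvPolynomial.C (splitPt k G i) ^ 2 = (1 : MvPolynomial ι k) := by
    rw [← map_pow, h1, map_one]
  have h3 : (MvPolynomial.C (2 : k) : MvPolynomial ι k) = 2 := map_ofNat MvPolynomial.C 2
  rw [map_mul, map_mul, h3]
  linear_combination (MvPolynomial.C (w i)) * h2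

omit [CharZero k] [DecidableEq ι] in
theorem dF_quadW (w x y : ι → k) : W.dF x y (quadW w) = ∑ i, 2 * w i * x i * y i := by
  unfold quadW
  rw [W.dF_sum]
  refine Finset.sum_congr rfl fun i _ => ?_
  rw [W.dF_C_mul]
  have h1 : W.dF x y (MvPolynomial.X i ^ 2 : MvPolynomial ι k) = 2 * x i * y i := by
    classical
    unfold W.dF
    rw [Finset.sum_eq_single i]
    · rw [Derivation.leibniz_pow, MvPolynomial.pderiv_X_self]
      simp
    · intro j _ hj
      rw [Derivation.leibniz_pow, MvPolynomial.pderiv_X_of_ne (Ne.symm hj)]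
      simp
    · intro h
      exact absurd (Finset.mem_univ _) h
  rw [h1]
  ring

/-- the family of the coefficients -/
noncomputable def famPhiW (a : Q → Pt → k) (β : ι → Pt → ℕ) (mq : Q → ℕ) (w : ι → k) :
    ((Σ q, Fin (2 * mq q)) ⊕ Fin 2) → MvPolynomial ι k :=
  Sum.elim (fun p => coefPoly a β p.1 p.2)
    ![∑ i : ι, MvPolynomial.X i, quadW w - MvPolynomial.C (∑ i, w i)]

/-- the family of the Taylor coefficients -/
noncomputable def famPsiW (a : Q → Pt → k) (β : ι → Pt → ℕ) (mq : Q → ℕ) (w : ι → k) :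
    ((Σ q, Fin (2 * mq q)) ⊕ Fin 2) → MvPolynomial ι k :=
  Sum.elim (fun p => if (p.2 : ℕ) < mq p.1 then
      ((TQ a β p.1).comp (X + C (MvPolynomial.C 1))).coeff p.2
      else ((TQ a β p.1).comp (X + C (MvPolynomial.C (-1)))).coeff (p.2 - mq p.1))
    ![∑ i : ι, MvPolynomial.X i, quadW w - MvPolynomial.C (∑ i, w i)]

omit [DecidableEq ι] in
theorem adjoin_famW (a : Q → Pt → k) (hsum : ∀ q, ∑ p, a q p = 0) (β : ι → Pt → ℕ) (mq : Q → ℕ)
    (w : ι → k) (hdeg2 : ∀ q p, a q p ≠ 0 → ∑ i, β i p = 2 * mq q) :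
    Algebra.adjoin k (Set.range (famPhiW a β mq w)) =
      Algebra.adjoin k (Set.range (famPsiW a β mq w)) := by
  apply le_antisymm
  · apply Algebra.adjoin_le
    rintro _ ⟨s, rfl⟩
    rcases s with ⟨q, d⟩ | s
    · obtain ⟨u, v, huv⟩ := coef_eq_sum a hsum β q (mq q) (hdeg2 q) d
      have h0 : famPhiW a β mq w (Sum.inl ⟨q, d⟩) = coefPoly a β q d := rfl
      rw [h0, huv]
      apply Subalgebra.add_mem
      · apply Subalgebra.sum_mem
        intro j _
        apply Subalgebra.mul_mem
        · exact Subalgebra.algebraMap_mem _ _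
        · apply Algebra.subset_adjoin
          refine ⟨Sum.inl ⟨q, ⟨j, by have := j.2; omega⟩⟩, ?_⟩
          show (if (j : ℕ) < mq q then _ else _) = _
          rw [if_pos j.2]
      · apply Subalgebra.sum_mem
        intro j _
        apply Subalgebra.mul_mem
        · exact Subalgebra.algebraMap_mem _ _
        · apply Algebra.subset_adjoin
          refine ⟨Sum.inl ⟨q, ⟨mq q + j, by have := j.2; omega⟩⟩, ?_⟩
          show (if mq q + (j : ℕ) < mq q then _ else
            ((TQ a β q).comp (X + C (MvPolynomial.C (-1)))).coeff (mq q + j - mq q)) = _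
          rw [if_neg (by omega), Nat.add_sub_cancel_left]
    · apply Algebra.subset_adjoin
      exact ⟨Sum.inr s, rfl⟩
  · apply Algebra.adjoin_le
    rintro _ ⟨s, rfl⟩
    have hmem : ∀ q, ∀ r : k, ∀ j : ℕ,
        ((TQ a β q).comp (X + C (MvPolynomial.C r))).coeff j ∈
          Algebra.adjoin k (Set.range (famPhiW a β mq w)) := by
      intro q r j
      rw [taylor_coeff a hsum β q (2 * mq q) (hdeg2 q)]
      apply Subalgebra.sum_mem
      intro d _
      apply Subalgebra.mul_mem
      · exact Subalgebra.algebraMap_mem _ _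
      · apply Algebra.subset_adjoin
        exact ⟨Sum.inl ⟨q, d⟩, rfl⟩
    rcases s with ⟨q, d⟩ | s
    · show (if (d : ℕ) < mq q then _ else _) ∈ _
      by_cases hd : (d : ℕ) < mq q
      · rw [if_pos hd]
        exact hmem q 1 d
      · rw [if_neg hd]
        exact hmem q (-1) _
    · apply Algebra.subset_adjoin
      exact ⟨Sum.inr s, rfl⟩

omit [CharZero k] in
theorem fam_lowW (a : Q → Pt → k) (β : ι → Pt → ℕ) (mq : Q → ℕ) (l : ℕ) (w : ι → k)
    (G : Finset ι) (hG : G.card = l) (hGc : Gᶜ.card = l)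
    (hdeg : ∀ q p, a q p ≠ 0 → ∑ i ∈ G, β i p = mq q)
    (hdegc : ∀ q p, a q p ≠ 0 → ∑ i ∈ Gᶜ, β i p = mq q)
    (s : (Σ q, Fin (2 * mq q)) ⊕ Fin 2) (j : ℕ) (hj : j < degLoc mq s) :
    MvPolynomial.homogeneousComponent j (shift (splitPt k G) (famPsiW a β mq w s)) = 0 := by
  rcases s with ⟨q, d⟩ | s
  · have h := fam_low a β mq l G hG hGc hdeg hdegc (Sum.inl ⟨q, d⟩) j hj
    have h1 : famPsi a β mq l (Sum.inl ⟨q, d⟩) = if (d : ℕ) < mq q then
      ((TQ a β q).comp (X + C (MvPolynomial.C 1))).coeff d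
      else ((TQ a β q).comp (X + C (MvPolynomial.C (-1)))).coeff (d - mq q) := rfl
    have h2 : famPsiW a β mq w (Sum.inl ⟨q, d⟩) = if (d : ℕ) < mq q then
      ((TQ a β q).comp (X + C (MvPolynomial.C 1))).coeff d
      else ((TQ a β q).comp (X + C (MvPolynomial.C (-1)))).coeff (d - mq q) := rfl
    rw [h1] at h
    rw [h2]
    exact h
  · fin_cases s
    · have hj' : j = 0 := by
        have : j < 1 := hj
        omega
      show MvPolynomial.homogeneousComponent j (shift (splitPt k G)
        (∑ i : ι, MvPolynomial.X i : MvPolynomial ι k)) = 0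
      rw [shift_sumX G l hG hGc, MvPolynomial.homogeneousComponent_of_mem hom_sumX, if_neg]
      omega
    · have hj' : j = 0 := by
        have : j < 1 := hj
        omega
      show MvPolynomial.homogeneousComponent j (shift (splitPt k G)
        (quadW w - MvPolynomial.C (∑ i, w i))) = 0
      rw [shift_quadW G w, map_add, MvPolynomial.homogeneousComponent_of_mem (hom_quadW w),
        MvPolynomial.homogeneousComponent_of_mem (W.hom_linF _), if_neg, if_neg, add_zero]
      · omega
      · omega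

theorem fam_initW (a : Q → Pt → k) (β : ι → Pt → ℕ) (mq : Q → ℕ) (l : ℕ) (w : ι → k)
    (G : Finset ι) (hG : G.card = l) (hGc : Gᶜ.card = l)
    (hdeg : ∀ q p, a q p ≠ 0 → ∑ i ∈ G, β i p = mq q)
    (hdegc : ∀ q p, a q p ≠ 0 → ∑ i ∈ Gᶜ, β i p = mq q) (x : ι → k)
    (hx : ∀ s, MvPolynomial.eval x (MvPolynomial.homogeneousComponent (degLoc mq s)
        (shift (splitPt k G) (famPsiW a β mq w s))) = 0) :
    (∀ q, ∀ d < mq q, MvPolynomial.eval x (coefPoly a (restr G β) q d) = 0) ∧
    (∀ q, ∀ d < mq q, MvPolynomial.eval x (coefPoly a (restr Gᶜ β) q d) = 0) ∧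
    ∑ i, x i = 0 ∧ ∑ i, 2 * w i * splitPt k G i * x i = 0 := by
  refine ⟨?_, ?_, ?_, ?_⟩
  · intro q d hd
    have h0 := hx (Sum.inl ⟨q, ⟨d, by omega⟩⟩)
    have h1 : famPsiW a β mq w (Sum.inl ⟨q, ⟨d, by omega⟩⟩)
          = ((TQ a β q).comp (X + C (MvPolynomial.C 1))).coeff d := if_pos hd
    have h2 : degLoc mq (Sum.inl ⟨q, ⟨d, by omega⟩⟩) = mq q - d := if_pos hd
    rw [h1, h2, shift_taylor a β q G 1 (splitPt k G) (fun i hi => splitPt_mem hi)
        (fun i hi => splitPt_not_mem hi),
      loc_init a β G _ q (mq q) (hdeg q) (hdegc q) d hd, map_mul, MvPolynomial.eval_C] at h0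
    rcases mul_eq_zero.mp h0 with h | h
    · exfalso
      have : (2 * (1 : k)) ≠ 0 := by rw [mul_one]; exact two_ne_zero
      exact pow_ne_zero _ this h
    · exact h
  · intro q d hd
    have h0 := hx (Sum.inl ⟨q, ⟨mq q + d, by omega⟩⟩)
    have h1 : famPsiW a β mq w (Sum.inl ⟨q, ⟨mq q + d, by omega⟩⟩)
          = ((TQ a β q).comp (X + C (MvPolynomial.C (-1)))).coeff (mq q + d - mq q) :=
      if_neg (by show ¬ (mq q + d < mq q); omega)
    have h2 : degLoc mq (Sum.inl ⟨q, ⟨mq q + d, by omega⟩⟩) = 2 * mq q - (mq q + d) :=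
      if_neg (by show ¬ (mq q + d < mq q); omega)
    have h3 : 2 * mq q - (mq q + d) = mq q - d := by omega
    rw [h1, h2, Nat.add_sub_cancel_left, h3, shift_taylor a β q Gᶜ (-1) (splitPt k G)
        (fun i hi => splitPt_not_mem (Finset.mem_compl.mp hi))
        (fun i hi => by rw [splitPt_mem (by simpa using hi), neg_neg]),
      loc_init a β Gᶜ _ q (mq q) (hdegc q) (by rw [compl_compl]; exact hdeg q) d hd, map_mul,
      MvPolynomial.eval_C] at h0
    rcases mul_eq_zero.mp h0 with h | h
    · exfalso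
      have : (2 * (-1 : k)) ≠ 0 := mul_ne_zero two_ne_zero (neg_ne_zero.mpr one_ne_zero)
      exact pow_ne_zero _ this h
    · exact h
  · have h1 : MvPolynomial.eval x (MvPolynomial.homogeneousComponent 1 (shift (splitPt k G)
        (∑ i : ι, MvPolynomial.X i : MvPolynomial ι k))) = 0 := hx (Sum.inr 0)
    rw [shift_sumX G l hG hGc, MvPolynomial.homogeneousComponent_eq_self hom_sumX, map_sum] at h1
    simpa using h1
  · have h1 : MvPolynomial.eval x (MvPolynomial.homogeneousComponent 1 (shift (splitPt k G)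
        (quadW w - MvPolynomial.C (∑ i, w i)))) = 0 := hx (Sum.inr 1)
    rw [shift_quadW G w, map_add, MvPolynomial.homogeneousComponent_of_mem (hom_quadW w),
        MvPolynomial.homogeneousComponent_eq_self (W.hom_linF _), if_neg (by omega), zero_add,
        W.eval_linF] at h1
    exact h1

end fam

/-- THE COUNT: split solutions and free solutions -/
theorem bound_free {k ι Pt Q : Type} [Field k] [IsAlgClosed k] [CharZero k] [Fintype ι]
    [DecidableEq ι] [Fintype Pt] [Fintype Q] (a : Q → Pt → k) (hsum : ∀ q, ∑ p, a q p = 0)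
    (β : ι → Pt → ℕ) (mq : Q → ℕ) (l : ℕ) (hl : ∑ q, mq q + 1 = l)
    (Sp : Finset (Finset ι)) (hcard : Fintype.card ι = 2 * l)
    (hSp : ∀ G ∈ Sp, G.card = l) (hcompl : ∀ G ∈ Sp, Gᶜ ∈ Sp)
    (hdeg2 : ∀ q p, a q p ≠ 0 → ∑ i, β i p = 2 * mq q)
    (hdeg : ∀ G ∈ Sp, ∀ q p, a q p ≠ 0 → ∑ i ∈ G, β i p = mq q)
    (H1 : ∀ G ∈ Sp, ∀ t : G → k, IsSol a (fun i : G => β i) t → ∀ i j, t i = t j)
    (S : Set (ι → k)) (hSs : ∀ x ∈ S, ∑ i, x i = 0) (hSsol : ∀ x ∈ S, IsSol a β x)
    (hS0 : ∀ x ∈ S, x ≠ 0)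
    (H2 : ∀ x : ι → k, IsSol a β x → x ≠ 0 → ∑ i, x i = 0 →
      (∃ G ∈ Sp, ∃ s : k, (∀ i ∈ G, x i = s) ∧ ∀ i, i ∉ G → x i = -s) ∨ x ∈ S)
    (hker : ∀ x ∈ S, ∀ y : ι → k, (∀ q, ∀ d < 2 * mq q, W.dF x y (coefPoly a β q d) = 0) →
      ∃ u v : k, ∀ i, y i = u + v * x i)
    (T : Finset (ι → k)) (hTS : ∀ t ∈ T, t ∈ S)
    (hT : ∀ x ∈ S, ∃ t ∈ T, ∃ c : k, ∀ i, x i = c * t i) :
    2 * ∏ q, (2 * mq q)! ≤ Sp.card * (∏ q, (mq q)!) ^ 2 + 2 * T.card := by
  classical
  have : Infinite k := Infinite.of_injective ((↑) : ℕ → k) Nat.cast_injective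
  have hl0 : 0 < l := by omega
  have hlk : (l : k) ≠ 0 := by exact_mod_cast hl0.ne'
  have hJ : Fintype.card ι = Fintype.card ((Σ q, Fin (2 * mq q)) ⊕ Fin 2) := by
    rw [Fintype.card_sum, Fintype.card_sigma, Fintype.card_fin, hcard, ← hl]
    simp only [Fintype.card_fin]
    rw [← Finset.mul_sum]
    ring
  -- the weights
  obtain ⟨w, hw⟩ := W.exists_generic (insert (fun _ => (1 : k)) T)
    (fun t => W.linF fun i => t i ^ 2) fun t ht => by
      apply W.linF_ne_zero
      intro h
      have h1 : ∀ i, t i = 0 := fun i => pow_eq_zero_iff two_ne_zero |>.1 (congrFun h i)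
      rcases Finset.mem_insert.1 ht with rfl | ht
      · obtain ⟨i⟩ : Nonempty ι := Fintype.card_pos_iff.1 (by omega)
        exact one_ne_zero (h1 i)
      · exact hS0 t (hTS t ht) (funext h1)
  simp only [W.eval_linF] at hw
  have hw1 : ∑ i, w i ≠ 0 := by
    have := hw _ (Finset.mem_insert_self _ _)
    simpa using this
  have hwT : ∀ t ∈ T, ∑ i, w i * t i ^ 2 ≠ 0 := by
    intro t ht
    have := hw t (Finset.mem_insert_of_mem ht)
    rw [Finset.sum_congr rfl fun i _ => mul_comm (t i ^ 2) (w i)] at this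
    exact this
  -- square roots
  have hr : ∀ t : ↥T, ∃ r : k, r ^ 2 * ∑ i, w i * t.1 i ^ 2 = ∑ i, w i := by
    intro t
    obtain ⟨r, hr⟩ := IsAlgClosed.exists_pow_nat_eq ((∑ i, w i) * (∑ i, w i * t.1 i ^ 2)⁻¹)
      (n := 2) two_pos
    refine ⟨r, ?_⟩
    rw [hr, mul_assoc, inv_mul_cancel₀ (hwT t.1 t.2), mul_one]
  choose r hr using hr
  let e : ι ≃ ((Σ q, Fin (2 * mq q)) ⊕ Fin 2) := Fintype.equivOfCardEq hJ
  let Z₀ : Finset (ι → k) := Sp.image (fun G => splitPt k G)
  let Z₁' : Finset (ι → k) := (Finset.univ : Finset (↥T × Bool)).image fun z i =>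
    (if z.2 then r z.1 else -r z.1) * z.1.1 i
  let Z₁ : Finset (ι → k) := Z₁'.filter fun x => x ∈ S ∧ ∑ i, w i * x i ^ 2 = ∑ i, w i
  have hZ₁card : Z₁.card ≤ 2 * T.card := by
    refine (Finset.card_le_card (Finset.filter_subset _ _)).trans (Finset.card_image_le.trans ?_)
    rw [Finset.card_univ, Fintype.card_prod, Fintype.card_coe, Fintype.card_bool, mul_comm]
  have hcc : ∀ G ∈ Sp, Gᶜ.card = l := fun G hG => hSp _ (hcompl G hG)
  have hdegc : ∀ G ∈ Sp, ∀ q p, a q p ≠ 0 → ∑ i ∈ Gᶜ, β i p = mq q := fun G hG =>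
    hdeg _ (hcompl G hG)
  have hsplitsq : ∀ (x : ι → k) (G : Finset ι) (s : k), (∀ i ∈ G, x i = s) →
      (∀ i, i ∉ G → x i = -s) → ∑ i, w i * x i ^ 2 = s ^ 2 * ∑ i, w i := by
    intro x G s h1 h2
    rw [Finset.mul_sum]
    refine Finset.sum_congr rfl fun i _ => ?_
    by_cases hi : i ∈ G
    · rw [h1 i hi]; ring
    · rw [h2 i hi]; ring
  have key := W.bezout_ineq2 (fun i => famPhiW a β mq w (e i)) (fun i => famPsiW a β mq w (e i))
    (fun i => degInf mq (e i)) (fun i => degLoc mq (e i)) ?_ ?_ ?_ ?_ ?_ Z₀ Z₁ ?_ ?_ ?_ ?_ ?_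
  · rw [Equiv.prod_comp e (degInf mq), Equiv.prod_comp e (degLoc mq), prod_degInf,
      prod_degLoc] at key
    exact key.trans (Nat.add_le_add (Nat.mul_le_mul_right _ Finset.card_image_le) hZ₁card)
  · -- 1 ≤ d
    intro i
    show 1 ≤ degLoc mq (e i)
    rcases e i with ⟨q, d⟩ | s
    · show 1 ≤ (if (d : ℕ) < mq q then mq q - (d : ℕ) else 2 * mq q - (d : ℕ))
      have := d.2
      split_ifs with h
      · omega
      · omega
    · fin_cases s
      · exact le_refl 1
      · exact le_refl 1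
  · -- 1 ≤ D
    intro i
    show 1 ≤ degInf mq (e i)
    rcases e i with ⟨q, d⟩ | s
    · show 1 ≤ 2 * mq q - (d : ℕ)
      have := d.2
      omega
    · fin_cases s
      · exact le_refl 1
      · exact one_le_two
  · -- same algebra
    have h1 : Set.range (fun i => famPhiW a β mq w (e i)) = Set.range (famPhiW a β mq w) :=
      e.surjective.range_comp _
    have h2 : Set.range (fun i => famPsiW a β mq w (e i)) = Set.range (famPsiW a β mq w) :=
      e.surjective.range_comp _
    rw [h1, h2]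
    exact adjoin_famW a hsum β mq w hdeg2
  · -- total degrees
    intro i
    show (famPhiW a β mq w (e i)).totalDegree ≤ degInf mq (e i)
    rcases e i with ⟨q, d⟩ | s
    · exact (coefPoly_homogeneous a β q (2 * mq q) (hdeg2 q) d d.2.le).totalDegree_le
    · fin_cases s
      · exact hom_sumX.totalDegree_le
      · show (quadW w - MvPolynomial.C (∑ i, w i)).totalDegree ≤ 2
        refine (MvPolynomial.totalDegree_sub _ _).trans ?_
        rw [MvPolynomial.totalDegree_C]
        exact max_le (hom_quadW w).totalDegree_le (Nat.zero_le _)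
  · -- zeros at infinity
    intro x hx
    have hx' : ∀ s, MvPolynomial.eval x (MvPolynomial.homogeneousComponent (degInf mq s)
        (famPhiW a β mq w s)) = 0 := by
      intro s
      have := hx (e.symm s)
      simpa using this
    have hsol : IsSol a β x := by
      rw [isSol_iff a hsum β (fun q => 2 * mq q) hdeg2]
      intro q d hd
      have h1 := hx' (Sum.inl ⟨q, ⟨d, hd⟩⟩)
      have h2 : MvPolynomial.homogeneousComponent (2 * mq q - d) (coefPoly a β q d)
          = coefPoly a β q d :=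
        MvPolynomial.homogeneousComponent_eq_self
          (coefPoly_homogeneous a β q (2 * mq q) (hdeg2 q) d hd.le)
      rw [← h2]
      exact h1
    have hs1 : ∑ i, x i = 0 := by
      have h1 := hx' (Sum.inr 0)
      have h2 : MvPolynomial.homogeneousComponent 1 (∑ i : ι, MvPolynomial.X i : MvPolynomial ι k)
          = ∑ i : ι, MvPolynomial.X i := MvPolynomial.homogeneousComponent_eq_self hom_sumX
      have h3 : MvPolynomial.eval x (MvPolynomial.homogeneousComponent 1
        (∑ i : ι, MvPolynomial.X i : MvPolynomial ι k)) = 0 := h1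
      rw [h2, map_sum] at h3
      simpa using h3
    have hs2 : ∑ i, w i * x i ^ 2 = 0 := by
      have h1 : MvPolynomial.eval x (MvPolynomial.homogeneousComponent 2
        (quadW w - MvPolynomial.C (∑ i, w i))) = 0 := hx' (Sum.inr 1)
      rw [map_sub, MvPolynomial.homogeneousComponent_eq_self (hom_quadW w)] at h1
      have h2 : MvPolynomial.homogeneousComponent 2
          (MvPolynomial.C (∑ i, w i) : MvPolynomial ι k) = 0 := by
        apply MvPolynomial.homogeneousComponent_eq_zero
        rw [MvPolynomial.totalDegree_C]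
        exact Nat.two_pos
      rw [h2, sub_zero, eval_quadW] at h1
      exact h1
    by_contra hx0
    rcases H2 x hsol hx0 hs1 with ⟨G, hG, s, h1, h2⟩ | hxS
    · rw [hsplitsq x G s h1 h2] at hs2
      have h5 : s = 0 := by
        rcases mul_eq_zero.1 hs2 with h | h
        · exact pow_eq_zero_iff (two_ne_zero) |>.mp h
        · exact absurd h hw1
      apply hx0
      funext i
      by_cases hi : i ∈ G
      · rw [h1 i hi, h5]; rfl
      · rw [h2 i hi, h5, neg_zero]; rfl
    · obtain ⟨t, ht, c, hc⟩ := hT x hxS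
      have h1 : ∑ i, w i * x i ^ 2 = c ^ 2 * ∑ i, w i * t i ^ 2 := by
        rw [Finset.mul_sum]
        exact Finset.sum_congr rfl fun i _ => by rw [hc i]; ring
      rw [hs2] at h1
      rcases mul_eq_zero.1 h1.symm with h | h
      · apply hx0
        funext i
        rw [hc i, pow_eq_zero_iff (two_ne_zero) |>.mp h, zero_mul]
        rfl
      · exact hwT t ht h
  · -- zeros of Psi
    intro x hx
    have hx' : ∀ s, MvPolynomial.eval x (famPsiW a β mq w s) = 0 := by
      intro s
      have := hx (e.symm s)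
      simpa using this
    have hsol : IsSol a β x := by
      apply sol_of_taylor a hsum β mq hdeg2
      · intro q j hj
        have h1 := hx' (Sum.inl ⟨q, ⟨j, by omega⟩⟩)
        have h2 : famPsiW a β mq w (Sum.inl ⟨q, ⟨j, by omega⟩⟩)
            = ((TQ a β q).comp (X + C (MvPolynomial.C 1))).coeff j := if_pos hj
        rwa [h2] at h1
      · intro q j hj
        have h1 := hx' (Sum.inl ⟨q, ⟨mq q + j, by omega⟩⟩)
        have h2 : famPsiW a β mq w (Sum.inl ⟨q, ⟨mq q + j, by omega⟩⟩)
            = ((TQ a β q).comp (X + C (MvPolynomial.C (-1)))).coeff (mq q + j - mq q) :=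
          if_neg (by show ¬ (mq q + j < mq q); omega)
        rw [h2, Nat.add_sub_cancel_left] at h1
        exact h1
    have hs1 : ∑ i, x i = 0 := by
      have h1 : MvPolynomial.eval x (∑ i : ι, MvPolynomial.X i : MvPolynomial ι k) = 0 :=
        hx' (Sum.inr 0)
      rw [map_sum] at h1
      simpa using h1
    have hs2 : ∑ i, w i * x i ^ 2 = ∑ i, w i := by
      have h1 : MvPolynomial.eval x (quadW w - MvPolynomial.C (∑ i, w i)) = 0 := hx' (Sum.inr 1)
      rw [map_sub, eval_quadW, MvPolynomial.eval_C, sub_eq_zero] at h1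
      exact h1
    have hx0 : x ≠ 0 := by
      rintro rfl
      apply hw1
      rw [← hs2]
      simp
    rcases H2 x hsol hx0 hs1 with ⟨G, hG, s, h1, h2⟩ | hxS
    · left
      have h3 := hsplitsq x G s h1 h2
      rw [hs2] at h3
      have h4 : (s ^ 2 - 1) * ∑ i, w i = 0 := by
        rw [sub_mul, one_mul, ← h3, sub_self]
      have h5 : s ^ 2 = 1 := sub_eq_zero.1 ((mul_eq_zero.1 h4).resolve_right hw1)
      rcases sq_eq_sq_iff_eq_or_eq_neg.mp (show s ^ 2 = 1 ^ 2 by rw [h5, one_pow]) with h6 | h6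
      · exact Finset.mem_image.mpr ⟨G, hG, by
          funext i
          by_cases hi : i ∈ G
          · rw [splitPt_mem hi, h1 i hi, h6]
          · rw [splitPt_not_mem hi, h2 i hi, h6]⟩
      · exact Finset.mem_image.mpr ⟨Gᶜ, hcompl G hG, by
          funext i
          by_cases hi : i ∈ G
          · rw [splitPt_not_mem (by simpa using hi), h1 i hi, h6]
          · rw [splitPt_mem (Finset.mem_compl.mpr hi), h2 i hi, h6, neg_neg]⟩
    · right
      refine Finset.mem_filter.2 ⟨?_, hxS, hs2⟩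
      obtain ⟨t, ht, c, hc⟩ := hT x hxS
      have h1 : c ^ 2 * ∑ i, w i * t i ^ 2 = ∑ i, w i := by
        rw [← hs2, Finset.mul_sum]
        exact Finset.sum_congr rfl fun i _ => by rw [hc i]; ring
      have h2 : c ^ 2 = (r ⟨t, ht⟩) ^ 2 := by
        have h3 := hr ⟨t, ht⟩
        exact mul_right_cancel₀ (hwT t ht) (h1.trans h3.symm)
      rcases sq_eq_sq_iff_eq_or_eq_neg.mp h2 with h3 | h3
      · refine Finset.mem_image.2 ⟨(⟨t, ht⟩, true), Finset.mem_univ _, ?_⟩
        funext i
        show (if true = true then r ⟨t, ht⟩ else -r ⟨t, ht⟩) * t i = x i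
        rw [if_pos rfl, hc i, h3]
      · refine Finset.mem_image.2 ⟨(⟨t, ht⟩, false), Finset.mem_univ _, ?_⟩
        funext i
        show (if false = true then r ⟨t, ht⟩ else -r ⟨t, ht⟩) * t i = x i
        rw [if_neg (by simp), hc i, h3]
  · -- low components
    intro p hp i j hj
    obtain ⟨G, hG, rfl⟩ := Finset.mem_image.mp hp
    exact fam_lowW a β mq l w G (hSp G hG) (hcc G hG) (hdeg G hG) (hdegc G hG) (e i) j hj
  · -- local zeros
    intro p hp x hx
    obtain ⟨G, hG, rfl⟩ := Finset.mem_image.mp hp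
    have hx' : ∀ s, MvPolynomial.eval x (MvPolynomial.homogeneousComponent (degLoc mq s)
        (shift (splitPt k G) (famPsiW a β mq w s))) = 0 := by
      intro s
      have := hx (e.symm s)
      simp only [Equiv.apply_symm_apply] at this
      exact this
    obtain ⟨hc1, hc2, hs1, hs2⟩ := fam_initW a β mq l w G (hSp G hG) (hcc G hG) (hdeg G hG)
      (hdegc G hG) x hx'
    have hG1 : IsSol a (restr G β) x := by
      rw [isSol_iff a hsum (restr G β) mq (fun q p hp => by
        rw [sum_restr]; exact hdeg G hG q p hp)]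
      exact hc1
    have hG2 : IsSol a (restr Gᶜ β) x := by
      rw [isSol_iff a hsum (restr Gᶜ β) mq (fun q p hp => by
        rw [sum_restr]; exact hdegc G hG q p hp)]
      exact hc2
    have k1 := H1 G hG _ (isSol_restr a β G x hG1)
    have k2 := H1 Gᶜ (hcompl G hG) _ (isSol_restr a β Gᶜ x hG2)
    have hne1 : G.Nonempty := Finset.card_pos.mp (by rw [hSp G hG]; exact hl0)
    have hne2 : Gᶜ.Nonempty := Finset.card_pos.mp (by rw [hcc G hG]; exact hl0)
    obtain ⟨i1, hi1⟩ := hne1
    obtain ⟨i2, hi2⟩ := hne2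
    have m1 : ∀ i ∈ G, x i = x i1 := fun i hi => k1 ⟨i, hi⟩ ⟨i1, hi1⟩
    have m2 : ∀ i, i ∉ G → x i = x i2 := fun i hi =>
      k2 ⟨i, Finset.mem_compl.mpr hi⟩ ⟨i2, hi2⟩
    have n1 := sum_halves G l (hSp G hG) (hcc G hG) x (x i1) (x i2) m1 m2
    rw [hs1] at n1
    have n2 : x i2 = -x i1 := by
      have h1 : (l : k) * (x i1 + x i2) = 0 := by rw [mul_add]; exact n1.symm
      exact (neg_eq_of_add_eq_zero_right ((mul_eq_zero.1 h1).resolve_left hlk)).symm
    have n3 : ∑ i, 2 * w i * splitPt k G i * x i = 2 * x i1 * ∑ i, w i := by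
      rw [Finset.mul_sum]
      refine Finset.sum_congr rfl fun i _ => ?_
      by_cases hi : i ∈ G
      · rw [splitPt_mem hi, m1 i hi]; ring
      · rw [splitPt_not_mem hi, m2 i hi, n2]; ring
    rw [hs2] at n3
    have n4 : x i1 = 0 := by
      rcases mul_eq_zero.1 n3.symm with h | h
      · exact (mul_eq_zero.1 h).resolve_left two_ne_zero
      · exact absurd h hw1
    funext i
    by_cases hi : i ∈ G
    · rw [m1 i hi, n4]; rfl
    · rw [m2 i hi, n2, n4, neg_zero]; rfl
  · -- the free zeros are zeros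
    intro z hz i
    obtain ⟨hzS, hz2⟩ := (Finset.mem_filter.1 hz).2
    have hcoef : ∀ q (d : Fin (2 * mq q)), MvPolynomial.eval z (coefPoly a β q d) = 0 := by
      intro q d
      rw [eval_coefPoly, hSsol z hzS q, coeff_zero]
    have htay : ∀ q, ∀ c : k, ∀ j : ℕ, MvPolynomial.eval z
        (((TQ a β q).comp (X + C (MvPolynomial.C c))).coeff j) = 0 := by
      intro q c j
      rw [taylor_coeff a hsum β q (2 * mq q) (hdeg2 q), map_sum]
      exact Finset.sum_eq_zero fun d _ => by rw [map_mul, hcoef, mul_zero]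
    show MvPolynomial.eval z (famPsiW a β mq w (e i)) = 0
    rcases e i with ⟨q, d⟩ | s
    · show MvPolynomial.eval z (if (d : ℕ) < mq q then _ else _) = 0
      by_cases hd : (d : ℕ) < mq q
      · rw [if_pos hd]; exact htay q 1 d
      · rw [if_neg hd]; exact htay q (-1) _
    · fin_cases s
      · show MvPolynomial.eval z (∑ i : ι, MvPolynomial.X i : MvPolynomial ι k) = 0
        rw [map_sum]
        simpa using hSs z hzS
      · show MvPolynomial.eval z (quadW w - MvPolynomial.C (∑ i, w i)) = 0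
        rw [map_sub, eval_quadW, MvPolynomial.eval_C, hz2, sub_self]
  · -- the Jacobian at the free zeros
    intro z hz y hy
    obtain ⟨hzS, hz2⟩ := (Finset.mem_filter.1 hz).2
    have hy' : ∀ s, W.dF z y (famPsiW a β mq w s) = 0 := by
      intro s
      have := hy (e.symm s)
      simp only [Equiv.apply_symm_apply] at this
      exact this
    have hcoef : ∀ q, ∀ d < 2 * mq q, W.dF z y (coefPoly a β q d) = 0 := by
      intro q d hd
      obtain ⟨u, v, huv⟩ := coef_eq_sum a hsum β q (mq q) (hdeg2 q) ⟨d, hd⟩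
      rw [show coefPoly a β q d = coefPoly a β q ((⟨d, hd⟩ : Fin (2 * mq q)) : ℕ) from rfl, huv,
        W.dF_add, W.dF_sum, W.dF_sum]
      have h1 : ∀ j : Fin (mq q), W.dF z y
          (((TQ a β q).comp (X + C (MvPolynomial.C 1))).coeff j) = 0 := by
        intro j
        have h2 := hy' (Sum.inl ⟨q, ⟨j, by have := j.2; omega⟩⟩)
        have h3 : famPsiW a β mq w (Sum.inl ⟨q, ⟨j, by have := j.2; omega⟩⟩)
            = ((TQ a β q).comp (X + C (MvPolynomial.C 1))).coeff j := if_pos j.2
        rwa [h3] at h2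
      have h2 : ∀ j : Fin (mq q), W.dF z y
          (((TQ a β q).comp (X + C (MvPolynomial.C (-1)))).coeff j) = 0 := by
        intro j
        have h4 := hy' (Sum.inl ⟨q, ⟨mq q + j, by have := j.2; omega⟩⟩)
        have h3 : famPsiW a β mq w (Sum.inl ⟨q, ⟨mq q + j, by have := j.2; omega⟩⟩)
            = ((TQ a β q).comp (X + C (MvPolynomial.C (-1)))).coeff (mq q + j - mq q) :=
          if_neg (by show ¬ (mq q + (j : ℕ) < mq q); omega)
        rw [h3, Nat.add_sub_cancel_left] at h4
        exact h4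
      rw [Finset.sum_eq_zero fun j _ => by rw [W.dF_C_mul, h1 j, mul_zero],
        Finset.sum_eq_zero fun j _ => by rw [W.dF_C_mul, h2 j, mul_zero], add_zero]
    obtain ⟨u, v, huv⟩ := hker z hzS y hcoef
    have hys : ∑ i, y i = 0 := by
      have h1 : W.dF z y (∑ i : ι, MvPolynomial.X i : MvPolynomial ι k) = 0 := hy' (Sum.inr 0)
      rw [W.dF_sum] at h1
      simpa only [W.dF_X] using h1
    have hyq : ∑ i, 2 * w i * z i * y i = 0 := by
      have h1 : W.dF z y (quadW w - MvPolynomial.C (∑ i, w i)) = 0 := hy' (Sum.inr 1)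
      rw [W.dF_sub, W.dF_C, sub_zero, dF_quadW] at h1
      exact h1
    have hu : u = 0 := by
      have h4 : ∑ i, y i = (Fintype.card ι : k) * u + v * ∑ i, z i := by
        rw [Finset.mul_sum]
        have h5 : (Fintype.card ι : k) * u = ∑ _i : ι, u := by
          rw [Finset.sum_const, nsmul_eq_mul, Finset.card_univ]
        rw [h5, ← Finset.sum_add_distrib]
        exact Finset.sum_congr rfl fun i _ => huv i
      rw [hys, hSs z hzS, mul_zero, add_zero, hcard] at h4
      rcases mul_eq_zero.1 h4.symm with h | h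
      · exfalso
        push_cast at h
        exact mul_ne_zero two_ne_zero hlk h
      · exact h
    have hv : v = 0 := by
      have h4 : ∑ i, 2 * w i * z i * y i = 2 * v * ∑ i, w i * z i ^ 2 := by
        rw [Finset.mul_sum]
        exact Finset.sum_congr rfl fun i _ => by rw [huv i, hu]; ring
      rw [hyq, hz2] at h4
      rcases mul_eq_zero.1 h4.symm with h | h
      · exact (mul_eq_zero.1 h).resolve_left two_ne_zero
      · exact absurd h hw1
    funext i
    rw [huv i, hu, hv, zero_mul, add_zero]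
    rfl

end Pool.Agent.Work.CW
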