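import Mathlib
import Pool.Agent.Work.MP_4329d7_ag_w.R4Bw
import Pool.Agent.Work.MP_4329d7_ag_w.ExFree

/-!
Module W-BezB (abstract, helper27): case (ii) of R4, when the number of types is at least the number
of moving relations plus 3.
PROOF. As in `bezA`: UB: at most `(∏ (2 mq q)!)/2` lines of nonconstant, non split solutions; LB:
`∏ (2 mq q)! ≤ (|Z|/2) (∏ (mq q)!)^2 + # (these lines)`, `|Z| = ∏ C(2 lam, lam)`, and
`|Z| (∏ (mq q)!)^2 / 2 ≤ (4/9) ∏ (2 mq q)!` (numerics: `truncated` gives `R(J) ≥ 1` for all `J ≥ 1`,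
`R(1) ≥ 3`, Abel summation with `log C(2j+2,j+1)/C(2j,j)` increasing in `j`).
-/

open scoped Nat

namespace Pool.Agent.Work.CW

open Polynomial Pool.Agent.Work.Uni

theorem bezB {k ι Pt Q Ty : Type} [Field k] [IsAlgClosed k] [CharZero k] [Fintype ι]
    [DecidableEq ι] [Fintype Pt] [Fintype Q] [Fintype Ty] [DecidableEq Ty]
    (a : Q → Pt → k) (hsum : ∀ q, ∑ p, a q p = 0) (b : Ty → Pt → ℕ) (lam : Ty → ℕ)
    (hlam : ∀ y, 1 ≤ lam y) (mq : Q → ℕ) (hdeg : ∀ q p, a q p ≠ 0 → ∑ y, lam y * b y p = mq q)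
    (hδ : ∑ y, lam y = ∑ q, mq q + 1)
    (hconst : ∀ t : (Σ y, Fin (lam y)) → k, IsSol a (fun i => b i.1) t → ∀ i j, t i = t j)
    (τ : ι → Ty) (hτ : ∀ y, (Finset.univ.filter fun i => τ i = y).card = 2 * lam y)
    (hsol : ∀ t : ι → k, IsSol a (fun i => b (τ i)) t → (∀ i j, t i = t j) ∨
      (∃ (G : Finset ι) (s₁ s₂ : k), s₁ ≠ s₂ ∧ (∀ i ∈ G, t i = s₁) ∧ (∀ i, i ∉ G → t i = s₂) ∧
        ∀ y, (G.filter fun i => τ i = y).card = lam y) ∨
      FreeAt a (fun i => b (τ i)) (fun q => 2 * mq q) t)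
    (hT : (Finset.univ.filter fun q => 1 ≤ mq q).card + 3 ≤ Fintype.card Ty)
    (L : Ty → k) (hL0 : ∑ y, (lam y : k) * L y = 0)
    (hL : ∀ t : ι → k, IsSol a (fun i => b (τ i)) t → ∑ i, L (τ i) * t i = 0) :
    ∃ c : Q → k, ∀ y, L y = ∑ q, c q * ∑ p, a q p * (b y p : k) := by
  classical
  obtain ⟨l, hl⟩ : ∃ l, l = ∑ y, lam y := ⟨_, rfl⟩
  have hl0 : 0 < l := by omega
  have hlk : (l : k) ≠ 0 := by exact_mod_cast hl0.ne'
  have hcard : Fintype.card ι = 2 * l := by
    rw [← Finset.card_univ, card_by_types Finset.univ τ, hl, Finset.mul_sum]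
    exact Finset.sum_congr rfl fun y _ => hτ y
  have hcard2 : Fintype.card ι = ∑ q, 2 * mq q + 2 := by
    rw [hcard, ← Finset.mul_sum]
    omega
  have hdeg2 : ∀ q p, a q p ≠ 0 → ∑ i, b (τ i) p = 2 * mq q := by
    intro q p h
    rw [sum_types, ← hdeg q p h, Finset.mul_sum]
    exact Finset.sum_congr rfl fun y _ => by rw [hτ]; ring
  let Sp : Finset (Finset ι) := Finset.univ.filter fun G : Finset ι =>
    ∀ y, (G.filter fun i => τ i = y).card = lam y
  have hmem : ∀ G : Finset ι, G ∈ Sp ↔ ∀ y, (G.filter fun i => τ i = y).card = lam y := fun G => by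
    rw [Finset.mem_filter]
    exact ⟨fun h => h.2, fun h => ⟨Finset.mem_univ _, h⟩⟩
  have hSp : ∀ G ∈ Sp, G.card = l := by
    intro G hG
    rw [hmem] at hG
    rw [card_by_types G τ, hl]
    exact Finset.sum_congr rfl fun y _ => hG y
  have hcompl : ∀ G ∈ Sp, Gᶜ ∈ Sp := by
    intro G hG
    rw [hmem] at hG ⊢
    intro y
    have h1 := hG y
    have h2 := hτ y
    have h3 := compl_types G τ y
    omega
  have hdegS : ∀ G ∈ Sp, ∀ q p, a q p ≠ 0 → ∑ i ∈ G, b (τ i) p = mq q := by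
    intro G hG q p h
    rw [hmem] at hG
    rw [sum_types, ← hdeg q p h]
    exact Finset.sum_congr rfl fun y _ => by rw [hG y]
  have H1 : ∀ G ∈ Sp, ∀ t : G → k, IsSol a (fun i : G => b (τ i)) t → ∀ i j, t i = t j := by
    intro G hG t ht
    rw [hmem] at hG
    obtain ⟨e, he⟩ := exists_std (fun i : G => τ i.1) lam fun y => by
      rw [← hG y]
      refine Finset.card_bij (fun i _ => i.1) ?_ ?_ ?_
      · intro i hi
        rw [Finset.mem_filter] at hi ⊢
        exact ⟨i.2, hi.2⟩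
      · intro i _ j _ h
        exact Subtype.ext h
      · intro i hi
        rw [Finset.mem_filter] at hi
        exact ⟨⟨i, hi.1⟩, Finset.mem_filter.2 ⟨Finset.mem_univ _, hi.2⟩, rfl⟩
    have h1 := isSol_equiv a (fun i : G => b (τ i)) e.symm t ht
    have h2 : (fun i : (Σ y, Fin (lam y)) => b (τ (e.symm i).1)) = fun i => b i.1 := by
      funext i
      rw [← he (e.symm i), Equiv.apply_symm_apply]
    rw [h2] at h1
    intro i j
    have h3 := hconst _ h1 (e i) (e j)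
    simpa using h3
  let S : Set (ι → k) := {x | IsSol a (fun i => b (τ i)) x ∧ x ≠ 0 ∧ ∑ i, x i = 0 ∧
    ¬ ∃ G ∈ Sp, ∃ s : k, (∀ i ∈ G, x i = s) ∧ ∀ i, i ∉ G → x i = -s}
  have hfree : ∀ x ∈ S, FreeAt a (fun i => b (τ i)) (fun q => 2 * mq q) x := by
    rintro x ⟨h1, h2, h3, h4⟩
    rcases hsol x h1 with h | ⟨G, s₁, s₂, _, hG1, hG2, hG⟩ | h
    · exfalso
      obtain ⟨i, j, hij⟩ := sum_const_ne x h2 h3
      exact hij (h i j)
    · exfalso
      have hGS : G ∈ Sp := (hmem G).2 hG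
      refine h4 ⟨G, hGS, s₁, hG1, fun i hi => ?_⟩
      have h5 := sum_halves G l (hSp G hGS) (hSp _ (hcompl G hGS)) x s₁ s₂ hG1 hG2
      rw [h3] at h5
      have h6 : (l : k) * (s₁ + s₂) = 0 := by rw [mul_add]; exact h5.symm
      rw [hG2 i hi]
      exact (neg_eq_of_add_eq_zero_right ((mul_eq_zero.1 h6).resolve_left hlk)).symm
    · exact h
  by_contra hcon
  obtain ⟨q0, hq0⟩ : ∃ q0, 1 ≤ mq q0 := by
    by_contra hno
    push Not at hno
    have h1 : ∑ q, mq q = 0 := Finset.sum_eq_zero fun q _ => by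
      have := hno q
      omega
    have h2 : Fintype.card Ty ≤ ∑ y, lam y := by
      rw [← Finset.card_univ, Finset.card_eq_sum_ones]
      exact Finset.sum_le_sum fun y _ => hlam y
    omega
  have hsurj : ∀ y, ∃ i, τ i = y := by
    intro y
    have h1 : 0 < (Finset.univ.filter fun i => τ i = y).card := by
      have := hlam y
      rw [hτ]
      omega
    obtain ⟨i, hi⟩ := Finset.card_pos.1 h1
    exact ⟨i, (Finset.mem_filter.1 hi).2⟩
  obtain ⟨T, hT1, hT2, hT3⟩ := lines_of_free a (fun i => b (τ i)) (fun q => 2 * mq q) hdeg2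
    hcard2 S (fun t ht => ht.2.1) (fun t ht => ht.2.2.1) (fun t ht => ht.1)
    (fun t ht c hc => ⟨isSol_scale a hsum (fun i => b (τ i)) (fun q => 2 * mq q) hdeg2 ht.1 c,
      fun h => ht.2.1 (funext fun i => (mul_eq_zero.1 (congrFun h i)).resolve_left hc),
      by rw [← Finset.mul_sum, ht.2.2.1, mul_zero], by
        rintro ⟨G, hG, s, h1, h2⟩
        refine ht.2.2.2 ⟨G, hG, c⁻¹ * s, fun i hi => ?_, fun i hi => ?_⟩
        · rw [← h1 i hi, ← mul_assoc, inv_mul_cancel₀ hc, one_mul]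
        · have h3 := h2 i hi
          rw [neg_eq_neg_one_mul, mul_left_comm, ← neg_eq_neg_one_mul, ← h3, ← mul_assoc,
            inv_mul_cancel₀ hc, one_mul]⟩)
    hfree (fun i => L (τ i))
    (by
      rw [← Finset.sum_fiberwise (s := Finset.univ) (g := τ) (f := fun i => L (τ i))]
      have h1 : ∀ y, ∑ i with τ i = y, L (τ i) = 2 * ((lam y : k) * L y) := by
        intro y
        rw [Finset.sum_congr rfl (g := fun _ => L y) (fun i hi => by rw [(Finset.mem_filter.1 hi).2]),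
          Finset.sum_const, hτ, nsmul_eq_mul]
        push_cast
        ring
      rw [Finset.sum_congr rfl fun y _ => h1 y, ← Finset.mul_sum, hL0, mul_zero])
    (fun t ht => hL t ht.1)
    (by
      rintro ⟨c, hc⟩
      refine hcon ⟨c, fun y => ?_⟩
      obtain ⟨i, rfl⟩ := hsurj y
      exact hc i)
    q0 (by omega)
  have hbound := bound_free a hsum (fun i => b (τ i)) mq l (by omega) Sp hcard hSp hcompl hdeg2
    hdegS H1 S (fun x hx => hx.2.2.1) (fun x hx => hx.1) (fun x hx => hx.2.1)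
    (fun x h1 h2 h3 => by
      by_cases h : ∃ G ∈ Sp, ∃ s : k, (∀ i ∈ G, x i = s) ∧ ∀ i, i ∉ G → x i = -s
      · exact Or.inl h
      · exact Or.inr ⟨h1, h2, h3, h⟩)
    (fun x hx y hy => ker_dF hx.1 hdeg2 (hfree x hx) (sum_const_ne x hx.2.1 hx.2.2.1) hcard2 y hy)
    T hT1 hT3
  have hnum := num_bezB a hsum b lam hlam mq hdeg hδ hconst hT
  rw [← card_splittings' τ lam hτ] at hnum
  have hpos : 0 < ∏ q, (2 * mq q)! := Finset.prod_pos fun q _ => Nat.factorial_pos _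
  change 9 * (Sp.card * (∏ q, (mq q)!) ^ 2) ≤ 8 * ∏ q, (2 * mq q)! at hnum
  omega

end Pool.Agent.Work.CW
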