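import Mathlib
import Pool.Agent.Work.MP_4329d7_ag_w.MinW
import Pool.Agent.Work.MP_4329d7_ag_w.R4B

/-!
Module W-Spn, case (ii): helper lemmas and the proof (unfolded form).
-/

namespace Pool.Agent.Work.CW

open Polynomial Pool.Agent.Work.Uni Pool.Agent.Work.CI

section linear

variable {k Ty Q : Type} [Field k] [Fintype Ty] [Fintype Q]

/-- the joint kernel of the rows -/
def rowKer (R : Q → Ty → k) : Submodule k (Ty → k) where
  carrier := {C | ∀ q, ∑ y, R q y * C y = 0}
  zero_mem' := fun q => by simp
  add_mem' := fun {C C'} h h' q => by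
    simp only [Pi.add_apply, mul_add, Finset.sum_add_distrib]
    rw [h q, h' q, add_zero]
  smul_mem' := fun r C h q => by
    simp only [Pi.smul_apply, smul_eq_mul]
    have h1 : ∀ y, R q y * (r * C y) = r * (R q y * C y) := fun y => by ring
    simp only [h1, ← Finset.mul_sum]
    rw [h q, mul_zero]

omit [Fintype Q] in
theorem mem_rowKer {R : Q → Ty → k} {C : Ty → k} : C ∈ rowKer R ↔ ∀ q, ∑ y, R q y * C y = 0 :=
  Iff.rfl

theorem finrank_rowKer (R : Q → Ty → k) (J : Finset Q) (h0 : ∀ q, q ∉ J → ∀ y, R q y = 0)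
    (hind : ∀ c : Q → k, (∀ y, ∑ q, c q * R q y = 0) → ∀ q ∈ J, c q = 0) :
    Module.finrank k (rowKer R) + J.card = Fintype.card Ty := by
  classical
  let φ : (Ty → k) →ₗ[k] (J → k) :=
    { toFun := fun C q => ∑ y, R q y * C y
      map_add' := fun C C' => by
        funext q
        simp only [Pi.add_apply, mul_add, Finset.sum_add_distrib]
      map_smul' := fun r C => by
        funext q
        simp only [Pi.smul_apply, smul_eq_mul, RingHom.id_apply, Finset.mul_sum]
        exact Finset.sum_congr rfl fun y _ => by ring }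
  have hker : rowKer R = LinearMap.ker φ := by
    ext C
    rw [mem_rowKer, LinearMap.mem_ker]
    constructor
    · intro h
      funext q
      exact h q
    · intro h q
      by_cases hq : q ∈ J
      · exact congrFun h ⟨q, hq⟩
      · refine Finset.sum_eq_zero fun y _ => ?_
        rw [h0 q hq y, zero_mul]
  have hrange : LinearMap.range φ = ⊤ := by
    by_contra hne
    obtain ⟨g, hg0, hg⟩ := (LinearMap.range φ).exists_le_ker_of_lt_top (lt_top_iff_ne_top.2 hne)
    let c : Q → k := fun q => if hq : q ∈ J then g (Pi.single ⟨q, hq⟩ 1) else 0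
    have hgc : ∀ v : J → k, g v = ∑ q : J, v q * c q := by
      intro v
      rw [LinearMap.pi_apply_eq_sum_univ g v]
      refine Finset.sum_congr rfl fun q _ => ?_
      rw [smul_eq_mul]
      congr 1
      simp only [c, q.2, dif_pos]
      congr 1
      funext j
      simp only [Pi.single_apply]
      by_cases h : q = j
      · rw [if_pos h, if_pos h.symm]
      · rw [if_neg h, if_neg (Ne.symm h)]
    have hc : ∀ y, ∑ q, c q * R q y = 0 := by
      intro y
      have h1 : g (φ (Pi.single y 1)) = 0 := by
        have : φ (Pi.single y 1) ∈ LinearMap.ker g := hg ⟨_, rfl⟩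
        exact LinearMap.mem_ker.1 this
      rw [hgc] at h1
      have h2 : ∀ q : J, φ (Pi.single y 1) q = R q y := by
        intro q
        change ∑ z, R q z * (Pi.single y 1 : Ty → k) z = R q y
        rw [Finset.sum_eq_single y]
        · rw [Pi.single_eq_same, mul_one]
        · intro z _ hz
          rw [Pi.single_eq_of_ne hz, mul_zero]
        · intro h
          exact absurd (Finset.mem_univ y) h
      rw [← h1, ← Finset.sum_subset (Finset.subset_univ J), ← Finset.sum_coe_sort]
      · refine Finset.sum_congr rfl fun q _ => ?_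
        rw [h2 q, mul_comm]
      · intro q _ hq
        rw [h0 q hq y, mul_zero]
    have hc0 := hind c hc
    apply hg0
    ext v
    simp only [LinearMap.coe_comp, LinearMap.coe_single, Function.comp_apply, LinearMap.zero_apply]
    rw [hgc]
    refine Finset.sum_eq_zero fun q _ => ?_
    rw [hc0 q q.2, mul_zero]
  have h1 := LinearMap.finrank_range_add_finrank_ker φ
  rw [hrange, finrank_top, Module.finrank_fintype_fun_eq_card,
    Module.finrank_fintype_fun_eq_card, Fintype.card_coe, ← hker] at h1
  omega

theorem rowKer_le (R : Q → Ty → k) (J : Finset Q) (h0 : ∀ q, q ∉ J → ∀ y, R q y = 0)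
    (hind : ∀ c : Q → k, (∀ y, ∑ q, c q * R q y = 0) → ∀ q ∈ J, c q = 0)
    (S : Submodule k (Ty → k)) (hS : S ≤ rowKer R) (l : Ty → k) (hl : l ∈ S) (hl0 : l ≠ 0)
    (h2 : J.card + 2 = Fintype.card Ty → ∃ s ∈ S, ∀ r : k, s ≠ r • l)
    (h3 : J.card + 3 ≤ Fintype.card Ty → ∀ L : Ty → k, (∀ s ∈ S, ∑ y, L y * s y = 0) →
      ∃ c : Q → k, ∀ y, L y = ∑ q, c q * R q y) : rowKer R ≤ S := by
  classical
  have hN := finrank_rowKer R J h0 hind
  have hle := Submodule.finrank_mono hS
  by_cases hcase3 : J.card + 3 ≤ Fintype.card Ty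
  · intro C hC
    by_contra hCS
    obtain ⟨g, hg0, hg⟩ := Submodule.exists_le_ker_of_notMem hCS
    obtain ⟨c, hc⟩ := h3 hcase3 (fun y => g (fun j => if y = j then 1 else 0)) (by
      intro s hs
      have h1 : g s = 0 := LinearMap.mem_ker.1 (hg hs)
      rw [LinearMap.pi_apply_eq_sum_univ g s] at h1
      refine Eq.trans (Finset.sum_congr rfl fun y _ => ?_) h1
      rw [smul_eq_mul, mul_comm])
    apply hg0
    rw [LinearMap.pi_apply_eq_sum_univ g C]
    simp only [smul_eq_mul]
    simp only [hc, Finset.mul_sum]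
    rw [Finset.sum_comm]
    refine Finset.sum_eq_zero fun q _ => ?_
    have h1 : ∀ y, C y * (c q * R q y) = c q * (R q y * C y) := fun y => by ring
    simp only [h1, ← Finset.mul_sum]
    rw [hC q, mul_zero]
  · have heq : S = rowKer R := by
      apply Submodule.eq_of_le_of_finrank_le hS
      by_cases hcase2 : J.card + 2 = Fintype.card Ty
      · obtain ⟨s, hs, hsr⟩ := h2 hcase2
        have hli : LinearIndependent k ![(⟨l, hl⟩ : S), ⟨s, hs⟩] := by
          rw [LinearIndependent.pair_iff]
          intro a b hab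
          have hab' : a • l + b • s = 0 := congrArg Subtype.val hab
          by_cases hb : b = 0
          · subst hb
            rw [zero_smul, add_zero] at hab'
            exact ⟨(smul_eq_zero.1 hab').resolve_right hl0, rfl⟩
          · exfalso
            apply hsr (-(b⁻¹ * a))
            have h1 : b⁻¹ • (a • l + b • s) = 0 := by rw [hab', smul_zero]
            rw [smul_add, smul_smul, smul_smul, inv_mul_cancel₀ hb, one_smul] at h1
            rw [neg_smul, eq_neg_iff_add_eq_zero, add_comm]
            exact h1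
        have h1 := hli.fintype_card_le_finrank
        rw [Fintype.card_fin] at h1
        omega
      · have h1 : 1 ≤ Module.finrank k S := by
          rw [Nat.one_le_iff_ne_zero]
          intro h
          rw [Submodule.finrank_eq_zero] at h
          rw [h, Submodule.mem_bot] at hl
          exact hl0 hl
        omega
    rw [heq]

end linear

section types

variable {k ι Ty : Type} [Fintype ι] [Fintype Ty] [DecidableEq Ty]

theorem sum_types [Semiring k] (τ : ι → Ty) (g : Ty → k) :
    ∑ i, g (τ i) = ∑ y, ((Finset.univ.filter fun i => τ i = y).card : k) * g y := by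
  rw [← Finset.sum_fiberwise Finset.univ τ]
  refine Finset.sum_congr rfl fun y _ => ?_
  rw [Finset.sum_congr rfl fun i hi => by rw [(Finset.mem_filter.1 hi).2], Finset.sum_const,
    nsmul_eq_mul]

theorem sum_types_mul [CommSemiring k] (τ : ι → Ty) (g : Ty → k) (t : ι → k) :
    ∑ y, g y * ∑ i with τ i = y, t i = ∑ i, g (τ i) * t i := by
  rw [← Finset.sum_fiberwise Finset.univ τ]
  refine Finset.sum_congr rfl fun y _ => ?_
  rw [Finset.mul_sum]
  refine Finset.sum_congr rfl fun i hi => ?_
  rw [(Finset.mem_filter.1 hi).2]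

/-- numbering of the fibres -/
noncomputable def fibEquiv (τ : ι → Ty) :
    (Σ y, Fin (Finset.univ.filter fun i => τ i = y).card) ≃ ι :=
  (Equiv.sigmaCongrRight fun y => (Fintype.equivFinOfCardEq (α := {i // τ i = y})
    (Fintype.card_subtype _)).symm).trans (Equiv.sigmaFiberEquiv τ)

omit [Fintype Ty] in
theorem fibEquiv_fst (τ : ι → Ty) (z : Σ y, Fin (Finset.univ.filter fun i => τ i = y).card) :
    τ (fibEquiv τ z) = z.1 := by
  obtain ⟨y, j⟩ := z
  exact ((Fintype.equivFinOfCardEq (α := {i // τ i = y}) (Fintype.card_subtype _)).symm j).2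

end types

section caseII

variable {Q : Type} [Fintype Q] {d : ℕ} {K : Type} [Field K] [Algebra ℂ K] {n : ℕ}
  {x : Fin d → K} {f : Q → Lau d} {ι : Type} [Fintype ι]

omit [Fintype Q] in
theorem dg_double (f : Q → Lau d) (b : ι → Fin d → ℤ) (q : Q) :
    dg f (fun i : ι × Bool => b i.1) q = 2 * dg f b q := by
  unfold dg
  rw [Fintype.sum_prod_type]
  simp only [Fintype.sum_bool, Finset.sum_add_distrib]
  omega

/-- the value at an embedded point -/
theorem ev_emb {F : Type} [Field F] [Algebra ℂ F] (emb : K →ₐ[ℂ] F) (g : Lau d) :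
    ev g (fun j => emb (x j)) = emb (ev g x) := by
  unfold ev mon
  rw [map_sum]
  refine Finset.sum_congr rfl fun χ _ => ?_
  rw [map_mul, AlgHom.commutes, map_prod]
  congr 1
  exact Finset.prod_congr rfl fun j _ => (map_zpow₀ emb _ _).symm

theorem caseII_core (D : Data K n d Q x f) {k : Type} [Field k] [Algebra ℂ k] [IsAlgClosed k]
    (emb : K →ₐ[ℂ] k) {b : ι → Fin d → ℤ} (hb0 : ∀ i, b i ≠ 0) (hb : ∑ i, b i = 0)
    (hcard : Fintype.card ι = ∑ q, dg f b q + 1)
    (hconst : ∀ t : ι → k, Sol f (fun j => emb (x j)) b t → ∀ i j, t i = t j)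
    (hsol : ∀ t : ι × Bool → k, Sol f (fun j => emb (x j)) (fun i => b i.1) t →
        (∀ i j, t i = t j) ∨
        (∃ (G : Finset (ι × Bool)) (s₁ s₂ : k), s₁ ≠ s₂ ∧ (∀ i ∈ G, t i = s₁) ∧
          (∀ i, i ∉ G → t i = s₂) ∧
          ∀ v : Fin d → ℤ, (G.filter fun i => b i.1 = v).card =
            (Finset.univ.filter fun i => b i = v).card) ∨
        Function.Injective t) :
    (∀ c : ι × Bool → k,
        (∀ q, Alin f (fun j => emb (x j)) q
          (fun j => ∑ i, c i * ((fun i : ι × Bool => b i.1) i j : k)) = 0) →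
        (fun j => ∑ i, c i * ((fun i : ι × Bool => b i.1) i j : k)) ∈
          Submodule.span k {v | ∃ t : ι × Bool → k,
            Sol f (fun j => emb (x j)) (fun i => b i.1) t ∧ v = wt (fun i => b i.1) t}) ∧
      (∀ c : Q → k, (∀ i : ι, ∑ q, c q *
          Alin f (fun j => emb (x j)) q (fun j => (b i j : k)) = 0) →
        ∀ q, 0 < dg f b q → c q = 0) := by
  classical
  have : CharZero k := charZero_of_injective_algebraMap (algebraMap ℂ k).injective
  set y : Fin d → k := fun j => emb (x j) with hy
  have hy0 : ∀ j, y j ≠ 0 := fun j => by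
    rw [hy]
    exact (_root_.map_ne_zero _).2 (D.ne j)
  have hf := D.nz
  have hfy : ∀ q, ev (f q) y = 0 := by
    intro q
    rw [hy, ev_emb, D.eq, map_zero]
  have hb' : ∑ i : ι × Bool, b i.1 = 0 := by
    rw [Fintype.sum_prod_type]
    simp only [Fintype.sum_bool, Finset.sum_add_distrib, hb, add_zero]
  have hdg : dg f (fun i : ι × Bool => b i.1) = fun q => 2 * dg f b q :=
    funext fun q => dg_double f b q
  have hcard' : Fintype.card (ι × Bool) = ∑ q, dg f (fun i : ι × Bool => b i.1) q + 2 := by
    simp only [hdg, ← Finset.mul_sum]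
    rw [Fintype.card_prod, Fintype.card_bool, hcard]
    ring
  have hι2 : 2 ≤ Fintype.card ι := by
    by_contra hlt
    have h1 : Fintype.card ι = 1 := by omega
    obtain ⟨i, hi⟩ := Fintype.card_eq_one_iff.1 h1
    apply hb0 i
    rw [← hb, Finset.sum_eq_single i]
    · intro j _ hj
      exact absurd (hi j) hj
    · intro h
      exact absurd (Finset.mem_univ i) h
  set a : Q → Pts f → k := coef f y with ha
  have hsum : ∀ q, ∑ p, a q p = 0 := (coef_isCoef f y hfy).sum
  -- the types
  let Ty : Type := Set.range b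
  let ty : ι → Ty := fun i => ⟨b i, i, rfl⟩
  let lam : Ty → ℕ := fun v => (Finset.univ.filter fun i => ty i = v).card
  let bT : Ty → Pts f → ℕ := fun v => blk f v.1
  let τ : ι × Bool → Ty := fun i => ty i.1
  let mq : Q → ℕ := dg f b
  have hlam : ∀ v, 1 ≤ lam v := by
    rintro ⟨v, i, rfl⟩
    exact Finset.card_pos.2 ⟨i, Finset.mem_filter.2 ⟨Finset.mem_univ i, rfl⟩⟩
  have hdeg : ∀ q p, a q p ≠ 0 → ∑ v, lam v * bT v p = mq q := by
    intro q p hp
    refine Eq.trans ?_ (coef_deg hf hb y q p hp)
    have := sum_types (k := ℕ) ty (fun v => bT v p)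
    simp only [Nat.cast_id] at this
    exact this.symm
  have hδ : ∑ v, lam v = ∑ q, mq q + 1 := by
    have := sum_types (k := ℕ) ty (fun _ => 1)
    simp only [Nat.cast_id, mul_one, Finset.sum_const, Finset.card_univ, smul_eq_mul] at this
    rw [← hcard]
    exact this.symm
  have hconst' : ∀ t : (Σ v, Fin (lam v)) → k, IsSol a (fun i => bT i.1) t →
      ∀ i j, t i = t j := by
    intro t ht
    have h1 : IsSol a (fun i => blk f (b i)) (t ∘ (fibEquiv ty).symm) := by
      intro q
      rw [← ht q]
      refine Finset.sum_congr rfl fun p _ => ?_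
      congr 1
      unfold rootPoly
      rw [← Equiv.prod_comp (fibEquiv ty)]
      refine Finset.prod_congr rfl fun z _ => ?_
      have h2 : b (fibEquiv ty z) = z.1.1 := congrArg Subtype.val (fibEquiv_fst ty z)
      simp only [Function.comp_apply, Equiv.symm_apply_apply, h2, bT]
    intro i j
    have h2 := hconst _ h1 (fibEquiv ty i) (fibEquiv ty j)
    simpa only [Function.comp_apply, Equiv.symm_apply_apply] using h2
  have hτ : ∀ v, (Finset.univ.filter fun i => τ i = v).card = 2 * lam v := by
    intro v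
    have : (Finset.univ.filter fun i => τ i = v) =
        (Finset.univ.filter fun i => ty i = v) ×ˢ (Finset.univ : Finset Bool) := by
      ext i
      simp only [Finset.mem_filter, Finset.mem_univ, true_and, Finset.mem_product, and_true, τ]
    rw [this, Finset.card_product, Finset.card_univ, Fintype.card_bool, mul_comm]
  have hsplit : ∀ (G : Finset (ι × Bool)) (v : Ty),
      (G.filter fun i => τ i = v) = G.filter fun i => b i.1 = v.1 := by
    intro G v
    refine Finset.filter_congr fun i _ => ?_
    rw [Subtype.ext_iff]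
  have hlam' : ∀ v : Ty, lam v = (Finset.univ.filter fun i => b i = v.1).card := by
    intro v
    change (Finset.univ.filter fun i => ty i = v).card = _
    congr 1
    refine Finset.filter_congr fun i _ => ?_
    rw [Subtype.ext_iff]
  have hfree : ∀ t : ι × Bool → k, IsSol a (fun i => bT (τ i)) t → Function.Injective t →
      FreeAt a (fun i => bT (τ i)) (fun q => 2 * mq q) t := by
    intro t ht hinj
    have := free_at D emb hb' hinj ht
    rw [hdg] at this
    exact this
  have hsol' : ∀ t : ι × Bool → k, IsSol a (fun i => bT (τ i)) t → (∀ i j, t i = t j) ∨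
      (∃ (G : Finset (ι × Bool)) (s₁ s₂ : k), s₁ ≠ s₂ ∧ (∀ i ∈ G, t i = s₁) ∧
        (∀ i, i ∉ G → t i = s₂) ∧ ∀ v, (G.filter fun i => τ i = v).card = lam v) ∨
      FreeAt a (fun i => bT (τ i)) (fun q => 2 * mq q) t := by
    intro t ht
    rcases hsol t ht with h | ⟨G, s₁, s₂, h1, h2, h3, h4⟩ | h
    · exact Or.inl h
    · refine Or.inr (Or.inl ⟨G, s₁, s₂, h1, h2, h3, fun v => ?_⟩)
      rw [hsplit, hlam', h4]
    · exact Or.inr (Or.inr (hfree t ht h))
  -- the rows
  let R : Q → Ty → k := fun q v => ∑ p, a q p * (bT v p : k)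
  have hR : ∀ q v, R q v = Alin f y q (fun j => (v.1 j : k)) := fun q v =>
    sum_coef_blk hf hfy v.1 q
  let J : Finset Q := Finset.univ.filter fun q => 1 ≤ mq q
  have hR0 : ∀ q, q ∉ J → ∀ v, R q v = 0 := by
    intro q hq v
    have hq0 : mq q = 0 := by
      by_contra h
      exact hq (Finset.mem_filter.2 ⟨Finset.mem_univ q, Nat.one_le_iff_ne_zero.2 h⟩)
    refine Finset.sum_eq_zero fun p _ => ?_
    by_cases hp : a q p = 0
    · rw [hp, zero_mul]
    · have h1 := hdeg q p hp
      rw [hq0] at h1
      have h2 := (Finset.sum_eq_zero_iff.1 h1) v (Finset.mem_univ v)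
      have h3 : bT v p = 0 := (Nat.mul_eq_zero.1 h2).resolve_left
        (Nat.one_le_iff_ne_zero.1 (hlam v))
      rw [h3, Nat.cast_zero, mul_zero]
  have hind : ∀ c : Q → k, (∀ v, ∑ q, c q * R q v = 0) → ∀ q ∈ J, c q = 0 := by
    intro c hc q₀ hq₀
    by_contra hne
    obtain ⟨t, ht, i, j, hij⟩ := exists_nonconst_sol_of_dep a hsum (fun i => blk f (b i)) mq
      (fun q p hp => coef_deg hf hb y q p hp) hcard.ge
      (fun q => if q ∈ J then c q else 0) ⟨q₀, by rw [if_pos hq₀]; exact hne⟩ (by
        intro q hq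
        by_contra h
        apply hq
        rw [if_neg]
        intro h'
        exact h (Finset.mem_filter.1 h').2) (by
        intro i
        refine Eq.trans (Finset.sum_congr rfl fun q _ => ?_) (hc (ty i))
        by_cases hq : q ∈ J
        · rw [if_pos hq]
        · rw [if_neg hq, zero_mul, hR0 q hq (ty i), mul_zero])
    exact hij (hconst t ht i j)
  refine ⟨?_, ?_⟩
  swap
  · intro c hc q hq
    refine hind c (fun v => ?_) q (Finset.mem_filter.2 ⟨Finset.mem_univ q, hq⟩)
    obtain ⟨v, i, rfl⟩ := v
    rw [← hc i]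
    exact Finset.sum_congr rfl fun q _ => by rw [hR]
  -- the directions
  let Cv : (ι × Bool → k) → Ty → k := fun t v => ∑ i with τ i = v, t i
  let S : Submodule k (Ty → k) := Submodule.span k
    {C | ∃ t : ι × Bool → k, IsSol a (fun i => bT (τ i)) t ∧ C = Cv t}
  have hlin : ∀ t : ι × Bool → k, IsSol a (fun i => bT (τ i)) t → ∀ q,
      ∑ i, R q (τ i) * t i = 0 := by
    intro t ht q
    by_cases hq : q ∈ J
    · have hdeg2 : ∀ q p, a q p ≠ 0 → ∑ i, bT (τ i) p = 2 * mq q := by
        intro q p hp
        have h1 := coef_deg hf hb' y q p hp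
        rw [hdg] at h1
        exact h1
      have hm : 1 ≤ mq q := (Finset.mem_filter.1 hq).2
      have h1 := (isSol_iff a hsum _ (fun q => 2 * mq q) hdeg2 t).1 ht q (2 * mq q - 1) (by omega)
      rw [eval_coefPoly_lin a _ q (2 * mq q) (by omega) (hdeg2 q)] at h1
      exact neg_eq_zero.1 h1
    · refine Finset.sum_eq_zero fun i _ => ?_
      rw [hR0 q hq, zero_mul]
  have hS : S ≤ rowKer R := by
    rw [Submodule.span_le]
    rintro C ⟨t, ht, rfl⟩ q
    change ∑ v, R q v * ∑ i with τ i = v, t i = 0
    rw [sum_types_mul]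
    exact hlin t ht q
  let l : Ty → k := fun v => (lam v : k)
  have hone : IsSol a (fun i => bT (τ i)) (fun _ => (1 : k)) := by
    intro q
    have h1 : ∀ p, C (a q p) * rootPoly (fun i => bT (τ i)) (fun _ => (1 : k)) p =
        C (a q p) * (X - C 1) ^ (2 * mq q) := by
      intro p
      by_cases hp : a q p = 0
      · rw [hp, C_0, zero_mul, zero_mul]
      · congr 1
        unfold rootPoly
        rw [Finset.prod_pow_eq_pow_sum]
        congr 1
        have h1 := coef_deg hf hb' y q p hp
        rw [hdg] at h1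
        exact h1
    rw [Finset.sum_congr rfl fun p _ => h1 p, ← Finset.sum_mul, ← map_sum, hsum q, C_0, zero_mul]
  have hlS : l ∈ S := by
    have h1 : l = (2 : k)⁻¹ • Cv (fun _ => 1) := by
      funext v
      simp only [l, Cv, Pi.smul_apply, smul_eq_mul, Finset.sum_const, nsmul_eq_mul, mul_one]
      rw [hτ v]
      push_cast
      rw [← mul_assoc, inv_mul_cancel₀ two_ne_zero, one_mul]
    rw [h1]
    exact S.smul_mem _ (Submodule.subset_span ⟨_, hone, rfl⟩)
  have hl0 : l ≠ 0 := by
    obtain ⟨i⟩ : Nonempty ι := Fintype.card_pos_iff.1 (by omega)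
    intro h
    have h1 : (lam (ty i) : k) = 0 := congrFun h (ty i)
    rw [Nat.cast_eq_zero] at h1
    have := hlam (ty i)
    omega
  have hker : rowKer R ≤ S := by
    refine rowKer_le R J hR0 hind S hS l hlS hl0 ?_ ?_
    · intro h2
      obtain ⟨t, ht, hne, hns⟩ := exists_free a hsum bT lam hlam mq hdeg hδ hconst' τ hτ h2.le
      have hinj : Function.Injective t := by
        rcases hsol t ht with h | ⟨G, s₁, s₂, h1, h2, h3, h4⟩ | h
        · obtain ⟨i, j, hij⟩ := hne
          exact absurd (h i j) hij
        · refine absurd ⟨G, s₁, s₂, h1, h2, h3, fun v => ?_⟩ hns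
          rw [hsplit, hlam', h4]
        · exact h
      refine ⟨Cv t, Submodule.subset_span ⟨t, ht, rfl⟩, fun r hr => ?_⟩
      have hdeg2 : ∀ q p, a q p ≠ 0 → ∑ i, bT (τ i) p = 2 * mq q := by
        intro q p hp
        have h1 := coef_deg hf hb' y q p hp
        rw [hdg] at h1
        exact h1
      refine not_central ht hdeg2 (hfree t ht hinj) hinj ?_ ?_ (fun q => r * mq q) ?_
      · rw [hcard', hdg]
      · rw [Fintype.card_prod, Fintype.card_bool]
        omega
      · intro q p hp
        have h1 := sum_types_mul τ (fun v => (bT v p : k)) t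
        have h3 : ∀ v, ∑ i with τ i = v, t i = r * (lam v : k) := fun v => congrFun hr v
        simp only [h3] at h1
        rw [Finset.sum_congr rfl fun i _ => mul_comm (t i) _, ← h1, ← hdeg q p hp]
        push_cast
        rw [Finset.mul_sum]
        exact Finset.sum_congr rfl fun v _ => by ring
    · intro h3 L hL
      refine bezB a hsum bT lam hlam mq hdeg hδ hconst' τ hτ hsol' h3 L ?_ ?_
      · rw [← hL l hlS]
        exact Finset.sum_congr rfl fun v _ => mul_comm _ _
      · intro t ht
        rw [← sum_types_mul]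
        exact hL _ (Submodule.subset_span ⟨t, ht, rfl⟩)
  -- conclusion
  intro c hc
  let Ψ : (Ty → k) →ₗ[k] (Fin d → k) :=
    { toFun := fun C j => ∑ v, (v.1 j : k) * C v
      map_add' := fun C C' => by
        funext j
        simp only [Pi.add_apply, mul_add, Finset.sum_add_distrib]
      map_smul' := fun r C => by
        funext j
        simp only [Pi.smul_apply, smul_eq_mul, RingHom.id_apply, Finset.mul_sum]
        exact Finset.sum_congr rfl fun y _ => by ring }
  have hΨ : ∀ t : ι × Bool → k, Ψ (Cv t) = fun j => ∑ i, t i * (b i.1 j : k) := by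
    intro t
    funext j
    change ∑ v, (v.1 j : k) * ∑ i with τ i = v, t i = _
    rw [sum_types_mul τ (fun v => (v.1 j : k)) t]
    exact Finset.sum_congr rfl fun i _ => mul_comm _ _
  have hcS : Cv c ∈ S := by
    apply hker
    intro q
    change ∑ v, R q v * ∑ i with τ i = v, c i = 0
    rw [sum_types_mul, ← hc q]
    have h1 : ∀ i, R q (τ i) = ∑ j, (b i.1 j : k) * ldv (f q) j y := fun i => hR q (τ i)
    unfold Alin
    simp only [h1, Finset.sum_mul]
    rw [Finset.sum_comm]
    refine Finset.sum_congr rfl fun j _ => Finset.sum_congr rfl fun i _ => ?_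
    ring
  have h1 : Ψ (Cv c) ∈ Submodule.map Ψ S := Submodule.mem_map_of_mem hcS
  rw [Submodule.map_span, hΨ c] at h1
  refine Submodule.span_mono ?_ h1
  rintro _ ⟨C, ⟨t, ht, rfl⟩, rfl⟩
  exact ⟨t, ht, hΨ t⟩

end caseII

end Pool.Agent.Work.CW
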