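import Mathlib

/-!
Module W-Dual: duality in `F ^ κ`.
-/

namespace Pool.Agent.Work.CW

/-- if every linear form which kills `S` is a combination of the rows `r q`, then every vector which is
killed by the rows is in the span of `S` -/
theorem mem_span_of_dual {F κ Q : Type} [Field F] [Fintype κ] [Fintype Q] (S : Set (κ → F))
    (r : Q → κ → F)
    (h : ∀ l : κ → F, (∀ s ∈ S, ∑ i, l i * s i = 0) →
      ∃ c : Q → F, ∀ i, l i = ∑ q, c q * r q i)
    (c : κ → F) (hc : ∀ q, ∑ i, c i * r q i = 0) : c ∈ Submodule.span F S := by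
  classical
  rw [← Subspace.dualAnnihilator_dualCoannihilator_eq (W := Submodule.span F S),
    Submodule.mem_dualCoannihilator]
  intro φ hφ
  rw [Submodule.mem_dualAnnihilator] at hφ
  have hφv : ∀ v : κ → F, φ v = ∑ i, φ (Pi.single i 1) * v i := by
    intro v
    have h1 : v = ∑ i, v i • (Pi.single i (1 : F) : κ → F) := by
      funext j
      simp [Finset.sum_apply, Pi.single_apply]
    conv_lhs => rw [h1]
    rw [map_sum]
    exact Finset.sum_congr rfl fun i _ => by rw [map_smul, smul_eq_mul, mul_comm]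
  obtain ⟨c', hc'⟩ := h (fun i => φ (Pi.single i 1)) fun s hs => by
    rw [← hφv]
    exact hφ s (Submodule.subset_span hs)
  rw [hφv]
  have h2 : ∀ i, φ (Pi.single i 1) = ∑ q, c' q * r q i := hc'
  rw [Finset.sum_congr rfl fun i _ => by rw [h2 i]]
  simp only [Finset.sum_mul]
  rw [Finset.sum_comm]
  refine Finset.sum_eq_zero fun q _ => ?_
  have h3 : ∑ i, c' q * r q i * c i = c' q * ∑ i, c i * r q i := by
    rw [Finset.mul_sum]
    exact Finset.sum_congr rfl fun i _ => by ring
  rw [h3, hc q, mul_zero]

end Pool.Agent.Work.CW
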