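import Mathlib
import Pool.Agent.Work.MP_4329d7_ag_w.MinW
import Pool.Agent.Work.MP_4329d7_ag_w.R4A
import Pool.Agent.Work.MP_4329d7_ag_w.Dual

/-!
Module W-Spn: the definitions and case (i).
-/

namespace Pool.Agent.Work.CW

open Polynomial Pool.Agent.Work.Uni Pool.Agent.Work.CI

variable {Q : Type} [Fintype Q] {d : ℕ} {K : Type} [Field K] [Algebra ℂ K] {n : ℕ}
  {x : Fin d → K} {f : Q → Lau d} {ι : Type} [Fintype ι]

/-- the directions of the solutions span the intersection of the tangent space with the span of
the type -/
def SpanDir (x : Fin d → K) (f : Q → Lau d) (b : ι → Fin d → ℤ) : Prop :=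
  ∀ c : ι → AlgebraicClosure K,
    (∀ q, Alin f (fun j => algebraMap K (AlgebraicClosure K) (x j)) q
      (fun j => ∑ i, c i * (b i j : AlgebraicClosure K)) = 0) →
    (fun j => ∑ i, c i * (b i j : AlgebraicClosure K)) ∈
      Submodule.span (AlgebraicClosure K) {v | ∃ t : ι → AlgebraicClosure K,
        Sol f (fun j => algebraMap K (AlgebraicClosure K) (x j)) b t ∧ v = wt b t}

/-- the moving relations are independent on the span of the type -/
def RankB (x : Fin d → K) (f : Q → Lau d) (b : ι → Fin d → ℤ) : Prop :=
  ∀ c : Q → AlgebraicClosure K, (∀ i, ∑ q, c q *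
      Alin f (fun j => algebraMap K (AlgebraicClosure K) (x j)) q (fun j => (b i j : AlgebraicClosure K)) = 0) →
    ∀ q, 0 < dg f b q → c q = 0

/-- the equations at the generic point over the algebraic closure -/
theorem ev_algClosure (D : Data K n d Q x f) (q : Q) :
    ev (f q) (fun j => algebraMap K (AlgebraicClosure K) (x j)) = 0 := by
  have h1 := cs_ev_hom (IsScalarTower.toAlgHom ℂ K (AlgebraicClosure K)) (f q) x
  have h2 : (fun j => (IsScalarTower.toAlgHom ℂ K (AlgebraicClosure K)) (x j)) =
      fun j => algebraMap K (AlgebraicClosure K) (x j) := rfl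
  rw [h2] at h1
  rw [h1, D.eq, map_zero]

/-- the linear relation on a combination of the blocks -/
theorem alin_sum (f : Q → Lau d) {F : Type} [Field F] [Algebra ℂ F] (y : Fin d → F) (q : Q)
    (b : ι → Fin d → ℤ) (c : ι → F) :
    Alin f y q (fun j => ∑ i, c i * (b i j : F)) = ∑ i, c i * Alin f y q (fun j => (b i j : F)) := by
  unfold Alin
  simp only [Finset.sum_mul, Finset.mul_sum]
  rw [Finset.sum_comm]
  exact Finset.sum_congr rfl fun i _ => Finset.sum_congr rfl fun j _ => by ring

/-- from the span of tuples to the span of directions -/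
theorem wt_mem_span {F : Type} [Field F] (b : ι → Fin d → ℤ) (hb : ∑ i, b i = 0)
    (S : Set (ι → F)) (c : ι → F)
    (hc : c ∈ Submodule.span F ({fun _ => 1} ∪ S)) :
    wt b c ∈ Submodule.span F {v | ∃ t ∈ S, v = wt b t} := by
  induction hc using Submodule.span_induction with
  | mem v hv =>
    rcases hv with hv | hv
    · rw [Set.mem_singleton_iff] at hv
      have h1 : wt b v = 0 := by
        funext j
        rw [hv]
        unfold wt
        simp only [one_mul, Pi.zero_apply]
        have h2 := congrFun hb j
        rw [Finset.sum_apply, Pi.zero_apply] at h2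
        have h3 := congrArg (Int.cast : ℤ → F) h2
        push_cast at h3
        exact h3
      rw [h1]
      exact Submodule.zero_mem _
    · exact Submodule.subset_span ⟨v, hv, rfl⟩
  | zero =>
    have h1 : wt b (0 : ι → F) = 0 := by
      funext j
      unfold wt
      simp
    rw [h1]
    exact Submodule.zero_mem _
  | add v w _ _ hv hw =>
    have h1 : wt b (v + w) = wt b v + wt b w := by
      funext j
      unfold wt
      simp [add_mul, Finset.sum_add_distrib]
    rw [h1]
    exact Submodule.add_mem _ hv hw
  | smul r v _ hv =>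
    have h1 : wt b (r • v) = r • wt b v := by
      funext j
      unfold wt
      simp [mul_assoc, Finset.mul_sum]
    rw [h1]
    exact Submodule.smul_mem _ _ hv

theorem spn_caseI (D : Data K n d Q x f) (h : CaseI x f) :
    ∃ (ι : Type) (_ : Fintype ι) (b : ι → Fin d → ℤ), Good x f b ∧ SpanDir x f b ∧
      RankB x f b := by
  classical
  obtain ⟨ι, _, b, hb0, hb, hcard, hsol⟩ := h
  have : CharZero K := charZero_of_injective_algebraMap (algebraMap ℂ K).injective
  set F := AlgebraicClosure K with hF
  have : CharZero F := charZero_of_injective_algebraMap (algebraMap ℂ F).injective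
  let emb : K →ₐ[ℂ] F := IsScalarTower.toAlgHom ℂ K F
  set y : Fin d → F := fun j => algebraMap K F (x j) with hy
  have hye : (fun j => emb (x j)) = y := rfl
  have hfy : ∀ q, ev (f q) y = 0 := ev_algClosure D
  have hsum := (coef_isCoef f y hfy).sum
  have hdeg := fun q p h => coef_deg D.nz hb y q p h
  have hfree : ∀ t : ι → F, IsSol (coef f y) (fun i => blk f (b i)) t → (∃ i j, t i ≠ t j) →
      FreeAt (coef f y) (fun i => blk f (b i)) (dg f b) t := by
    intro t ht hne
    rcases hsol F emb t ht with h | h
    · obtain ⟨i, j, hij⟩ := hne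
      exact absurd (h i j) hij
    · exact free_at D emb hb h ht
  have hrow : ∀ q i, ∑ p, coef f y q p * (blk f (b i) p : F) =
      Alin f y q (fun j => (b i j : F)) := fun q i => sum_coef_blk D.nz hfy (b i) q
  refine ⟨ι, inferInstance, b, ⟨hb0, hb, hcard, fun F _ _ _ emb t ht =>
    (hsol F emb t ht).imp id Or.inr⟩, ?_, ?_⟩
  · intro c hc
    have h1 : c ∈ Submodule.span F ({fun _ => 1} ∪ {t : ι → F | Sol f y b t}) := by
      refine mem_span_of_dual _ (fun q i => Alin f y q (fun j => (b i j : F))) ?_ c ?_
      · intro l hl
        obtain ⟨c', hc'⟩ := bezA (coef f y) hsum (fun i => blk f (b i)) (dg f b) hdeg hcard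
          hfree l (by
            have := hl _ (Or.inl (Set.mem_singleton _))
            simpa using this) (fun t ht => hl t (Or.inr ht))
        refine ⟨c', fun i => ?_⟩
        rw [hc']
        exact Finset.sum_congr rfl fun q _ => by rw [hrow]
      · intro q
        rw [← alin_sum]
        exact hc q
    have h2 := wt_mem_span b hb _ c h1
    exact h2
  · intro c hc q hq
    obtain ⟨t, ht, hne⟩ := exists_nonconst_sol (coef f y) hsum (fun i => blk f (b i)) (dg f b)
      hdeg hcard.ge
    exact rows_of_free hdeg (hfree t ht hne) c (fun i => by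
      rw [← hc i]
      exact Finset.sum_congr rfl fun q _ => by rw [hrow]) q hq

end Pool.Agent.Work.CW
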