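import Mathlib
import Pool.Agent.Work.MP_4329d7_ag_w.SpnI
import Pool.Agent.Work.MP_4329d7_ag_w.SpnB
import Pool.Agent.Work.MP_4329d7_ag_w.MinAll

/-!
Module W-Spn (R4 in the form needed; definitions and case (i) are in `SpnI.lean`): the type, its solutions span `B ∩ T`, the linear equations are
independent.  `F = AlgebraicClosure K`, `y = x`.
PROOF. Case (i): the type itself.  `SpanDir`: by `bezA` and duality in `F ^ ι`: every linear form
which kills `1` and all solutions is a combination of the rows, so every `c` killed by the rows is a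
combination of `1` and solutions; `∑ i, c i b i` is then a combination of directions.
`RankB`: `rows_of_free` at a nonconstant solution (`exists_nonconst_sol`).
Case (ii): the type `b₀ ∘ fst` on `ι₀ × Bool` is good; `Ty = Set.range b₀`,
`lam v = #{i | b₀ i = v}`, `κ₁ = #{q | 0 < dg f b₀ q}`.  `RankB`: `exists_nonconst_sol_of_dep` for the type
`b₀`, all of whose solutions are constant.  So the kernel of the rows on `F ^ Ty` has dimension
`card Ty - κ₁ ≥ 1` and contains `lam`.  If the dimension is 1: `B ∩ T = 0`.  If it is 2:
`exists_free` gives a solution `t` with distinct roots, and its vector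
`y ↦ ∑_{i of type y} t i` is not a multiple of `lam` by `not_central` (`#ι ≥ 4`).  If it is `≥ 3`:
`bezB` and duality in `F ^ Ty`.
-/

namespace Pool.Agent.Work.CW

open Polynomial Pool.Agent.Work.Uni Pool.Agent.Work.CI

variable {Q : Type} [Fintype Q] {d : ℕ} {K : Type} [Field K] [Algebra ℂ K] {n : ℕ}
  {x : Fin d → K} {f : Q → Lau d} {ι : Type} [Fintype ι]

theorem spn_caseII (D : Data K n d Q x f) (h : CaseII x f) :
    ∃ (ι : Type) (_ : Fintype ι) (b : ι → Fin d → ℤ), Good x f b ∧ SpanDir x f b ∧
      RankB x f b := by
  classical
  obtain ⟨ι, hι, b, hb0, hb, hcard, hall⟩ := h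
  have hb' : ∑ i : ι × Bool, b i.1 = 0 := by
    rw [Fintype.sum_prod_type]
    simp only [Fintype.sum_bool, Finset.sum_add_distrib, hb, add_zero]
  have hι1 : 1 ≤ Fintype.card ι := by omega
  have hgood : Good x f (fun i : ι × Bool => b i.1) := by
    refine ⟨fun i => hb0 i.1, hb', ?_, ?_⟩
    · simp only [dg_double, ← Finset.mul_sum]
      rw [Fintype.card_prod, Fintype.card_bool, hcard]
      ring
    · intro F _ _ _ emb t ht
      rcases (hall F emb).2 t ht with h | ⟨G, s₁, s₂, h1, h2, h3, h4⟩ | h
      · exact Or.inl h
      · right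
        left
        have hG : G.card = Fintype.card ι := by
          have h5 := Finset.card_eq_sum_card_image (fun i : ι × Bool => b i.1) G
          have h6 := Finset.card_eq_sum_card_image b (Finset.univ : Finset ι)
          rw [Finset.card_univ] at h6
          rw [h5, h6]
          have h7 : G.image (fun i : ι × Bool => b i.1) ⊆ Finset.univ.image b := by
            intro v hv
            obtain ⟨i, _, rfl⟩ := Finset.mem_image.1 hv
            exact Finset.mem_image_of_mem b (Finset.mem_univ _)
          rw [Finset.sum_subset h7]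
          · exact Finset.sum_congr rfl fun v _ => h4 v
          · intro v _ hv
            rw [Finset.card_eq_zero, Finset.filter_eq_empty_iff]
            intro i hi hiv
            exact hv (Finset.mem_image.2 ⟨i, hi, hiv⟩)
        obtain ⟨i, hi⟩ : G.Nonempty := Finset.card_pos.1 (by omega)
        obtain ⟨j, hj⟩ : Gᶜ.Nonempty := by
          rw [← Finset.card_pos, Finset.card_compl, hG, Fintype.card_prod, Fintype.card_bool]
          omega
        have hj' := Finset.mem_compl.1 hj
        refine ⟨i, j, ?_, fun l => ?_⟩
        · rw [h2 i hi, h3 j hj']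
          exact h1
        · by_cases hl : l ∈ G
          · left
            rw [h2 l hl, h2 i hi]
          · right
            rw [h3 l hl, h3 j hj']
      · exact Or.inr (Or.inr h)
  obtain ⟨hconst, hsol⟩ := hall (AlgebraicClosure K)
    (IsScalarTower.toAlgHom ℂ K (AlgebraicClosure K))
  obtain ⟨h1, h2⟩ := caseII_core D (IsScalarTower.toAlgHom ℂ K (AlgebraicClosure K)) hb0 hb hcard
    hconst hsol
  refine ⟨ι × Bool, inferInstance, fun i => b i.1, hgood, h1, fun c hc q hq => ?_⟩
  rw [dg_double] at hq
  exact h2 c (fun i => hc (i, true)) q (by omega)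

theorem exists_good (D : Data K n d Q x f)
    (h : ∃ (ι : Type) (_ : Fintype ι) (b : ι → Fin d → ℤ), IsPk f b) :
    ∃ (ι : Type) (_ : Fintype ι) (b : ι → Fin d → ℤ), Good x f b ∧ SpanDir x f b ∧
      RankB x f b := by
  rcases exists_min_all D h with h | h
  · exact spn_caseI D h
  · exact spn_caseII D h

end Pool.Agent.Work.CW
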