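import Mathlib
import Pool.Agent.Work.MP_4329d7_ag_w.SpnW
import Pool.Agent.Work.MP_4329d7_ag_w.DerW
import Pool.Agent.Work.MP_4329d7_ag_w.Deg
import Pool.Agent.Work.MP_4329d7_ag_ci.Sub
import Pool.Agent.Work.MP_4329d7_ag_ci.Curve
import Pool.Agent.Work.MP_4329d7_ag_ci.FormA
import Pool.Agent.Work.MP_4329d7_ag.Ext

/-!
Module W-KB, second part: the dimension of the quotient torus (see `KBW`).
-/

namespace Pool.Agent.Work.CW

open Polynomial Pool.Agent.Work.Uni Pool.Agent.Work.CI

section lin

/-- independent rows and independent vectors in the common kernel -/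
theorem kbx_rank {F : Type} [Field F] {d : ℕ} {R V : Type} [Fintype R] [Fintype V]
    (r : R → Fin d → F) (v : V → Fin d → F) (hr : LinearIndependent F r)
    (hv : LinearIndependent F v) (h : ∀ i j, ∑ l, r i l * v j l = 0) :
    Fintype.card R + Fintype.card V ≤ d := by
  classical
  let M : Matrix R (Fin d) F := Matrix.of r
  have h1 : M.rank = Fintype.card R := LinearIndependent.rank_matrix (M := M) hr
  have h2 := LinearMap.finrank_range_add_finrank_ker M.mulVecLin
  rw [Module.finrank_fintype_fun_eq_card, Fintype.card_fin] at h2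
  have h3 : Module.finrank F (LinearMap.range M.mulVecLin) = Fintype.card R := h1
  have hmem : ∀ j, v j ∈ LinearMap.ker M.mulVecLin := by
    intro j
    rw [LinearMap.mem_ker]
    funext i
    exact h i j
  have h4 : LinearIndependent F (fun j => (⟨v j, hmem j⟩ : LinearMap.ker M.mulVecLin)) :=
    LinearIndependent.of_comp (LinearMap.ker M.mulVecLin).subtype hv
  have h5 := h4.fintype_card_le_finrank
  omega

/-- integral vectors which are independent over `ℤ` are independent over every field of
characteristic zero -/
theorem kbx_linInd_cast {F : Type} [Field F] [CharZero F] {d : ℕ} {R : Type} [Fintype R]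
    (χ : R → Fin d → ℤ) (h : LinearIndependent ℤ χ) :
    LinearIndependent F (fun i j => (χ i j : F)) := by
  classical
  have h2 : LinearIndependent ℤ (fun i j => (χ i j : ℚ)) := by
    let G : (Fin d → ℤ) →ₗ[ℤ] (Fin d → ℚ) :=
      { toFun := fun χ j => (χ j : ℚ)
        map_add' := fun χ χ' => by funext j; simp
        map_smul' := fun c χ => by funext j; simp }
    have hG : LinearMap.ker G = ⊥ := by
      rw [LinearMap.ker_eq_bot]
      intro χ χ' h
      funext j
      have h' : (χ j : ℚ) = (χ' j : ℚ) := congrFun h j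
      exact_mod_cast h'
    exact h.map' G hG
  have h3 : LinearIndependent ℚ (fun i j => (χ i j : ℚ)) :=
    (LinearIndependent.iff_fractionRing ℤ ℚ).1 h2
  rw [Fintype.linearIndependent_iff] at h3 ⊢
  intro g hg i
  rw [← Module.forall_dual_apply_eq_zero_iff ℚ]
  intro φ
  refine h3 (fun i => φ (g i)) ?_ i
  funext j
  have h4 := congrArg φ (congrFun hg j)
  simp only [Finset.sum_apply, Pi.smul_apply, smul_eq_mul, Pi.zero_apply, map_sum,
    map_zero] at h4 ⊢
  rw [← h4]
  refine Finset.sum_congr rfl fun i _ => ?_
  have h5 : g i * (χ i j : F) = (χ i j : ℚ) • g i := by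
    rw [Algebra.smul_def, mul_comm]
    simp
  rw [h5, map_smul, smul_eq_mul, mul_comm]

end lin

section der

variable {K : Type} [Field K] [Algebra ℂ K]

theorem kbx_der_adjoin (δ : Derivation ℂ K K) (T : Set K) (hT : ∀ z ∈ T, δ z = 0) (z : K)
    (hz : z ∈ IntermediateField.adjoin ℂ T) : δ z = 0 := by
  induction hz using IntermediateField.adjoin_induction with
  | mem x hx => exact hT x hx
  | algebraMap c => rw [Derivation.map_algebraMap]
  | add x y _ _ hx hy => rw [map_add, hx, hy, add_zero]
  | inv x _ hx => rw [Derivation.leibniz_inv, hx, smul_zero]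
  | mul x y _ _ hx hy => rw [Derivation.leibniz, hx, hy, smul_zero, smul_zero, add_zero]

/-- frames adapted to a subfield -/
theorem kbx_frame {n : ℕ} (htr : Algebra.trdeg ℂ K = n) (L : IntermediateField ℂ K) :
    ∃ (p : ℕ) (z : Fin p → K) (w : Fin (n - p) → K) (δ : Fin p → Derivation ℂ K K)
      (ε : Fin (n - p) → Derivation ℂ K K), p ≤ n ∧ Algebra.trdeg ℂ L = p ∧ (∀ i, z i ∈ L) ∧
      (∀ i j, δ i (z j) = if i = j then 1 else 0) ∧ (∀ i j, ε i (w j) = if i = j then 1 else 0) ∧
      ∀ i, ∀ y ∈ L, ε i y = 0 := by
  classical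
  obtain ⟨s, hs⟩ := exists_isTranscendenceBasis ℂ L
  have hz : AlgebraicIndependent ℂ (fun i : s => ((i : L) : K)) :=
    hs.1.map' (f := L.val) L.val.injective
  obtain ⟨S, hsub, hSb⟩ := exists_isTranscendenceBasis_superset (R := ℂ)
    ((AlgebraicIndependent.coe_range hz : AlgebraicIndepOn ℂ id
      (Set.range (fun i : s => ((i : L) : K)))))
  have hcard : Cardinal.mk S = n := by rw [← htr]; exact hSb.cardinalMk_eq_trdeg
  have hfin : Finite S := by
    rw [← Cardinal.lt_aleph0_iff_finite, hcard]
    exact Cardinal.natCast_lt_aleph0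
  have := Fintype.ofFinite S
  have hcS : Fintype.card S = n := by
    rw [Cardinal.mk_fintype] at hcard
    exact_mod_cast hcard
  let em : s → S := fun i => ⟨((i : L) : K), hsub ⟨i, rfl⟩⟩
  have hem : Function.Injective em := by
    intro i j h
    have h1 : ((em i : S) : K) = ((em j : S) : K) := by rw [h]
    exact Subtype.ext (Subtype.ext h1)
  have hfs : Finite s := Finite.of_injective em hem
  have := Fintype.ofFinite s
  have hple : Fintype.card s ≤ n := by
    rw [← hcS]
    exact Fintype.card_le_of_injective em hem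
  have hT : Fintype.card {x : S // ¬ ∃ i, em i = x} = n - Fintype.card s := by
    rw [Fintype.card_subtype_compl, hcS]
    congr 1
    rw [Fintype.card_eq_nat_card, Fintype.card_eq_nat_card]
    exact (Nat.card_congr (Equiv.ofInjective em hem)).symm
  let e := (Fintype.equivFin s).symm
  let e' := (Fintype.equivFinOfCardEq hT).symm
  have hex : ∀ a : S, ∃ D : Derivation ℂ K K, ∀ b : S, D (b : K) = if b = a then 1 else 0 :=
    fun a => Pool.Agent.Work.MP_4329d7_ag.R.exists_derivation (M := K) hSb
      (fun b : S => if b = a then 1 else 0)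
  choose E hE using hex
  refine ⟨Fintype.card s, fun i => ((e i : L) : K), fun i => ((e' i : S) : K),
    fun i => E (em (e i)), fun i => E (e' i : S), hple, ?_, fun i => (e i : L).2, ?_, ?_, ?_⟩
  · rw [← hs.cardinalMk_eq_trdeg, Cardinal.mk_fintype]
  · intro i j
    have h1 := hE (em (e i)) (em (e j))
    refine h1.trans ?_
    by_cases h : i = j
    · rw [h, if_pos rfl, if_pos rfl]
    · rw [if_neg, if_neg h]
      intro h2
      exact h (e.injective (hem h2)).symm
  · intro i j
    refine (hE (e' i : S) (e' j : S)).trans ?_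
    by_cases h : i = j
    · rw [h, if_pos rfl, if_pos rfl]
    · rw [if_neg, if_neg h]
      intro h2
      exact h (e'.injective (Subtype.ext h2)).symm
  · intro i y hy
    have h1 : (E (e' i : S)).compAlgebraMap L = 0 := by
      refine Pool.Agent.Work.MP_4329d7_ag.R.derivation_ext (K := L) (M := K) hs fun j => ?_
      change E (e' i : S) (((j : L) : K)) = 0
      have h2 := hE (e' i : S) (em j)
      refine h2.trans (if_neg ?_)
      intro h3
      exact (e' i).2 ⟨j, h3⟩
    exact congrArg (fun D : Derivation ℂ L K => D ⟨y, hy⟩) h1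

end der

section dim

variable {Q : Type} [Fintype Q] {d : ℕ} {K : Type} [Field K] [Algebra ℂ K] {n : ℕ}
  {x : Fin d → K} {f : Q → Lau d} {ι : Type} [Fintype ι]

theorem kbx_char : CharZero K := charZero_of_injective_algebraMap (algebraMap ℂ K).injective

/-- `RankB` over `K` -/
theorem kbx_rankB {b : ι → Fin d → ℤ} (hrank : RankB x f b) (c : Q → K)
    (h : ∀ i, ∑ q, c q * ∑ j, (b i j : K) * ldv (f q) j x = 0) (q : Q) (hq : 0 < dg f b q) :
    c q = 0 := by
  have h1 := hrank (fun q => algebraMap K (AlgebraicClosure K) (c q)) (fun i => by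
    have h2 := congrArg (algebraMap K (AlgebraicClosure K)) (h i)
    rw [map_zero, map_sum] at h2
    rw [← h2]
    refine Finset.sum_congr rfl fun q _ => ?_
    rw [map_mul, map_sum]
    congr 1
    unfold Alin
    refine Finset.sum_congr rfl fun j _ => ?_
    rw [map_mul, map_intCast, sub_map_ldv]) q hq
  exact (algebraMap K (AlgebraicClosure K)).injective (by rw [h1, map_zero])

open Classical in
/-- the dimension of the quotient torus: lower bound -/
theorem kbx_lower (D : Data K n d Q x f) {b : ι → Fin d → ℤ} (hb : ∑ i, b i = 0)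
    (hrank : RankB x f b) {d' : ℕ} (χ : Fin d' → Fin d → ℤ) (hχ : LinearIndependent ℤ χ)
    (hspan : ∀ v : Fin d → ℤ, v ∈ Submodule.span ℤ (Set.range χ) ↔ ∀ i, pair v (b i) = 0)
    {m : ℕ} (ε : Fin m → Derivation ℂ K K) (w : Fin m → K)
    (hε : ∀ i j, ε i (w j) = if i = j then 1 else 0) (hε0 : ∀ i a, ε i (mon x (χ a)) = 0) :
    d' + Fintype.card {q : Q // ¬ ∀ a ∈ (f q).support, ∀ b ∈ (f q).support,
      a - b ∈ Submodule.span ℤ (Set.range χ)} + m ≤ d := by
  have hchar : CharZero K := kbx_char
  set P : Q → Prop := fun q => ∀ a ∈ (f q).support, ∀ b ∈ (f q).support,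
      a - b ∈ Submodule.span ℤ (Set.range χ) with hP
  have hpos : ∀ q, ¬ P q → 0 < dg f b q := by
    intro q hq
    rw [Nat.pos_iff_ne_zero]
    intro h0
    apply hq
    intro a ha a' ha'
    rw [hspan]
    intro i
    exact (dg_eq_zero D.nz hb q).1 h0 i a ha a' ha'
  -- the rows
  let r : Fin d' ⊕ {q : Q // ¬ P q} → Fin d → K :=
    Sum.elim (fun a j => (χ a j : K)) (fun q j => ldv (f q.1) j x)
  have hr : LinearIndependent K r := by
    rw [Fintype.linearIndependent_iff]
    intro g hg
    have hg' : ∀ j, ∑ a, g (Sum.inl a) * (χ a j : K) +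
        ∑ q : {q : Q // ¬ P q}, g (Sum.inr q) * ldv (f q.1) j x = 0 := by
      intro j
      have h1 := congrFun hg j
      rw [Fintype.sum_sum_type] at h1
      simpa [r] using h1
    have h2 : ∀ q : {q : Q // ¬ P q}, g (Sum.inr q) = 0 := by
      intro q
      have h3 := kbx_rankB hrank (fun q => if h : ¬ P q then g (Sum.inr ⟨q, h⟩) else 0)
        (fun i => by
          have h4 : ∑ j, (b i j : K) * (∑ a, g (Sum.inl a) * (χ a j : K) +
              ∑ q : {q : Q // ¬ P q}, g (Sum.inr q) * ldv (f q.1) j x) = 0 :=
            Finset.sum_eq_zero fun j _ => by rw [hg' j, mul_zero]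
          simp only [mul_add, Finset.sum_add_distrib] at h4
          have h5 : ∑ j, (b i j : K) * ∑ a, g (Sum.inl a) * (χ a j : K) = 0 := by
            simp only [Finset.mul_sum]
            rw [Finset.sum_comm]
            refine Finset.sum_eq_zero fun a _ => ?_
            have h6 : pair (χ a) (b i) = 0 :=
              (hspan _).1 (Submodule.subset_span ⟨a, rfl⟩) i
            have h7 : ((pair (χ a) (b i) : ℤ) : K) = 0 := by rw [h6]; simp
            unfold pair at h7
            push_cast at h7
            have h8 : ∑ j, (b i j : K) * (g (Sum.inl a) * (χ a j : K)) =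
                g (Sum.inl a) * ∑ j, (χ a j : K) * (b i j : K) := by
              rw [Finset.mul_sum]
              exact Finset.sum_congr rfl fun j _ => by ring
            rw [h8, h7, mul_zero]
          rw [h5, zero_add] at h4
          have h9 : ∑ q, (if h : ¬ P q then g (Sum.inr ⟨q, h⟩) else 0) *
              ∑ j, (b i j : K) * ldv (f q) j x =
              ∑ q : {q : Q // ¬ P q}, g (Sum.inr q) * ∑ j, (b i j : K) * ldv (f q.1) j x := by
            have h10 : ∑ q ∈ Finset.univ.filter (fun q => ¬ P q),
                (if h : ¬ P q then g (Sum.inr ⟨q, h⟩) else 0) *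
                  ∑ j, (b i j : K) * ldv (f q) j x =
                ∑ q : {q : Q // ¬ P q}, (if h : ¬ P q.1 then g (Sum.inr ⟨q.1, h⟩) else 0) *
                  ∑ j, (b i j : K) * ldv (f q.1) j x :=
              Finset.sum_subtype (Finset.univ.filter fun q => ¬ P q) (by simp) _
            rw [← Finset.sum_subset (Finset.filter_subset (fun q => ¬ P q) Finset.univ), h10]
            · refine Finset.sum_congr rfl fun q _ => ?_
              rw [dif_pos q.2]
            · intro q _ hq
              rw [Finset.mem_filter, not_and] at hq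
              have h11 : ¬ ¬ P q := hq (Finset.mem_univ _)
              rw [dif_neg h11, zero_mul]
          rw [h9, ← h4]
          simp only [Finset.mul_sum]
          rw [Finset.sum_comm]
          refine Finset.sum_congr rfl fun j _ => Finset.sum_congr rfl fun q _ => by ring) q.1
        (hpos _ q.2)
      rw [dif_pos q.2] at h3
      exact h3
    have h3 : ∀ a, g (Sum.inl a) = 0 := by
      have h4 := kbx_linInd_cast (F := K) χ hχ
      rw [Fintype.linearIndependent_iff] at h4
      refine h4 (fun a => g (Sum.inl a)) ?_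
      funext j
      have h5 := hg' j
      simp only [h2, zero_mul, Finset.sum_const_zero, add_zero] at h5
      simpa using h5
    rintro (a | q)
    · exact h3 a
    · exact h2 q
  -- the vectors
  have hv : LinearIndependent K (fun i j => ε i (x j) / x j) := by
    rw [Fintype.linearIndependent_iff]
    intro g hg i
    have h1 : ∀ z ∈ Set.range x, (∑ i, g i • ε i) z = 0 := by
      rintro _ ⟨j, rfl⟩
      have h2 := congrFun hg j
      simp only [Finset.sum_apply, Pi.smul_apply, smul_eq_mul, Pi.zero_apply] at h2
      have h3 : (∑ i, g i • ε i) (x j) = (∑ i, g i * (ε i (x j) / x j)) * x j := by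
        rw [Pool.Agent.Work.MP_4329d7_ag.R.ext_sum_apply, Finset.sum_mul]
        refine Finset.sum_congr rfl fun i _ => ?_
        rw [Derivation.smul_apply, smul_eq_mul]
        have := D.ne j
        field_simp
      rw [h3, h2, zero_mul]
    have h2 := kbx_der_adjoin _ _ h1 (w i) (by rw [D.gen]; trivial)
    rw [Pool.Agent.Work.MP_4329d7_ag.R.ext_sum_apply, Finset.sum_eq_single i] at h2
    · rw [Derivation.smul_apply, hε, if_pos rfl, smul_eq_mul, mul_one] at h2
      exact h2
    · intro j _ hj
      rw [Derivation.smul_apply, hε, if_neg hj, smul_zero]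
    · intro h
      exact absurd (Finset.mem_univ _) h
  have key := kbx_rank r _ hr hv (by
    rintro (a | q) i
    · have h1 := hε0 i a
      rw [formA_mon D.ne] at h1
      exact (mul_eq_zero.1 h1).resolve_left (mon_ne_zero D.ne _)
    · exact formA_rel D (ε i) q.1)
  rw [Fintype.card_sum, Fintype.card_fin, Fintype.card_fin] at key
  exact key

open Classical in
/-- the dimension of the quotient torus: upper bound -/
theorem kbx_upper (D : Data K n d Q x f) {d' : ℕ} (χ : Fin d' → Fin d → ℤ)
    (hχ : LinearIndependent ℤ χ) {p : ℕ} (δ : Fin p → Derivation ℂ K K) (z : Fin p → K)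
    (hδ : ∀ i j, δ i (z j) = if i = j then 1 else 0) (hz : ∀ i, z i ∈ subF x χ) :
    Fintype.card {q : Q // ∀ a ∈ (f q).support, ∀ b ∈ (f q).support,
      a - b ∈ Submodule.span ℤ (Set.range χ)} + p ≤ d' := by
  have hchar : CharZero K := kbx_char
  set P : Q → Prop := fun q => ∀ a ∈ (f q).support, ∀ b ∈ (f q).support,
      a - b ∈ Submodule.span ℤ (Set.range χ) with hP
  have hex : ∀ q, ∃ a, a ∈ (f q).support := fun q => Finsupp.support_nonempty_iff.2 (D.nz q)
  choose c hc using hex
  have hrange : ∀ q : {q : Q // P q}, ∀ a ∈ (f q.1).support,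
      a ∈ Set.range (quotMap (c q.1) χ) := by
    intro q a ha
    have h1 := q.2 a ha (c q.1) (hc q.1)
    rw [Submodule.mem_span_range_iff_exists_fun] at h1
    obtain ⟨u, hu⟩ := h1
    exact ⟨u, by unfold quotMap; rw [hu]; abel⟩
  let r : {q : Q // P q} → Fin d' → K := fun q a =>
    ldv (quotLau (c q.1) χ hχ (f q.1)) a (fun i => mon x (χ i))
  have hldv : ∀ (q : {q : Q // P q}) (j : Fin d), ldv (f q.1) j x =
      mon x (c q.1) * ∑ a, (χ a j : K) * r q a := fun q j =>
    quotLau_ldv (hrange q) D.ne (D.eq q.1) j
  have hr : LinearIndependent K r := by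
    rw [Fintype.linearIndependent_iff]
    intro g hg q
    have h1 := curve_li D (fun q => if h : P q then g ⟨q, h⟩ * (mon x (c q))⁻¹ else 0)
      (fun j => by
        have h9 : ∑ q, (if h : P q then g ⟨q, h⟩ * (mon x (c q))⁻¹ else 0) * ldv (f q) j x =
            ∑ q : {q : Q // P q}, g q * (mon x (c q.1))⁻¹ * ldv (f q.1) j x := by
          have h10 : ∑ q ∈ Finset.univ.filter (fun q => P q),
              (if h : P q then g ⟨q, h⟩ * (mon x (c q))⁻¹ else 0) * ldv (f q) j x =
              ∑ q : {q : Q // P q}, (if h : P q.1 then g ⟨q.1, h⟩ * (mon x (c q.1))⁻¹ else 0) *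
                ldv (f q.1) j x :=
            Finset.sum_subtype (Finset.univ.filter fun q => P q) (by simp) _
          rw [← Finset.sum_subset (Finset.filter_subset (fun q => P q) Finset.univ), h10]
          · refine Finset.sum_congr rfl fun q _ => ?_
            rw [dif_pos q.2]
          · intro q _ hq
            rw [Finset.mem_filter, not_and] at hq
            rw [dif_neg (hq (Finset.mem_univ _)), zero_mul]
        rw [h9]
        have h11 : ∑ q : {q : Q // P q}, g q * (mon x (c q.1))⁻¹ * ldv (f q.1) j x =
            ∑ a, (χ a j : K) * ∑ q : {q : Q // P q}, g q * r q a := by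
          simp only [Finset.mul_sum]
          rw [Finset.sum_comm]
          refine Finset.sum_congr rfl fun q _ => ?_
          rw [hldv q j]
          have := mon_ne_zero D.ne (c q.1)
          rw [Finset.mul_sum, Finset.mul_sum]
          refine Finset.sum_congr rfl fun a _ => ?_
          field_simp
        rw [h11]
        refine Finset.sum_eq_zero fun a _ => ?_
        have h12 := congrFun hg a
        simp only [Finset.sum_apply, Pi.smul_apply, smul_eq_mul, Pi.zero_apply] at h12
        rw [h12, mul_zero]) q.1
    rw [dif_pos q.2] at h1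
    exact (mul_eq_zero.1 h1).resolve_right (inv_ne_zero (mon_ne_zero D.ne _))
  have hv : LinearIndependent K (fun i a => δ i (mon x (χ a)) / mon x (χ a)) := by
    rw [Fintype.linearIndependent_iff]
    intro g hg i
    have h1 : ∀ z ∈ Set.range (fun a => mon x (χ a)), (∑ i, g i • δ i) z = 0 := by
      rintro _ ⟨a, rfl⟩
      have h2 := congrFun hg a
      simp only [Finset.sum_apply, Pi.smul_apply, smul_eq_mul, Pi.zero_apply] at h2
      have h3 : (∑ i, g i • δ i) (mon x (χ a)) =
          (∑ i, g i * (δ i (mon x (χ a)) / mon x (χ a))) * mon x (χ a) := by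
        rw [Pool.Agent.Work.MP_4329d7_ag.R.ext_sum_apply, Finset.sum_mul]
        refine Finset.sum_congr rfl fun i _ => ?_
        rw [Derivation.smul_apply, smul_eq_mul]
        have := mon_ne_zero D.ne (χ a)
        field_simp
      rw [h3, h2, zero_mul]
    have h2 := kbx_der_adjoin _ _ h1 (z i) (hz i)
    rw [Pool.Agent.Work.MP_4329d7_ag.R.ext_sum_apply, Finset.sum_eq_single i] at h2
    · rw [Derivation.smul_apply, hδ, if_pos rfl, smul_eq_mul, mul_one] at h2
      exact h2
    · intro j _ hj
      rw [Derivation.smul_apply, hδ, if_neg hj, smul_zero]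
    · intro h
      exact absurd (Finset.mem_univ _) h
  have key := kbx_rank r _ hr hv (by
    intro q i
    have h1 := formA_rel D (δ i) q.1
    have h2 : ∑ j, ldv (f q.1) j x * (δ i (x j) / x j) = mon x (c q.1) *
        ∑ a, r q a * (δ i (mon x (χ a)) / mon x (χ a)) := by
      have h3 : ∀ a, δ i (mon x (χ a)) / mon x (χ a) = ∑ j, (χ a j : K) * (δ i (x j) / x j) := by
        intro a
        rw [formA_mon D.ne, mul_div_cancel_left₀ _ (mon_ne_zero D.ne _)]
      simp only [hldv, h3, Finset.mul_sum, Finset.sum_mul]
      rw [Finset.sum_comm]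
      refine Finset.sum_congr rfl fun a _ => Finset.sum_congr rfl fun j _ => by ring
    rw [h2] at h1
    exact (mul_eq_zero.1 h1).resolve_left (mon_ne_zero D.ne _))
  rw [Fintype.card_fin] at key
  exact key

end dim

end Pool.Agent.Work.CW
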