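import Mathlib
import Pool.Agent.Work.MP_4329d7_ag_w.SpnW
import Pool.Agent.Work.MP_4329d7_ag_w.DerW
import Pool.Agent.Work.MP_4329d7_ag_ci.Sub
import Pool.Agent.Work.MP_4329d7_ag_ci.FormA
import Pool.Agent.Work.MP_4329d7_ag_w.KBX

/-!
Module W-KB: the field `K_B = KB x b` of the quotient torus.
* `alg_of_const`: an element which is constant along all curves of type `b` is algebraic over `K_B`:
  else `exists_der_over` gives a derivation `δ` over `K_B` with `δ y ≠ 0`; `η_j = δ x_j / x_j` is killed
  by `Alin` (apply `δ` to `f_q(x) = 0`) and orthogonal to `χ` for all `χ ⊥ b`, so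
  `η = ∑ c_i b_i` (`mem_span_of_orth`), so `η` is a combination of directions (`SpanDir`); `der_phi`:
  the derivation with direction `wt b t` kills `y`; a derivation `K → F` is determined by its values
  at the `x_j`.
* `data_KB`: `χ` = a basis of the saturated lattice `{χ | χ ⊥ b}` of rank
  `d' = d - dim B < d`; `KB x b = subF x χ`; `CI.data_sub` needs
  `trdeg K_B + card {q | not moving} = d'`.  `≥`: a transcendence basis of `K_B` and one of `K` over `K_B`
  give `n - trdeg K_B` independent derivations over `K_B`, their directions are in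
  `B ∩ T` of dimension `≤ dim B - card {q | moving}` (`RankB`).  `≤`: the frame of derivations of `K_B`
  has its directions in the kernel of the logarithmic Jacobian of the non moving relations, of rank
  `card {q | not moving}` (`CI.curve_li`).
-/

namespace Pool.Agent.Work.CW

open Polynomial Pool.Agent.Work.Uni Pool.Agent.Work.CI

variable {Q : Type} [Fintype Q] {d : ℕ} {K : Type} [Field K] [Algebra ℂ K] {n : ℕ}
  {x : Fin d → K} {f : Q → Lau d} {ι : Type} [Fintype ι]

section kbaux

variable {F : Type} [Field F] [Algebra ℂ F] [Algebra K F] [IsScalarTower ℂ K F]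

/-- a derivation of `K = ℂ(x)` is determined by its values at the `x j` -/
theorem kb_der_ext (hgen : IntermediateField.adjoin ℂ (Set.range x) = ⊤)
    (δ δ' : Derivation ℂ K F) (h : ∀ j, δ (x j) = δ' (x j)) (z : K) : δ z = δ' z := by
  have hz : z ∈ IntermediateField.adjoin ℂ (Set.range x) := by rw [hgen]; trivial
  induction hz using IntermediateField.adjoin_induction with
  | mem z hz =>
    obtain ⟨j, rfl⟩ := hz
    exact h j
  | algebraMap c => rw [Derivation.map_algebraMap, Derivation.map_algebraMap]
  | add z w _ _ h1 h2 => rw [map_add, map_add, h1, h2]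
  | inv z _ h1 => rw [Derivation.leibniz_inv, Derivation.leibniz_inv, h1]
  | mul z w _ _ h1 h2 => rw [Derivation.leibniz, Derivation.leibniz, h1, h2]

/-- the directions of the derivations which kill `y` form a subspace -/
theorem kb_span (S : Set (Fin d → F)) (y : K)
    (hS : ∀ v ∈ S, ∃ δ : Derivation ℂ K F, (∀ j, δ (x j) = v j * algebraMap K F (x j)) ∧ δ y = 0)
    (v : Fin d → F) (hv : v ∈ Submodule.span F S) :
    ∃ δ : Derivation ℂ K F, (∀ j, δ (x j) = v j * algebraMap K F (x j)) ∧ δ y = 0 := by
  induction hv using Submodule.span_induction with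
  | mem v hv => exact hS v hv
  | zero => exact ⟨0, fun j => by simp, by simp⟩
  | add v w _ _ h1 h2 =>
    obtain ⟨δ, h3, h4⟩ := h1
    obtain ⟨δ', h5, h6⟩ := h2
    refine ⟨δ + δ', fun j => ?_, ?_⟩
    · rw [Derivation.add_apply, h3, h5, Pi.add_apply, add_mul]
    · rw [Derivation.add_apply, h4, h6, add_zero]
  | smul c v _ h1 =>
    obtain ⟨δ, h3, h4⟩ := h1
    refine ⟨c • δ, fun j => ?_, ?_⟩
    · rw [Derivation.smul_apply, h3, Pi.smul_apply, smul_eq_mul, smul_eq_mul, mul_assoc]
    · rw [Derivation.smul_apply, h4, smul_zero]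

end kbaux

theorem alg_of_const [Algebra.EssFiniteType ℂ K] (D : Data K n d Q x f) {b : ι → Fin d → ℤ}
    (hb : ∑ i, b i = 0) (hspan : SpanDir x f b) (y : K)
    (hy : ∀ φ : K →ₐ[ℂ] RatFunc (AlgebraicClosure K),
      (∀ z, Pl (φ z) (algebraMap K (AlgebraicClosure K) z)) →
      φ y = RatFunc.C (algebraMap K (AlgebraicClosure K) y)) :
    IsAlgebraic (KB x b) y := by
  classical
  by_contra hnot
  obtain ⟨δ, hδ0, hδy⟩ := exists_der_over (KB x b) y hnot
  -- the logarithmic derivatives of the coordinates
  let η : Fin d → AlgebraicClosure K :=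
    fun j => algebraMap K (AlgebraicClosure K) (δ (x j) / x j)
  have hηpair : ∀ χ : Fin d → ℤ, (∀ i, pair χ (b i) = 0) →
      ∑ j, (χ j : AlgebraicClosure K) * η j = 0 := by
    intro χ hχ
    have h1 : mon x χ ∈ KB x b := IntermediateField.subset_adjoin ℂ _ ⟨χ, hχ, rfl⟩
    have h2 := hδ0 _ h1
    rw [formA_mon D.ne] at h2
    have h3 := (mul_eq_zero.1 h2).resolve_left (mon_ne_zero D.ne χ)
    have h4 := congrArg (algebraMap K (AlgebraicClosure K)) h3
    rw [map_zero, map_sum] at h4
    rw [← h4]
    refine Finset.sum_congr rfl fun j _ => ?_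
    rw [map_mul, map_intCast]
  have hchar : CharZero (AlgebraicClosure K) :=
    charZero_of_injective_algebraMap (algebraMap ℂ (AlgebraicClosure K)).injective
  obtain ⟨c, hc⟩ := mem_span_of_orth b η hηpair
  have hcη : (fun j => ∑ i, c i * (b i j : AlgebraicClosure K)) = η := funext fun j => (hc j).symm
  have hA : ∀ q, Alin f (fun j => algebraMap K (AlgebraicClosure K) (x j)) q
      (fun j => ∑ i, c i * (b i j : AlgebraicClosure K)) = 0 := by
    intro q
    rw [hcη]
    unfold Alin
    have h1 := congrArg (algebraMap K (AlgebraicClosure K)) (formA_rel D δ q)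
    rw [map_zero, map_sum] at h1
    rw [← h1]
    refine Finset.sum_congr rfl fun j _ => ?_
    rw [map_mul, sub_map_ldv, mul_comm]
  have hmem := hspan c hA
  rw [hcη] at hmem
  obtain ⟨δ', h1, h2⟩ := kb_span (x := x) _ y (by
    rintro v ⟨t, ht, rfl⟩
    obtain ⟨φ, hφ1, hφ2⟩ := exists_phi D
      (IsScalarTower.toAlgHom ℂ K (AlgebraicClosure K)) hb (t := t) ht
    obtain ⟨δt, h3, h4⟩ := der_phi x D.ne b t φ hφ1 hφ2
    have h5 := h4 y _ (hy φ hφ2)
    refine ⟨-δt, fun j => ?_, ?_⟩
    · rw [Derivation.neg_apply, h3, neg_neg]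
    · rw [Derivation.neg_apply, h5, neg_zero]) η hmem
  have h3 := kb_der_ext D.gen ((Algebra.linearMap K (AlgebraicClosure K)).compDer δ) δ' (by
    intro j
    rw [h1 j]
    change algebraMap K (AlgebraicClosure K) (δ (x j)) = _
    rw [← map_mul, div_mul_cancel₀ _ (D.ne j)]) y
  rw [h2] at h3
  apply hδy
  apply (algebraMap K (AlgebraicClosure K)).injective
  rw [map_zero]
  exact h3

theorem data_KB [Algebra.EssFiniteType ℂ K] (D : Data K n d Q x f) {b : ι → Fin d → ℤ}
    (hb : ∑ i, b i = 0) (hb0 : ∃ i, b i ≠ 0) (hrank : RankB x f b) :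
    ∃ (n' d' : ℕ) (Q' : Type) (_ : Fintype Q') (x' : Fin d' → KB x b) (f' : Q' → Lau d'),
      Data (KB x b) n' d' Q' x' f' ∧ d' < d := by
  classical
  have hchar : CharZero K := kbx_char
  -- the lattice
  let Λ : Submodule ℤ (Fin d → ℤ) :=
    { carrier := {χ | ∀ i, pair χ (b i) = 0}
      add_mem' := fun {χ χ'} h h' i => by
        rw [add_pair]
        have h1 := h i
        have h2 := h' i
        omega
      zero_mem' := fun i => by simp [pair]
      smul_mem' := fun c χ h i => by
        have h1 : pair χ (b i) = 0 := h i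
        have h2 : pair (c • χ) (b i) = c * pair χ (b i) := by
          unfold pair
          rw [Finset.mul_sum]
          exact Finset.sum_congr rfl fun j _ => by simp [mul_assoc]
        rw [h2, h1, mul_zero] }
  let e := Module.finBasis ℤ Λ
  let d' := Module.finrank ℤ Λ
  let χ : Fin d' → Fin d → ℤ := fun a => ((e a : Λ) : Fin d → ℤ)
  have hχ : LinearIndependent ℤ χ :=
    e.linearIndependent.map' (Submodule.subtype Λ) (Submodule.ker_subtype Λ)
  have hspanΛ : Submodule.span ℤ (Set.range χ) = Λ := by
    have h1 : Set.range χ = Λ.subtype '' Set.range e := by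
      rw [← Set.range_comp]; rfl
    rw [h1, Submodule.span_image, e.span_eq, Submodule.map_top, Submodule.range_subtype]
  have hspan : ∀ v : Fin d → ℤ, v ∈ Submodule.span ℤ (Set.range χ) ↔
      ∀ i, pair v (b i) = 0 := fun v => by rw [hspanΛ]; exact Iff.rfl
  -- the field
  have hKB : KB x b = subF x χ := by
    apply le_antisymm
    · unfold KB
      rw [IntermediateField.adjoin_le_iff]
      rintro _ ⟨v, hv, rfl⟩
      have h1 := (hspan v).2 hv
      rw [Submodule.mem_span_range_iff_exists_fun] at h1
      obtain ⟨u, rfl⟩ := h1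
      rw [quot_mon_sum D.ne]
      have h2 : ∀ a, mon x (χ a) ∈ subF x χ := fun a =>
        IntermediateField.subset_adjoin ℂ _ ⟨a, rfl⟩
      change ∏ a, (mon x (χ a)) ^ u a ∈ subF x χ
      exact prod_mem fun a _ => zpow_mem (h2 a) _
    · rw [IntermediateField.adjoin_le_iff]
      rintro _ ⟨a, rfl⟩
      exact IntermediateField.subset_adjoin ℂ _
        ⟨χ a, (hspan _).1 (Submodule.subset_span ⟨a, rfl⟩), rfl⟩
  -- the frames
  obtain ⟨p, z, w, δ, ε, hpn, htr, hz, hδ, hε, hε0⟩ := kbx_frame D.trdeg (subF x χ)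
  have hlow := kbx_lower D hb hrank χ hχ hspan ε w hε
    (fun i a => hε0 i _ (IntermediateField.subset_adjoin ℂ _ ⟨a, rfl⟩))
  have hup := kbx_upper D χ hχ δ z hδ hz
  have hcard := Fintype.card_subtype_compl (fun q : Q => ∀ a ∈ (f q).support,
    ∀ b ∈ (f q).support, a - b ∈ Submodule.span ℤ (Set.range χ))
  have hle := Fintype.card_subtype_le (fun q : Q => ∀ a ∈ (f q).support,
    ∀ b ∈ (f q).support, a - b ∈ Submodule.span ℤ (Set.range χ))
  have hdim := D.dim
  have hdim' : p + Nat.card {q : Q // ∀ a ∈ (f q).support, ∀ b ∈ (f q).support,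
      a - b ∈ Submodule.span ℤ (Set.range χ)} = d' := by
    rw [Nat.card_eq_fintype_card]
    omega
  obtain ⟨Q', iQ, x', f', hD⟩ := data_sub D χ hχ htr hdim'
  -- the rank is smaller
  obtain ⟨i, hi⟩ := hb0
  have hlt : d' + 1 ≤ d := by
    have h1 := kbx_rank (F := K) (R := Fin d') (V := Unit) (fun a j => (χ a j : K))
      (fun _ j => (b i j : K)) (kbx_linInd_cast χ hχ) (by
        rw [Fintype.linearIndependent_iff]
        intro g hg u
        by_contra hne
        apply hi
        funext j
        have h2 := congrFun hg j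
        simp only [Finset.univ_unique, Finset.sum_singleton, Pi.smul_apply, smul_eq_mul,
          Pi.zero_apply] at h2
        have h3 := (mul_eq_zero.1 h2).resolve_left hne
        exact_mod_cast h3) (by
        intro a _
        have h2 : pair (χ a) (b i) = 0 := (hspan _).1 (Submodule.subset_span ⟨a, rfl⟩) i
        have h3 : ((pair (χ a) (b i) : ℤ) : K) = 0 := by rw [h2]; simp
        unfold pair at h3
        push_cast at h3
        exact h3)
    rw [Fintype.card_fin, Fintype.card_unit] at h1
    exact h1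
  rw [hKB]
  exact ⟨p, d', Q', iQ, x', f', hD, hlt⟩

end Pool.Agent.Work.CW
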