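import Mathlib
import Pool.Agent.Work.MP_4329d7_ag_w.KBW
import Pool.Agent.Work.MP_4329d7_ag_w.IrrW
import Pool.Agent.Work.MP_4329d7_ag_ci.MainP
import Pool.Agent.Work.MP_4329d7_ag_rp.MainT

/-!
THEOREM W: for every `d` there is ONE exponent `M` such that for every nondegenerate complete
intersection `X` in the torus of dimension `d`: a subfield `K'` of `K = C(X)` of transcendence degree
`p` is uniruled if `X` has no regular sections of `(Ω ^ j) ^ {⊗ M}`, `p ≤ j ≤ dim X`.
-/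

namespace Pool.Agent.Work.CW

open Pool.Agent.Work.Uni Pool.Agent.Work.CI Pool.Agent.Work.MP_4329d7_ag.FF
open Algebra

/-- no weights => a packing with `δ ≥ 1` (also if the exponents do not span) -/
theorem weights_or_pk {Q : Type} [Fintype Q] {d : ℕ} (f : Q → Lau d) (hf : ∀ q, f q ≠ 0) :
    (∃ (w : Fin d → ℤ) (M : ℕ), 0 < M ∧ ∀ b, b ≠ 0 → (M : ℤ) ≤ pair w b - M * ∑ q, mn (f q) b) ∨
      ∃ (ι : Type) (_ : Fintype ι) (b : ι → Fin d → ℤ), IsPk f b := by
  classical
  have hsup : ∀ q, ∃ χ, χ ∈ (f q).support := fun q => Finsupp.support_nonempty_iff.2 (hf q)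
  by_cases hfull : Full f
  · rcases weights_or_ext f hf hfull with h | ⟨T, _, b, lam, m, hb, hext, hlt⟩
    · exact Or.inl h
    right
    have hpack : ∀ (q : Q) (χ : Fin d → ℤ), χ ∈ (f q).support →
        pair χ (∑ t, (lam t : ℤ) • b t) = m q + ∑ t, (lam t : ℤ) * mn (f q) (b t) := by
      intro q χ hχ
      have h1 : ((∑ t, lam t * blk f (b t) ⟨q, ⟨χ, hχ⟩⟩ : ℕ) : ℤ) = m q := by
        rw [hext.pack ⟨q, ⟨χ, hχ⟩⟩]
      push_cast at h1
      rw [← h1, pair_sum, ← Finset.sum_add_distrib]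
      refine Finset.sum_congr rfl fun t _ => ?_
      rw [pair_smul, blk_cast]
      ring
    have hsum0 : ∑ t, (lam t : ℤ) • b t = 0 :=
      hfull _ fun q χ hχ χ' hχ' => by rw [hpack q χ hχ, hpack q χ' hχ']
    have hsum : ∑ i : (Σ t, Fin (lam t)), b i.1 = 0 := by
      rw [Fintype.sum_sigma, ← hsum0]
      refine Finset.sum_congr rfl fun t _ => ?_
      show ∑ _y : Fin (lam t), b t = _
      rw [Finset.sum_const, Finset.card_univ, Fintype.card_fin, natCast_zsmul]
    refine ⟨Σ t, Fin (lam t), inferInstance, fun i => b i.1, fun i => hb i.1, hsum, ?_⟩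
    have hdg : ∀ q, dg f (fun i : (Σ t, Fin (lam t)) => b i.1) q = m q := by
      intro q
      obtain ⟨χ, hχ⟩ := hsup q
      have h1 := hpack q χ hχ
      rw [hsum0, pair_zero] at h1
      unfold dg
      rw [Fintype.sum_sigma]
      have h2 : ∑ t, ∑ _j : Fin (lam t), mn (f q) (b t) = ∑ t, (lam t : ℤ) * mn (f q) (b t) := by
        refine Finset.sum_congr rfl fun t _ => ?_
        show ∑ _y : Fin (lam t), mn (f q) (b t) = _
        rw [Finset.sum_const, Finset.card_univ, Fintype.card_fin, nsmul_eq_mul]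
      rw [h2]
      omega
    have hc : Fintype.card (Σ t, Fin (lam t)) = ∑ t, lam t := by
      rw [Fintype.card_sigma]
      simp only [Fintype.card_fin]
    have hd : ∑ q, dg f (fun i : (Σ t, Fin (lam t)) => b i.1) q = ∑ q, m q :=
      Finset.sum_congr rfl fun q _ => hdg q
    rw [hd, hc]
    exact hlt
  · right
    unfold Full at hfull
    push Not at hfull
    obtain ⟨b, hb, hb0⟩ := hfull
    have hpr : ∀ (q : Q) (c : Fin d → ℤ) (χ : Fin d → ℤ), χ ∈ (f q).support →
        (∀ χ ∈ (f q).support, ∀ χ' ∈ (f q).support, pair χ c = pair χ' c) →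
        mn (f q) c = pair χ c := by
      intro q c χ hχ h
      obtain ⟨χ', hχ', h'⟩ := exists_mn (hf q) c
      rw [← h', h χ hχ χ' hχ']
    refine ⟨Bool, inferInstance, fun i => if i then b else -b, ?_, ?_, ?_⟩
    · intro i
      cases i
      · simpa using hb0
      · simpa using hb0
    · simp
    · have hdg : ∀ q, dg f (fun i : Bool => if i then b else -b) q = 0 := by
        intro q
        obtain ⟨χ, hχ⟩ := hsup q
        have h1 := hpr q b χ hχ (hb q)
        have h2 := hpr q (-b) χ hχ fun χ1 h1 χ2 h2 => by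
          have h3 := hb q χ1 h1 χ2 h2
          have h4 : ∀ χ : Fin d → ℤ, pair χ (-b) = - pair χ b := fun χ => by
            simp [pair]
          rw [h4, h4, h3]
        have h4 : pair χ (-b) = - pair χ b := by simp [pair]
        unfold dg
        simp [h1, h2, h4]
      rw [Finset.sum_congr rfl fun q _ => hdg q]
      simp

/-- one exponent for the weights -/
theorem form_of_weights (d : ℕ) : ∃ M : ℕ, 0 < M ∧
    ∀ (K : Type) [Field K] [Algebra ℂ K] [Algebra.EssFiniteType ℂ K] (n d₀ : ℕ) (Q : Type)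
      [Fintype Q] (x : Fin d₀ → K) (f : Q → Lau d₀), Data K n d₀ Q x f → d₀ ≤ d →
      (∃ (w : Fin d₀ → ℤ) (M : ℕ), 0 < M ∧
        ∀ b, b ≠ 0 → (M : ℤ) ≤ pair w b - M * ∑ q, mn (f q) b) →
      ∃ T : TensorForm K (M * n), IsPluricanonical M n T ∧ IsRegular T ∧ T ≠ 0 := by
  classical
  choose M hM hMw using unif_point
  refine ⟨2 * ∏ j ∈ Finset.range (d + 1), M j,
    Nat.mul_pos two_pos (Finset.prod_pos fun j _ => hM j), ?_⟩
  intro K _ _ _ n d₀ Q _ x f D hd₀ hex
  obtain ⟨w, M₀, hM₀, hw⟩ := hex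
  obtain ⟨w', hw'⟩ := hMw d₀ Q f D.nz w M₀ hM₀ hw
  obtain ⟨c, hc⟩ : M d₀ ∣ ∏ j ∈ Finset.range (d + 1), M j :=
    Finset.dvd_prod_of_mem M (Finset.mem_range.2 (by omega))
  have hprod : 0 < ∏ j ∈ Finset.range (d + 1), M j := Finset.prod_pos fun j _ => hM j
  exact exists_form D ((c : ℤ) • w') (∏ j ∈ Finset.range (d + 1), M j)
    hprod (by
      intro b hb
      have h1 := hw' b hb
      have h2 : pair ((c : ℤ) • w') b = c * pair w' b := by
        unfold pair
        rw [Finset.mul_sum]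
        exact Finset.sum_congr rfl fun j _ => by simp [mul_assoc]
      rw [h2, hc]
      push_cast
      have h3 : (0 : ℤ) ≤ c := Int.natCast_nonneg c
      nlinarith)

theorem main_ind (d M : ℕ)
    (hform : ∀ (K : Type) [Field K] [Algebra ℂ K] [Algebra.EssFiniteType ℂ K] (n d₀ : ℕ) (Q : Type)
      [Fintype Q] (x : Fin d₀ → K) (f : Q → Lau d₀), Data K n d₀ Q x f → d₀ ≤ d →
      (∃ (w : Fin d₀ → ℤ) (M : ℕ), 0 < M ∧
        ∀ b, b ≠ 0 → (M : ℤ) ≤ pair w b - M * ∑ q, mn (f q) b) →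
      ∃ T : TensorForm K (M * n), IsPluricanonical M n T ∧ IsRegular T ∧ T ≠ 0) :
    ∀ (r : ℕ) (K : Type) [Field K] [Algebra ℂ K] [Algebra.EssFiniteType ℂ K] (n d₀ : ℕ) (Q : Type)
      [Fintype Q] (x : Fin d₀ → K) (f : Q → Lau d₀), Data K n d₀ Q x f → d₀ ≤ d → d₀ < r →
      ∀ K' : IntermediateField ℂ K, ¬ Uniruled K' →
      ∃ (K₁ : Type) (_ : Field K₁) (_ : Algebra ℂ K₁) (g : K₁ →ₐ[ℂ] K), K' ≤ g.fieldRange ∧
        ∃ j : ℕ, Algebra.trdeg ℂ K₁ = j ∧ j ≤ n ∧
        ∃ T : TensorForm K₁ (M * j), IsPluricanonical M j T ∧ IsRegular T ∧ T ≠ 0 := by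
  classical
  intro r
  induction r with
  | zero => exact fun K _ _ _ n d₀ Q _ x f D hd hr => absurd hr (Nat.not_lt_zero _)
  | succ r ih =>
    intro K _ _ _ n d₀ Q _ x f D hd hr K' hK'
    rcases weights_or_pk f D.nz with h | h
    · obtain ⟨T, h1, h2, h3⟩ := hform K n d₀ Q x f D hd h
      exact ⟨K, inferInstance, inferInstance, AlgHom.id ℂ K, fun w _ => ⟨w, rfl⟩, n, D.trdeg,
        le_rfl, T, h1, h2, h3⟩
    · obtain ⟨ι, _, b, hg, hspan, hrank⟩ := exists_good D h
      have hne : ∃ i, b i ≠ 0 := by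
        have h1 : 0 < Fintype.card ι := by rw [hg.card]; omega
        obtain ⟨i⟩ := Fintype.card_pos_iff.1 h1
        exact ⟨i, hg.ne i⟩
      have hfg := RP.essFiniteType_sub K'
      have hle : K' ≤ KB x b := by
        intro y hy
        refine irr D hg y (alg_of_const D hg.sum hspan y fun φ hφ => ?_)
        exact const_of_not_uniruled (IsScalarTower.toAlgHom ℂ K (AlgebraicClosure K)) K' hfg hK' φ
          hφ y hy
      obtain ⟨n', d', Q', _, x', f', D', hd'⟩ := data_KB D hg.sum hne hrank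
      have hfgB : Algebra.EssFiniteType ℂ (KB x b) := RP.essFiniteType_sub _
      obtain ⟨K₁, _, _, g, hg1, j, hj, hjn, T, h1, h2, h3⟩ := ih (KB x b) n' d' Q' x' f' D'
        (by omega) (by omega) (IntermediateField.restrict hle)
        (fun h => hK' (RP.uniruled_of_equiv (IntermediateField.restrictAlgEquiv hle).symm h))
      refine ⟨K₁, inferInstance, inferInstance, (KB x b).val.comp g, fun w hw => ?_, j, hj, ?_,
        T, h1, h2, h3⟩
      · obtain ⟨v, hv⟩ := hg1 ((IntermediateField.mem_restrict hle ⟨w, hle hw⟩).2 hw)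
        exact ⟨v, congrArg Subtype.val hv⟩
      · refine hjn.trans ?_
        have h4 := trdeg_le_of_injective (KB x b).val (RingHom.injective _)
        rw [D'.trdeg, D.trdeg] at h4
        exact_mod_cast h4

/-- no forms on `K`, transcendence degree `p`: the toric quotient is uniruled (V+, same `M`) -/
theorem main_toric (d M : ℕ)
    (hform : ∀ (K : Type) [Field K] [Algebra ℂ K] [Algebra.EssFiniteType ℂ K] (n d₀ : ℕ) (Q : Type)
      [Fintype Q] (x : Fin d₀ → K) (f : Q → Lau d₀), Data K n d₀ Q x f → d₀ ≤ d →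
      (∃ (w : Fin d₀ → ℤ) (M : ℕ), 0 < M ∧
        ∀ b, b ≠ 0 → (M : ℤ) ≤ pair w b - M * ∑ q, mn (f q) b) →
      ∃ T : TensorForm K (M * n), IsPluricanonical M n T ∧ IsRegular T ∧ T ≠ 0)
    (K : Type) [Field K] [Algebra ℂ K] [Algebra.EssFiniteType ℂ K] (n : ℕ) (Q : Type)
      [Fintype Q] (x : Fin d → K) (f : Q → Lau d) (D : Data K n d Q x f)
      (p e : ℕ) (χ : Fin e → Fin d → ℤ) (hχ : LinearIndependent ℤ χ)
      (htr : Algebra.trdeg ℂ (subF x χ) = p)
      (hdim : p + Nat.card {q : Q // ∀ a ∈ (f q).support, ∀ b ∈ (f q).support,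
        a - b ∈ Submodule.span ℤ (Set.range χ)} = e)
      (hT : ∀ T : TensorForm K (M * p), IsPluricanonical M p T → IsRegular T → T = 0) :
      Uniruled (subF x χ) := by
  classical
  by_contra hK
  obtain ⟨Q', _, x', f', D'⟩ := data_sub D χ hχ htr hdim
  have hle : e ≤ d := by
    have h1 := hχ.fintype_card_le_finrank
    simpa using h1
  have := subF_essFinite x χ
  obtain ⟨d₁, Q₁, _, x₁, f₁, D₁, hd₁, w, M₀, hM₀, hw⟩ :=
    main_aux p hK (Fintype.card Q' + 1) e Q' x' f' D' (Nat.lt_succ_self _)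
  obtain ⟨T, h1, h2, h3⟩ := hform (subF x χ) p d₁ Q₁ x₁ f₁ D₁ (by omega) ⟨w, M₀, hM₀, hw⟩
  obtain ⟨T', h1', h2', h3'⟩ := exists_pull (K := K) htr T h1 h2 h3
  exact h3' (hT T' h1' h2')

/-- THEOREM W -/
theorem main_W (d : ℕ) : ∃ M : ℕ, 0 < M ∧
    ∀ (K : Type) [Field K] [Algebra ℂ K] [Algebra.EssFiniteType ℂ K] (n : ℕ) (Q : Type)
      [Fintype Q] (x : Fin d → K) (f : Q → Lau d), Nondegenerate f →
      (∀ j, x j ≠ 0) → IntermediateField.adjoin ℂ (Set.range x) = ⊤ → (∀ q, ev (f q) x = 0) →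
      Algebra.trdeg ℂ K = n → n + Fintype.card Q = d →
      (∀ (K' : IntermediateField ℂ K) (p : ℕ), Algebra.trdeg ℂ K' = p →
        (∀ j, p ≤ j → j ≤ n → ∀ T : TensorForm K (M * j),
          IsPluricanonical M j T → IsRegular T → T = 0) →
        Uniruled K') ∧
      ∀ (p e : ℕ) (χ : Fin e → Fin d → ℤ), LinearIndependent ℤ χ →
        Algebra.trdeg ℂ (subF x χ) = p →
        p + Nat.card {q : Q // ∀ a ∈ (f q).support, ∀ b ∈ (f q).support,
          a - b ∈ Submodule.span ℤ (Set.range χ)} = e →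
        (∀ T : TensorForm K (M * p), IsPluricanonical M p T → IsRegular T → T = 0) →
        Uniruled (subF x χ) := by
  obtain ⟨M, hM, hform⟩ := form_of_weights d
  refine ⟨M, hM, ?_⟩
  intro K _ _ _ n Q _ x f hf ne gen eq trdeg dim
  have D : Data K n d Q x f := data_of_nondegenerate hf ne gen eq trdeg dim
  refine ⟨?_, fun p e χ h1 h2 h3 h4 => main_toric d M hform K n Q x f D p e χ h1 h2 h3 h4⟩
  intro K' p hp hT
  by_contra hK'
  obtain ⟨K₁, _, _, g, hg, j, hj, hjn, T, h1, h2, h3⟩ := main_ind d M hform (d + 1) K n d Q x f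
    D le_rfl (Nat.lt_succ_self d) K' hK'
  let _ : Algebra K₁ K := g.toRingHom.toAlgebra
  have : IsScalarTower ℂ K₁ K := IsScalarTower.of_algebraMap_eq fun c => (g.commutes c).symm
  obtain ⟨T', h1', h2', h3'⟩ := exists_pull (K := K) hj T h1 h2 h3
  refine h3' (hT j ?_ hjn T' h1' h2')
  let e : K₁ ≃ₐ[ℂ] g.fieldRange := AlgEquiv.ofInjectiveField g
  let u : K' →ₐ[ℂ] K₁ := e.symm.toAlgHom.comp (IntermediateField.inclusion hg)
  have h5 := trdeg_le_of_injective u (RingHom.injective _)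
  rw [hp, hj] at h5
  exact_mod_cast h5

end Pool.Agent.Work.CW
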