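import Mathlib
import Pool.Agent.Work.MP_4329d7_ag_w.EffE
import Pool.Agent.Work.MP_4329d7_ag_w.MainW

/-!
THEOREM W with an explicit bound: for a nondegenerate complete intersection `X` in the torus of
dimension `d` the exponents `m ≤ 2 (d + 1) ^ ((d + 1) 2 ^ d)` suffice.
-/

namespace Pool.Agent.Work.CW

open Pool.Agent.Work.Uni Pool.Agent.Work.CI Pool.Agent.Work.MP_4329d7_ag.FF
open Algebra

/-- a small exponent for the weights -/
theorem form_eff (d : ℕ) (K : Type) [Field K] [Algebra ℂ K] [Algebra.EssFiniteType ℂ K]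
    (n d₀ : ℕ) (Q : Type) [Fintype Q] (x : Fin d₀ → K) (f : Q → Lau d₀) (D : Data K n d₀ Q x f)
    (hd₀ : d₀ ≤ d)
    (hex : ∃ (w : Fin d₀ → ℤ) (M : ℕ), 0 < M ∧
        ∀ b, b ≠ 0 → (M : ℤ) ≤ pair w b - M * ∑ q, mn (f q) b) :
    ∃ m : ℕ, 0 < m ∧ m ≤ 2 * (d + 1) ^ ((d + 1) * 2 ^ d) ∧
      ∃ T : TensorForm K (m * n), IsPluricanonical m n T ∧ IsRegular T ∧ T ≠ 0 := by
  classical
  obtain ⟨w, M₀, hM₀, hw⟩ := hex
  obtain ⟨M, hM, hMle, w', hw'⟩ := Eff.unif_point_eff d₀ Q f D.nz w M₀ hM₀ hw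
  refine ⟨2 * M, by omega, Nat.mul_le_mul_left _ (hMle.trans ?_), exists_form D w' M hM hw'⟩
  calc (d₀ + 1) ^ ((d₀ + 1) * 2 ^ d₀) ≤ (d + 1) ^ ((d₀ + 1) * 2 ^ d₀) :=
        Nat.pow_le_pow_left (by omega) _
    _ ≤ (d + 1) ^ ((d + 1) * 2 ^ d) := by
        refine Nat.pow_le_pow_right (by omega) (Nat.mul_le_mul (by omega) ?_)
        exact Nat.pow_le_pow_right (by norm_num) hd₀

theorem main_indE (d B : ℕ)
    (hform : ∀ (K : Type) [Field K] [Algebra ℂ K] [Algebra.EssFiniteType ℂ K] (n d₀ : ℕ) (Q : Type)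
      [Fintype Q] (x : Fin d₀ → K) (f : Q → Lau d₀), Data K n d₀ Q x f → d₀ ≤ d →
      (∃ (w : Fin d₀ → ℤ) (M : ℕ), 0 < M ∧
        ∀ b, b ≠ 0 → (M : ℤ) ≤ pair w b - M * ∑ q, mn (f q) b) →
      ∃ m : ℕ, 0 < m ∧ m ≤ B ∧
        ∃ T : TensorForm K (m * n), IsPluricanonical m n T ∧ IsRegular T ∧ T ≠ 0) :
    ∀ (r : ℕ) (K : Type) [Field K] [Algebra ℂ K] [Algebra.EssFiniteType ℂ K] (n d₀ : ℕ) (Q : Type)
      [Fintype Q] (x : Fin d₀ → K) (f : Q → Lau d₀), Data K n d₀ Q x f → d₀ ≤ d → d₀ < r →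
      ∀ K' : IntermediateField ℂ K, ¬ Uniruled K' →
      ∃ (K₁ : Type) (_ : Field K₁) (_ : Algebra ℂ K₁) (g : K₁ →ₐ[ℂ] K), K' ≤ g.fieldRange ∧
        ∃ j : ℕ, Algebra.trdeg ℂ K₁ = j ∧ j ≤ n ∧ ∃ m : ℕ, 0 < m ∧ m ≤ B ∧
        ∃ T : TensorForm K₁ (m * j), IsPluricanonical m j T ∧ IsRegular T ∧ T ≠ 0 := by
  classical
  intro r
  induction r with
  | zero => exact fun K _ _ _ n d₀ Q _ x f D hd hr => absurd hr (Nat.not_lt_zero _)
  | succ r ih =>
    intro K _ _ _ n d₀ Q _ x f D hd hr K' hK'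
    rcases weights_or_pk f D.nz with h | h
    · obtain ⟨m, hm, hmB, T, h1, h2, h3⟩ := hform K n d₀ Q x f D hd h
      exact ⟨K, inferInstance, inferInstance, AlgHom.id ℂ K, fun w _ => ⟨w, rfl⟩, n, D.trdeg,
        le_rfl, m, hm, hmB, T, h1, h2, h3⟩
    · obtain ⟨ι, _, b, hg, hspan, hrank⟩ := exists_good D h
      have hne : ∃ i, b i ≠ 0 := by
        have h1 : 0 < Fintype.card ι := by rw [hg.card]; omega
        obtain ⟨i⟩ := Fintype.card_pos_iff.1 h1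
        exact ⟨i, hg.ne i⟩
      have hfg := RP.essFiniteType_sub K'
      have hle : K' ≤ KB x b := by
        intro y hy
        refine irr D hg y (alg_of_const D hg.sum hspan y fun φ hφ => ?_)
        exact const_of_not_uniruled (IsScalarTower.toAlgHom ℂ K (AlgebraicClosure K)) K' hfg hK' φ
          hφ y hy
      obtain ⟨n', d', Q', _, x', f', D', hd'⟩ := data_KB D hg.sum hne hrank
      have hfgB : Algebra.EssFiniteType ℂ (KB x b) := RP.essFiniteType_sub _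
      obtain ⟨K₁, _, _, g, hg1, j, hj, hjn, m, hm, hmB, T, h1, h2, h3⟩ :=
        ih (KB x b) n' d' Q' x' f' D'
        (by omega) (by omega) (IntermediateField.restrict hle)
        (fun h => hK' (RP.uniruled_of_equiv (IntermediateField.restrictAlgEquiv hle).symm h))
      refine ⟨K₁, inferInstance, inferInstance, (KB x b).val.comp g, fun w hw => ?_, j, hj, ?_,
        m, hm, hmB, T, h1, h2, h3⟩
      · obtain ⟨v, hv⟩ := hg1 ((IntermediateField.mem_restrict hle ⟨w, hle hw⟩).2 hw)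
        exact ⟨v, congrArg Subtype.val hv⟩
      · refine hjn.trans ?_
        have h4 := trdeg_le_of_injective (KB x b).val (RingHom.injective _)
        rw [D'.trdeg, D.trdeg] at h4
        exact_mod_cast h4

theorem main_toricE (d B : ℕ)
    (hform : ∀ (K : Type) [Field K] [Algebra ℂ K] [Algebra.EssFiniteType ℂ K] (n d₀ : ℕ) (Q : Type)
      [Fintype Q] (x : Fin d₀ → K) (f : Q → Lau d₀), Data K n d₀ Q x f → d₀ ≤ d →
      (∃ (w : Fin d₀ → ℤ) (M : ℕ), 0 < M ∧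
        ∀ b, b ≠ 0 → (M : ℤ) ≤ pair w b - M * ∑ q, mn (f q) b) →
      ∃ m : ℕ, 0 < m ∧ m ≤ B ∧
        ∃ T : TensorForm K (m * n), IsPluricanonical m n T ∧ IsRegular T ∧ T ≠ 0)
    (K : Type) [Field K] [Algebra ℂ K] [Algebra.EssFiniteType ℂ K] (n : ℕ) (Q : Type)
      [Fintype Q] (x : Fin d → K) (f : Q → Lau d) (D : Data K n d Q x f)
      (p e : ℕ) (χ : Fin e → Fin d → ℤ) (hχ : LinearIndependent ℤ χ)
      (htr : Algebra.trdeg ℂ (subF x χ) = p)
      (hdim : p + Nat.card {q : Q // ∀ a ∈ (f q).support, ∀ b ∈ (f q).support,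
        a - b ∈ Submodule.span ℤ (Set.range χ)} = e)
      (hT : ∀ m, 0 < m → m ≤ B → ∀ T : TensorForm K (m * p),
        IsPluricanonical m p T → IsRegular T → T = 0) :
      Uniruled (subF x χ) := by
  classical
  by_contra hK
  obtain ⟨Q', _, x', f', D'⟩ := data_sub D χ hχ htr hdim
  have hle : e ≤ d := by
    have h1 := hχ.fintype_card_le_finrank
    simpa using h1
  have := subF_essFinite x χ
  obtain ⟨d₁, Q₁, _, x₁, f₁, D₁, hd₁, w, M₀, hM₀, hw⟩ :=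
    main_aux p hK (Fintype.card Q' + 1) e Q' x' f' D' (Nat.lt_succ_self _)
  obtain ⟨m, hm, hmB, T, h1, h2, h3⟩ :=
    hform (subF x χ) p d₁ Q₁ x₁ f₁ D₁ (by omega) ⟨w, M₀, hM₀, hw⟩
  obtain ⟨T', h1', h2', h3'⟩ := exists_pull (K := K) htr T h1 h2 h3
  exact h3' (hT m hm hmB T' h1' h2')

/-- THEOREM W, explicit -/
theorem main_E (d : ℕ) (K : Type) [Field K] [Algebra ℂ K] [Algebra.EssFiniteType ℂ K] (n : ℕ)
      (Q : Type) [Fintype Q] (x : Fin d → K) (f : Q → Lau d) (hf : Nondegenerate f)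
      (ne : ∀ j, x j ≠ 0) (gen : IntermediateField.adjoin ℂ (Set.range x) = ⊤)
      (eq : ∀ q, ev (f q) x = 0) (trdeg : Algebra.trdeg ℂ K = n) (dim : n + Fintype.card Q = d) :
      (∀ (K' : IntermediateField ℂ K) (p : ℕ), Algebra.trdeg ℂ K' = p →
        (∀ m, 0 < m → m ≤ 2 * (d + 1) ^ ((d + 1) * 2 ^ d) → ∀ j, p ≤ j → j ≤ n →
          ∀ T : TensorForm K (m * j), IsPluricanonical m j T → IsRegular T → T = 0) →
        Uniruled K') ∧
      ∀ (p e : ℕ) (χ : Fin e → Fin d → ℤ), LinearIndependent ℤ χ →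
        Algebra.trdeg ℂ (subF x χ) = p →
        p + Nat.card {q : Q // ∀ a ∈ (f q).support, ∀ b ∈ (f q).support,
          a - b ∈ Submodule.span ℤ (Set.range χ)} = e →
        (∀ m, 0 < m → m ≤ 2 * (d + 1) ^ ((d + 1) * 2 ^ d) → ∀ T : TensorForm K (m * p),
          IsPluricanonical m p T → IsRegular T → T = 0) →
        Uniruled (subF x χ) := by
  have D : Data K n d Q x f := data_of_nondegenerate hf ne gen eq trdeg dim
  refine ⟨?_, fun p e χ h1 h2 h3 h4 =>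
    main_toricE d _ (form_eff d) K n Q x f D p e χ h1 h2 h3 h4⟩
  intro K' p hp hT
  by_contra hK'
  obtain ⟨K₁, _, _, g, hg, j, hj, hjn, m, hm, hmB, T, h1, h2, h3⟩ :=
    main_indE d _ (form_eff d) (d + 1) K n d Q x f D le_rfl (Nat.lt_succ_self d) K' hK'
  let _ : Algebra K₁ K := g.toRingHom.toAlgebra
  have : IsScalarTower ℂ K₁ K := IsScalarTower.of_algebraMap_eq fun c => (g.commutes c).symm
  obtain ⟨T', h1', h2', h3'⟩ := exists_pull (K := K) hj T h1 h2 h3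
  refine h3' (hT m hm hmB j ?_ hjn T' h1' h2')
  let e : K₁ ≃ₐ[ℂ] g.fieldRange := AlgEquiv.ofInjectiveField g
  let u : K' →ₐ[ℂ] K₁ := e.symm.toAlgHom.comp (IntermediateField.inclusion hg)
  have h5 := trdeg_le_of_injective u (RingHom.injective _)
  rw [hp, hj] at h5
  exact_mod_cast h5

end Pool.Agent.Work.CW
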