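import Pool.Agent.Work.MP_4329d7_ag_w.BzOrdB

/-!
# Bezout inequality with local orders depending on the zero

`finrank_le_sum`: the rank of the polynomial ring over `k[Ψ]` is at most the sum over the common
zeros `p` of `Ψ` of the products of the local orders `d p i`.
`bezout_sum`: the Bezout inequality `∏ D i ≤ ∑ p ∈ Z, ∏ i, d p i`.

Proof: choose `ℓ` with different values at the zeros, `B = k[Ψ][ℓ] = k[Ψ][T] / P`. For a root `t` of
multiplicity `μ` of `P` modulo `Ψ`, `μ` times the rank over `B` is at most `∏ i, d p i` if `t` is the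
value of `ℓ` at the zero `p`, and zero otherwise (`local_le`).
-/

set_option autoImplicit false

namespace Pool.Agent.Work.W.Bz

open MvPolynomial Pool.Agent.Uni8

variable {k σ : Type} [Field k]

/-- a polynomial separating finitely many points -/
lemma exists_sep [IsAlgClosed k] (Z : Finset (σ → k)) :
    ∃ ℓ : MvPolynomial σ k, Set.InjOn (fun p => eval p ℓ) (Z : Set (σ → k)) := by
  classical
  have h1 : ∀ p q : σ → k, ∃ b : MvPolynomial σ k, p ≠ q → eval p b = 1 ∧ eval q b = 0 := by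
    intro p q
    by_cases h : p = q
    · exact ⟨0, fun h' => absurd h h'⟩
    · obtain ⟨a, ha, b, hb, hab⟩ := Ideal.isCoprime_iff_exists.1 (PI_coprime h)
      refine ⟨b, fun _ => ⟨?_, eval_of_mem_PI q b hb⟩⟩
      have h2 := congrArg (eval p) hab
      rw [map_add, eval_of_mem_PI p a ha, zero_add, map_one] at h2
      exact h2
  choose b hb using h1
  let δ : (σ → k) → MvPolynomial σ k := fun p => ∏ q ∈ Z.erase p, b p q
  have hδ1 : ∀ p, eval p (δ p) = 1 := by
    intro p
    rw [map_prod]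
    exact Finset.prod_eq_one fun q hq => (hb p q (Finset.ne_of_mem_erase hq).symm).1
  have hδ0 : ∀ p, ∀ q ∈ Z, q ≠ p → eval q (δ p) = 0 := by
    intro p q hq hqp
    rw [map_prod]
    exact Finset.prod_eq_zero (Finset.mem_erase.2 ⟨hqp, hq⟩) (hb p q hqp.symm).2
  have hinf : Infinite k := IsAlgClosed.instInfinite
  let ι : Z → k := fun p => Infinite.natEmbedding k (Z.equivFin p)
  have hι : Function.Injective ι := by
    intro p q h
    have h3 := (Infinite.natEmbedding k).injective h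
    exact Z.equivFin.injective (Fin.ext h3)
  refine ⟨∑ p : Z, C (ι p) * δ p, ?_⟩
  have hev : ∀ q : Z, eval (q : σ → k) (∑ p : Z, C (ι p) * δ p) = ι q := by
    intro q
    rw [map_sum, Finset.sum_eq_single q]
    · rw [map_mul, eval_C, hδ1, mul_one]
    · intro p _ hpq
      rw [map_mul, hδ0 p q q.2 (fun h => hpq (Subtype.ext h.symm)), mul_zero]
    · intro h
      exact absurd (Finset.mem_univ _) h
  intro p hp q hq h
  have h4 : ι ⟨p, hp⟩ = ι ⟨q, hq⟩ := by
    rw [← hev ⟨p, hp⟩, ← hev ⟨q, hq⟩]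
    exact h
  exact congrArg Subtype.val (hι h4)

variable [Fintype σ]

omit [Fintype σ] in
lemma ev_eq_sum (Ψ : σ → MvPolynomial σ k) (ℓ : MvPolynomial σ k)
    (U : Polynomial (MvPolynomial σ k)) {n : ℕ} (hn : U.natDegree < n) :
    ev Ψ ℓ U = ∑ m ∈ Finset.range n, aeval Ψ (U.coeff m) * ℓ ^ m :=
  Polynomial.eval₂_eq_sum_range' _ hn ℓ

open Pool.Agent.Work.Bezout in
/-- the frame over `k[Ψ][ℓ]` -/
theorem exists_frame' (Ψ : σ → MvPolynomial σ k) (ℓ : MvPolynomial σ k)
    [Module.Finite (Algebra.adjoin k (Set.range Ψ)) (MvPolynomial σ k)] :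
    ∃ (r : ℕ) (s : Fin r → MvPolynomial σ k) (η : MvPolynomial σ k), η ≠ 0 ∧
      aeval Ψ η ≠ 0 ∧
      (∀ x, ∃ U : Fin r → Polynomial (MvPolynomial σ k),
        aeval Ψ η * x = ∑ i, ev Ψ ℓ (U i) * s i) ∧
      (∀ U : Fin r → Polynomial (MvPolynomial σ k),
        ∑ i, ev Ψ ℓ (U i) * s i = 0 → ∀ i, ev Ψ ℓ (U i) = 0) := by
  classical
  have hind : AlgebraicIndependent k Ψ := algIndep
  have hinj : Function.Injective (aeval Ψ : MvPolynomial σ k →ₐ[k] MvPolynomial σ k) := hind
  have hA : Algebra.adjoin k (Set.range Ψ) = (aeval Ψ : MvPolynomial σ k →ₐ[k] _).range :=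
    Algebra.adjoin_range_eq_range_aeval k Ψ
  set B : Subalgebra k (MvPolynomial σ k) := (ev Ψ ℓ).range with hB
  have hle : Algebra.adjoin k (Set.range Ψ) ≤ B := by
    rw [hA]
    rintro _ ⟨u, rfl⟩
    exact ⟨Polynomial.C u, ev_C Ψ ℓ u⟩
  have hfin : Module.Finite B (MvPolynomial σ k) := by
    obtain ⟨G, hG⟩ := (Module.Finite.fg_top :
      (⊤ : Submodule (Algebra.adjoin k (Set.range Ψ)) (MvPolynomial σ k)).FG)
    refine ⟨⟨G, ?_⟩⟩
    rw [eq_top_iff]
    intro x _
    have hx : x ∈ Submodule.span (Algebra.adjoin k (Set.range Ψ)) (G : Set (MvPolynomial σ k)) := by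
      rw [hG]; trivial
    induction hx using Submodule.span_induction with
    | mem y hy => exact Submodule.subset_span hy
    | zero => exact Submodule.zero_mem _
    | add y z _ _ hy hz => exact Submodule.add_mem _ (hy trivial) (hz trivial)
    | smul c y _ hy =>
      have h1 : c • y = (⟨(c : MvPolynomial σ k), hle c.2⟩ : B) • y := rfl
      rw [h1]
      exact Submodule.smul_mem _ _ (hy trivial)
  obtain ⟨s, hs, h, h0, hh⟩ := exists_frame B
  have h0' : (h : MvPolynomial σ k) ≠ 0 := fun h1 => h0 (Subtype.ext h1)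
  have halg : IsAlgebraic (Algebra.adjoin k (Set.range Ψ)) (h : MvPolynomial σ k) :=
    (Algebra.IsIntegral.isIntegral (R := Algebra.adjoin k (Set.range Ψ))
      (h : MvPolynomial σ k)).isAlgebraic
  obtain ⟨y, hy0, hy⟩ := halg.exists_nonzero_dvd (mem_nonZeroDivisors_of_ne_zero h0')
  obtain ⟨η, hη⟩ : ∃ η : MvPolynomial σ k, aeval Ψ η = (y : MvPolynomial σ k) := hA.le y.2
  have hη0 : aeval Ψ η ≠ 0 := by
    rw [hη]
    exact fun h1 => hy0 (Subtype.ext h1)
  refine ⟨_, s, η, ?_, hη0, ?_, ?_⟩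
  · rintro rfl
    exact hη0 (map_zero _)
  · intro x
    obtain ⟨z, hz⟩ := hy
    obtain ⟨c, hc⟩ := (Submodule.mem_span_range_iff_exists_fun _).1 (hh (z * x))
    choose U hU using fun i => (c i).2
    refine ⟨U, ?_⟩
    have h1 : aeval Ψ η * x = (h : MvPolynomial σ k) * (z * x) := by
      rw [hη]
      have h2 : (y : MvPolynomial σ k) = h * z := hz
      rw [h2]; ring
    have h3 : (h : MvPolynomial σ k) * (z * x) = h • (z * x) := rfl
    rw [h1, h3, ← hc]
    refine Finset.sum_congr rfl fun i _ => ?_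
    have h4 : c i • s i = (c i : MvPolynomial σ k) * s i := rfl
    rw [h4, ← hU i]
    rfl
  · intro U hU i
    have h1 := Fintype.linearIndependent_iff.1 hs (fun i => ⟨ev Ψ ℓ (U i), ⟨U i, rfl⟩⟩) hU i
    exact congrArg Subtype.val h1

open Pool.Agent.Work.Bezout in
/-- the rank over `k[Ψ]` is at most the rank over `k[Ψ][ℓ]` times the degree of `ℓ` -/
theorem finrank_le_mul (Ψ : σ → MvPolynomial σ k) (ℓ : MvPolynomial σ k)
    [Module.Finite (Algebra.adjoin k (Set.range Ψ)) (MvPolynomial σ k)]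
    {r : ℕ} (s : Fin r → MvPolynomial σ k) (η : MvPolynomial σ k) (hη0 : aeval Ψ η ≠ 0)
    (hη : ∀ x, ∃ U : Fin r → Polynomial (MvPolynomial σ k),
      aeval Ψ η * x = ∑ i, ev Ψ ℓ (U i) * s i)
    {P : Polynomial (MvPolynomial σ k)} (hPm : P.Monic) (hP0 : ev Ψ ℓ P = 0) :
    Module.finrank (Algebra.adjoin k (Set.range Ψ)) (MvPolynomial σ k) ≤ r * P.natDegree := by
  classical
  set S0 := Algebra.adjoin k (Set.range Ψ) with hS0
  obtain ⟨s', hs', -⟩ := exists_frame S0
  have hA : S0 = (aeval Ψ : MvPolynomial σ k →ₐ[k] _).range :=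
    Algebra.adjoin_range_eq_range_aeval k Ψ
  have hmemA : ∀ u, aeval Ψ u ∈ S0 := fun u => by rw [hA]; exact ⟨u, rfl⟩
  set D := P.natDegree with hD
  let W : Finset (MvPolynomial σ k) :=
    ((Finset.univ : Finset (Fin r)) ×ˢ Finset.range D).image fun z => ℓ ^ z.2 * s z.1
  have hWcard : W.card ≤ r * D := by
    refine Finset.card_image_le.trans ?_
    rw [Finset.card_product, Finset.card_univ, Fintype.card_fin, Finset.card_range]
  have hmem : ∀ x, aeval Ψ η * x ∈ Submodule.span S0 (W : Set (MvPolynomial σ k)) := by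
    intro x
    obtain ⟨U, hU⟩ := hη x
    rw [hU]
    refine Submodule.sum_mem _ fun i _ => ?_
    have h1 : ev Ψ ℓ (U i) = ev Ψ ℓ (U i %ₘ P) := by
      conv_lhs => rw [← Polynomial.modByMonic_add_div (U i) P]
      rw [map_add, map_mul, hP0, zero_mul, add_zero]
    rw [h1]
    by_cases hD0 : D = 0
    · have hP1 : P = 1 := hPm.natDegree_eq_zero.1 hD0
      rw [hP1, map_one] at hP0
      exact absurd hP0 one_ne_zero
    · have hlt : (U i %ₘ P).natDegree < D := by
        have h2 : P ≠ 1 := fun h => hD0 (by rw [hD, h, Polynomial.natDegree_one])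
        exact Polynomial.natDegree_modByMonic_lt _ hPm h2
      rw [ev_eq_sum Ψ ℓ _ hlt, Finset.sum_mul]
      refine Submodule.sum_mem _ fun m hm => ?_
      have h3 : aeval Ψ ((U i %ₘ P).coeff m) * ℓ ^ m * s i =
          (⟨aeval Ψ ((U i %ₘ P).coeff m), hmemA _⟩ : S0) • (ℓ ^ m * s i) := by
        rw [mul_assoc]; rfl
      rw [h3]
      refine Submodule.smul_mem _ _ (Submodule.subset_span ?_)
      rw [Finset.mem_coe, Finset.mem_image]
      exact ⟨(i, m), Finset.mem_product.2 ⟨Finset.mem_univ _, hm⟩, rfl⟩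
  have hli : LinearIndependent S0 fun i => aeval Ψ η * s' i := by
    rw [Fintype.linearIndependent_iff]
    intro g hg
    have h1 : (aeval Ψ η : MvPolynomial σ k) * ∑ i, g i • s' i = 0 := by
      rw [Finset.mul_sum, ← hg]
      refine Finset.sum_congr rfl fun i _ => ?_
      rw [mul_smul_comm]
    exact Fintype.linearIndependent_iff.1 hs' g ((mul_eq_zero.1 h1).resolve_left hη0)
  have h2 := linearIndependent_le_span' _ hli (W : Set (MvPolynomial σ k)) (by
    rintro _ ⟨i, rfl⟩
    exact hmem _)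
  rw [Cardinal.mk_fin] at h2
  have h3 : Module.finrank S0 (MvPolynomial σ k) ≤ Fintype.card ↥(W : Set (MvPolynomial σ k)) := by
    exact_mod_cast h2
  refine h3.trans ?_
  have h4 : Fintype.card ↥(W : Set (MvPolynomial σ k)) = W.card := by simp
  rw [h4]
  exact hWcard

end Pool.Agent.Work.W.Bz

namespace Pool.Agent.Work.W

open MvPolynomial Pool.Agent.Uni8 Bz

variable {k σ : Type} [Field k] [Fintype σ]

/-- **the rank is at most the sum of the local multiplicities** -/
theorem finrank_le_sum [IsAlgClosed k] (Ψ : σ → MvPolynomial σ k) (Z : Finset (σ → k))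
    (d : (σ → k) → σ → ℕ) (hd1 : ∀ p ∈ Z, ∀ i, 1 ≤ d p i)
    (hZ : ∀ x, (∀ i, eval x (Ψ i) = 0) → x ∈ Z)
    (hlow : ∀ p ∈ Z, ∀ i, ∀ j < d p i, homogeneousComponent j (tr p (Ψ i)) = 0)
    (hloc : ∀ p ∈ Z, ∀ x : σ → k,
      (∀ i, eval x (homogeneousComponent (d p i) (tr p (Ψ i))) = 0) → x = 0)
    [Module.Finite (Algebra.adjoin k (Set.range Ψ)) (MvPolynomial σ k)] :
    Module.finrank (Algebra.adjoin k (Set.range Ψ)) (MvPolynomial σ k) ≤
      ∑ p ∈ Z, ∏ i, d p i := by
  classical
  obtain ⟨ℓ, hℓ⟩ := exists_sep Z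
  obtain ⟨P, hPm, hP0, hP⟩ := exists_minpoly Ψ ℓ
  obtain ⟨r, s, η, hη0, hη0', hη, hind⟩ := exists_frame' Ψ ℓ
  refine (finrank_le_mul Ψ ℓ s η hη0' hη hPm hP0).trans ?_
  set P0 := P.map constantCoeff with hP0def
  have hdeg : P.natDegree = ∑ t ∈ P0.roots.toFinset, P0.rootMultiplicity t := by
    have h1 : P0.natDegree = P.natDegree := hPm.natDegree_map _
    have h2 : P0.roots.card = P0.natDegree :=
      Polynomial.splits_iff_card_roots.1 (IsAlgClosed.splits P0)
    rw [← h1, ← h2, ← Multiset.toFinset_sum_count_eq]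
    exact Finset.sum_congr rfl fun t _ => Polynomial.count_roots _
  rw [hdeg, Finset.mul_sum]
  have hone : ∀ t, r * P0.rootMultiplicity t ≤
      ∑ p ∈ Z with eval p ℓ = t, ∏ i, d p i := by
    intro t
    rcases (Z.filter (fun p => eval p ℓ = t)).eq_empty_or_nonempty with he | ⟨p, hp⟩
    · have hno : ∀ p ∈ Z, eval p ℓ = t → False := by
        intro p hp hpt
        have : p ∈ Z.filter (fun p => eval p ℓ = t) := Finset.mem_filter.2 ⟨hp, hpt⟩
        rw [he] at this
        exact absurd this (Finset.notMem_empty p)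
      have h1 := local_le Ψ (fun _ => 1) (fun _ => le_rfl) Z hZ ℓ t
        (fun p hp hpt => (hno p hp hpt).elim) (fun p hp hpt => (hno p hp hpt).elim)
        s η hη0 hη hind hPm hP
      refine h1.trans ?_
      have h3 : ∀ (inst : DecidablePred fun p : σ → k => eval p ℓ = t),
          (@Finset.filter _ (fun p => eval p ℓ = t) inst Z).card = 0 := by
        intro inst
        rw [Finset.card_eq_zero, Finset.filter_eq_empty_iff]
        exact fun p hp hpt => hno p hp hpt
      rw [h3]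
      simp
    · have hp1 := (Finset.mem_filter.1 hp).1
      have hp2 := (Finset.mem_filter.1 hp).2
      have huniq : ∀ q ∈ Z, eval q ℓ = t → q = p := by
        intro q hq hqt
        exact hℓ hq hp1 (hqt.trans hp2.symm)
      have h1 := local_le Ψ (d p) (hd1 p hp1) Z hZ ℓ t
        (fun q hq hqt => by rw [huniq q hq hqt]; exact hlow p hp1)
        (fun q hq hqt => by rw [huniq q hq hqt]; exact hloc p hp1)
        s η hη0 hη hind hPm hP
      refine h1.trans ?_
      have h3 : ∀ (inst : DecidablePred fun p : σ → k => eval p ℓ = t),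
          (@Finset.filter _ (fun p => eval p ℓ = t) inst Z).card ≤ 1 := by
        intro inst
        rw [Finset.card_le_one]
        intro a ha b hb
        rw [huniq a (Finset.mem_filter.1 ha).1 (Finset.mem_filter.1 ha).2,
          huniq b (Finset.mem_filter.1 hb).1 (Finset.mem_filter.1 hb).2]
      calc _ ≤ 1 * ∏ i, d p i := Nat.mul_le_mul_right _ (h3 _)
        _ = ∏ i, d p i := one_mul _
        _ ≤ _ := Finset.single_le_sum (f := fun p => ∏ i, d p i) (fun _ _ => Nat.zero_le _) hp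
  refine (Finset.sum_le_sum fun t _ => hone t).trans ?_
  refine (Finset.sum_fiberwise_eq_sum_filter Z P0.roots.toFinset (fun p => eval p ℓ)
    (fun p => ∏ i, d p i)).le.trans ?_
  exact Finset.sum_le_sum_of_subset (Finset.filter_subset _ _)

/-- **Bezout inequality with local orders depending on the zero** (see `Uni.bezout_ineq`) -/
theorem bezout_sum [IsAlgClosed k] [DecidableEq σ]
    (Φ Ψ : σ → MvPolynomial σ k) (D : σ → ℕ) (d : (σ → k) → σ → ℕ)
    (Z : Finset (σ → k)) (hd1 : ∀ p ∈ Z, ∀ i, 1 ≤ d p i) (hD1 : ∀ i, 1 ≤ D i)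
    (hgen : Algebra.adjoin k (Set.range Φ) = Algebra.adjoin k (Set.range Ψ))
    (hD : ∀ i, (Φ i).totalDegree ≤ D i)
    (htop : ∀ x : σ → k, (∀ i, eval x (homogeneousComponent (D i) (Φ i)) = 0) → x = 0)
    (hZ : ∀ x : σ → k, (∀ i, eval x (Ψ i) = 0) → x ∈ Z)
    (hlow : ∀ p ∈ Z, ∀ i, ∀ e < d p i, homogeneousComponent e (Uni.shift p (Ψ i)) = 0)
    (hloc : ∀ p ∈ Z, ∀ x : σ → k,
      (∀ i, eval x (homogeneousComponent (d p i) (Uni.shift p (Ψ i))) = 0) → x = 0) :
    ∏ i, D i ≤ ∑ p ∈ Z, ∏ i, d p i := by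
  have h1 := Pool.Agent.Work.Bezout.finite_alg hD1 hD htop
  have h2 := Pool.Agent.Work.Bezout.prod_le_finrank hD1 hD htop
  rw [hgen] at h1 h2
  exact h2.trans (finrank_le_sum Ψ Z d hd1 hZ hlow hloc)

end Pool.Agent.Work.W
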