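import Pool.Agent.Work.MP_4329d7_ag_uni.Bezout

/-!
# Bezout inequality with local orders depending on the zero, part A: division by a monic polynomial
-/

set_option autoImplicit false

namespace Pool.Agent.Work.W.Bz

open MvPolynomial Function Pool.Agent.Uni8

section alg

variable {k σ : Type} [Field k] [Fintype σ]

/-- all exponents have weight at least `E` -/
def Ge (w : σ → ℕ) (E : ℕ) (u : MvPolynomial σ k) : Prop := ∀ a, coeff a u ≠ 0 → E ≤ wt w a

/-- the ideal of the polynomials all of whose exponents have weight at least `E` -/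
def GI (w : σ → ℕ) (E : ℕ) : Ideal (MvPolynomial σ k) where
  carrier := {u | Ge w E u}
  add_mem' := by
    intro u v hu hv a ha
    by_cases h : coeff a u = 0
    · refine hv a ?_
      rw [coeff_add, h, zero_add] at ha
      exact ha
    · exact hu a h
  zero_mem' := fun a ha => absurd (coeff_zero a) ha
  smul_mem' := by
    classical
    intro f u hu a ha
    rw [smul_eq_mul, coeff_mul] at ha
    obtain ⟨⟨b, c⟩, hbc, hne⟩ := Finset.exists_ne_zero_of_sum_ne_zero ha
    rw [Finset.HasAntidiagonal.mem_antidiagonal] at hbc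
    have h1 : coeff c u ≠ 0 := right_ne_zero_of_mul hne
    have h2 := hu c h1
    have h3 : a = b + c := hbc.symm
    rw [h3, wt_add]
    omega

lemma mem_GI {w : σ → ℕ} {E : ℕ} {u : MvPolynomial σ k} : u ∈ GI w E ↔ Ge w E u := Iff.rfl

/-- the coefficient of `y ^ a` -/
noncomputable def lam (a : σ →₀ ℕ) (V : Polynomial (MvPolynomial σ k)) : Polynomial k :=
  ∑ i ∈ V.support, Polynomial.monomial i (coeff a (V.coeff i))

omit [Fintype σ] in
lemma coeff_lam (a : σ →₀ ℕ) (V : Polynomial (MvPolynomial σ k)) (i : ℕ) :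
    (lam a V).coeff i = coeff a (V.coeff i) := by
  classical
  rw [lam, Polynomial.finsetSum_coeff]
  simp_rw [Polynomial.coeff_monomial]
  rw [Finset.sum_ite_eq' V.support i]
  split_ifs with h
  · rfl
  · rw [Polynomial.notMem_support_iff.1 h, coeff_zero]

omit [Fintype σ] in
lemma lam_map_mul (a : σ →₀ ℕ) (e : Polynomial k) (W : Polynomial (MvPolynomial σ k)) :
    lam a (e.map C * W) = e * lam a W := by
  ext i
  rw [coeff_lam, Polynomial.coeff_mul, Polynomial.coeff_mul, coeff_sum]
  refine Finset.sum_congr rfl fun x _ => ?_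
  rw [Polynomial.coeff_map, coeff_C_mul, coeff_lam]

lemma lam_mul {w : σ → ℕ} (hw : ∀ i, 1 ≤ w i) {m : ℕ} {a : σ →₀ ℕ} (ha : wt w a = m)
    (P V : Polynomial (MvPolynomial σ k)) (hV : ∀ n, Ge w m (V.coeff n)) :
    lam a (P * V) = P.map constantCoeff * lam a V := by
  classical
  ext i
  rw [coeff_lam, Polynomial.coeff_mul, Polynomial.coeff_mul, coeff_sum]
  refine Finset.sum_congr rfl fun x _ => ?_
  rw [Polynomial.coeff_map, coeff_lam, coeff_mul, Finset.sum_eq_single (0, a)]
  · rfl
  · rintro ⟨b, c⟩ hbc hne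
    rw [Finset.HasAntidiagonal.mem_antidiagonal] at hbc
    simp only at hbc ⊢
    by_contra h
    have h1 : coeff c (V.coeff x.2) ≠ 0 := right_ne_zero_of_mul h
    have h2 := hV _ c h1
    have h3 : wt w b = 0 := by
      have : wt w a = wt w b + wt w c := by rw [← hbc, wt_add]
      omega
    have h4 : b = 0 := by
      ext j
      have h5 : w j * b j = 0 := by
        rw [wt, Finset.sum_eq_zero_iff] at h3
        exact h3 j (Finset.mem_univ j)
      have h6 := hw j
      rcases Nat.mul_eq_zero.1 h5 with h7 | h7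
      · omega
      · exact h7
    apply hne
    rw [h4, zero_add] at hbc
    rw [h4, hbc]
  · intro h
    exact absurd (Finset.HasAntidiagonal.mem_antidiagonal.2 (zero_add a)) h

lemma lam_eq_zero {w : σ → ℕ} {E m : ℕ} (hm : m < E) {a : σ →₀ ℕ} (ha : wt w a = m)
    (U : Polynomial (MvPolynomial σ k)) (hU : ∀ n, Ge w E (U.coeff n)) : lam a U = 0 := by
  ext i
  rw [coeff_lam, Polynomial.coeff_zero]
  by_contra h
  have := hU i a h
  omega

omit [Fintype σ] in
lemma lam_sub (a : σ →₀ ℕ) (U V : Polynomial (MvPolynomial σ k)) :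
    lam a (U - V) = lam a U - lam a V := by
  ext i
  rw [coeff_lam, Polynomial.coeff_sub, coeff_sub, Polynomial.coeff_sub, coeff_lam, coeff_lam]

omit [Fintype σ] in
lemma degree_lam_le (a : σ →₀ ℕ) (V : Polynomial (MvPolynomial σ k)) :
    (lam a V).degree ≤ V.degree := by
  refine Polynomial.degree_le_iff_coeff_zero _ _ |>.2 fun n hn => ?_
  rw [coeff_lam, Polynomial.coeff_eq_zero_of_degree_lt hn, coeff_zero]

/-- division by a monic polynomial respects the weights at one root -/
theorem key_div {w : σ → ℕ} (hw : ∀ i, 1 ≤ w i) {t : k} {μ : ℕ}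
    {P : Polynomial (MvPolynomial σ k)} (hP : P.Monic)
    (hP0 : (Polynomial.X - Polynomial.C t) ^ μ ∣ P.map constantCoeff)
    {e : Polynomial k} (he : e.eval t ≠ 0) {E : ℕ} {W U : Polynomial (MvPolynomial σ k)}
    (hWd : W.degree < μ) (hU : ∀ n, Ge w E (U.coeff n)) (h : P ∣ e.map C * W - U) :
    ∀ n, Ge w E (W.coeff n) := by
  obtain ⟨V, hV⟩ := h
  have key : ∀ m, m ≤ E → ∀ n, Ge w m (W.coeff n) := by
    intro m
    induction m with
    | zero => exact fun _ n a _ => Nat.zero_le _
    | succ m ih =>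
      intro hm n a ha
      have ih' := ih (by omega)
      have h0 := ih' n a ha
      by_contra hlt
      have ham : wt w a = m := by omega
      -- the quotient has all weights at least `m`
      have hVm : ∀ n, Ge w m (V.coeff n) := by
        have h1 : (P * V).map (Ideal.Quotient.mk (GI w m)) = 0 := by
          ext i
          rw [Polynomial.coeff_map, Polynomial.coeff_zero, Ideal.Quotient.eq_zero_iff_mem, ← hV,
            Polynomial.coeff_sub, Polynomial.coeff_mul]
          refine Ideal.sub_mem _ (Ideal.sum_mem _ fun x _ => Ideal.mul_mem_left _ _ (ih' x.2)) ?_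
          intro b hb
          have := hU i b hb
          omega
        rw [Polynomial.map_mul, (hP.map _).mul_right_eq_zero_iff] at h1
        intro n
        have h2 := congrArg (fun F => Polynomial.coeff F n) h1
        simp only [Polynomial.coeff_map, Polynomial.coeff_zero] at h2
        exact Ideal.Quotient.eq_zero_iff_mem.1 h2
      have h1 : e * lam a W = P.map constantCoeff * lam a V := by
        rw [← lam_mul hw ham P V hVm, ← hV, lam_sub, lam_map_mul,
          lam_eq_zero (by omega) ham U hU, sub_zero]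
      have h2 : (Polynomial.X - Polynomial.C t) ^ μ ∣ e * lam a W := by
        rw [h1]
        exact Dvd.dvd.mul_right hP0 _
      have hcop : IsCoprime ((Polynomial.X - Polynomial.C t) ^ μ) e := by
        apply IsCoprime.pow_left
        rw [Polynomial.irreducible_X_sub_C t |>.coprime_iff_not_dvd, Polynomial.dvd_iff_isRoot]
        exact he
      have h3 : (Polynomial.X - Polynomial.C t) ^ μ ∣ lam a W := hcop.dvd_of_dvd_mul_left h2
      have h4 : lam a W = 0 := by
        by_contra hne
        have h5 := Polynomial.degree_le_of_dvd h3 hne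
        rw [Polynomial.degree_pow, Polynomial.degree_X_sub_C] at h5
        have h6 := (degree_lam_le a W).trans_lt hWd
        have h7 := h5.trans_lt h6
        simp at h7
      apply ha
      rw [← coeff_lam, h4, Polynomial.coeff_zero]
  exact key E le_rfl

end alg

section frame

variable {k σ : Type} [Field k]

/-- the value of a polynomial over `Ψ` at `ℓ` -/
noncomputable def ev (Ψ : σ → MvPolynomial σ k) (ℓ : MvPolynomial σ k) :
    Polynomial (MvPolynomial σ k) →ₐ[k] MvPolynomial σ k :=
  { Polynomial.eval₂RingHom (aeval Ψ : MvPolynomial σ k →ₐ[k] MvPolynomial σ k).toRingHom ℓ with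
    commutes' := fun r => by
      show Polynomial.eval₂ _ ℓ (algebraMap k (Polynomial (MvPolynomial σ k)) r) = _
      rw [Polynomial.algebraMap_apply, Polynomial.eval₂_C]
      exact (aeval Ψ : MvPolynomial σ k →ₐ[k] MvPolynomial σ k).commutes r }

lemma ev_eq (Ψ : σ → MvPolynomial σ k) (ℓ : MvPolynomial σ k)
    (U : Polynomial (MvPolynomial σ k)) :
    ev Ψ ℓ U = U.eval₂ (aeval Ψ : MvPolynomial σ k →ₐ[k] MvPolynomial σ k).toRingHom ℓ := rfl

lemma ev_C (Ψ : σ → MvPolynomial σ k) (ℓ u : MvPolynomial σ k) :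
    ev Ψ ℓ (Polynomial.C u) = aeval Ψ u := by
  rw [ev_eq, Polynomial.eval₂_C]
  rfl

lemma ev_X (Ψ : σ → MvPolynomial σ k) (ℓ : MvPolynomial σ k) :
    ev Ψ ℓ Polynomial.X = ℓ := by
  rw [ev_eq, Polynomial.eval₂_X]

variable [Fintype σ]

open Pool.Agent.Work.Bezout in
/-- the minimal polynomial -/
theorem exists_minpoly (Ψ : σ → MvPolynomial σ k) (ℓ : MvPolynomial σ k)
    [Module.Finite (Algebra.adjoin k (Set.range Ψ)) (MvPolynomial σ k)] :
    ∃ P : Polynomial (MvPolynomial σ k), P.Monic ∧ ev Ψ ℓ P = 0 ∧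
      ∀ U, ev Ψ ℓ U = 0 → P ∣ U := by
  classical
  have hind : AlgebraicIndependent k Ψ := algIndep
  let φ : MvPolynomial σ k ≃ₐ[k] Algebra.adjoin k (Set.range Ψ) := hind.aevalEquiv
  have hφ : ∀ u, ((φ u : Algebra.adjoin k (Set.range Ψ)) : MvPolynomial σ k) = aeval Ψ u :=
    fun u => hind.algebraMap_aevalEquiv u
  have hic : IsIntegrallyClosed (Algebra.adjoin k (Set.range Ψ)) :=
    IsIntegrallyClosed.of_equiv φ.toRingEquiv
  have hint : IsIntegral (Algebra.adjoin k (Set.range Ψ)) ℓ :=
    Algebra.IsIntegral.isIntegral (R := Algebra.adjoin k (Set.range Ψ)) ℓ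
  have hev : ∀ U : Polynomial (MvPolynomial σ k),
      ev Ψ ℓ U = Polynomial.aeval ℓ (U.map φ.toRingEquiv.toRingHom) := by
    intro U
    rw [ev_eq, Polynomial.aeval_def, Polynomial.eval₂_map]
    rfl
  refine ⟨(minpoly (Algebra.adjoin k (Set.range Ψ)) ℓ).map φ.symm.toRingEquiv.toRingHom,
    (minpoly.monic hint).map _, ?_, ?_⟩
  · rw [hev, Polynomial.map_map]
    have h1 : φ.toRingEquiv.toRingHom.comp φ.symm.toRingEquiv.toRingHom =
        RingHom.id (Algebra.adjoin k (Set.range Ψ)) := by
      ext x
      simp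
    rw [h1, Polynomial.map_id]
    exact minpoly.aeval _ _
  · intro U hU
    rw [hev] at hU
    have h1 := minpoly.isIntegrallyClosed_dvd hint hU
    have h2 := Polynomial.map_dvd φ.symm.toRingEquiv.toRingHom h1
    rw [Polynomial.map_map] at h2
    have h3 : φ.symm.toRingEquiv.toRingHom.comp φ.toRingEquiv.toRingHom =
        RingHom.id (MvPolynomial σ k) := by
      ext x <;> simp
    rwa [h3, Polynomial.map_id] at h2

end frame

end Pool.Agent.Work.W.Bz
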