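import Pool.Agent.Work.MP_4329d7_ag_w.BzOrdA

/-!
# Bezout inequality with local orders depending on the zero, part B: the local ranks
-/

set_option autoImplicit false

namespace Pool.Agent.Work.W.Bz

open MvPolynomial Pool.Agent.Uni8

variable {k σ : Type} [Field k] [Fintype σ]

omit [Fintype σ] in
lemma ev_map_prod (Ψ : σ → MvPolynomial σ k) (ℓ : MvPolynomial σ k) {α : Type*} (s : Finset α)
    (g : α → k) (M : ℕ) :
    ev Ψ ℓ (((∏ q ∈ s, (Polynomial.X - Polynomial.C (g q))) ^ M).map C) =
      (∏ q ∈ s, (ℓ - C (g q))) ^ M := by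
  rw [Polynomial.map_pow, Polynomial.map_prod, map_pow, map_prod]
  congr 1
  refine Finset.prod_congr rfl fun q _ => ?_
  rw [Polynomial.map_sub, Polynomial.map_X, Polynomial.map_C, map_sub, ev_X, ev_C, aeval_C]
  rfl

/-- membership from the orders at the zeros with `ℓ = t`, after multiplication by a polynomial
in `ℓ` -/
lemma mem_WI' [IsAlgClosed k] (Ψ : σ → MvPolynomial σ k) (w : σ → ℕ) (hw : ∀ i, 1 ≤ w i)
    (Z : Finset (σ → k)) (hZ : ∀ x, (∀ i, eval x (Ψ i) = 0) → x ∈ Z) (ℓ : MvPolynomial σ k)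
    (t : k)
    (hlow : ∀ p ∈ Z, eval p ℓ = t → ∀ i, ∀ j < w i, homogeneousComponent j (tr p (Ψ i)) = 0)
    (c : ℕ)
    (hc0 : ∀ p ∈ Z, eval p ℓ = t → idealOfVars σ k ^ c ≤
      Ideal.span (Set.range fun i => homogeneousComponent (w i) (tr p (Ψ i))))
    (hcD : ∀ i, w i ≤ c) (E : ℕ) :
    ∃ e : Polynomial k, e.eval t ≠ 0 ∧ ∀ f : MvPolynomial σ k,
      (∀ p ∈ Z, eval p ℓ = t → tr p f ∈ idealOfVars σ k ^ (E + c)) →
      ev Ψ ℓ (e.map C) * f ∈ WI Ψ w E := by
  classical
  have hcop : (Z : Set (σ → k)).Pairwise (Function.onFun IsCoprime PI) := fun p _ q _ h => PI_coprime h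
  have h1 : ∏ p ∈ Z, PI p ≤ (WI Ψ w E).radical := by
    rw [← vanishingIdeal_zeroLocus_eq_radical (K := k)]
    intro g hg
    rw [mem_vanishingIdeal_iff]
    intro x hx
    rw [mem_zeroLocus_iff] at hx
    simp only [aeval_eq_eval] at hx ⊢
    have h2 : x ∈ Z := hZ x fun i => zeroLocus_WI Ψ w hw E x hx i
    rw [Ideal.prod_eq_iInf_of_pairwise_isCoprime hcop] at hg
    simp only [Ideal.mem_iInf] at hg
    exact eval_of_mem_PI x g (hg x h2)
  obtain ⟨M, hM⟩ := Ideal.exists_pow_le_of_le_radical_of_fg h1 (IsNoetherian.noetherian _)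
  refine ⟨(∏ q ∈ Z.filter (fun q => eval q ℓ ≠ t), (Polynomial.X - Polynomial.C (eval q ℓ))) ^ M,
    ?_, fun f hf => ?_⟩
  · rw [Polynomial.eval_pow, Polynomial.eval_prod]
    refine pow_ne_zero _ (Finset.prod_ne_zero_iff.2 fun q hq => ?_)
    rw [Polynomial.eval_sub, Polynomial.eval_X, Polynomial.eval_C]
    exact sub_ne_zero.2 (Finset.mem_filter.1 hq).2.symm
  · apply crt_le (WI Ψ w E) Z PI M hcop hM
    simp only [Ideal.mem_iInf]
    intro q hq
    rw [ev_map_prod]
    by_cases hqt : eval q ℓ = t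
    · refine Ideal.mul_mem_left _ _ ?_
      exact mem_sup_PI q Ψ w hw (hlow q hq hqt) c c (hc0 q hq hqt) le_rfl hcD E M f (hf q hq hqt)
    · refine Ideal.mem_sup_right (Ideal.mul_mem_right _ _ ?_)
      have h2 : ℓ - C (eval q ℓ) ∈ PI q := by
        apply mem_PI_of_eval
        rw [map_sub, eval_C, sub_self]
      have h3 : (∏ q ∈ Z.filter (fun q => eval q ℓ ≠ t), (ℓ - C (eval q ℓ))) ∈ PI q := by
        rw [← Finset.mul_prod_erase _ _ (Finset.mem_filter.2 ⟨hq, hqt⟩)]
        exact Ideal.mul_mem_right _ _ h2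
      exact Ideal.pow_mem_pow h3 M

/-- coordinates of elements of high weight -/
lemma coords_WI (Ψ : σ → MvPolynomial σ k) (ℓ : MvPolynomial σ k) (w : σ → ℕ) (E : ℕ) {r : ℕ}
    (s : Fin r → MvPolynomial σ k) (η : MvPolynomial σ k)
    (hη : ∀ x, ∃ U : Fin r → Polynomial (MvPolynomial σ k),
      aeval Ψ η * x = ∑ i, ev Ψ ℓ (U i) * s i)
    (f : MvPolynomial σ k) (hf : f ∈ WI Ψ w E) :
    ∃ U : Fin r → Polynomial (MvPolynomial σ k), (∀ i n, Ge w E ((U i).coeff n)) ∧
      aeval Ψ η * f = ∑ i, ev Ψ ℓ (U i) * s i := by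
  classical
  have key : ∀ g, ∃ U : Fin r → Polynomial (MvPolynomial σ k),
      (∀ i n, (U i).coeff n ∈ GI w E) ∧
      aeval Ψ η * (g * f) = ∑ i, ev Ψ ℓ (U i) * s i := by
    unfold WI at hf
    induction hf using Submodule.span_induction with
    | mem x hx =>
      obtain ⟨a, ha, rfl⟩ := hx
      intro g
      obtain ⟨U, hU⟩ := hη g
      refine ⟨fun i => Polynomial.C (monomial a 1) * U i, ?_, ?_⟩
      · intro i n
        rw [Polynomial.coeff_C_mul]
        refine Ideal.mul_mem_right _ _ ?_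
        intro b hb
        rw [coeff_monomial] at hb
        split_ifs at hb with h
        · rw [← h]; exact ha
        · exact absurd rfl hb
      · have h1 : aeval Ψ η * (g * pw Ψ a) = pw Ψ a * (aeval Ψ η * g) := by ring
        rw [h1, hU, Finset.mul_sum]
        refine Finset.sum_congr rfl fun i _ => ?_
        rw [map_mul, ev_C, aeval_monomial_pw, one_smul, mul_assoc]
    | zero =>
      intro g
      exact ⟨fun _ => 0, fun i n => by rw [Polynomial.coeff_zero]; exact Ideal.zero_mem _,
        by simp⟩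
    | add x y _ _ hx hy =>
      intro g
      obtain ⟨U, hU1, hU2⟩ := hx g
      obtain ⟨U', hU1', hU2'⟩ := hy g
      refine ⟨fun i => U i + U' i, ?_, ?_⟩
      · intro i n
        rw [Polynomial.coeff_add]
        exact Ideal.add_mem _ (hU1 i n) (hU1' i n)
      · rw [mul_add, mul_add, hU2, hU2', ← Finset.sum_add_distrib]
        refine Finset.sum_congr rfl fun i _ => ?_
        rw [map_add, add_mul]
    | smul c x _ hx =>
      intro g
      obtain ⟨U, hU1, hU2⟩ := hx (g * c)
      refine ⟨U, hU1, ?_⟩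
      rw [← hU2, smul_eq_mul]
      ring
  obtain ⟨U, hU1, hU2⟩ := key 1
  exact ⟨U, hU1, by rw [← hU2, one_mul]⟩

lemma degree_C_mul_le' {R : Type*} [CommRing R] (a : R) (p : Polynomial R) :
    (Polynomial.C a * p).degree ≤ p.degree := by
  rw [← Polynomial.smul_eq_C_mul]
  exact Polynomial.degree_smul_le _ _

lemma pow_sub_indep {μ : ℕ} (t : k) (v : Fin μ → k)
    (h : ∑ m, Polynomial.C (v m) * (Polynomial.X - Polynomial.C t) ^ (m : ℕ) = 0) :
    ∀ m, v m = 0 := by
  intro m
  have h1 := congrArg (fun F => Polynomial.comp F (Polynomial.X + Polynomial.C t)) h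
  simp only [Polynomial.sum_comp, Polynomial.mul_comp, Polynomial.C_comp,
    Polynomial.pow_comp, Polynomial.sub_comp, Polynomial.X_comp, add_sub_cancel_right,
    Polynomial.zero_comp] at h1
  have h2 := congrArg (fun F => Polynomial.coeff F (m : ℕ)) h1
  simp only [Polynomial.finsetSum_coeff, Polynomial.coeff_C_mul_X_pow,
    Polynomial.coeff_zero] at h2
  rw [Finset.sum_eq_single m] at h2
  · simpa using h2
  · intro b _ hb
    rw [if_neg]
    intro h3
    exact hb (Fin.ext h3.symm)
  · intro h3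
    exact absurd (Finset.mem_univ _) h3

open Pool.Agent.Work.Bezout Classical in
/-- the local rank at the value `t` of `ℓ` -/
theorem local_le [IsAlgClosed k] (Ψ : σ → MvPolynomial σ k) (w : σ → ℕ) (hw : ∀ i, 1 ≤ w i)
    (Z : Finset (σ → k)) (hZ : ∀ x, (∀ i, eval x (Ψ i) = 0) → x ∈ Z) (ℓ : MvPolynomial σ k)
    (t : k)
    (hlow : ∀ p ∈ Z, eval p ℓ = t → ∀ i, ∀ j < w i, homogeneousComponent j (tr p (Ψ i)) = 0)
    (hloc : ∀ p ∈ Z, eval p ℓ = t → ∀ x : σ → k,
      (∀ i, eval x (homogeneousComponent (w i) (tr p (Ψ i))) = 0) → x = 0)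
    {r : ℕ} (s : Fin r → MvPolynomial σ k) (η : MvPolynomial σ k) (hη0 : η ≠ 0)
    (hη : ∀ x, ∃ U : Fin r → Polynomial (MvPolynomial σ k),
      aeval Ψ η * x = ∑ i, ev Ψ ℓ (U i) * s i)
    (hind : ∀ U : Fin r → Polynomial (MvPolynomial σ k),
      ∑ i, ev Ψ ℓ (U i) * s i = 0 → ∀ i, ev Ψ ℓ (U i) = 0)
    {P : Polynomial (MvPolynomial σ k)} (hPm : P.Monic) (hP : ∀ U, ev Ψ ℓ U = 0 → P ∣ U) :
    r * (P.map constantCoeff).rootMultiplicity t ≤
      (Z.filter (fun p => eval p ℓ = t)).card * ∏ i, w i := by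
  set Z' := Z.filter (fun p => eval p ℓ = t) with hZ'
  set μ := (P.map constantCoeff).rootMultiplicity t with hμ
  -- the constant of the local expansions
  obtain ⟨c, hc0, hcD⟩ : ∃ c, (∀ p ∈ Z, eval p ℓ = t → idealOfVars σ k ^ c ≤
      Ideal.span (Set.range fun i => homogeneousComponent (w i) (tr p (Ψ i)))) ∧
      ∀ i, w i ≤ c := by
    have h1 : ∀ p : Z', ∃ c0, idealOfVars σ k ^ c0 ≤
        Ideal.span (Set.range fun i => homogeneousComponent (w i) (tr p.1 (Ψ i))) :=
      fun p => exists_pow_le_span _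
        (hloc p.1 (Finset.mem_filter.1 p.2).1 (Finset.mem_filter.1 p.2).2)
    choose c0 hc0 using h1
    refine ⟨∑ p, c0 p + ∑ i, w i, fun p hp hpt => ?_, fun i => ?_⟩
    · have hp' : p ∈ Z' := Finset.mem_filter.2 ⟨hp, hpt⟩
      refine le_trans (Ideal.pow_le_pow_right ?_) (hc0 ⟨p, hp'⟩)
      have := Finset.single_le_sum (f := c0) (fun _ _ => Nat.zero_le _)
        (Finset.mem_univ ⟨p, hp'⟩)
      omega
    · have := Finset.single_le_sum (f := w) (fun _ _ => Nat.zero_le _) (Finset.mem_univ i)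
      omega
  obtain ⟨a0, ha0⟩ := order_mul w η hη0
  have hcount : ∀ T, r * μ * (wset w T).card ≤
      Z'.card * (wset (fun _ : σ => 1) (T + (a0 + c))).card := by
    intro T
    obtain ⟨e, het, he⟩ := mem_WI' Ψ w hw Z hZ ℓ t hlow c hc0 hcD (T + a0 + 1)
    let L1 : ((Fin r × Fin μ × ↥(wset w T)) → k) →ₗ[k] MvPolynomial σ k :=
      Fintype.linearCombination k fun z : Fin r × Fin μ × ↥(wset w T) =>
        gpow Ψ z.2.2 * (ℓ - C t) ^ (z.2.1 : ℕ) * s z.1
    let L : ((Fin r × Fin μ × ↥(wset w T)) → k) →ₗ[k]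
        ((↥Z' × ↥(wset (fun _ : σ => 1) (T + (a0 + c)))) → k) :=
      LinearMap.pi fun z => (lcoeff k (Finsupp.equivFunOnFinite.symm (z.2 : σ → ℕ))) ∘ₗ
        (tr (z.1 : σ → k)).toLinearMap ∘ₗ L1
    have hL : Function.Injective L := by
      rw [← LinearMap.ker_eq_bot, LinearMap.ker_eq_bot']
      intro v hv
      set f := L1 v with hf
      have hf1 : f = ∑ z, v z • (gpow Ψ z.2.2 * (ℓ - C t) ^ (z.2.1 : ℕ) * s z.1) := rfl
      let g : Fin r → Fin μ → MvPolynomial σ k := fun i m =>
        ∑ a : ↥(wset w T), monomial (Finsupp.equivFunOnFinite.symm (a : σ → ℕ)) (v (i, m, a))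
      have hcoeff : ∀ i m (b : σ →₀ ℕ), coeff b (g i m) =
          ∑ a : ↥(wset w T), if Finsupp.equivFunOnFinite.symm (a : σ → ℕ) = b then v (i, m, a)
            else 0 := by
        intro i m b
        simp only [g, coeff_sum, coeff_monomial]
      let u : Fin r → Polynomial (MvPolynomial σ k) := fun i =>
        ∑ m : Fin μ, Polynomial.C (g i m) *
          ((Polynomial.X - Polynomial.C t) ^ (m : ℕ)).map C
      have hevt : ∀ m : ℕ, ev Ψ ℓ (((Polynomial.X - Polynomial.C t) ^ m).map C) =
          (ℓ - C t) ^ m := by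
        intro m
        have := ev_map_prod Ψ ℓ {()} (fun _ => t) m
        simpa using this
      have hfu : f = ∑ i, ev Ψ ℓ (u i) * s i := by
        rw [hf1, Fintype.sum_prod_type]
        refine Finset.sum_congr rfl fun i _ => ?_
        rw [Fintype.sum_prod_type]
        simp only [u, map_sum, Finset.sum_mul]
        refine Finset.sum_congr rfl fun m _ => ?_
        rw [map_mul, ev_C, hevt]
        simp only [g, map_sum, Finset.sum_mul]
        refine Finset.sum_congr rfl fun a _ => ?_
        rw [aeval_monomial_pw, smul_mul_assoc, smul_mul_assoc]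
        rfl
      have hucoeff : ∀ i n b, coeff b ((u i).coeff n) =
          ∑ m : Fin μ, coeff b (g i m) * ((Polynomial.X - Polynomial.C t) ^ (m : ℕ)).coeff n := by
        intro i n b
        simp only [u, Polynomial.finsetSum_coeff, coeff_sum]
        refine Finset.sum_congr rfl fun m _ => ?_
        rw [Polynomial.coeff_C_mul, Polynomial.coeff_map, mul_comm, coeff_C_mul, mul_comm]
      have hudeg : ∀ i, (u i).degree < μ := by
        intro i
        refine (Polynomial.degree_sum_le _ _).trans_lt ?_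
        rw [Finset.sup_lt_iff (WithBot.bot_lt_coe _)]
        intro m _
        refine (degree_C_mul_le' _ _).trans_lt ?_
        refine Polynomial.degree_map_le.trans_lt ?_
        rw [Polynomial.degree_pow, Polynomial.degree_X_sub_C]
        simp only [nsmul_eq_mul, mul_one]
        exact_mod_cast m.2
      have hjet : ∀ p ∈ Z, eval p ℓ = t → tr p f ∈ idealOfVars σ k ^ (T + a0 + 1 + c) := by
        intro p hp hpt
        rw [mem_pow_idealOfVars_iff']
        intro x hx
        have hx' : (x : σ → ℕ) ∈ wset (fun _ : σ => 1) (T + (a0 + c)) := by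
          rw [mem_wset fun _ => one_pos]
          rw [Finsupp.degree_eq_sum] at hx
          simp only [mul_one]
          omega
        have h1 := congrFun hv (⟨p, Finset.mem_filter.2 ⟨hp, hpt⟩⟩, ⟨x, hx'⟩)
        simp only [L, LinearMap.pi_apply, LinearMap.comp_apply, AlgHom.toLinearMap_apply,
          lcoeff_apply, Pi.zero_apply, Finsupp.equivFunOnFinite_symm_coe] at h1
        exact h1
      have hmem := he f hjet
      obtain ⟨U, hU1, hU2⟩ := coords_WI Ψ ℓ w (T + a0 + 1) s η hη _ hmem
      have h2 : ∀ i, P ∣ e.map C * (Polynomial.C η * u i) - U i := by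
        have h3 : ∑ i, ev Ψ ℓ (e.map C * (Polynomial.C η * u i) - U i) * s i = 0 := by
          simp only [map_sub, map_mul, sub_mul, Finset.sum_sub_distrib, ev_C]
          rw [← hU2, hfu, Finset.mul_sum, Finset.mul_sum, sub_eq_zero]
          exact Finset.sum_congr rfl fun i _ => by ring
        exact fun i => hP _ (hind _ h3 i)
      have h4 : ∀ i n, Ge w (T + a0 + 1) (η * (u i).coeff n) := by
        intro i n
        have h5 := key_div hw hPm (Polynomial.pow_rootMultiplicity_dvd _ _) het
          ((degree_C_mul_le' η (u i)).trans_lt (hudeg i)) (hU1 i) (h2 i) n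
        rwa [Polynomial.coeff_C_mul] at h5
      have h6 : ∀ i n, (u i).coeff n = 0 := by
        intro i n
        refine ha0 (T + a0 + 1) ((u i).coeff n) (h4 i n) fun b hb => ?_
        rw [hucoeff] at hb
        obtain ⟨m, _, hm⟩ := Finset.exists_ne_zero_of_sum_ne_zero hb
        have hm' : coeff b (g i m) ≠ 0 := left_ne_zero_of_mul hm
        rw [hcoeff] at hm'
        obtain ⟨a, _, ha⟩ := Finset.exists_ne_zero_of_sum_ne_zero hm'
        split_ifs at ha with h5
        · have h6 := (mem_wset hw).1 a.2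
          have h7 : wt w b ≤ T := by
            rw [← h5, wt]
            refine le_trans (le_of_eq ?_) h6
            exact Finset.sum_congr rfl fun j _ => mul_comm _ _
          omega
        · exact absurd rfl ha
      funext z
      obtain ⟨i, m, a⟩ := z
      have h7 : ∑ m, Polynomial.C (v (i, m, a)) * (Polynomial.X - Polynomial.C t) ^ (m : ℕ)
          = 0 := by
        ext n
        have h8 := hucoeff i n (Finsupp.equivFunOnFinite.symm (a : σ → ℕ))
        rw [h6, coeff_zero] at h8
        rw [Polynomial.finsetSum_coeff, Polynomial.coeff_zero, h8]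
        refine Finset.sum_congr rfl fun m _ => ?_
        rw [Polynomial.coeff_C_mul, hcoeff, Finset.sum_eq_single a]
        · rw [if_pos rfl]
        · intro b _ hb
          rw [if_neg]
          intro h9
          exact hb (Subtype.ext (Finsupp.equivFunOnFinite.symm.injective h9))
        · intro h9
          exact absurd (Finset.mem_univ _) h9
      exact pow_sub_indep t _ h7 m
    have h1 := LinearMap.finrank_le_finrank_of_injective hL
    rw [Module.finrank_fintype_fun_eq_card, Module.finrank_fintype_fun_eq_card] at h1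
    simp only [Fintype.card_prod, Fintype.card_fin, Fintype.card_coe] at h1
    rwa [← mul_assoc] at h1
  rw [mul_comm (Z'.card)]
  refine growth (P := fun t => (wset (fun _ : σ => 1) t).card) (card_wset_zero fun _ => one_pos)
    (card_wset_le _) (c := a0 + c) fun T => ?_
  calc r * μ * (wset (fun _ : σ => 1) T).card
      ≤ r * μ * ((∏ j, w j) * (wset w T).card) := Nat.mul_le_mul_left _ (wset_one_le hw T)
    _ = (∏ j, w j) * (r * μ * (wset w T).card) := by ring
    _ ≤ (∏ j, w j) * (Z'.card * (wset (fun _ : σ => 1) (T + (a0 + c))).card) :=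
        Nat.mul_le_mul_left _ (hcount T)
    _ = _ := by ring

end Pool.Agent.Work.W.Bz
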