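import Mathlib
import Pool.Agent.Work.MP_4329d7_ag_uni.Upper

/-!
Bezout bound for nondegenerate zeros (helper27): finitely many zeros with invertible Jacobian of
`n` polynomials in `n` variables: at most the product of the degrees.
-/

namespace Pool.Agent.Work.W

open Finset MvPolynomial

variable {σ : Type*} [Fintype σ] [DecidableEq σ] {k : Type*} [Field k]

/-- substitution of `z + s y` -/
noncomputable def shift (z : σ → k) : MvPolynomial σ k →ₐ[k] Polynomial (MvPolynomial σ k) :=
  aeval fun i => Polynomial.C (C (z i)) + Polynomial.X * Polynomial.C (X i)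

omit [Fintype σ] [DecidableEq σ] in
lemma shift_coeff_zero (z : σ → k) (p : MvPolynomial σ k) :
    (shift z p).coeff 0 = C (eval z p) := by
  have h : ((Polynomial.constantCoeff : Polynomial (MvPolynomial σ k) →+* _).comp
      (shift z).toRingHom) = (C : k →+* MvPolynomial σ k).comp (eval z) := by
    apply MvPolynomial.ringHom_ext
    · intro r
      show (shift z (C r)).coeff 0 = _
      rw [← MvPolynomial.algebraMap_eq, AlgHom.commutes]
      simp [Polynomial.algebraMap_apply]
    · intro i
      show (shift z (X i)).coeff 0 = _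
      simp [shift]
  exact RingHom.congr_fun h p

lemma shift_coeff_one (z : σ → k) (p : MvPolynomial σ k) :
    (shift z p).coeff 1 = ∑ j, C (eval z (pderiv j p)) * X j := by
  induction p using MvPolynomial.induction_on with
  | C r =>
    rw [← MvPolynomial.algebraMap_eq, AlgHom.commutes]
    simp [Polynomial.algebraMap_apply, MvPolynomial.algebraMap_eq, Polynomial.coeff_C]
  | add p q hp hq =>
    rw [map_add, Polynomial.coeff_add, hp, hq, ← Finset.sum_add_distrib]
    refine Finset.sum_congr rfl fun j _ => ?_
    rw [map_add, map_add, map_add]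
    ring
  | mul_X p i hp =>
    rw [map_mul, Polynomial.coeff_mul]
    have h1 : Finset.HasAntidiagonal.antidiagonal 1 = ({(0, 1), (1, 0)} : Finset (ℕ × ℕ)) := by
      decide
    rw [h1, Finset.sum_pair (by simp)]
    have h2 : (shift z (X i)).coeff 1 = X i := by simp [shift]
    have h3 : (shift z (X i)).coeff 0 = C (z i) := by rw [shift_coeff_zero, eval_X]
    simp only
    rw [hp, h2, h3, shift_coeff_zero]
    have h4 : ∀ j, C (eval z (pderiv j (p * X i))) * X j =
        C (eval z (pderiv j p)) * X j * C (z i) +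
          C (eval z p) * (if j = i then X j else 0 : MvPolynomial σ k) := by
      intro j
      rw [Derivation.leibniz, pderiv_X]
      by_cases hji : j = i
      · subst hji
        simp
        ring
      · simp [hji]
        ring
    rw [Finset.sum_congr rfl fun j _ => h4 j, Finset.sum_add_distrib, ← Finset.sum_mul,
      ← Finset.mul_sum, Finset.sum_ite_eq' univ i]
    simp
    ring

omit [Fintype σ] [DecidableEq σ] in
lemma aeval_X_mul {τ A : Type*} [CommRing A] [Algebra k A] (g : τ → Polynomial A)
    {P : MvPolynomial τ k} {d : ℕ} (hP : P.IsHomogeneous d) :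
    aeval (fun i => Polynomial.X * g i) P = Polynomial.X ^ d * aeval g P := by
  classical
  rw [P.as_sum, map_sum, map_sum, Finset.mul_sum]
  refine Finset.sum_congr rfl fun a ha => ?_
  rw [aeval_monomial, aeval_monomial]
  have hd : a.degree = d := by
    have := hP (mem_support_iff.mp ha)
    rwa [show (1 : τ → ℕ) = fun _ => 1 from rfl, ← Finsupp.degree_eq_weight_one] at this
  have h : (a.prod fun i e => (Polynomial.X * g i) ^ e) =
      Polynomial.X ^ d * a.prod fun i e => g i ^ e := by
    rw [← hd, Finsupp.degree_apply]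
    simp only [Finsupp.prod, mul_pow, Finset.prod_mul_distrib]
    rw [Finset.prod_pow_eq_pow_sum]
  rw [h]
  ring

omit [Fintype σ] [DecidableEq σ] in
lemma coeff_aeval_zero {τ A : Type*} [CommRing A] [Algebra k A] (g : τ → Polynomial A)
    (P : MvPolynomial τ k) : (aeval g P).coeff 0 = aeval (fun i => (g i).coeff 0) P := by
  have h : ((Polynomial.constantCoeff : Polynomial A →+* A).comp
      (aeval g : MvPolynomial τ k →ₐ[k] Polynomial A).toRingHom) =
      (aeval (fun i => (g i).coeff 0) : MvPolynomial τ k →ₐ[k] A).toRingHom := by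
    apply MvPolynomial.ringHom_ext
    · intro r
      show (aeval g (C r)).coeff 0 = aeval _ (C r)
      rw [aeval_C, aeval_C]
      simp [Polynomial.algebraMap_apply]
    · intro i
      show (aeval g (X i)).coeff 0 = aeval _ (X i)
      simp
  exact RingHom.congr_fun h P

omit [Fintype σ] [DecidableEq σ] in
/-- the lowest order term of `P (Φ (z + s y))` -/
lemma coeff_aeval_low {τ A : Type*} [CommRing A] [Algebra k A] (g : τ → Polynomial A)
    (P : MvPolynomial τ k) (m : ℕ) (hP : ∀ d < m, homogeneousComponent d P = 0) :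
    ∃ R : Polynomial A, aeval (fun i => Polynomial.X * g i) P = Polynomial.X ^ m * R ∧
      R.coeff 0 = aeval (fun i => (g i).coeff 0) (homogeneousComponent m P) := by
  classical
  refine ⟨∑ d ∈ range (P.totalDegree + 1), if d < m then 0 else
    Polynomial.X ^ (d - m) * aeval g (homogeneousComponent d P), ?_, ?_⟩
  · conv_lhs => rw [← sum_homogeneousComponent P, map_sum]
    rw [Finset.mul_sum]
    refine Finset.sum_congr rfl fun d _ => ?_
    by_cases hd : d < m
    · rw [if_pos hd, hP d hd, map_zero, mul_zero]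
    · rw [if_neg hd, aeval_X_mul g (homogeneousComponent_isHomogeneous d P), ← mul_assoc,
        ← pow_add, Nat.add_sub_cancel' (not_lt.mp hd)]
  · rw [Polynomial.finsetSum_coeff]
    have h1 : ∀ d ∈ range (P.totalDegree + 1), (if d < m then 0 else
        Polynomial.X ^ (d - m) * aeval g (homogeneousComponent d P)).coeff 0 =
        if d = m then aeval (fun i => (g i).coeff 0) (homogeneousComponent m P) else 0 := by
      intro d _
      by_cases hd : d < m
      · rw [if_pos hd, if_neg (by omega)]
        simp
      · rw [if_neg hd]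
        by_cases hdm : d = m
        · subst hdm
          rw [if_pos rfl, Nat.sub_self, pow_zero, one_mul, coeff_aeval_zero]
        · rw [if_neg hdm, Polynomial.mul_coeff_zero]
          simp [Polynomial.coeff_X_pow, show d - m ≠ 0 by omega, show ¬ (0 = d - m) by omega]
    rw [Finset.sum_congr rfl h1, Finset.sum_ite_eq']
    split_ifs with h
    · rfl
    · rw [mem_range, not_lt] at h
      rw [homogeneousComponent_eq_zero m P (by omega), map_zero]

omit [Fintype σ] in
/-- Lagrange polynomials -/
lemma exists_lagrange (Z : Finset (σ → k)) (z : σ → k) :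
    ∃ e : MvPolynomial σ k, eval z e = 1 ∧ ∀ z' ∈ Z, z' ≠ z → eval z' e = 0 := by
  classical
  have h : ∀ z' : σ → k, ∃ e : MvPolynomial σ k, eval z e = 1 ∧ (z' ≠ z → eval z' e = 0) := by
    intro z'
    by_cases hz : z' = z
    · exact ⟨1, by simp, fun h => absurd hz h⟩
    · obtain ⟨i, hi⟩ := Function.ne_iff.mp hz
      refine ⟨C ((z i - z' i)⁻¹) * (X i - C (z' i)), ?_, fun _ => ?_⟩
      · simp
        exact inv_mul_cancel₀ (sub_ne_zero.mpr (Ne.symm hi))
      · simp
  choose e he1 he2 using h
  refine ⟨∏ z' ∈ Z, e z', ?_, fun z' hz' hne => ?_⟩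
  · rw [map_prod]
    exact Finset.prod_eq_one fun z' _ => he1 z'
  · rw [map_prod]
    exact Finset.prod_eq_zero hz' (he2 z' hne)

omit [Fintype σ] [DecidableEq σ] in
/-- the lowest order term at a zero -/
lemma low_term (Φ : σ → MvPolynomial σ k) (z : σ → k) (hz : ∀ i, eval z (Φ i) = 0)
    (P : MvPolynomial σ k) (m : ℕ) (hP : ∀ d < m, homogeneousComponent d P = 0) :
    ∃ R : Polynomial (MvPolynomial σ k), shift z (aeval Φ P) = Polynomial.X ^ m * R ∧
      R.coeff 0 = aeval (fun i => (shift z (Φ i)).coeff 1) (homogeneousComponent m P) := by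
  have hg : ∀ i, ∃ g : Polynomial (MvPolynomial σ k), shift z (Φ i) = Polynomial.X * g ∧
      g.coeff 0 = (shift z (Φ i)).coeff 1 := by
    intro i
    have h0 : (shift z (Φ i)).coeff 0 = 0 := by
      rw [shift_coeff_zero, hz i, map_zero]
    obtain ⟨g, hg⟩ := Polynomial.X_dvd_iff.mpr h0
    refine ⟨g, hg, ?_⟩
    rw [hg, Polynomial.coeff_X_mul]
  choose g hg1 hg2 using hg
  obtain ⟨R, hR1, hR2⟩ := coeff_aeval_low g P m hP
  refine ⟨R, ?_, ?_⟩
  · rw [← hR1]
    have h1 : (shift z).comp (aeval Φ : MvPolynomial σ k →ₐ[k] MvPolynomial σ k) =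
        aeval (fun i => Polynomial.X * g i) := by
      apply MvPolynomial.algHom_ext
      intro i
      rw [AlgHom.comp_apply, aeval_X, aeval_X, hg1]
    rw [← h1, AlgHom.comp_apply]
  · rw [hR2]
    have h2 : (fun i => (g i).coeff 0) = fun i => (shift z (Φ i)).coeff 1 := funext hg2
    rw [h2]

/-- substitution of an invertible linear change of coordinates is injective -/
lemma aeval_linear_injective (M : Matrix σ σ k) (hM : IsUnit M.det) (P : MvPolynomial σ k)
    (h : aeval (fun i => ∑ j, C (M i j) * X j : σ → MvPolynomial σ k) P = 0) : P = 0 := by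
  have h8 : (aeval (fun j => ∑ i, C (M⁻¹ j i) * X i : σ → MvPolynomial σ k)).comp
      (aeval (fun i => ∑ j, C (M i j) * X j : σ → MvPolynomial σ k)) =
      AlgHom.id k (MvPolynomial σ k) := by
    apply MvPolynomial.algHom_ext
    intro i
    rw [AlgHom.comp_apply, aeval_X, AlgHom.id_apply, map_sum]
    have h9 : ∀ j, aeval (fun j => ∑ i, C (M⁻¹ j i) * X i : σ → MvPolynomial σ k)
        (C (M i j) * X j) = ∑ l, C (M i j * M⁻¹ j l) * X l := by
      intro j
      rw [map_mul, aeval_X, Finset.mul_sum]
      refine Finset.sum_congr rfl fun l _ => ?_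
      rw [algHom_C, map_mul, ← mul_assoc]
      rfl
    rw [Finset.sum_congr rfl fun j _ => h9 j, Finset.sum_comm]
    have h10 : ∀ l, ∑ j, C (M i j * M⁻¹ j l) * X l =
        (if i = l then X l else 0 : MvPolynomial σ k) := by
      intro l
      rw [← Finset.sum_mul, ← map_sum]
      have h11 : ∑ j, M i j * M⁻¹ j l = (1 : Matrix σ σ k) i l := by
        rw [← Matrix.mul_nonsing_inv M hM, Matrix.mul_apply]
      rw [h11, Matrix.one_apply]
      split_ifs <;> simp
    rw [Finset.sum_congr rfl fun l _ => h10 l, Finset.sum_ite_eq]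
    simp
  have h12 := AlgHom.congr_fun h8 P
  rw [AlgHom.comp_apply, h, map_zero, AlgHom.id_apply] at h12
  exact h12.symm

/-- Bezout bound for nondegenerate zeros -/
theorem card_le_of_nondeg (Φ : σ → MvPolynomial σ k) {D : σ → ℕ} (hD : ∀ i, 0 < D i)
    (hdeg : ∀ i, (Φ i).totalDegree ≤ D i) (Z : Finset (σ → k))
    (hz : ∀ z ∈ Z, ∀ i, eval z (Φ i) = 0)
    (hJ : ∀ z ∈ Z, ∀ y : σ → k, (∀ i, ∑ j, eval z (pderiv j (Φ i)) * y j = 0) → y = 0) :
    Z.card ≤ ∏ i, D i := by
  classical
  choose e he1 he2 using fun z : Z => exists_lagrange Z (z : σ → k)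
  rw [← Fintype.card_coe]
  refine Pool.Agent.Work.Uni4329.card_le_prod_of_linIndep Φ hD hdeg e fun a ha => ?_
  by_contra hne
  -- the minimal order
  have hex : ∃ m, ∃ z : Z, homogeneousComponent m (a z) ≠ 0 := by
    obtain ⟨z, hz0⟩ := Function.ne_iff.mp hne
    by_contra hcon
    push Not at hcon
    apply hz0
    rw [← sum_homogeneousComponent (a z)]
    exact Finset.sum_eq_zero fun m _ => hcon m z
  obtain ⟨z0, hz0⟩ := Nat.find_spec hex
  have hlow : ∀ d < Nat.find hex, ∀ z : Z, homogeneousComponent d (a z) = 0 := by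
    intro d hd z
    by_contra hcon
    exact Nat.find_min hex hd ⟨z, hcon⟩
  generalize Nat.find hex = m at hz0 hlow
  have key : aeval (fun i => (shift (z0 : σ → k) (Φ i)).coeff 1)
      (homogeneousComponent m (a z0)) = 0 := by
    have h1 := congrArg (shift (z0 : σ → k)) ha
    rw [map_zero, map_sum] at h1
    choose R hR1 hR2 using fun z : Z =>
      low_term Φ (z0 : σ → k) (hz z0 z0.2) (a z) m fun d hd => hlow d hd z
    have h3 : Polynomial.X ^ m * ∑ z : Z, R z * shift (z0 : σ → k) (e z) = 0 := by
      rw [Finset.mul_sum, ← h1]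
      refine Finset.sum_congr rfl fun z _ => ?_
      rw [map_mul, hR1, mul_assoc]
    have h4 : ∑ z : Z, R z * shift (z0 : σ → k) (e z) = 0 := by
      rcases mul_eq_zero.mp h3 with h | h
      · exact absurd h (pow_ne_zero _ Polynomial.X_ne_zero)
      · exact h
    have h5 := congrArg (fun p : Polynomial (MvPolynomial σ k) => p.coeff 0) h4
    simp only [Polynomial.finsetSum_coeff, Polynomial.mul_coeff_zero, Polynomial.coeff_zero] at h5
    rw [Finset.sum_eq_single z0] at h5
    · rw [shift_coeff_zero, he1, hR2, map_one, mul_one] at h5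
      exact h5
    · intro z _ hzz
      rw [shift_coeff_zero, he2 z z0 z0.2 (fun h => hzz (Subtype.ext h.symm)), map_zero, mul_zero]
    · intro h
      exact absurd (Finset.mem_univ _) h
  apply hz0
  have hL : (fun i => (shift (z0 : σ → k) (Φ i)).coeff 1) =
      fun i => ∑ j, C (eval (z0 : σ → k) (pderiv j (Φ i))) * X j :=
    funext fun i => shift_coeff_one _ _
  rw [hL] at key
  have hMdet : IsUnit (Matrix.of fun i j => eval (z0 : σ → k) (pderiv j (Φ i))).det := by
    rw [← Matrix.isUnit_iff_isUnit_det, ← Matrix.mulVec_injective_iff_isUnit]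
    intro y y' hyy
    have h6 : (Matrix.of fun i j => eval (z0 : σ → k) (pderiv j (Φ i))).mulVec (y - y') = 0 := by
      rw [Matrix.mulVec_sub, hyy, sub_self]
    have h7 := hJ z0 z0.2 (y - y') fun i => by
      have := congrFun h6 i
      simpa [Matrix.mulVec, dotProduct] using this
    exact sub_eq_zero.mp h7
  exact aeval_linear_injective _ hMdet _ key

end Pool.Agent.Work.W
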